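import Mathlib

namespace Pool.Agent.Lib.MP_e0e7d6_al

/-! The decision problem. -/

/-- A nonempty word in the letters `0, 1, 2, ...`: first letter and list of the other letters. -/
abbrev Word : Type := ℕ × List ℕ

/-- Value of a word in a semigroup under the substitution `φ`. -/
def Word.value {S : Type} [Semigroup S] (φ : ℕ → S) (u : Word) : S :=
  u.2.foldl (fun s i => s * φ i) (φ u.1)

/-- The semigroup `S` satisfies all identities of the list `E`. -/
def Satisfies (S : Type) [Semigroup S] (E : List (Word × Word)) : Prop :=
  ∀ e ∈ E, ∀ φ : ℕ → S, Word.value φ e.1 = Word.value φ e.2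

/-- The variety defined by `E` contains an infinite finitely generated periodic semigroup. -/
def HasInfinitePeriodic (E : List (Word × Word)) : Prop :=
  ∃ (S : Type) (_ : Semigroup S), Satisfies S E ∧ Infinite S ∧
    (∃ T : Finset S, Subsemigroup.closure (T : Set S) = ⊤) ∧
    ∀ s : S, ((Subsemigroup.closure {s} : Subsemigroup S) : Set S).Finite

end Pool.Agent.Lib.MP_e0e7d6_al
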