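import Pool.Agent.Lib.MP_e0e7d6_al.ReduceGroup
import Pool.Agent.Lib.MP_e0e7d6_al.Stmt

/-!
The reduction: from the monsters to undecidability.
-/

namespace Pool.Agent.Lib.MP_e0e7d6_al

theorem exists_pos {N : ℕ} (hN0 : 0 < N) (g : FreeGroup ℕ) : ∃ l : List ℕ,
    ∀ (H : Type) [Group H], (∀ h : H, h ^ N = 1) → ∀ φ : ℕ → H,
      (l.map φ).prod = FreeGroup.lift φ g := by
  induction g using FreeGroup.induction_on with
  | C1 => exact ⟨[], fun H _ _ φ => by simp⟩
  | of i => exact ⟨[i], fun H _ _ φ => by simp⟩
  | inv_of i _ =>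
    refine ⟨List.replicate (N - 1) i, fun H _ h φ => ?_⟩
    rw [List.map_replicate, List.prod_replicate, map_inv, FreeGroup.lift_apply_of,
      eq_inv_iff_mul_eq_one, ← pow_succ, Nat.sub_add_cancel hN0, h]
  | mul a b ha hb =>
    obtain ⟨l, hl⟩ := ha
    obtain ⟨m, hm⟩ := hb
    exact ⟨l ++ m, fun H _ h φ => by rw [List.map_append, List.prod_append, hl H h, hm H h, map_mul]⟩

/-- substitution of `u` for the letter `2` -/
def subst (T u : List ℕ) : List ℕ := T.flatMap fun i => if i = 2 then u else [i]

theorem prod_subst {H : Type} [Group H] (φ : ℕ → H) (T u : List ℕ) :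
    ((subst T u).map φ).prod = (T.map (Function.update φ 2 (u.map φ).prod)).prod := by
  induction T with
  | nil => rfl
  | cons i T ih =>
    unfold subst at ih ⊢
    rw [List.flatMap_cons, List.map_append, List.prod_append, ih, List.map_cons, List.prod_cons]
    congr 1
    by_cases h : i = 2
    · subst h; simp
    · simp [h]

theorem primrec_subst (T : List ℕ) : Primrec (subst T) :=
  Primrec.list_flatMap (Primrec.const T) (Primrec.ite (Primrec.eq.comp Primrec.snd
    (Primrec.const 2)) Primrec.fst (Primrec.list_cons.comp Primrec.snd (Primrec.const []))).to₂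

/-- the identity `x₀ l = x₀` -/
def law (l : List ℕ) : Word × Word := ((0, l), (0, []))

theorem value_eq {H : Type} [Monoid H] (φ : ℕ → H) (i : ℕ) (l : List ℕ) :
    Word.value φ (i, l) = φ i * (l.map φ).prod := by
  unfold Word.value
  simp only
  generalize φ i = s
  induction l generalizing s with
  | nil => simp
  | cons j l ih => rw [List.foldl_cons, ih, List.map_cons, List.prod_cons, mul_assoc]

theorem law_iff {H : Type} [Group H] (φ : ℕ → H) (l : List ℕ) :
    Word.value φ (law l).1 = Word.value φ (law l).2 ↔ (l.map φ).prod = 1 := by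
  simp [law, value_eq]

/-- the identities `x^N y = y = y x^N` -/
def expo (N : ℕ) : List (Word × Word) :=
  [((0, List.replicate (N - 1) 0 ++ [1]), (1, [])), ((1, List.replicate N 0), (1, []))]

theorem exists_group {S : Type} [inst : Semigroup S] [Nonempty S] {N : ℕ} (hN : 0 < N)
    (h : Satisfies S (expo N)) :
    ∃ G : Group S, G.toSemigroup = inst ∧ ∀ g : S, (letI := G; g ^ N = 1) := by
  let pw : S → ℕ → S := fun s n => (fun t => t * s)^[n] s
  have fold : ∀ (φ : ℕ → S) (n : ℕ) (t : S),
      (List.replicate n 0).foldl (fun s i => s * φ i) t = (fun t => t * φ 0)^[n] t := by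
    intro φ n
    induction n with
    | zero => intro t; rfl
    | succ n ih => intro t; rw [List.replicate_succ, List.foldl_cons, ih]; rfl
  have iter : ∀ (s : S) (n : ℕ) (t : S), (fun t => t * s)^[n + 1] t = t * pw s n := by
    intro s n
    induction n with
    | zero => intro t; rfl
    | succ n ih =>
      intro t
      rw [Function.iterate_succ_apply', ih, mul_assoc]
      simp only [pw, Function.iterate_succ_apply']
  have hl : ∀ s t : S, pw s (N - 1) * t = t := by
    intro s t
    have := h _ List.mem_cons_self (fun i => if i = 0 then s else t)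
    simp only [Word.value, List.foldl_append, fold] at this
    simpa using this
  have hr : ∀ s t : S, t * pw s (N - 1) = t := by
    intro s t
    have := h _ (List.mem_cons_of_mem _ List.mem_cons_self) (fun i => if i = 0 then s else t)
    simp only [Word.value, fold, List.foldl_nil] at this
    rw [← iter, Nat.sub_add_cancel hN]
    simpa using this
  obtain ⟨s₀⟩ := ‹Nonempty S›
  let _ : One S := ⟨pw s₀ (N - 1)⟩
  let _ : Inv S := ⟨fun s => pw s (N - 1 + (N - 1))⟩
  have hinv : ∀ s : S, pw s (N - 1 + (N - 1)) * s = pw s₀ (N - 1) := by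
    intro s
    have e1 : pw s (N - 1 + (N - 1)) * s = (fun t => t * s)^[N - 1 + 1] (pw s (N - 1)) := by
      simp only [pw]
      rw [← Function.iterate_add_apply, ← Function.iterate_succ_apply' (fun t => t * s)]
      congr 1
      omega
    rw [e1, iter, hr, ← hr s₀ (pw s (N - 1)), hl]
  let G : Group S := Group.ofLeftAxioms mul_assoc (hl s₀) hinv
  refine ⟨G, rfl, fun g => ?_⟩
  let _ := G
  have e2 : ∀ n, g ^ (n + 1) = pw g n := by
    intro n
    induction n with
    | zero => exact pow_one g
    | succ n ih => rw [pow_succ, ih]; simp only [pw, Function.iterate_succ_apply']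
  change g ^ N = 1
  rw [← Nat.sub_add_cancel hN, e2]
  exact mul_left_cancel (a := g) ((hr g g).trans (mul_one g).symm)

theorem satisfies_expo {H : Type} [Group H] {N : ℕ} (hN0 : 0 < N) (hN : ∀ g : H, g ^ N = 1) :
    Satisfies H (expo N) := by
  intro e he φ
  simp only [expo, List.mem_cons, List.not_mem_nil, or_false] at he
  rcases he with rfl | rfl
  · simp only [value_eq, List.map_append, List.map_replicate, List.prod_append,
      List.prod_replicate, List.map_cons, List.map_nil, List.prod_cons, List.prod_nil, mul_one]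
    rw [← mul_assoc, ← pow_succ', Nat.sub_add_cancel hN0, hN, one_mul]
  · simp [value_eq, hN]

theorem finite_of_comm {H : Type} [G : Group H] {N : ℕ} (hN0 : 0 < N) (hN : ∀ g : H, g ^ N = 1)
    (hc : ∀ x y : H, Commute x y) (T : Finset H) (hT : Subsemigroup.closure (T : Set H) = ⊤) :
    Finite H := by
  let _ : CommGroup H := { G with mul_comm := fun x y => (hc x y).eq }
  have : Group.FG H := ⟨⟨T, by
    rw [eq_top_iff]
    intro x _
    have hx : x ∈ Subsemigroup.closure (T : Set H) := hT ▸ Subsemigroup.mem_top x
    induction hx using Subsemigroup.closure_induction with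
    | mem x hx => exact Subgroup.subset_closure hx
    | mul x y _ _ hx hy => exact Subgroup.mul_mem _ (hx trivial) (hy trivial)⟩⟩
  exact CommGroup.finite_of_fg_isMulTorsion H (fin_order hN0 hN)

theorem has_of_group {H : Type} [Group H] {N : ℕ} (hN0 : 0 < N) (hN : ∀ g : H, g ^ N = 1)
    (hfg : Group.FG H) (hinf : Infinite H) {E : List (Word × Word)} (hE : Satisfies H E) :
    HasInfinitePeriodic E := by
  classical
  obtain ⟨T, hT⟩ := hfg.out
  refine ⟨H, inferInstance, hE, hinf, ⟨insert 1 T, ?_⟩, fun s => ?_⟩
  · rw [eq_top_iff]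
    rintro x -
    have h1 : (1 : H) ∈ Subsemigroup.closure ((insert 1 T : Finset H) : Set H) :=
      Subsemigroup.subset_closure (by simp)
    have hx : x ∈ Subgroup.closure (T : Set H) := hT ▸ Subgroup.mem_top x
    induction hx using Subgroup.closure_induction with
    | mem x hx => exact Subsemigroup.subset_closure (by simp [Finset.mem_coe.mp hx])
    | one => exact h1
    | mul x y _ _ hx hy => exact Subsemigroup.mul_mem _ hx hy
    | inv x _ hx =>
      have e : x⁻¹ = x ^ (N - 1) := by
        rw [inv_eq_iff_mul_eq_one, ← pow_succ', Nat.sub_add_cancel hN0, hN]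
      rw [e]
      induction N - 1 with
      | zero => rwa [pow_zero]
      | succ n ih => rw [pow_succ]; exact Subsemigroup.mul_mem _ ih hx
  · refine (fin_order hN0 hN s).finite_powers.subset fun x hx => ?_
    induction hx using Subsemigroup.closure_induction with
    | mem x hx => rw [hx]; exact Submonoid.mem_powers s
    | mul x y _ _ hx hy => exact Submonoid.mul_mem _ hx hy

theorem num_injective : Function.Injective num := by
  intro m
  induction m with
  | zero => exact fun n h => (num_eq_leaf h).symm
  | succ m ih =>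
    intro n h
    obtain ⟨y, rfl, e⟩ := num_eq_node h
    rw [ih e]

theorem satisfies_append {S : Type} [Semigroup S] {E E' : List (Word × Word)} :
    Satisfies S (E ++ E') ↔ Satisfies S E ∧ Satisfies S E' := List.forall_mem_append

theorem reduction (h : Monsters) (P : List (Pat × List Pat))
    (hrr : ∀ c ∈ P, ∀ j, c.1.occ j → ∃ B ∈ c.2, B.occ j) (hleaf : ¬ Der P .leaf) (g : Pat) :
    ∃ E : ℕ → List (Word × Word), Primrec E ∧
      ∀ n, HasInfinitePeriodic (E n) ↔ ¬ ∃ σ : ℕ → Tm, σ 0 = num n ∧ Der P (g.inst σ) := by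
  obtain ⟨w, p, q, hp, hq, hpq, h3, hvan, hM⟩ := h
  have h0 : 0 < p * q := Nat.mul_pos hp hq
  choose pos hpos using exists_pos h0
  let X : FreeGroup ℕ := FreeGroup.of 0
  let Y : FreeGroup ℕ := FreeGroup.of 1
  let Z : ℕ → FreeGroup ℕ := fun i => FreeGroup.of (i + 2)
  let u : ℕ → List ℕ := fun n => Nat.rec [] (fun _ v => subst (pos (WW w X Y 1 (Z 0))) v) n
  let E₀ : List (Word × Word) := P.map fun c => law (pos (lawC w p X Y Z c))
  let E₁ : ℕ → List (Word × Word) := fun n =>
    [law (subst (pos (lawG w p X Y Z g true p)) (u n)),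
      law (subst (pos (lawG w p X Y Z g false q)) (u n))]
  have hu : ∀ (H : Type) [Group H], (∀ h : H, h ^ (p * q) = 1) → ∀ (φ : ℕ → H) (n : ℕ),
      ((u n).map φ).prod = vl w (φ 0) (φ 1) (num n) := by
    intro H _ hN φ n
    induction n with
    | zero => rfl
    | succ n ih =>
      change ((subst _ (u n)).map φ).prod = _
      rw [prod_subst, hpos _ H hN, map_WW, ih, map_one]
      simp only [X, Y, Z, FreeGroup.lift_apply_of]
      rfl
  have hlaws : ∀ (H : Type) [Group H], (∀ h : H, h ^ (p * q) = 1) → ∀ n,
      (Satisfies H (E₀ ++ E₁ n) ↔ Laws H w p q P g (num n)) := by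
    intro H _ hN n
    rw [satisfies_append]
    refine and_congr ?_ ?_
    · simp only [Satisfies, E₀, List.forall_mem_map, law_iff, hpos _ H hN, map_lawC, X, Y, Z,
        FreeGroup.lift_apply_of]
      exact ⟨fun h x y z c hc => h c hc (fun i => match i with | 0 => x | 1 => y | i + 2 => z i),
        fun h c hc φ => h _ _ _ c hc⟩
    · simp only [Satisfies, E₁, List.forall_mem_cons, law_iff, prod_subst, hpos _ H hN, map_lawG,
        X, Y, Z, FreeGroup.lift_apply_of, hu H hN, List.not_mem_nil, IsEmpty.forall_iff,
        implies_true, and_true, ← forall_and]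
      refine ⟨fun h x y z hz => ?_, fun h φ => h _ _ _ rfl⟩
      have := h (fun i => match i with | 0 => x | 1 => y | i + 2 => z i)
      rw [← hz, Function.update_eq_self_iff.mpr rfl] at this
      exact this
  refine ⟨fun n => expo (p * q) ++ (E₀ ++ E₁ n), ?_, fun n => ⟨?_, fun hn => ?_⟩⟩
  · have hu' : Primrec u :=
      Primrec.nat_rec₁ [] ((primrec_subst _).comp Primrec.snd).to₂
    have hlaw : Primrec law :=
      ((Primrec.const 0).pair Primrec.id).pair (Primrec.const (0, []))
    exact Primrec.list_append.comp (Primrec.const _) (Primrec.list_append.comp (Primrec.const _)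
      (Primrec.list_cons.comp (hlaw.comp ((primrec_subst _).comp hu'))
        (Primrec.list_cons.comp (hlaw.comp ((primrec_subst _).comp hu')) (Primrec.const []))))
  · rintro ⟨S, inst, hS, hinf, ⟨T, hT⟩, -⟩ ⟨σ, hσ, hd⟩
    rw [satisfies_append] at hS
    obtain ⟨G, rfl, hN⟩ := exists_group h0 hS.1
    have := finite_of_comm h0 hN (comm_of_der hpq h3 (hvan S) hN ((hlaws S hN n).mp hS.2) hσ hd)
      T hT
    exact not_finite S
  · obtain ⟨G, inst, hfg, C, hN, ⟨x, y, hxy⟩, R⟩ := hM {t | Der P t}
    exact has_of_group h0 hN hfg (Infinite.of_injective _ ((vl_inj C R hxy).comp num_injective))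
      (satisfies_append.mpr ⟨satisfies_expo h0 hN, (hlaws G hN n).mpr
        (laws_of_not_der C R hpq h0 (hvan G) hN hrr hleaf hn)⟩)

theorem undecidable_of_monsters (h : Monsters) : ¬ ComputablePred HasInfinitePeriodic := by
  intro hc
  obtain ⟨g, hg⟩ := exists_goal
  obtain ⟨E, hE, hiff⟩ := reduction h prog prog_range prog_leaf g
  obtain ⟨f, hf1, hf2⟩ := ComputablePred.computable_iff.mp hc
  refine hg (ComputablePred.computable_iff.mpr ⟨fun n => !f (E n),
    Primrec.not.to_comp.comp (hf1.comp hE.to_comp), funext fun n => propext ?_⟩)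
  have := hiff n
  rw [hf2] at this
  rw [← not_iff_not, ← this]
  simp

end Pool.Agent.Lib.MP_e0e7d6_al
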