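import Pool.Agent.Lib.MP_e0e7d6_al.Geo

/-!
Very rotating families, described through angles at the apices (windmill argument).
-/

set_option linter.unusedSectionVars false

namespace Pool.Agent.Lib.MP_e0e7d6_al

/-- A rotating family with angles. -/
structure RotFam (G : Type) [Group G] {W I : Type} [MulAction G W] [MulAction G I] (Z : GS W)
    (δ Θ : ℕ) (c : I → W) (Nf : I → Subgroup G) (ang : I → W → W → ℕ) : Prop where
  inv : Z.Inv G
  hyp : Z.Hyp δ
  c_smul : ∀ (g : G) i, c (g • i) = g • c i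
  sep : ∀ i j, i ≠ j → δ < Z.d (c i) (c j)
  conj : ∀ (g : G) i h, h ∈ Nf i → g * h * g⁻¹ ∈ Nf (g • i)
  fix : ∀ i h, h ∈ Nf i → h • i = i
  symm : ∀ i u v, ang i u v = ang i v u
  tri : ∀ i u v w, u ≠ c i → v ≠ c i → w ≠ c i → ang i u w ≤ ang i u v + ang i v w + Θ
  equiv : ∀ (g : G) i u v, ang (g • i) (g • u) (g • v) = ang i u v
  small : ∀ i u v, u ≠ c i → v ≠ c i → ¬ Z.Btw u (c i) v → ang i u v ≤ Θ
  rot : ∀ i h u, h ∈ Nf i → h ≠ 1 → u ≠ c i → 20 * Θ < ang i u (h • u)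

section defs

variable {G : Type} [Group G] {W I : Type} [MulAction G W]

/-- The subgroup generated by all rotation groups. -/
def rotAll (Nf : I → Subgroup G) : Subgroup G := Subgroup.closure {h | ∃ i, h ∈ Nf i}

/-- The subgroup generated by the rotation groups with apex in a ball. -/
def rotBall (Z : GS W) (c : I → W) (Nf : I → Subgroup G) (u : W) (r : ℕ) : Subgroup G :=
  Subgroup.closure {h | ∃ i, Z.d u (c i) ≤ r ∧ h ∈ Nf i}

/-- Points of the windmill. -/
def Mill (Z : GS W) (c : I → W) (Nf : I → Subgroup G) (u : W) (r s : ℕ) (z : W) : Prop :=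
  ∃ g ∈ rotBall Z c Nf u r, ∃ b, z = g • b ∧ Z.d u b ≤ s ∧ (b = u ∨ ∃ i, b = c i)

/-- New apices. -/
def NewAp (Z : GS W) (c : I → W) (Nf : I → Subgroup G) (u : W) (r : ℕ) (i : I) : Prop :=
  Mill Z c Nf u r (r + 1) (c i) ∧ ¬ Mill Z c Nf u r r (c i)

/-- Products of rotations around new apices and of an old element. -/
inductive Wd (Z : GS W) (c : I → W) (Nf : I → Subgroup G) (u : W) (r : ℕ) : ℕ → G → Prop
  | base (g : G) : g ∈ rotBall Z c Nf u r → Wd Z c Nf u r 0 g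
  | cons (k : ℕ) (i : I) (h n : G) : NewAp Z c Nf u r i → h ∈ Nf i → Wd Z c Nf u r k n →
      Wd Z c Nf u r (k + 1) (h * n)

/-- Elements which can be unfolded by rotations around apices seen under a large angle. -/
inductive Red (c : I → W) (Nf : I → Subgroup G) (ang : I → W → W → ℕ) (Θ : ℕ) (u : W) : G → Prop
  | one : Red c Nf ang Θ u 1
  | fix (i : I) (n : G) : u = c i → n ∈ Nf i → Red c Nf ang Θ u n
  | step (i : I) (h n : G) : h ∈ Nf i → u ≠ c i → n • u ≠ c i → 7 * Θ < ang i u (n • u) →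
      Red c Nf ang Θ u (h * n) → Red c Nf ang Θ u n

end defs

namespace RotFam

variable {G : Type} [Group G] {W I : Type} [MulAction G W] [MulAction G I] {Z : GS W}
  {δ Θ : ℕ} {c : I → W} {Nf : I → Subgroup G} {ang : I → W → W → ℕ}
  (F : RotFam G Z δ Θ c Nf ang)
include F

theorem c_inj {i j : I} (h : c i = c j) : i = j := by
  by_contra hne
  have := F.sep i j hne
  rw [h, Z.d_self] at this
  omega

theorem fix_c {i : I} {h : G} (hh : h ∈ Nf i) : h • c i = c i := by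
  rw [← F.c_smul, F.fix i h hh]

theorem smul_ne {i : I} {h : G} (hh : h ∈ Nf i) {z : W} (hz : z ≠ c i) : h • z ≠ c i := by
  intro e
  apply hz
  rw [← inv_smul_smul h z, e, F.fix_c ((Nf i).inv_mem hh)]

theorem ang_rot {i : I} {h : G} (hh : h ∈ Nf i) (u v : W) : ang i (h • u) (h • v) = ang i u v := by
  rw [← F.equiv h i u v, F.fix i h hh]

theorem btw_of_lt {i : I} {u v : W} (hu : u ≠ c i) (hv : v ≠ c i) (h : Θ < ang i u v) :
    Z.Btw u (c i) v := by
  by_contra hb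
  have := F.small i u v hu hv hb
  omega

/-- After a nontrivial rotation a small angle becomes large. -/
theorem ang_large {i : I} {h : G} (hh : h ∈ Nf i) (h1 : h ≠ 1) {z e : W} (hz : z ≠ c i)
    (he : e ≠ c i) (ha : ang i z e ≤ 5 * Θ) : 14 * Θ < ang i z (h • e) := by
  have a := F.rot i h e hh h1 he
  have b := F.tri i e z (h • e) he hz (F.smul_ne hh he)
  have := F.symm i e z
  omega

theorem normal_all : (rotAll Nf).Normal := by
  refine ⟨fun n hn g => ?_⟩
  induction hn using Subgroup.closure_induction with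
  | mem x hx =>
    obtain ⟨i, hi⟩ := hx
    exact Subgroup.subset_closure ⟨_, F.conj g i x hi⟩
  | one => simp
  | mul x y _ _ hx hy =>
    have := (rotAll Nf).mul_mem hx hy
    simpa [mul_assoc] using this
  | inv x _ hx =>
    have := (rotAll Nf).inv_mem hx
    simpa [mul_assoc] using this

variable {u : W} {r : ℕ}

omit F in
theorem ball_mono {r r' : ℕ} (h : r ≤ r') : rotBall Z c Nf u r ≤ rotBall Z c Nf u r' :=
  Subgroup.closure_mono fun _ ⟨i, h1, h2⟩ => ⟨i, h1.trans h, h2⟩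

omit F in
theorem mill_mono {r r' s s' : ℕ} (hr : r ≤ r') (hs : s ≤ s') {z : W} (h : Mill Z c Nf u r s z) :
    Mill Z c Nf u r' s' z := by
  obtain ⟨g, hg, b, e, hb, hc⟩ := h
  exact ⟨g, ball_mono hr hg, b, e, hb.trans hs, hc⟩

omit F in
theorem mill_smul {s : ℕ} {z : W} {g : G} (hg : g ∈ rotBall Z c Nf u r) (h : Mill Z c Nf u r s z) :
    Mill Z c Nf u r s (g • z) := by
  obtain ⟨g', hg', b, e, hb, hc⟩ := h
  exact ⟨g * g', (rotBall Z c Nf u r).mul_mem hg hg', b, by rw [e, mul_smul], hb, hc⟩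

omit F in
theorem mill_orbit {s : ℕ} {g : G} (hg : g ∈ rotBall Z c Nf u r) : Mill Z c Nf u r s (g • u) :=
  ⟨g, hg, u, rfl, by rw [Z.d_self]; omega, Or.inl rfl⟩

theorem rot_le {s : ℕ} (hrs : r ≤ s) {i : I} (h : Mill Z c Nf u r s (c i)) :
    Nf i ≤ rotBall Z c Nf u s := by
  obtain ⟨g, hg, b, e, hb, -⟩ := h
  intro h hh
  have e' : b = c (g⁻¹ • i) := by rw [F.c_smul, e, inv_smul_smul]
  have h1 : g⁻¹ * h * g⁻¹⁻¹ ∈ rotBall Z c Nf u s :=
    Subgroup.subset_closure ⟨_, e' ▸ hb, F.conj g⁻¹ i h hh⟩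
  have hg' := ball_mono hrs hg
  have := (rotBall Z c Nf u s).mul_mem ((rotBall Z c Nf u s).mul_mem hg' h1)
    ((rotBall Z c Nf u s).inv_mem hg')
  simpa [mul_assoc] using this

theorem new_smul {i : I} {g : G} (hg : g ∈ rotBall Z c Nf u r) (h : NewAp Z c Nf u r i) :
    NewAp Z c Nf u r (g • i) := by
  refine ⟨by rw [F.c_smul]; exact mill_smul hg h.1, fun h' => h.2 ?_⟩
  have := mill_smul ((rotBall Z c Nf u r).inv_mem hg) h'
  rwa [F.c_smul, inv_smul_smul] at this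

theorem wd_smul {g : G} (hg : g ∈ rotBall Z c Nf u r) {k : ℕ} {n : G} (h : Wd Z c Nf u r k n) :
    Wd Z c Nf u r k (g * n) := by
  induction h with
  | base n hn => exact Wd.base _ ((rotBall Z c Nf u r).mul_mem hg hn)
  | cons k i h n hi hh _ ih =>
    have e : g * (h * n) = (g * h * g⁻¹) * (g * n) := by group
    rw [e]
    exact Wd.cons _ _ _ _ (F.new_smul hg hi) (F.conj g i h hh) ih

theorem exists_wd {n : G} (hn : n ∈ rotBall Z c Nf u (r + 1)) : ∃ k, Wd Z c Nf u r k n := by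
  have key : ∀ (i : I) (h : G), Z.d u (c i) ≤ r + 1 → h ∈ Nf i → ∀ n, (∃ k, Wd Z c Nf u r k n) →
      ∃ k, Wd Z c Nf u r k (h * n) := by
    rintro i h hi hh n ⟨k, hk⟩
    by_cases ho : Mill Z c Nf u r r (c i)
    · exact ⟨k, F.wd_smul (F.rot_le le_rfl ho hh) hk⟩
    · exact ⟨k + 1, Wd.cons _ i _ _
        ⟨⟨1, Subgroup.one_mem _, c i, (one_smul _ _).symm, hi, Or.inr ⟨i, rfl⟩⟩, ho⟩ hh hk⟩
  induction hn using Subgroup.closure_induction_left with
  | one => exact ⟨0, Wd.base _ (Subgroup.one_mem _)⟩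
  | mul_left x hx y _ ih =>
    obtain ⟨i, hi, hh⟩ := hx
    exact key i x hi hh y ih
  | inv_mul_cancel x hx y _ ih =>
    obtain ⟨i, hi, hh⟩ := hx
    exact key i x⁻¹ hi ((Nf i).inv_mem hh) y ih

theorem wd_mem {k : ℕ} {n : G} (h : Wd Z c Nf u r k n) : n ∈ rotBall Z c Nf u (r + 1) := by
  induction h with
  | base n hn => exact ball_mono (by omega) hn
  | cons k i h n hi hh _ ih => exact Subgroup.mul_mem _ (F.rot_le (by omega) hi.1 hh) ih

omit F in
/-- Convexity of the windmill. -/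
def Conv (Z : GS W) (c : I → W) (Nf : I → Subgroup G) (u : W) (r : ℕ) : Prop :=
  ∀ s z z' i, Mill Z c Nf u r s z → Mill Z c Nf u r s z' → Z.Btw z (c i) z' → c i ≠ z → c i ≠ z' →
    Mill Z c Nf u r (max r (s - 1)) (c i)

theorem ball_zero_fix {g : G} (hg : g ∈ rotBall Z c Nf u 0) : g • u = u := by
  induction hg using Subgroup.closure_induction with
  | mem x hx =>
    obtain ⟨i, hi, hh⟩ := hx
    have : u = c i := Z.d_zero _ _ (by omega)
    rw [this, F.fix_c hh]
  | one => simp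
  | mul x y _ _ hx hy => rw [mul_smul, hy, hx]
  | inv x _ hx => rw [inv_smul_eq_iff, hx]

theorem conv_zero : Conv Z c Nf u 0 := by
  have key : ∀ s z, Mill Z c Nf u 0 s z → Z.d u z ≤ s ∧ (z = u ∨ ∃ i, z = c i) := by
    rintro s z ⟨g, hg, b, rfl, hb, hc⟩
    have e := F.ball_zero_fix hg
    refine ⟨by have := F.inv g u b; rw [e] at this; omega, ?_⟩
    rcases hc with rfl | ⟨i, rfl⟩
    · exact Or.inl e
    · exact Or.inr ⟨g • i, (F.c_smul g i).symm⟩
  intro s z z' i hz hz' hb n1 n2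
  obtain ⟨d1, k1⟩ := key s z hz
  obtain ⟨d2, k2⟩ := key s z' hz'
  refine ⟨1, Subgroup.one_mem _, c i, (one_smul _ _).symm, ?_, Or.inr ⟨i, rfl⟩⟩
  have p1 : Z.d z (c i) ≠ 0 := fun h => n1 (Z.d_zero _ _ h).symm
  have p2 : Z.d (c i) z' ≠ 0 := fun h => n2 (Z.d_zero _ _ h)
  have hb' : Z.d z (c i) + Z.d (c i) z' = Z.d z z' := hb
  rcases k1 with rfl | ⟨j, rfl⟩
  · omega
  rcases k2 with rfl | ⟨j', rfl⟩
  · have := Z.d_comm z' (c i)
    have := Z.d_comm z' (c j)
    omega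
  have s1 := F.sep j i fun e => n1 (by rw [e])
  have s2 := F.sep i j' fun e => n2 (by rw [e])
  have := F.hyp.mid (hb.near 0) u
  omega

theorem ang_new (hS : Conv Z c Nf u r) {i : I} (hi : NewAp Z c Nf u r i) {z z' : W}
    (hz : Mill Z c Nf u r (r + 1) z) (hz' : Mill Z c Nf u r (r + 1) z') (n1 : z ≠ c i)
    (n2 : z' ≠ c i) : ang i z z' ≤ Θ := by
  refine F.small i z z' n1 n2 fun hb => hi.2 ?_
  simpa using hS (r + 1) z z' i hz hz' hb n1.symm n2.symm

omit F in
theorem orbit_ne {i : I} (hi : NewAp Z c Nf u r i) {g : G} (hg : g ∈ rotBall Z c Nf u r) :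
    g • u ≠ c i := fun e => hi.2 (e ▸ mill_orbit hg)

theorem fold {s : ℕ} {i : I} (hi : NewAp Z c Nf u r i) {h : G} (hh : h ∈ Nf i) {z : W}
    (hz : Mill Z c Nf u r s z) :
    Mill Z c Nf u r s (h • z) ∨
      (z ≠ c i ∧ ∃ z0, Mill Z c Nf u r (r + 1) z0 ∧ z0 ≠ c i ∧ ang i z0 z ≤ Θ) := by
  obtain ⟨g, hg, b, rfl, hb, hc⟩ := hz
  have ng := orbit_ne hi hg
  by_cases hbt : Z.Btw (g • u) (c i) (g • b)
  · left
    refine ⟨g, hg, (g⁻¹ * h * g) • b, by simp [mul_smul], ?_, ?_⟩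
    · have e1 : Z.d u ((g⁻¹ * h * g) • b) = Z.d (g • u) (h • g • b) := by
        rw [← F.inv g u]
        simp [mul_smul]
      have e2 : Z.d (c i) (h • g • b) = Z.d (c i) (g • b) := by
        rw [← F.inv h (c i) (g • b), F.fix_c hh]
      have := Z.d_tri (g • u) (c i) (h • g • b)
      have := F.inv g u b
      unfold GS.Btw at hbt
      omega
    · rcases hc with rfl | ⟨j, rfl⟩
      · exact (ng hbt.eq_of_self.symm).elim
      · exact Or.inr ⟨_, (F.c_smul _ j).symm⟩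
  · right
    have nz : g • b ≠ c i := fun e => hbt (e ▸ GS.btw_right _ _)
    exact ⟨nz, g • u, mill_orbit hg, ng, F.small i _ _ ng nz hbt⟩

theorem dich (hS : Conv Z c Nf u r) {s k : ℕ} {n : G} (hn : Wd Z c Nf u r k n) {z' : W}
    (hz' : Mill Z c Nf u r s z') :
    (∃ k' < k, Wd Z c Nf u r k' n) ∨
    ((∃ k' < k, ∃ n' z'', Wd Z c Nf u r k' n' ∧ Mill Z c Nf u r s z'' ∧ n • z' = n' • z'') ∧
      ¬ ∃ g ∈ rotBall Z c Nf u r, z' = g • u) ∨
    n ∈ rotBall Z c Nf u r ∨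
    ∃ i h n1 k1 z0, k = k1 + 1 ∧ n = h * n1 ∧ NewAp Z c Nf u r i ∧ h ∈ Nf i ∧ h ≠ 1 ∧
      Wd Z c Nf u r k1 n1 ∧ n1 • z' ≠ c i ∧ Mill Z c Nf u r (r + 1) z0 ∧ z0 ≠ c i ∧
      ang i z0 (n1 • z') ≤ Θ := by
  induction hn with
  | base n hn => exact Or.inr (Or.inr (Or.inl hn))
  | cons k i h n hi hh hw ih =>
    by_cases h1 : h = 1
    · exact Or.inl ⟨k, by omega, by simpa [h1] using hw⟩
    rcases ih with ⟨k', hk', hw'⟩ | ⟨⟨k', hk', n', z'', hw', hz'', e⟩, hno⟩ | hb |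
      ⟨j, h2, n2, k2, z0, rfl, rfl, hj, hh2, h21, hw2, ne2, hz0, nz0, ha⟩
    · exact Or.inl ⟨k' + 1, by omega, Wd.cons _ i _ _ hi hh hw'⟩
    · refine Or.inr (Or.inl ⟨⟨k' + 1, by omega, h * n', z'', Wd.cons _ i _ _ hi hh hw', hz'', ?_⟩,
        hno⟩)
      rw [mul_smul, mul_smul, e]
    · by_cases hz : ∃ g ∈ rotBall Z c Nf u r, z' = g • u
      · obtain ⟨g, hg, rfl⟩ := hz
        have hm := (rotBall Z c Nf u r).mul_mem hb hg
        have ne : n • g • u ≠ c i := by rw [← mul_smul]; exact orbit_ne hi hm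
        refine Or.inr (Or.inr (Or.inr ⟨i, h, n, k, n • g • u, rfl, rfl, hi, hh, h1, hw, ne, ?_, ne,
          ?_⟩))
        · rw [← mul_smul]
          exact mill_orbit hm
        · exact F.small i _ _ ne ne fun hbt => ne hbt.eq_of_self.symm
      · rcases F.fold hi hh (mill_smul hb hz') with hm | ⟨ne, z0, hz0, nz0, ha⟩
        · refine Or.inr (Or.inl ⟨⟨0, by omega, 1, _, Wd.base _ (Subgroup.one_mem _), hm, ?_⟩, hz⟩)
          rw [mul_smul, one_smul]
        · exact Or.inr (Or.inr (Or.inr ⟨i, h, n, k, z0, rfl, rfl, hi, hh, h1, hw, ne, hz0, nz0, ha⟩))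
    · by_cases hij : i = j
      · subst hij
        refine Or.inl ⟨k2 + 1, by omega, ?_⟩
        rw [← mul_assoc]
        exact Wd.cons _ i _ _ hi ((Nf i).mul_mem hh hh2) hw2
      have nij : c i ≠ c j := fun e => hij (F.c_inj e)
      have a1 := F.ang_new hS hj hi.1 hz0 nij nz0
      have a2 := F.tri j (c i) z0 (n2 • z') nij nz0 ne2
      have a3 := F.ang_large hh2 h21 nij ne2 (by omega)
      have bt := F.btw_of_lt nij (F.smul_ne hh2 ne2) (by omega)
      have ne : (h2 * n2) • z' ≠ c i := by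
        rw [mul_smul]
        intro e
        rw [e] at bt
        exact nij bt.eq_of_self.symm
      refine Or.inr (Or.inr (Or.inr ⟨i, h, h2 * n2, k2 + 1, c j, rfl, rfl, hi, hh, h1, hw, ne,
        hj.1, nij.symm, F.small i _ _ nij.symm ne fun hb => ?_⟩))
      rw [mul_smul] at hb
      have := Z.d_comm (c i) (c j)
      unfold GS.Btw at hb bt
      exact nij (Z.d_zero _ _ (by omega))

theorem conv_aux (hS : Conv Z c Nf u r) {s : ℕ} (hs : r + 1 ≤ s) (k : ℕ) :
    ∀ n, Wd Z c Nf u r k n → ∀ z z' i, Mill Z c Nf u r s z → Mill Z c Nf u r s z' →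
      Z.Btw z (c i) (n • z') → c i ≠ z → c i ≠ n • z' →
      Mill Z c Nf u (r + 1) (max (r + 1) (s - 1)) (c i) := by
  induction k using Nat.strong_induction_on with
  | _ k ih =>
  intro n hn z z' i hz hz' hb n1 n2
  have old : ∀ a b, Mill Z c Nf u r s a → Mill Z c Nf u r s b → Z.Btw a (c i) b → c i ≠ a →
      c i ≠ b → Mill Z c Nf u (r + 1) (max (r + 1) (s - 1)) (c i) := fun a b ha hb hab na nb =>
    mill_mono (by omega) (by omega) (hS s a b i ha hb hab na nb)
  rcases F.dich hS hn hz' with ⟨k', hk', hw'⟩ | ⟨⟨k', hk', n', z'', hw', hz'', e⟩, -⟩ | hb0 |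
    ⟨j, h, n1', k1, z0, rfl, rfl, hj, hh, h1, hw, ne, hz0, nz0, ha⟩
  · exact ih k' hk' n hw' z z' i hz hz' hb n1 n2
  · rw [e] at hb n2
    exact ih k' hk' n' hw' z z'' i hz hz'' hb n1 n2
  · exact old z _ hz (mill_smul hb0 hz') hb n1 n2
  have hmem : h ∈ rotBall Z c Nf u (r + 1) := F.rot_le (by omega) hj.1 hh
  have back : ∀ a, Mill Z c Nf u r s (h⁻¹ • a) → Z.Btw a (c i) (h • n1' • z') → c i ≠ a →
      Mill Z c Nf u (r + 1) (max (r + 1) (s - 1)) (c i) := by
    intro a ha hab na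
    have hb2 := F.inv.btw h⁻¹ hab
    rw [inv_smul_smul, ← F.c_smul] at hb2
    have := ih k1 (by omega) n1' hw _ z' (h⁻¹ • i) ha hz' hb2
      (by rw [F.c_smul]; exact fun e => na (smul_left_cancel _ e))
      (by
        rw [F.c_smul]
        intro e
        apply n2
        rw [mul_smul, ← e, smul_inv_smul])
    have := mill_smul hmem this
    rwa [F.c_smul, smul_inv_smul] at this
  rw [mul_smul] at hb n2
  rcases F.fold hj ((Nf j).inv_mem hh) hz with hm | ⟨nz, z1, hz1, nz1, ha1⟩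
  · exact back z hm hb n1
  by_cases hij : c i = c j
  · rw [hij]
    exact mill_mono (by omega) (by omega) hj.1
  have a1 := F.ang_new hS hj hz1 hz0 nz1 nz0
  have a2 := F.tri j z z1 z0 nz nz1 nz0
  have a3 := F.tri j z z0 (n1' • z') nz nz0 ne
  have := F.symm j z1 z
  have a4 := F.ang_large hh h1 nz ne (by omega)
  have ne' := F.smul_ne hh ne
  have a5 := F.tri j z (c i) (h • n1' • z') nz hij ne'
  by_cases hl : Θ < ang j z (c i)
  · have bt := F.btw_of_lt nz hij hl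
    refine back (c j) ?_ (hb.trans_left bt).2 hij
    rw [F.fix_c ((Nf j).inv_mem hh)]
    exact mill_mono le_rfl hs hj.1
  · have bt := F.btw_of_lt hij ne' (by omega)
    exact old z (c j) hz (mill_mono le_rfl hs hj.1) (hb.trans_right bt).2 n1 hij

theorem conv_succ (hS : Conv Z c Nf u r) : Conv Z c Nf u (r + 1) := by
  rintro s z z' i ⟨g, hg, b, rfl, hb, hc⟩ ⟨g', hg', b', rfl, hb', hc'⟩ hbt n1 n2
  obtain ⟨k, hk⟩ := F.exists_wd ((rotBall Z c Nf u (r + 1)).mul_mem
    ((rotBall Z c Nf u (r + 1)).inv_mem hg) hg')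
  have hb2 := F.inv.btw g⁻¹ hbt
  rw [inv_smul_smul, ← F.c_smul, ← mul_smul] at hb2
  have := F.conv_aux hS (s := max s (r + 1)) (by omega) k _ hk b b' (g⁻¹ • i)
    ⟨1, Subgroup.one_mem _, b, (one_smul _ _).symm, by omega, hc⟩
    ⟨1, Subgroup.one_mem _, b', (one_smul _ _).symm, by omega, hc'⟩ hb2
    (by
      rw [F.c_smul]
      intro e
      apply n1
      rw [← e, smul_inv_smul])
    (by
      rw [F.c_smul, mul_smul]
      exact fun e => n2 (smul_left_cancel _ e))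
  have := mill_smul hg this
  rw [F.c_smul, smul_inv_smul] at this
  exact mill_mono le_rfl (by omega) this

theorem conv_all (u : W) (r : ℕ) : Conv Z c Nf u r := by
  induction r with
  | zero => exact F.conv_zero
  | succ r ih => exact F.conv_succ ih

theorem red_ball (u : W) (r : ℕ) : ∀ n ∈ rotBall Z c Nf u r, Red c Nf ang Θ u n := by
  induction r with
  | zero =>
    intro n hn
    by_cases hu : ∃ i, u = c i
    · obtain ⟨i, hi⟩ := hu
      refine Red.fix i n hi ?_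
      refine (Subgroup.closure_le (Nf i)).2 ?_ hn
      rintro x ⟨j, hj, hx⟩
      have : u = c j := Z.d_zero _ _ (by omega)
      rwa [F.c_inj (hi.symm.trans this)]
    · have : n = 1 := by
        rw [← Subgroup.mem_bot]
        refine (Subgroup.closure_le ⊥).2 ?_ hn
        rintro x ⟨j, hj, -⟩
        exact (hu ⟨j, Z.d_zero _ _ (by omega)⟩).elim
      rw [this]
      exact Red.one
  | succ r ihr =>
    intro n hn
    obtain ⟨k, hk⟩ := F.exists_wd hn
    clear hn
    induction k using Nat.strong_induction_on generalizing n with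
    | _ k ih =>
    have hu : Mill Z c Nf u r (r + 1) u := by
      simpa using mill_orbit (Z := Z) (c := c) (Nf := Nf) (u := u) (r := r) (s := r + 1)
        (Subgroup.one_mem _)
    rcases F.dich (F.conv_all u r) hk hu with ⟨k', hk', hw'⟩ | ⟨-, hno⟩ | hb0 |
      ⟨j, h, n1, k1, z0, rfl, rfl, hj, hh, h1, hw, ne, hz0, nz0, ha⟩
    · exact ih k' hk' n hw'
    · exact (hno ⟨1, Subgroup.one_mem _, (one_smul _ _).symm⟩).elim
    · exact ihr n hb0
    have nu : u ≠ c j := by simpa using orbit_ne hj (Subgroup.one_mem _)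
    have a1 := F.ang_new (F.conv_all u r) hj hu hz0 nu nz0
    have a2 := F.tri j u z0 (n1 • u) nu nz0 ne
    have a3 := F.ang_large hh h1 nu ne (by omega)
    refine Red.step j h⁻¹ _ ((Nf j).inv_mem hh) nu (by rw [mul_smul]; exact F.smul_ne hh ne)
      (by rw [mul_smul]; omega) ?_
    rw [inv_mul_cancel_left]
    exact ih k1 (by omega) n1 hw

theorem red_all (u : W) {n : G} (hn : n ∈ rotAll Nf) : Red c Nf ang Θ u n := by
  have : ∃ r, n ∈ rotBall Z c Nf u r := by
    induction hn using Subgroup.closure_induction with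
    | mem x hx =>
      obtain ⟨i, hi⟩ := hx
      exact ⟨_, Subgroup.subset_closure ⟨i, le_rfl, hi⟩⟩
    | one => exact ⟨0, Subgroup.one_mem _⟩
    | mul x y _ _ hx hy =>
      obtain ⟨r1, h1⟩ := hx
      obtain ⟨r2, h2⟩ := hy
      exact ⟨max r1 r2, Subgroup.mul_mem _ (ball_mono (by omega) h1) (ball_mono (by omega) h2)⟩
    | inv x _ hx =>
      obtain ⟨r1, h1⟩ := hx
      exact ⟨r1, Subgroup.inv_mem _ h1⟩
  obtain ⟨r, hr⟩ := this
  exact F.red_ball u r n hr

/-- Greendlinger type lemma. -/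
theorem exists_apex {u : W} (hu : ∀ i, u ≠ c i) {n : G} (hn : n ∈ rotAll Nf) (h1 : n ≠ 1) :
    ∃ i, Z.Btw u (c i) (n • u) := by
  have hr := F.red_all u hn
  cases hr with
  | one => exact (h1 rfl).elim
  | fix i _ e _ => exact (hu i e).elim
  | step i h _ hh nu ne ha _ => exact ⟨i, F.btw_of_lt nu ne (by omega)⟩

/-- Quadrilaterals of the quotient lift to closed quadrilaterals. -/
theorem lift_quad (x0 : W) {n : G} (hn : n ∈ rotAll Nf) (x1 x2 x3 : W) :
    ∃ n1 ∈ rotAll Nf, ∃ n2 ∈ rotAll Nf, ∃ n3 ∈ rotAll Nf,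
      Z.d x0 (n1 • x1) ≤ Z.d x0 x1 ∧ Z.d (n1 • x1) (n2 • x2) ≤ Z.d x1 x2 ∧
      Z.d (n2 • x2) (n3 • x3) ≤ Z.d x2 x3 ∧ Z.d (n3 • x3) x0 ≤ Z.d x3 (n • x0) := by
  have hr := F.red_all x0 hn
  clear hn
  induction hr generalizing x1 x2 x3 with
  | one => exact ⟨1, one_mem _, 1, one_mem _, 1, one_mem _, by simp⟩
  | fix i n e hn =>
    refine ⟨1, one_mem _, 1, one_mem _, 1, one_mem _, ?_⟩
    have : n • x0 = x0 := by rw [e, F.fix_c hn]
    simp [this]
  | step i h n hh nu ne ha _ ih =>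
    have hm : h ∈ rotAll Nf := Subgroup.subset_closure ⟨i, hh⟩
    have bend : ∀ a b, Z.Btw a (c i) b → Z.d a (h • b) ≤ Z.d a b := by
      intro a b hb
      have := Z.d_tri a (c i) (h • b)
      have e2 : Z.d (c i) (h • b) = Z.d (c i) b := by
        rw [← F.inv h (c i) b, F.fix_c hh]
      unfold GS.Btw at hb
      omega
    have cases4 : Z.Btw x0 (c i) x1 ∨ Z.Btw x1 (c i) x2 ∨ Z.Btw x2 (c i) x3 ∨
        Z.Btw x3 (c i) (n • x0) := by
      by_contra hc
      push Not at hc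
      obtain ⟨c1, c2, c3, c4⟩ := hc
      have m1 : x1 ≠ c i := fun e => c1 (e ▸ GS.btw_right _ _)
      have m2 : x2 ≠ c i := fun e => c2 (e ▸ GS.btw_right _ _)
      have m3 : x3 ≠ c i := fun e => c3 (e ▸ GS.btw_right _ _)
      have := F.small i _ _ nu m1 c1
      have := F.small i _ _ m1 m2 c2
      have := F.small i _ _ m2 m3 c3
      have := F.small i _ _ m3 ne c4
      have := F.tri i x0 x1 x2 nu m1 m2
      have := F.tri i x0 x2 x3 nu m2 m3
      have := F.tri i x0 x3 (n • x0) nu m3 ne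
      omega
    rcases cases4 with hb | hb | hb | hb
    · obtain ⟨n1, h1, n2, h2, n3, h3, a, b, c', d⟩ := ih (h • x1) (h • x2) (h • x3)
      refine ⟨n1 * h, mul_mem h1 hm, n2 * h, mul_mem h2 hm, n3 * h, mul_mem h3 hm, ?_⟩
      simp only [mul_smul, F.inv h] at *
      exact ⟨a.trans (bend _ _ hb), b, c', d⟩
    · obtain ⟨n1, h1, n2, h2, n3, h3, a, b, c', d⟩ := ih x1 (h • x2) (h • x3)
      refine ⟨n1, h1, n2 * h, mul_mem h2 hm, n3 * h, mul_mem h3 hm, ?_⟩
      simp only [mul_smul, F.inv h] at *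
      exact ⟨a, b.trans (bend _ _ hb), c', d⟩
    · obtain ⟨n1, h1, n2, h2, n3, h3, a, b, c', d⟩ := ih x1 x2 (h • x3)
      refine ⟨n1, h1, n2, h2, n3 * h, mul_mem h3 hm, ?_⟩
      simp only [mul_smul, F.inv h] at *
      exact ⟨a, b, c'.trans (bend _ _ hb), d⟩
    · obtain ⟨n1, h1, n2, h2, n3, h3, a, b, c', d⟩ := ih x1 x2 x3
      refine ⟨n1, h1, n2, h2, n3, h3, a, b, c', ?_⟩
      rw [mul_smul] at d
      exact d.trans (bend _ _ hb)

end RotFam

end Pool.Agent.Lib.MP_e0e7d6_al
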