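import Pool.Agent.Lib.MP_e0e7d6_al.Cone
import Pool.Agent.Lib.MP_e0e7d6_al.Rot

/-!
Angles at the apices of the cone-off, and the resulting rotating family.
-/

set_option linter.unusedSectionVars false

namespace Pool.Agent.Lib.MP_e0e7d6_al

namespace Cone

variable {V I : Type} {Y : I → Set V} {ρ : ℕ}

/-- The shadow of a vertex seen from an apex. -/
def Sh (X : GS V) (hne : ∀ i, (Y i).Nonempty) (i : I) (u : Cone Y ρ) : Set V :=
  {y | ∃ hy : y ∈ Y i, (space X hne ρ).Btw (apex i) (mk i y hy ρ) u}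

/-- The angle at an apex. -/
noncomputable def angle (X : GS V) (hne : ∀ i, (Y i).Nonempty) (i : I) (u v : Cone Y ρ) : ℕ :=
  sInf {t | ∃ y ∈ Sh X hne i u, ∃ y' ∈ Sh X hne i v, X.d y y' = t}

variable {X : GS V} {hne : ∀ i, (Y i).Nonempty}

theorem d_apex_mk (hρ : 1 ≤ ρ) (i : I) (y : V) (hy : y ∈ Y i) :
    (space X hne ρ).d (apex i) (mk i y hy ρ) = 1 := by
  have h1 : lv i (mk i y hy ρ : Cone Y ρ) = ρ := lv_mk i y hy (by omega)
  have h2 := d_apex (X := X) (hne := hne) (i := i) (u := (mk i y hy ρ : Cone Y ρ)) (by omega)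
  rw [GS.d_comm]
  omega

theorem sh_nonempty (hρ : 1 ≤ ρ) {i : I} {u : Cone Y ρ} (hu : u ≠ apex i) :
    (Sh X hne i u).Nonempty := by
  choose y0 h0 using id hne
  have h1 : (space X hne ρ).d (apex i) u ≠ 0 := fun h => hu (GS.d_zero _ _ _ h).symm
  obtain ⟨m, bm, dm⟩ := GS.exists_btw (X := space X hne ρ) (apex i) u 1 (by omega)
  have h2 := lv_lip (X := X) (hne := hne) i (apex i : Cone Y ρ) m
  rw [lv_apex] at h2
  have h3 := (lv_le_lev i m).trans (lev_le m)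
  have h4 : lv i m ≠ ρ + 1 := fun e => by
    rw [eq_apex e, GS.d_self] at dm
    omega
  have h5 : lv i m = ρ := by omega
  have hy := bs_mem h0 (i := i) (u := m) (by omega)
  have h6 := eq_mk (y0 := y0) (i := i) (u := m) (by omega) hy
  rw [h5] at h6
  exact ⟨bs y0 m, hy, h6 ▸ bm⟩

theorem sh_close {δ : ℕ} (H : (space X hne ρ).Hyp δ) (hδ : 1 ≤ δ) (hρ : 20 * δ ≤ ρ) {i : I}
    {u v : Cone Y ρ} (hb : ¬ (space X hne ρ).Btw u (apex i) v) {y y' : V}
    (hy : y ∈ Sh X hne i u) (hy' : y' ∈ Sh X hne i v) : X.d y y' ≤ 50 * δ * 2 ^ ρ := by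
  choose y0 h0 using id hne
  obtain ⟨my, by1⟩ := hy
  obtain ⟨my', by2⟩ := hy'
  obtain ⟨q1, q2, q3, q4, a1, a2, a3, a4, a5⟩ := H.avoid_chain hδ hb by1
    (d_apex_mk (by omega) i y my) by2 (d_apex_mk (by omega) i y' my')
  have key : ∀ a b : Cone Y ρ, (space X hne ρ).Avoid δ (apex i) a b →
      X.d (bs y0 a) (bs y0 b) ≤ 10 * (δ * 2 ^ ρ) := by
    intro a b h
    obtain ⟨k1, k2, k3⟩ := h
    have := avoid_le (X := X) (hne := hne) (y0 := y0) i _ a b rfl (by omega) k1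
    refine this.trans ?_
    rw [← mul_assoc]
    exact Nat.mul_le_mul_right _ k3
  have b1 := key _ _ a1
  have b2 := key _ _ a2
  have b3 := key _ _ a3
  have b4 := key _ _ a4
  have b5 := key _ _ a5
  rw [bs_mk _ _ _ _ le_rfl] at b1 b5
  have t1 := X.d_tri y (bs y0 q1) (bs y0 q2)
  have t2 := X.d_tri y (bs y0 q2) (bs y0 q3)
  have t3 := X.d_tri y (bs y0 q3) (bs y0 q4)
  have t4 := X.d_tri y (bs y0 q4) y'
  rw [mul_assoc]
  omega

theorem angle_le {i : I} {u v : Cone Y ρ} {y y' : V} (hy : y ∈ Sh X hne i u)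
    (hy' : y' ∈ Sh X hne i v) : angle X hne i u v ≤ X.d y y' :=
  Nat.sInf_le ⟨y, hy, y', hy', rfl⟩

theorem exists_angle (hρ : 1 ≤ ρ) {i : I} {u v : Cone Y ρ} (hu : u ≠ apex i) (hv : v ≠ apex i) :
    ∃ y ∈ Sh X hne i u, ∃ y' ∈ Sh X hne i v, X.d y y' = angle X hne i u v := by
  obtain ⟨y, hy⟩ := sh_nonempty (X := X) (hne := hne) hρ hu
  obtain ⟨y', hy'⟩ := sh_nonempty (X := X) (hne := hne) hρ hv
  exact Nat.sInf_mem (s := {t | ∃ y ∈ Sh X hne i u, ∃ y' ∈ Sh X hne i v, X.d y y' = t})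
    ⟨_, y, hy, y', hy', rfl⟩

theorem angle_symm (i : I) (u v : Cone Y ρ) : angle X hne i u v = angle X hne i v u := by
  unfold angle
  congr 1
  ext t
  exact ⟨fun ⟨y, hy, y', hy', h⟩ => ⟨y', hy', y, hy, by rwa [X.d_comm]⟩,
    fun ⟨y, hy, y', hy', h⟩ => ⟨y', hy', y, hy, by rwa [X.d_comm]⟩⟩

variable {G : Type} [Group G] [MulAction G V] [MulAction G I] [EqFam G Y]

theorem sh_smul (hX : X.Inv G) (g : G) {i : I} {u : Cone Y ρ} {y : V} (hy : y ∈ Sh X hne i u) :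
    g • y ∈ Sh X hne (g • i) (g • u) := by
  obtain ⟨my, b⟩ := hy
  have := (inv (hne := hne) (ρ := ρ) hX).btw g b
  rw [smul_apex, smul_mk] at this
  exact ⟨_, this⟩

theorem angle_smul (hX : X.Inv G) (g : G) (i : I) (u v : Cone Y ρ) :
    angle X hne (g • i) (g • u) (g • v) = angle X hne i u v := by
  unfold angle
  congr 1
  ext t
  constructor
  · rintro ⟨y, hy, y', hy', h⟩
    have h1 := sh_smul hX g⁻¹ hy
    have h2 := sh_smul hX g⁻¹ hy'
    rw [inv_smul_smul, inv_smul_smul] at h1 h2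
    exact ⟨_, h1, _, h2, by rwa [hX]⟩
  · rintro ⟨y, hy, y', hy', h⟩
    exact ⟨_, sh_smul hX g hy, _, sh_smul hX g hy', by rwa [hX]⟩

end Cone

theorem cone_rot {G V I : Type} [Group G] [MulAction G V] [MulAction G I] {X : GS V}
    {Y : I → Set V} [Cone.EqFam G Y] (hne : ∀ i, (Y i).Nonempty) {ρ δ : ℕ}
    (hX : X.Inv G) (H : (Cone.space X hne ρ).Hyp δ) (hδ : 1 ≤ δ) (hρ : 20 * δ ≤ ρ)
    (Nf : I → Subgroup G)
    (hc : ∀ (g : G) i h, h ∈ Nf i → g * h * g⁻¹ ∈ Nf (g • i)) (hf : ∀ i h, h ∈ Nf i → h • i = i)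
    (hr : ∀ i h, h ∈ Nf i → h ≠ 1 → ∀ y ∈ Y i, 21 * (50 * δ * 2 ^ ρ) < X.d y (h • y)) :
    ∃ ang, RotFam G (Cone.space X hne ρ) δ (50 * δ * 2 ^ ρ) Cone.apex Nf ang := by
  have h1 : 1 ≤ ρ := by omega
  have self : ∀ (i : I) (u : Cone Y ρ), u ≠ Cone.apex i →
      ¬ (Cone.space X hne ρ).Btw u (Cone.apex i) u := fun i u hu b => hu b.eq_of_self.symm
  refine ⟨Cone.angle X hne, Cone.inv hX, H, fun g i => (Cone.smul_apex g i).symm,
    fun i j hij => ?_, hc, hf, Cone.angle_symm, fun i u v w hu hv hw => ?_, Cone.angle_smul hX,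
    fun i u v hu hv hb => ?_, fun i h u hh hn hu => ?_⟩
  · have h2 := Cone.lv_lip (X := X) (hne := hne) i (Cone.apex i : Cone Y ρ) (Cone.apex j)
    have h3 : Cone.lv i (Cone.apex j : Cone Y ρ) = 0 := by
      simp only [Cone.lv]
      exact if_neg (Ne.symm hij)
    rw [Cone.lv_apex, h3] at h2
    omega
  · obtain ⟨y1, m1, y2, m2, e1⟩ := Cone.exists_angle (X := X) (hne := hne) h1 hu hv
    obtain ⟨y3, m3, y4, m4, e2⟩ := Cone.exists_angle (X := X) (hne := hne) h1 hv hw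
    have a1 := Cone.angle_le m1 m4
    have a2 := Cone.sh_close H hδ hρ (self i v hv) m2 m3
    have t1 := X.d_tri y1 y2 y3
    have t2 := X.d_tri y1 y3 y4
    omega
  · obtain ⟨y1, m1, y2, m2, e1⟩ := Cone.exists_angle (X := X) (hne := hne) h1 hu hv
    have := Cone.sh_close H hδ hρ hb m1 m2
    omega
  · have hu' : h • u ≠ Cone.apex i := fun e => by
      apply hu
      rw [← inv_smul_smul h u, e, Cone.smul_apex, hf i _ ((Nf i).inv_mem hh)]
    obtain ⟨y1, m1, y2, m2, e1⟩ := Cone.exists_angle (X := X) (hne := hne) h1 hu hu'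
    have m3 := Cone.sh_smul hX h m1
    rw [hf i h hh] at m3
    have a1 := Cone.sh_close H hδ hρ (self i _ hu') m2 m3
    have a2 := hr i h hh hn y1 m1.1
    have t1 := X.d_tri y1 y2 (h • y1)
    omega

end Pool.Agent.Lib.MP_e0e7d6_al
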