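import Pool.Agent.Lib.MP_e0e7d6_al.Geo

/-!
Projections to a family of quasi-convex sets with bounded overlaps.
-/

namespace Pool.Agent.Lib.MP_e0e7d6_al

/-- A family of nonempty quasi-convex subsets with bounded overlaps in a hyperbolic space. -/
structure QFam {V I : Type} (X : GS V) (Y : I → Set V) (κ Δ : ℕ) : Prop where
  one_le : 1 ≤ κ
  hyp : X.Hyp κ
  ne : ∀ i, (Y i).Nonempty
  qc : ∀ i, ∀ y ∈ Y i, ∀ y' ∈ Y i, ∀ m, X.Btw y m y' → ∃ y'' ∈ Y i, X.d m y'' ≤ κ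
  ov : ∀ i j, i ≠ j → ∀ z ∈ Y j, ∀ z' ∈ Y j, (∃ y ∈ Y i, X.d z y ≤ 13 * κ) →
    (∃ y ∈ Y i, X.d z' y ≤ 13 * κ) → X.d z z' ≤ Δ

/-- `p` is a nearest point of `S` to `x`. -/
def IsProj {V : Type} (X : GS V) (S : Set V) (x p : V) : Prop :=
  p ∈ S ∧ ∀ y ∈ S, X.d x p ≤ X.d x y

theorem exists_isProj {V : Type} (X : GS V) {S : Set V} (h : S.Nonempty) (x : V) :
    ∃ p, IsProj X S x p := by
  classical
  have ex : ∃ n, ∃ p ∈ S, X.d x p = n := let ⟨y, hy⟩ := h; ⟨_, y, hy, rfl⟩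
  obtain ⟨p, hp, e⟩ := Nat.find_spec ex
  exact ⟨p, hp, fun y hy => e ▸ Nat.find_min' ex ⟨y, hy, rfl⟩⟩

theorem IsProj.eq_self {V : Type} {X : GS V} {S : Set V} {x p : V} (h : IsProj X S x p)
    (hx : x ∈ S) : p = x := by
  have := h.2 x hx
  rw [X.d_self] at this
  exact (X.d_zero _ _ (by omega)).symm

namespace QFam

variable {V I : Type} {X : GS V} {Y : I → Set V} {κ Δ : ℕ} (Q : QFam X Y κ Δ)
include Q

theorem pr1 {i : I} {x p y : V} (hp : IsProj X (Y i) x p) (hy : y ∈ Y i) :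
    X.Near (5 * κ) x p y := by
  have := Q.one_le
  have h0 := hp.2 y hy
  by_cases h : X.d p y ≤ 2 * κ
  · unfold GS.Near
    omega
  obtain ⟨m, bm, dm⟩ := GS.exists_btw (X := X) p y (2 * κ + 1) (by omega)
  obtain ⟨y'', hy'', hd⟩ := Q.qc i p hp.1 y hy m bm
  have h1 := hp.2 y'' hy''
  have h2 := X.d_tri x m y''
  have h3 := Q.hyp.mid (bm.near 0) x
  unfold GS.Btw at bm
  unfold GS.Near
  omega

theorem pr2 {i : I} {x p x' p' : V} (hp : IsProj X (Y i) x p) (hp' : IsProj X (Y i) x' p')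
    (h : 6 * κ < X.d p p') : X.d x p + X.d p p' + X.d p' x' ≤ X.d x x' + 11 * κ := by
  have h1 := Q.pr1 hp hp'.1
  have h2 := Q.pr1 hp' hp.1
  have h3 := Q.hyp x p' x' p
  have := X.d_comm p p'
  have := X.d_comm p' x'
  unfold GS.Near at h1 h2
  omega

theorem lip {i : I} {x p x' p' : V} (hp : IsProj X (Y i) x p) (hp' : IsProj X (Y i) x' p') :
    X.d p p' ≤ X.d x x' + 11 * κ := by
  by_cases h : 6 * κ < X.d p p'
  · have := Q.pr2 hp hp' h
    omega
  · omega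

theorem p0 {i j : I} (hij : i ≠ j) {x p x' p' : V} (hx : x ∈ Y i) (hx' : x' ∈ Y i)
    (hp : IsProj X (Y j) x p) (hp' : IsProj X (Y j) x' p') : X.d p p' ≤ Δ + 6 * κ := by
  by_cases h : 6 * κ < X.d p p'
  · have h0 := Q.pr2 hp hp' h
    have k : ∀ q, X.Near (11 * κ) x q x' → ∃ y ∈ Y i, X.d q y ≤ 13 * κ := by
      intro q hq
      obtain ⟨m, bm, dm⟩ := Q.hyp.near_btw hq
      obtain ⟨y, hy, hd⟩ := Q.qc i x hx x' hx' m bm
      have := X.d_tri q m y
      exact ⟨y, hy, by omega⟩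
    have := Q.ov i j hij p hp.1 p' hp'.1
      (k p (by have := X.d_tri p p' x'; unfold GS.Near; omega))
      (k p' (by have := X.d_tri x p p'; unfold GS.Near; omega))
    omega
  · omega

theorem behr {i j : I} {x s t s' t' : V} (hs : IsProj X (Y i) x s) (ht : IsProj X (Y j) x t)
    (ht' : IsProj X (Y j) s t') (hs' : IsProj X (Y i) t s') (h : 22 * κ < X.d t t') :
    X.d s s' ≤ 22 * κ := by
  by_contra hc
  have h1 := Q.pr2 ht ht' (by omega)
  have h2 := Q.pr2 hs hs' (by omega)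
  have h3 := X.d_tri t t' s
  have h4 := X.d_tri s s' t
  have h5 := X.d_tri t s t'
  have h6 := ht'.2 t ht.1
  have := X.d_comm s t
  omega

/-- A chosen nearest point projection. -/
noncomputable def pj (i : I) (x : V) : V := (exists_isProj X (Q.ne i) x).choose

theorem pj_spec (i : I) (x : V) : IsProj X (Y i) x (Q.pj i x) :=
  (exists_isProj X (Q.ne i) x).choose_spec

theorem pj_mem (i : I) (x : V) : Q.pj i x ∈ Y i := (Q.pj_spec i x).1

theorem pj_self {i : I} {x : V} (hx : x ∈ Y i) : Q.pj i x = x := (Q.pj_spec i x).eq_self hx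

theorem far {i j : I} (hij : i ≠ j) {x b y : V} (hb : b ∈ Y i) (hy : y ∈ Y j)
    (h : x ∈ Y j ∨ Δ + 28 * κ < X.d (Q.pj j x) (Q.pj j b)) :
    X.d (Q.pj i x) (Q.pj i y) ≤ Δ + 28 * κ := by
  rcases h with h | h
  · have := Q.p0 hij.symm h hy (Q.pj_spec i x) (Q.pj_spec i y)
    omega
  · have h1 := Q.p0 hij (Q.pj_mem i x) hb (Q.pj_spec j _) (Q.pj_spec j b)
    have h2 := X.d_tri (Q.pj j x) (Q.pj j (Q.pj i x)) (Q.pj j b)
    have h3 := Q.behr (Q.pj_spec i x) (Q.pj_spec j x) (Q.pj_spec j _) (Q.pj_spec i _) (by omega)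
    have h4 := Q.p0 hij.symm (Q.pj_mem j x) hy (Q.pj_spec i _) (Q.pj_spec i y)
    have h5 := X.d_tri (Q.pj i x) (Q.pj i (Q.pj j x)) (Q.pj i y)
    omega

end QFam

namespace GS

variable {V : Type} {X : GS V} {δ : ℕ}

theorem Hyp.near_btw2 (H : X.Hyp δ) {ε : ℕ} {x q y m : V} (h : X.Near ε x q y) (hm : X.Btw x m y) :
    ∃ q', (X.Btw x q' m ∨ X.Btw m q' y) ∧ X.d q q' ≤ ε + δ := by
  by_cases hq : X.d x q ≤ X.d x y
  · have hm' : X.d x m + X.d m y = X.d x y := hm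
    have : ∃ q', (X.Btw x q' m ∨ X.Btw m q' y) ∧ X.Btw x q' y ∧ X.d x q' = X.d x q := by
      by_cases hl : X.d x q ≤ X.d x m
      · obtain ⟨q', b, e⟩ := exists_btw x m _ hl
        exact ⟨q', Or.inl b, (hm.trans_left b).1, e⟩
      · obtain ⟨q', b, e⟩ := exists_btw (X := X) m y (X.d x q - X.d x m) (by omega)
        have b2 : X.d x m + X.d m q' = X.d x q' := (hm.trans_right b).2
        exact ⟨q', Or.inr b, (hm.trans_right b).1, by omega⟩
    obtain ⟨q', h1, h2, h3⟩ := this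
    refine ⟨q', h1, ?_⟩
    rcases H.near_near h (h2.near 0) with h' | h' <;> omega
  · refine ⟨y, Or.inr (btw_right m y), ?_⟩
    unfold Near at h
    omega

/-- A short step avoiding the point `c`. -/
def Avoid (X : GS V) (δ : ℕ) (c a b : V) : Prop :=
  ¬ X.Btw a c b ∧ X.d c a + X.d a b ≤ 20 * δ ∧ X.d a b ≤ 10 * δ

theorem Hyp.avoid_chain (H : X.Hyp δ) (hδ : 1 ≤ δ) {c u v s t : V} (hc : ¬ X.Btw u c v)
    (hs : X.Btw c s u) (ds : X.d c s = 1) (ht : X.Btw c t v) (dt : X.d c t = 1) :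
    ∃ q1 q2 q3 q4, X.Avoid δ c s q1 ∧ X.Avoid δ c q1 q2 ∧ X.Avoid δ c q2 q3 ∧ X.Avoid δ c q3 q4 ∧
      X.Avoid δ c q4 t := by
  have ray : ∀ (s u : V) (R : ℕ), X.Btw c s u → X.d c s = 1 → 1 ≤ R → R ≤ X.d c u → R ≤ 3 * δ →
      ∃ u', X.Btw c u' u ∧ X.d c u' = R ∧ X.Avoid δ c s u' ∧ X.Avoid δ c u' s := by
    intro s u R hs ds h1 h2 h3
    have hs' : X.d c s + X.d s u = X.d c u := hs
    obtain ⟨u', b, e⟩ := exists_btw (X := X) s u (R - 1) (by omega)
    have b2 : X.d c s + X.d s u' = X.d c u' := (hs.trans_right b).2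
    have := X.d_comm s c
    have := X.d_comm u' c
    have := X.d_comm u' s
    refine ⟨u', (hs.trans_right b).1, by omega, ⟨?_, by omega, by omega⟩, ⟨?_, by omega, by omega⟩⟩ <;>
      unfold Btw <;> omega
  have same : ∀ a, 1 ≤ X.d c a → X.d c a ≤ 20 * δ → X.Avoid δ c a a := by
    intro a h1 h2
    have := X.d_self a
    have := X.d_comm a c
    refine ⟨?_, by omega, by omega⟩
    unfold Btw
    omega
  have hs' : X.d c s + X.d s u = X.d c u := hs
  have ht' : X.d c t + X.d t v = X.d c v := ht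
  have t1 := X.d_tri c u v
  have t2 := X.d_tri c v u
  have c1 := X.d_comm u v
  by_cases hg : 4 * δ + X.d u v ≤ X.d c u + X.d c v
  · obtain ⟨u', b1, e1, a1, -⟩ := ray s u (2 * δ) hs ds (by omega) (by omega) (by omega)
    obtain ⟨v', b2, e2, -, a2⟩ := ray t v (2 * δ) ht dt (by omega) (by omega) (by omega)
    have f := H.fellow b1 b2 (by omega) (by omega)
    refine ⟨u', u', v', v', a1, same _ (by omega) (by omega), ⟨?_, by omega, by omega⟩,
      same _ (by omega) (by omega), a2⟩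
    have := X.d_comm u' c
    unfold Btw
    omega
  have side : ∀ (s u v : V), X.Btw c s u → X.d c s = 1 → X.d c u + X.d c v < 4 * δ + X.d u v →
      ∃ u', X.Avoid δ c s u' ∧ X.Avoid δ c u' s ∧ X.d c u' ≤ 3 * δ ∧ 1 ≤ X.d c u' ∧
        (u' = u ∨ (X.d c u' = 3 * δ ∧ X.Near δ u u' v)) := by
    intro s u v hs ds hg
    have hs' : X.d c s + X.d s u = X.d c u := hs
    by_cases hl : X.d c u ≤ 3 * δ
    · obtain ⟨u', b, e, a1, a2⟩ := ray s u (X.d c u) hs ds (by omega) le_rfl hl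
      have b' : X.d c u' + X.d u' u = X.d c u := b
      exact ⟨u', a1, a2, by omega, by omega, Or.inl (X.d_zero _ _ (by omega))⟩
    · obtain ⟨u', b, e, a1, a2⟩ := ray s u (3 * δ) hs ds (by omega) (by omega) le_rfl
      refine ⟨u', a1, a2, by omega, by omega, Or.inr ⟨e, ?_⟩⟩
      have h1 := H.mid (b.near 0) v
      have b' : X.d c u' + X.d u' u = X.d c u := b
      have := X.d_tri v u' u
      have := X.d_comm v u
      have := X.d_comm v c
      have := X.d_comm v u'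
      have := X.d_comm u u'
      unfold Near
      omega
  obtain ⟨u', a1, -, d1, p1, k1⟩ := side s u v hs ds (by omega)
  obtain ⟨v', -, a2, d2, p2, k2⟩ := side t v u ht dt (by omega)
  have qu : ∃ q, X.Btw u q v ∧ X.d u' q ≤ 2 * δ ∧ ¬ X.Btw u' c q := by
    rcases k1 with rfl | ⟨e, hn⟩
    · exact ⟨u', btw_left _ _, by rw [X.d_self]; omega, (same _ p1 (by omega)).1⟩
    · obtain ⟨q, b, hd⟩ := H.near_btw hn
      refine ⟨q, b, by omega, ?_⟩
      have := X.d_comm u' c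
      unfold Btw
      omega
  obtain ⟨q, bq, dq, nq⟩ := qu
  have qv : ∃ q', (X.Btw u q' q ∨ X.Btw q q' v) ∧ X.d v' q' ≤ 2 * δ ∧ ¬ X.Btw q' c v' := by
    rcases k2 with rfl | ⟨e, hn⟩
    · exact ⟨v', Or.inr (btw_right _ _), by rw [X.d_self]; omega, (same _ p2 (by omega)).1⟩
    · obtain ⟨q', b, hd⟩ := H.near_btw2 hn.symm bq
      refine ⟨q', b, by omega, ?_⟩
      have := X.d_comm v' q'
      unfold Btw
      omega
  obtain ⟨q', bq', dq', nq'⟩ := qv
  have t3 := X.d_tri c u' q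
  have t4 := X.d_tri c v' q'
  have t5 := X.d_tri q c q'
  have := X.d_comm q c
  have := X.d_comm v' q'
  refine ⟨u', q, q', v', a1, ⟨nq, by omega, by omega⟩, ⟨fun hb => hc ?_, by omega, by omega⟩,
    ⟨nq', by omega, by omega⟩, a2⟩
  rcases bq' with b | b
  · exact (bq.trans_left (b.trans_right hb.symm).1).1
  · exact (bq.trans_right (b.trans_left hb).1).1

end GS

end Pool.Agent.Lib.MP_e0e7d6_al
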