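import Pool.Agent.Lib.MP_e0e7d6_al.Guess
import Pool.Agent.Lib.MP_e0e7d6_al.Proj

/-!
The cone-off of a space along a family of subsets by truncated combinatorial horoballs.
-/

set_option linter.unusedSectionVars false

namespace Pool.Agent.Lib.MP_e0e7d6_al

/-- Vertices of the cone-off. -/
inductive Cone {V I : Type} (Y : I → Set V) (ρ : ℕ) : Type
  | base (x : V) : Cone Y ρ
  | hb (i : I) (y : V) (k : ℕ) (hy : y ∈ Y i) (h1 : 1 ≤ k) (h2 : k ≤ ρ) : Cone Y ρ
  | apex (i : I) : Cone Y ρ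

namespace Cone

variable {V I : Type} {Y : I → Set V} {ρ : ℕ}

/-- The vertex of level `k` above `y` in the cone `i`. -/
def mk (i : I) (y : V) (hy : y ∈ Y i) (k : ℕ) : Cone Y ρ :=
  if h0 : k = 0 then base y else if h : k ≤ ρ then hb i y k hy (by omega) h else apex i

/-- Level. -/
def lev : Cone Y ρ → ℕ
  | base _ => 0
  | hb _ _ k _ _ _ => k
  | apex _ => ρ + 1

open Classical in
/-- Level inside the cone `j`. -/
noncomputable def lv (j : I) : Cone Y ρ → ℕ
  | base _ => 0
  | hb i _ k _ _ _ => if i = j then k else 0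
  | apex i => if i = j then ρ + 1 else 0

/-- Base point below a vertex. -/
def bs (y0 : I → V) : Cone Y ρ → V
  | base x => x
  | hb _ y _ _ _ _ => y
  | apex i => y0 i

theorem mk_zero (i : I) (y : V) (hy : y ∈ Y i) : (mk i y hy 0 : Cone Y ρ) = base y := by
  simp [mk]

theorem mk_top (i : I) (y : V) (hy : y ∈ Y i) : (mk i y hy (ρ + 1) : Cone Y ρ) = apex i := by
  simp [mk]

theorem lev_mk (i : I) (y : V) (hy : y ∈ Y i) {k : ℕ} (hk : k ≤ ρ + 1) :
    lev (mk i y hy k : Cone Y ρ) = k := by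
  unfold mk
  split_ifs with h0 h
  · simp [lev, h0]
  · rfl
  · simp only [lev]; omega

theorem lv_mk (i : I) (y : V) (hy : y ∈ Y i) {k : ℕ} (hk : k ≤ ρ + 1) :
    lv i (mk i y hy k : Cone Y ρ) = k := by
  unfold mk
  split_ifs with h0 h
  · simp [lv, h0]
  · simp [lv]
  · simp only [lv, if_true]; omega

theorem lv_mk_ne {i j : I} (hij : i ≠ j) (y : V) (hy : y ∈ Y i) (k : ℕ) :
    lv j (mk i y hy k : Cone Y ρ) = 0 := by
  unfold mk
  split_ifs <;> simp [lv, hij]

theorem bs_mk (y0 : I → V) (i : I) (y : V) (hy : y ∈ Y i) {k : ℕ} (hk : k ≤ ρ) :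
    bs y0 (mk i y hy k : Cone Y ρ) = y := by
  unfold mk
  split_ifs <;> rfl

theorem bs_mk_mem {y0 : I → V} (h0 : ∀ i, y0 i ∈ Y i) (i : I) (y : V) (hy : y ∈ Y i) (k : ℕ) :
    bs y0 (mk i y hy k : Cone Y ρ) ∈ Y i := by
  unfold mk
  split_ifs
  · exact hy
  · exact hy
  · exact h0 i

theorem lev_le (u : Cone Y ρ) : lev u ≤ ρ + 1 := by
  cases u <;> simp only [lev] <;> omega

theorem lv_le_lev (i : I) (u : Cone Y ρ) : lv i u ≤ lev u := by
  cases u <;> simp only [lv, lev] <;> (try split_ifs) <;> omega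

theorem lv_eq_lev {i : I} {u : Cone Y ρ} (h : 1 ≤ lv i u) : lv i u = lev u := by
  cases u <;> simp only [lv, lev] at * <;> split_ifs at * <;> omega

theorem lv_unique {i j : I} {u : Cone Y ρ} (h : 1 ≤ lv i u) (h' : 1 ≤ lv j u) : i = j := by
  cases u <;> simp only [lv] at * <;> (try split_ifs at * with a b) <;>
    first | omega | exact a.symm.trans b

theorem exists_lv {u : Cone Y ρ} (h : 1 ≤ lev u) : ∃ i, lv i u = lev u := by
  cases u with
  | base x => simp [lev] at h
  | hb i y k hy h1 h2 => exact ⟨i, by simp [lv, lev]⟩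
  | apex i => exact ⟨i, by simp [lv, lev]⟩

theorem bs_mem {y0 : I → V} (h0 : ∀ i, y0 i ∈ Y i) {i : I} {u : Cone Y ρ} (h : 1 ≤ lv i u) :
    bs y0 u ∈ Y i := by
  cases u with
  | base x => simp [lv] at h
  | hb j y k hy h1 h2 =>
    simp only [lv] at h
    split_ifs at h with e
    · exact e ▸ hy
    · omega
  | apex j =>
    simp only [lv] at h
    split_ifs at h with e
    · exact e ▸ h0 j
    · omega

theorem eq_mk {y0 : I → V} {i : I} {u : Cone Y ρ} (h : 1 ≤ lv i u) (hy : bs y0 u ∈ Y i) :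
    u = mk i (bs y0 u) hy (lv i u) := by
  cases u with
  | base x => simp [lv] at h
  | hb j y k hy' h1 h2 =>
    simp only [lv] at h
    split_ifs at h with e
    · subst e
      simp only [lv, if_true, bs, mk]
      rw [dif_neg (by omega), dif_pos h2]
    · omega
  | apex j =>
    simp only [lv] at h
    split_ifs at h with e
    · subst e
      simp only [lv, if_true]
      rw [mk_top]
    · omega

theorem eq_base {y0 : I → V} {u : Cone Y ρ} (h : lev u = 0) : u = base (bs y0 u) := by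
  cases u <;> simp only [lev] at h <;> first | rfl | omega

theorem eq_apex {i : I} {u : Cone Y ρ} (h : lv i u = ρ + 1) : u = apex i := by
  cases u <;> simp only [lv] at h <;> (try split_ifs at h with e) <;> first | omega | rw [e]

theorem lv_apex (i : I) : lv i (apex i : Cone Y ρ) = ρ + 1 := by simp [lv]

theorem lv_base (i : I) (x : V) : lv i (base x : Cone Y ρ) = 0 := rfl

/-- Edges of the cone-off. -/
def Adj (X : GS V) (u v : Cone Y ρ) : Prop :=
  (∃ x y, u = base x ∧ v = base y ∧ X.d x y ≤ 1) ∨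
    ∃ (i : I) (y y' : V) (hy : y ∈ Y i) (hy' : y' ∈ Y i) (k k' : ℕ), u = mk i y hy k ∧
      v = mk i y' hy' k' ∧ k ≤ ρ + 1 ∧ k' ≤ ρ + 1 ∧
      ((k = k' ∧ X.d y y' ≤ 2 ^ k) ∨ (y = y' ∧ (k' = k + 1 ∨ k = k' + 1)))

variable {X : GS V}

theorem Adj.symm {u v : Cone Y ρ} (h : Adj X u v) : Adj X v u := by
  rcases h with ⟨x, y, rfl, rfl, h⟩ | ⟨i, y, y', hy, hy', k, k', rfl, rfl, h1, h2, h⟩
  · exact Or.inl ⟨y, x, rfl, rfl, by rwa [X.d_comm]⟩
  · refine Or.inr ⟨i, y', y, hy', hy, k', k, rfl, rfl, h2, h1, ?_⟩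
    rcases h with ⟨rfl, h⟩ | ⟨rfl, h⟩
    · exact Or.inl ⟨rfl, by rwa [X.d_comm]⟩
    · exact Or.inr ⟨rfl, h.symm⟩

theorem steps_base (n : ℕ) : ∀ x y : V, X.d x y = n →
    Steps (Adj X) n (base x : Cone Y ρ) (base y) := by
  induction n with
  | zero =>
    intro x y h
    rw [X.d_zero _ _ h]
    exact Steps.refl _
  | succ n ih =>
    intro x y h
    obtain ⟨m, h1, h2⟩ := X.geod x y 1 (by omega)
    exact Steps.cons (Or.inl ⟨x, m, rfl, rfl, h1.le⟩) (ih m y (by omega))

theorem steps_vert (i : I) (y : V) (hy : y ∈ Y i) (k n : ℕ) (h : k + n ≤ ρ + 1) :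
    Steps (Adj X) n (mk i y hy k : Cone Y ρ) (mk i y hy (k + n)) := by
  induction n generalizing k with
  | zero => exact Steps.refl _
  | succ n ih =>
    refine Steps.cons (v := mk i y hy (k + 1))
      (Or.inr ⟨i, y, y, hy, hy, k, k + 1, rfl, rfl, by omega, by omega, Or.inr ⟨rfl, Or.inl rfl⟩⟩) ?_
    have := ih (k + 1) (by omega)
    rwa [show k + 1 + n = k + (n + 1) by omega] at this

theorem steps_down {y0 : I → V} (h0 : ∀ i, y0 i ∈ Y i) (u : Cone Y ρ) :
    Steps (Adj X) (lev u) (base (bs y0 u)) u := by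
  by_cases h : lev u = 0
  · rw [h, ← eq_base h]
    exact Steps.refl _
  · obtain ⟨i, hi⟩ := exists_lv (u := u) (by omega)
    have hy := bs_mem h0 (i := i) (u := u) (by omega)
    have := steps_vert (X := X) (ρ := ρ) i (bs y0 u) hy 0 (lv i u)
      (by have := lev_le u; omega)
    rw [mk_zero, zero_add, ← eq_mk (by omega) hy, hi] at this
    exact this

theorem conn (hne : ∀ i, (Y i).Nonempty) (u v : Cone Y ρ) : ∃ n, Steps (Adj X) n u v := by
  choose y0 h0 using hne
  exact ⟨_, (((steps_down h0 u).reverse fun _ _ => Adj.symm).append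
    (steps_base _ _ _ rfl)).append (steps_down h0 v)⟩

/-- The cone-off as a geodesic space. -/
noncomputable def space (X : GS V) (hne : ∀ i, (Y i).Nonempty) (ρ : ℕ) : GS (Cone Y ρ) :=
  graphGS (R := Adj X) (fun _ _ => Adj.symm) (conn hne)

variable {hne : ∀ i, (Y i).Nonempty}

theorem d_base (x y : V) : (space X hne ρ).d (base x) (base y) ≤ X.d x y :=
  gd_le (steps_base _ x y rfl)

theorem d_vert (i : I) (y : V) (hy : y ∈ Y i) {k k' : ℕ} (h : k ≤ k') (h' : k' ≤ ρ + 1) :
    (space X hne ρ).d (mk i y hy k) (mk i y hy k') ≤ k' - k := by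
  have := steps_vert (X := X) (ρ := ρ) i y hy k (k' - k) (by omega)
  rw [show k + (k' - k) = k' by omega] at this
  exact gd_le this

theorem d_hor (i : I) {y y' : V} (hy : y ∈ Y i) (hy' : y' ∈ Y i) {k : ℕ} (h : k ≤ ρ + 1)
    (hd : k ≤ ρ → X.d y y' ≤ 2 ^ k) : (space X hne ρ).d (mk i y hy k) (mk i y' hy' k) ≤ 1 := by
  by_cases hk : k ≤ ρ
  · exact graphGS_adj (Or.inr ⟨i, y, y', hy, hy', k, k, rfl, rfl, h, h, Or.inl ⟨rfl, hd hk⟩⟩)
  · obtain rfl : k = ρ + 1 := by omega
    rw [mk_top, mk_top, GS.d_self]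
    omega

theorem d_down {y0 : I → V} (h0 : ∀ i, y0 i ∈ Y i) (u : Cone Y ρ) :
    (space X hne ρ).d (base (bs y0 u)) u ≤ lev u := gd_le (steps_down h0 u)

theorem adj_or_eq {u v : Cone Y ρ} (h : (space X hne ρ).d u v ≤ 1) : u = v ∨ Adj X u v := by
  by_cases h0 : (space X hne ρ).d u v = 0
  · exact Or.inl (GS.d_zero _ _ _ h0)
  · have h1 : (space X hne ρ).d u v = 1 := by omega
    exact Or.inr (graphGS_one h1)

theorem Adj.lv_le {u v : Cone Y ρ} (h : Adj X u v) (j : I) : lv j u ≤ lv j v + 1 := by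
  rcases h with ⟨x, y, rfl, rfl, h⟩ | ⟨i, y, y', hy, hy', k, k', rfl, rfl, h1, h2, h⟩
  · simp [lv]
  · by_cases e : i = j
    · subst e
      rw [lv_mk _ _ _ h1, lv_mk _ _ _ h2]
      omega
    · rw [lv_mk_ne e]
      omega

theorem Adj.bs_le {y0 : I → V} {u v : Cone Y ρ} (h : Adj X u v) {B : ℕ} (hB : B ≤ ρ)
    (hu : lev u ≤ B) (hv : lev v ≤ B) : X.d (bs y0 u) (bs y0 v) ≤ 2 ^ B := by
  have p1 : 1 ≤ 2 ^ B := Nat.one_le_two_pow
  rcases h with ⟨x, y, rfl, rfl, h⟩ | ⟨i, y, y', hy, hy', k, k', rfl, rfl, h1, h2, h⟩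
  · simp only [bs]
    omega
  · rw [lev_mk _ _ _ h1] at hu
    rw [lev_mk _ _ _ h2] at hv
    rw [bs_mk _ _ _ _ (by omega), bs_mk _ _ _ _ (by omega)]
    rcases h with ⟨rfl, h⟩ | ⟨rfl, h⟩
    · exact h.trans (Nat.pow_le_pow_right (by omega) hu)
    · rw [X.d_self]
      omega

theorem Adj.col {y0 : I → V} (h0 : ∀ i, y0 i ∈ Y i) {u v : Cone Y ρ} (h : Adj X u v) :
    X.d (bs y0 u) (bs y0 v) ≤ 1 ∧ lev u = 0 ∧ lev v = 0 ∨
      ∃ i, bs y0 u ∈ Y i ∧ bs y0 v ∈ Y i ∧ lv i u = lev u ∧ lv i v = lev v := by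
  rcases h with ⟨x, y, rfl, rfl, h⟩ | ⟨i, y, y', hy, hy', k, k', rfl, rfl, h1, h2, h⟩
  · exact Or.inl ⟨h, rfl, rfl⟩
  · refine Or.inr ⟨i, bs_mk_mem h0 _ _ _ _, bs_mk_mem h0 _ _ _ _, ?_, ?_⟩
    · rw [lv_mk _ _ _ h1, lev_mk _ _ _ h1]
    · rw [lv_mk _ _ _ h2, lev_mk _ _ _ h2]

theorem lv_lip (j : I) (u v : Cone Y ρ) : lv j u ≤ lv j v + (space X hne ρ).d u v := by
  have key : ∀ n (u v : Cone Y ρ), Steps (Adj X) n u v → lv j u ≤ lv j v + n := by
    intro n u v h
    induction h with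
    | refl => omega
    | cons hr _ ih =>
      have := hr.lv_le j
      omega
  exact key _ u v (steps_gd (conn hne) u v)

theorem lev_lip (u v : Cone Y ρ) : lev u ≤ lev v + (space X hne ρ).d u v := by
  by_cases h : lev u = 0
  · omega
  · obtain ⟨i, hi⟩ := exists_lv (u := u) (by omega)
    have := lv_lip (X := X) (hne := hne) i u v
    have := lv_le_lev i v
    omega

theorem d_apex {i : I} {u : Cone Y ρ} (h : 1 ≤ lv i u) :
    (space X hne ρ).d u (apex i) + lv i u = ρ + 1 := by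
  choose y0 h0 using id hne
  have hy := bs_mem h0 h
  have h1 := lv_lip (X := X) (hne := hne) i (apex i : Cone Y ρ) u
  rw [lv_apex, GS.d_comm] at h1
  have h2 := d_vert (X := X) (hne := hne) (ρ := ρ) i _ hy (k := lv i u) (k' := ρ + 1)
    ((lv_le_lev i u).trans (lev_le u)) le_rfl
  rw [← eq_mk h hy, mk_top] at h2
  have := (lv_le_lev i u).trans (lev_le u)
  omega

theorem d_base_apex {i : I} {y : V} (hy : y ∈ Y i) :
    (space X hne ρ).d (base y) (apex i) ≤ ρ + 1 := by
  have h2 := d_vert (X := X) (hne := hne) (ρ := ρ) i _ hy (k := 0) (k' := ρ + 1) (by omega) le_rfl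
  rwa [mk_zero, mk_top] at h2

/-- Distortion of the base space below the apices. -/
theorem distort {y0 : I → V} {B : ℕ} (hB : B ≤ ρ) (u v : Cone Y ρ)
    (h : lev u + (space X hne ρ).d u v ≤ B) :
    X.d (bs y0 u) (bs y0 v) ≤ (space X hne ρ).d u v * 2 ^ B := by
  have key : ∀ n (u v : Cone Y ρ), Steps (Adj X) n u v → lev u + n ≤ B →
      X.d (bs y0 u) (bs y0 v) ≤ n * 2 ^ B := by
    intro n u v h
    induction h with
    | refl => simp [X.d_self]
    | @cons n a b c hr _ ih =>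
      intro hl
      have h1 : lev b ≤ lev a + 1 := by
        have := lev_lip (X := X) (hne := hne) b a
        have := graphGS_adj (hs := fun _ _ => Adj.symm) (hc := conn hne) hr.symm
        unfold space at *
        omega
      have h2 := hr.bs_le (y0 := y0) hB (by omega) (by omega)
      have h3 := ih (by omega)
      have h4 := X.d_tri (bs y0 a) (bs y0 b) (bs y0 c)
      rw [Nat.succ_mul]
      omega
  exact key _ u v (steps_gd (conn hne) u v) h

/-- Geodesics near an apex which avoid it. -/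
theorem avoid_le {y0 : I → V} (i : I) (n : ℕ) : ∀ a b : Cone Y ρ, (space X hne ρ).d a b = n →
    (space X hne ρ).d (apex i) a + n ≤ ρ → ¬ (space X hne ρ).Btw a (apex i) b →
    X.d (bs y0 a) (bs y0 b) ≤ n * 2 ^ ρ := by
  have low : ∀ a : Cone Y ρ, (space X hne ρ).d (apex i) a ≤ ρ → a ≠ apex i → lev a ≤ ρ := by
    intro a h1 h2
    have h3 := lv_lip (X := X) (hne := hne) i (apex i : Cone Y ρ) a
    rw [lv_apex] at h3
    have h4 := lv_eq_lev (i := i) (u := a) (by omega)
    have h5 := lev_le a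
    by_contra hc
    exact h2 (eq_apex (by omega))
  induction n with
  | zero =>
    intro a b h _ _
    rw [GS.d_zero _ _ _ h, X.d_self]
    omega
  | succ n ih =>
    intro a b h hl hb
    obtain ⟨m, bm, dm⟩ := GS.exists_btw (X := space X hne ρ) a b 1 (by omega)
    have bm' : (space X hne ρ).d a m + (space X hne ρ).d m b = (space X hne ρ).d a b := bm
    have t := (space X hne ρ).d_tri (apex i) a m
    have h1 := ih m b (by omega) (by omega) fun hc => hb (bm.trans_right hc).1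
    have h2 := (graphGS_one dm).bs_le (y0 := y0) le_rfl
      (low a (by omega) fun e => hb (e ▸ GS.btw_left _ _))
      (low m (by omega) fun e => hb (e ▸ bm))
    have h4 := X.d_tri (bs y0 a) (bs y0 m) (bs y0 b)
    rw [Nat.succ_mul]
    omega

/-! The action of a group. -/

/-- Equivariant families. -/
class EqFam (G : Type) [Group G] {V I : Type} [MulAction G V] [MulAction G I] (Y : I → Set V) :
    Prop where
  smul_mem : ∀ (g : G) i y, y ∈ Y i → g • y ∈ Y (g • i)

section action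

variable {G : Type} [Group G] [MulAction G V] [MulAction G I] [EqFam G Y]

/-- The action on the vertices. -/
def act (g : G) : Cone Y ρ → Cone Y ρ
  | base x => base (g • x)
  | hb i y k hy h1 h2 => hb (g • i) (g • y) k (EqFam.smul_mem g i y hy) h1 h2
  | apex i => apex (g • i)

instance : MulAction G (Cone Y ρ) where
  smul := act
  one_smul := fun u => by
    show act 1 u = u
    cases u <;> simp [act]
  mul_smul := fun g h u => by
    show act (g * h) u = act g (act h u)
    cases u <;> simp [act, mul_smul]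

theorem smul_base (g : G) (x : V) : g • (base x : Cone Y ρ) = base (g • x) := rfl

theorem smul_apex (g : G) (i : I) : g • (apex i : Cone Y ρ) = apex (g • i) := rfl

theorem smul_mk (g : G) (i : I) (y : V) (hy : y ∈ Y i) (k : ℕ) :
    g • (mk i y hy k : Cone Y ρ) = mk (g • i) (g • y) (EqFam.smul_mem g i y hy) k := by
  unfold mk
  split_ifs <;> rfl

theorem lev_smul (g : G) (u : Cone Y ρ) : lev (g • u) = lev u := by
  cases u <;> rfl

theorem lv_smul (g : G) (i : I) (u : Cone Y ρ) : lv (g • i) (g • u) = lv i u := by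
  cases u with
  | base x => rfl
  | hb j y k hy h1 h2 =>
    show lv (g • i) (act g _) = _
    simp only [act, lv]
    by_cases e : j = i
    · rw [if_pos e, if_pos (by rw [e])]
    · rw [if_neg e, if_neg fun e' => e (smul_left_cancel g e')]
  | apex j =>
    show lv (g • i) (act g _) = _
    simp only [act, lv]
    by_cases e : j = i
    · rw [if_pos e, if_pos (by rw [e])]
    · rw [if_neg e, if_neg fun e' => e (smul_left_cancel g e')]

theorem bs_smul (y0 : I → V) (g : G) {u : Cone Y ρ} (h : lev u ≤ ρ) :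
    bs y0 (g • u) = g • bs y0 u := by
  cases u with
  | base x => rfl
  | hb j y k hy h1 h2 => rfl
  | apex j => simp [lev] at h

theorem inv (hX : X.Inv G) : (space X hne ρ).Inv G := by
  refine graphGS_inv fun g u v h => ?_
  rcases h with ⟨x, y, rfl, rfl, h⟩ | ⟨i, y, y', hy, hy', k, k', rfl, rfl, h1, h2, h⟩
  · exact Or.inl ⟨g • x, g • y, rfl, rfl, by rwa [hX]⟩
  · refine Or.inr ⟨g • i, g • y, g • y', _, _, k, k', smul_mk _ _ _ _ _, smul_mk _ _ _ _ _,
      h1, h2, ?_⟩
    rcases h with ⟨rfl, h⟩ | ⟨rfl, h⟩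
    · exact Or.inl ⟨rfl, by rwa [hX]⟩
    · exact Or.inr ⟨rfl, h⟩

end action

end Cone

end Pool.Agent.Lib.MP_e0e7d6_al
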