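import Pool.Agent.Lib.MP_e0e7d6_al.Iface
import Pool.Agent.Lib.MP_e0e7d6_al.Cone

/-!
The family of primitive elements of small translation length.
-/

namespace Pool.Agent.Lib.MP_e0e7d6_al

section

variable {G V : Type} [Group G] [MulAction G V] {X : GS V} {δ A m p q : ℕ}

/-- Primitive elements of small translation length. -/
def Prim (X : GS V) (a : G) : Prop :=
  ¬ IsOfFinOrder a ∧ X.tau a ≤ 1 ∧ ∀ h, Commute h a → ∃ k : ℤ, h = a ^ k

theorem comm_conj_iff (g h a : G) : Commute h (g * a * g⁻¹) ↔ Commute (g⁻¹ * h * g) a := by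
  constructor
  · intro c
    have := c.map (MulAut.conj g⁻¹)
    simpa [mul_assoc] using this
  · intro c
    have := c.map (MulAut.conj g)
    simpa [mul_assoc] using this

theorem Prim.conj (Γ : Good G X δ A m p q) {a : G} (h : Prim X a) (g : G) :
    Prim X (g * a * g⁻¹) := by
  refine ⟨fun hf => h.1 ?_, by rw [Γ.tau_conj]; exact h.2.1, fun k c => ?_⟩
  · have := (MulAut.conj g⁻¹).toMonoidHom.isOfFinOrder hf
    simpa [mul_assoc] using this
  · obtain ⟨n, hn⟩ := h.2.2 _ ((comm_conj_iff g k a).1 c)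
    refine ⟨n, ?_⟩
    rw [conj_zpow, ← hn]
    group

theorem Prim.eq_or {a b : G} (ha : Prim X a) (hb : Prim X b)
    (c : Commute a b) : a = b ∨ a = b⁻¹ := by
  obtain ⟨k, hk⟩ := hb.2.2 a c
  obtain ⟨l, hl⟩ := ha.2.2 b c.symm
  have e : b ^ (k * l) = b ^ (1 : ℤ) := by rw [zpow_mul, ← hk, ← hl, zpow_one]
  have e2 : k * l = 1 := by
    have := injective_zpow_iff_not_isOfFinOrder.2 hb.1
    exact this e
  rcases Int.eq_one_or_neg_one_of_mul_eq_one e2 with rfl | rfl
  · exact Or.inl (by simpa using hk)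
  · exact Or.inr (by simpa using hk)

theorem exists_roots (Γ : Good G X δ A m p q) :
    ∃ (I : Type) (_ : MulAction G I) (r : I → G), Roots G X r := by
  let I := {E : Set G // ∃ a, Prim X a ∧ E = {h | Commute h a}}
  have hs : ∀ (g : G) (E : I), ∃ a, Prim X a ∧ {h | g⁻¹ * h * g ∈ E.1} = {h | Commute h a} := by
    rintro g ⟨E, a, ha, rfl⟩
    exact ⟨_, ha.conj Γ g, Set.ext fun h => (comm_conj_iff g h a).symm⟩
  let act : MulAction G I :=
    { smul := fun g E => ⟨{h | g⁻¹ * h * g ∈ E.1}, hs g E⟩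
      one_smul := fun E => Subtype.ext (Set.ext fun h => by
        show (1 : G)⁻¹ * h * 1 ∈ E.1 ↔ _
        simp)
      mul_smul := fun g k E => Subtype.ext (Set.ext fun h => by
        show (g * k)⁻¹ * h * (g * k) ∈ E.1 ↔ k⁻¹ * (g⁻¹ * h * g) * k ∈ E.1
        simp [mul_assoc]) }
  choose r hr he using fun E : I => E.2
  have ne1 : ∀ {a : G}, Prim X a → a ≠ 1 := fun ha e => ha.1 (e ▸ IsOfFinOrder.one)
  have mem : ∀ (E : I) h, h ∈ E.1 ↔ Commute h (r E) := fun E h => by rw [he E]; rfl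
  have smem : ∀ (g : G) (E : I) h, h ∈ (g • E).1 ↔ Commute h (g * r E * g⁻¹) := fun g E h => by
    rw [comm_conj_iff, ← mem]
    rfl
  have sep : ∀ i j : I, Commute (r i) (r j) → i = j := fun i j c =>
    Subtype.ext (Set.ext fun h => by
      rw [mem, mem]
      exact ⟨fun k => Γ.csa.trans' (ne1 (hr i)) k c, fun k => Γ.csa.trans' (ne1 (hr j)) k c.symm⟩)
  have cj : ∀ (g : G) (i : I), Commute (r (g • i)) (g * r i * g⁻¹) := fun g i =>
    (smem g i _).1 ((mem _ _).2 (Commute.refl _))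
  refine ⟨I, act, r, fun i => (hr i).1, fun i => (hr i).2.1, fun i => (hr i).2.2, fun g i => ?_,
    fun g i => (hr _).eq_or ((hr i).conj Γ g) (cj g i), sep, fun g gf hg => ?_⟩
  · constructor
    · intro e
      have := cj g i
      rw [e] at this
      exact (Γ.csa.mal _ g (ne1 (hr i)) this).symm
    · intro c
      apply sep
      have := cj g i
      rwa [c.eq, mul_inv_cancel_right] at this
  · obtain ⟨a, af, ca, ha⟩ := Γ.exists_root gf
    have a1 : a ≠ 1 := fun e => af (e ▸ IsOfFinOrder.one)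
    have pa : Prim X a := by
      refine ⟨af, ?_, fun h c => ha h (Γ.csa.trans' a1 ca c.symm)⟩
      obtain ⟨k, hk⟩ := ha g (Commute.refl g)
      have k0 : k ≠ 0 := by
        rintro rfl
        exact gf (by rw [hk, zpow_zero]; exact IsOfFinOrder.one)
      have t := Γ.tau_zpow a k
      rw [← hk] at t
      have k1 : (1 : ℝ) ≤ |(k : ℝ)| := by exact_mod_cast Int.one_le_abs k0
      have := GS.tau_nonneg (X := X) a
      nlinarith
    exact ⟨⟨_, a, pa, rfl⟩, (mem _ _).1 ca⟩

variable {I : Type} [MulAction G I] {r : I → G}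

theorem Roots.eqFam (hX : X.Inv G) (R : Roots G X r) : Cone.EqFam G (axis X r) := by
  refine ⟨fun g i y hy => ?_⟩
  show X.d _ _ ≤ 43
  rcases R.conj g i with e | e
  · rw [e, hX.disp_conj]
    exact hy
  · rw [e, hX.disp_inv, hX.disp_conj]
    exact hy

theorem Roots.qfam (Γ : Good G X 3 A m p q) (R : Roots G X r) :
    QFam X (axis X r) 25 (A + 21000) := by
  have ax : ∀ i, ∃ o, X.d o (r i • o) ≤ 37 := by
    intro i
    obtain ⟨x⟩ := Γ.ne
    obtain ⟨o, ho⟩ := Γ.hyp.exists_axis_point Γ.inv (by omega) x (r i)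
    have := R.small i
    refine ⟨o, ?_⟩
    have h : (X.d o (r i • o) : ℝ) ≤ 37 := by
      push_cast at ho
      linarith
    exact_mod_cast h
  refine ⟨by omega, Γ.hyp.mono (by omega), fun i => ?_, fun i y hy y' hy' z hz => ?_,
    fun i j hij z hz z' hz' h1 h2 => ?_⟩
  · obtain ⟨o, ho⟩ := ax i
    exact ⟨o, le_trans ho (by omega)⟩
  · obtain ⟨o, ho⟩ := ax i
    have h1 := Γ.hyp.mov_btw Γ.inv (r i) hz hy hy'
    obtain ⟨z', h2, h3⟩ := Γ.hyp.walk_down Γ.inv (r i) z o
    exact ⟨z', le_trans h3 (by omega), by omega⟩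
  · have k : ∀ z, (∃ y ∈ axis X r i, X.d z y ≤ 13 * 25) → X.d z (r i • z) ≤ 693 := by
      rintro z ⟨y, hy, hd⟩
      have := Γ.inv.disp_move (r i) y z
      have hy' : X.d y (r i • y) ≤ 43 := hy
      have := X.d_comm y z
      omega
    have hz1 : X.d z (r j • z) ≤ 43 := hz
    have hz2 : X.d z' (r j • z') ≤ 43 := hz'
    have := Γ.ovl' (D := 693) (fun c => hij (R.sep i j c)) (k z h1) (k z' h2) (by omega) (by omega)
    omega

end

end Pool.Agent.Lib.MP_e0e7d6_al
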