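import Pool.Agent.Lib.MP_e0e7d6_al.Defs

/-!
Passage to the direct limit of an increasing chain of quotients.
-/

namespace Pool.Agent.Lib.MP_e0e7d6_al

open Filter

section

variable {F : Type} [Group F] {G : ℕ → Type} [∀ k, Group (G k)]

/-- The union of the kernels of the stages. -/
def limKer (π : ∀ k, F →* G k) (hm : ∀ k f, π k f = 1 → π (k + 1) f = 1) : Subgroup F where
  carrier := {f | ∀ᶠ k in atTop, π k f = 1}
  one_mem' := Eventually.of_forall fun k => map_one (π k)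
  mul_mem' := by
    intro a b ha hb
    have := hm
    filter_upwards [ha, hb] with k h1 h2
    rw [map_mul, h1, h2, one_mul]
  inv_mem' := by
    intro a ha
    filter_upwards [ha] with k h1
    rw [map_inv, h1, inv_one]

theorem limKer_normal (π : ∀ k, F →* G k) (hm : ∀ k f, π k f = 1 → π (k + 1) f = 1) :
    (limKer π hm).Normal where
  conj_mem := by
    intro a ha g
    have ha' : ∀ᶠ k in atTop, π k a = 1 := ha
    show ∀ᶠ k in atTop, π k (g * a * g⁻¹) = 1
    filter_upwards [ha'] with k h1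
    rw [map_mul, map_mul, h1, map_inv]
    simp

theorem stage_mono (π : ∀ k, F →* G k) (hm : ∀ k f, π k f = 1 → π (k + 1) f = 1) {k l : ℕ}
    (hkl : k ≤ l) {f : F} (h : π k f = 1) : π l f = 1 := by
  induction l, hkl using Nat.le_induction with
  | base => exact h
  | succ l _ ih => exact hm l f ih

/-- A homomorphism whose kernel is the union of the kernels of the stages. -/
structure IsLim (π : ∀ k, F →* G k) {H : Type} [Group H] (ρ : F →* H) : Prop where
  surj : Function.Surjective ρ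
  down : ∀ f g : F, ρ f = ρ g → ∀ᶠ k in atTop, π k f = π k g
  up : ∀ k (f g : F), π k f = π k g → ρ f = ρ g

theorem exists_isLim (π : ∀ k, F →* G k) (hm : ∀ k f, π k f = 1 → π (k + 1) f = 1) :
    ∃ (H : Type) (_ : Group H) (ρ : F →* H), IsLim π ρ := by
  haveI := limKer_normal π hm
  refine ⟨F ⧸ limKer π hm, inferInstance, QuotientGroup.mk' _, QuotientGroup.mk'_surjective _,
    ?_, ?_⟩
  · intro f g h
    have h1 : f⁻¹ * g ∈ limKer π hm := QuotientGroup.eq.mp h
    have h2 : ∀ᶠ k in atTop, π k (f⁻¹ * g) = 1 := h1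
    filter_upwards [h2] with k hk
    rw [map_mul, map_inv] at hk
    exact inv_mul_eq_one.mp hk
  · intro k f g h
    apply QuotientGroup.eq.mpr
    show ∀ᶠ l in atTop, π l (f⁻¹ * g) = 1
    have h1 : π k (f⁻¹ * g) = 1 := by rw [map_mul, map_inv, h, inv_mul_cancel]
    filter_upwards [eventually_ge_atTop k] with l hl
    exact stage_mono π hm hl h1

namespace IsLim

variable {π : ∀ k, F →* G k} {H : Type} [Group H] {ρ : F →* H} (Λ : IsLim π ρ)
include Λ

theorem ne_one {f : F} (h : ρ f ≠ 1) (k : ℕ) : π k f ≠ 1 := by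
  intro e
  apply h
  rw [← map_one ρ]
  exact Λ.up k f 1 (by rw [e, map_one])

theorem one_down {f : F} (h : ρ f = 1) : ∀ᶠ k in atTop, π k f = 1 := by
  have := Λ.down f 1 (by rw [h, map_one])
  simpa using this

theorem one_up {k : ℕ} {f : F} (h : π k f = 1) : ρ f = 1 := by
  by_contra e
  exact Λ.ne_one e k h

theorem comm_down {f g : F} (h : Commute (ρ f) (ρ g)) :
    ∀ᶠ k in atTop, Commute (π k f) (π k g) := by
  have := Λ.down (f * g) (g * f) (by rw [map_mul, map_mul, h.eq])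
  filter_upwards [this] with k hk
  rw [map_mul, map_mul] at hk
  exact hk

theorem comm_up {k : ℕ} {f g : F} (h : Commute (π k f) (π k g)) : Commute (ρ f) (ρ g) := by
  have := Λ.up k (f * g) (g * f) (by rw [map_mul, map_mul, h.eq])
  rw [map_mul, map_mul] at this
  exact this

theorem dom_down {S : Fin 7 → F} (h : Dom fun i => ρ (S i)) (k : ℕ) :
    Dom fun i => π k (S i) :=
  ⟨fun c => h.1 (Λ.comm_up c), fun i => Λ.ne_one (h.2 i) k⟩

theorem fin_down {f : F} (h : IsOfFinOrder (ρ f)) : ∀ᶠ k in atTop, IsOfFinOrder (π k f) := by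
  obtain ⟨n, hn, e⟩ := isOfFinOrder_iff_pow_eq_one.mp h
  have := Λ.one_down (f := f ^ n) (by rw [map_pow, e])
  filter_upwards [this] with k hk
  rw [map_pow] at hk
  exact isOfFinOrder_iff_pow_eq_one.mpr ⟨n, hn, hk⟩

theorem mk_up (w : FreeGroup (Fin 7)) (L : Set Tm) {S : Fin 7 → F} :
    ∀ᶠ k in atTop, (Mk w L fun i => π k (S i)) → Mk w L fun i => ρ (S i) := by
  by_cases h : ρ (S 4) ≠ ρ (S 0) ∨ ρ (S 5) ≠ ρ (S 1)
  · exact Eventually.of_forall fun _ _ => Or.inl h
  · push Not at h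
    filter_upwards [Λ.down _ _ h.1, Λ.down _ _ h.2] with k h1 h2 hk
    rcases hk with (hk | hk) | ⟨t, ht, e1, e2⟩
    · exact absurd h1 hk
    · exact absurd h2 hk
    · refine Or.inr ⟨t, ht, ?_, ?_⟩
      · have := Λ.up k (S 2) ((val w (S 0) (S 1) t)⁻¹ * S 0 * val w (S 0) (S 1) t)
          (by rw [map_mul, map_mul, map_inv, map_val]; exact e1)
        rw [map_mul, map_mul, map_inv, map_val] at this
        exact this
      · have := Λ.up k (S 3) ((val w (S 0) (S 1) t)⁻¹ * S 1 * val w (S 0) (S 1) t)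
          (by rw [map_mul, map_mul, map_inv, map_val]; exact e2)
        rw [map_mul, map_mul, map_inv, map_val] at this
        exact this

theorem mk_down (w : FreeGroup (Fin 7)) (L : Set Tm) {S : Fin 7 → F}
    (h : Mk w L fun i => ρ (S i)) : ∀ᶠ k in atTop, Mk w L fun i => π k (S i) := by
  rcases h with (h | h) | ⟨t, ht, e1, e2⟩
  · exact Eventually.of_forall fun k => Or.inl (Or.inl fun e => h (Λ.up k _ _ e))
  · exact Eventually.of_forall fun k => Or.inl (Or.inr fun e => h (Λ.up k _ _ e))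
  · have h1 := Λ.down (S 2) ((val w (S 0) (S 1) t)⁻¹ * S 0 * val w (S 0) (S 1) t)
      (by rw [map_mul, map_mul, map_inv, map_val]; exact e1)
    have h2 := Λ.down (S 3) ((val w (S 0) (S 1) t)⁻¹ * S 1 * val w (S 0) (S 1) t)
      (by rw [map_mul, map_mul, map_inv, map_val]; exact e2)
    filter_upwards [h1, h2] with k k1 k2
    rw [map_mul, map_mul, map_inv, map_val] at k1 k2
    exact Or.inr ⟨t, ht, k1, k2⟩

theorem lift_tuple (S : Fin 7 → H) : ∃ T : Fin 7 → F, S = fun i => ρ (T i) := by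
  choose T hT using fun i => Λ.surj (S i)
  exact ⟨T, funext fun i => (hT i).symm⟩

theorem csa (hc : ∀ k, CSA (G k)) : CSA H where
  trans := by
    intro g a b g1 ha hb
    obtain ⟨g, rfl⟩ := Λ.surj g
    obtain ⟨a, rfl⟩ := Λ.surj a
    obtain ⟨b, rfl⟩ := Λ.surj b
    obtain ⟨k, k1, k2⟩ := ((Λ.comm_down ha).and (Λ.comm_down hb)).exists
    exact Λ.comm_up ((hc k).trans _ _ _ (Λ.ne_one g1 k) k1 k2)
  mal := by
    intro g h g1 c
    obtain ⟨g, rfl⟩ := Λ.surj g
    obtain ⟨h, rfl⟩ := Λ.surj h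
    rw [← map_inv, ← map_mul, ← map_mul] at c
    obtain ⟨k, k1⟩ := (Λ.comm_down c).exists
    rw [map_mul, map_mul, map_inv] at k1
    exact Λ.comm_up ((hc k).mal _ _ (Λ.ne_one g1 k) k1)

theorem rigid {w : FreeGroup (Fin 7)} {p q : ℕ} {L : Set Tm}
    (hs : ∀ k, Function.Surjective (π k)) (hr : ∀ k, Rigid w p q L (G k)) : Rigid w p q L H where
  nc := by
    intro S hS c
    obtain ⟨T, rfl⟩ := Λ.lift_tuple S
    rw [← map_ev] at c
    obtain ⟨k, k1⟩ := (Λ.comm_down c).exists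
    rw [map_ev] at k1
    exact (hr k).nc _ (Λ.dom_down hS k) k1
  rig := by
    intro S S' hS hS' c
    obtain ⟨T, rfl⟩ := Λ.lift_tuple S
    obtain ⟨T', rfl⟩ := Λ.lift_tuple S'
    rw [← map_ev, ← map_ev] at c
    obtain ⟨k, k1⟩ := (Λ.comm_down c).exists
    rw [map_ev, map_ev] at k1
    obtain ⟨h, hh⟩ := (hr k).rig _ _ (Λ.dom_down hS k) (Λ.dom_down hS' k) k1
    obtain ⟨h, rfl⟩ := hs k h
    refine ⟨ρ h, fun i => ?_⟩
    have := Λ.up k (T' i) (h⁻¹ * T i * h) (by rw [map_mul, map_mul, map_inv]; exact hh i)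
    rw [map_mul, map_mul, map_inv] at this
    exact this
  marked := by
    intro S hS hf hm
    obtain ⟨T, rfl⟩ := Λ.lift_tuple S
    rw [← map_ev] at hf ⊢
    obtain ⟨k, k1, k2⟩ := ((Λ.fin_down hf).and (Λ.mk_down w L hm)).exists
    rw [map_ev] at k1
    have := (hr k).marked _ (Λ.dom_down hS k) k1 k2
    rw [← map_ev, ← map_pow] at this
    rw [← map_pow]
    exact Λ.one_up this
  unmarked := by
    intro S hS hf hm
    obtain ⟨T, rfl⟩ := Λ.lift_tuple S
    rw [← map_ev] at hf ⊢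
    obtain ⟨k, k1, k2⟩ := ((Λ.fin_down hf).and (Λ.mk_up w L (S := T))).exists
    rw [map_ev] at k1
    have := (hr k).unmarked _ (Λ.dom_down hS k) k1 fun e => hm (k2 e)
    rw [← map_ev, ← map_pow] at this
    rw [← map_pow]
    exact Λ.one_up this

end IsLim

end

theorem limit_monster (w : FreeGroup (Fin 7)) (p q : ℕ) (L : Set Tm) {F : Type} [Group F]
    (hF : Group.FG F) (a b : F) (G : ℕ → Type) [∀ k, Group (G k)] (π : ∀ k, F →* G k)
    (hs : ∀ k, Function.Surjective (π k)) (hm : ∀ k f, π k f = 1 → π (k + 1) f = 1)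
    (hc : ∀ k, CSA (G k)) (hr : ∀ k, Rigid w p q L (G k))
    (hab : ∀ k, ¬ Commute (π k a) (π k b)) (he : ∀ f, ∃ k, π k f ^ (p * q) = 1) :
    ∃ (H : Type) (_ : Group H), Group.FG H ∧ CSA H ∧ (∀ g : H, g ^ (p * q) = 1) ∧
      (∃ x y : H, ¬ Commute x y) ∧ Rigid w p q L H := by
  obtain ⟨H, _, ρ, Λ⟩ := exists_isLim π hm
  refine ⟨H, inferInstance, ?_, Λ.csa hc, ?_, ⟨ρ a, ρ b, ?_⟩, Λ.rigid hs hr⟩
  · haveI := hF
    exact Group.fg_of_surjective Λ.surj
  · intro g
    obtain ⟨f, rfl⟩ := Λ.surj g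
    obtain ⟨k, hk⟩ := he f
    rw [← map_pow] at hk ⊢
    exact Λ.one_up hk
  · intro c
    obtain ⟨k, hk⟩ := (Λ.comm_down c).exists
    exact hab k hk

end Pool.Agent.Lib.MP_e0e7d6_al
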