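import Pool.Agent.Lib.MP_e0e7d6_al.Block

/-!
A word whose value has large translation length on every tuple of large joint displacement.
-/

namespace Pool.Agent.Lib.MP_e0e7d6_al

namespace Alpha

section geom

variable {G V : Type} [Group G] [MulAction G V] {X : GS V} {δ A m p q : ℕ}

theorem bc_mono {x : ℕ → V} {σ : ℕ → G} {r l l' : ℕ} (B : BC X x σ r l) (h : l' ≤ l) :
    BC X x σ r l' :=
  ⟨B.left, B.right, B.nc, fun j => h.trans (B.long j)⟩

/-- periodic products of long blocks have large translation length -/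
theorem tau_blocks (Γ : Good G X δ A m p q) (o : V) (g e s : ℕ → G) (k R l : ℕ)
    (hR : A + δ ≤ R) (hg : ∀ j, g (j + k) = g j) (he' : ∀ j, e (j + k) = e j)
    (hs : ∀ j, X.d o (s j • o) ≤ R) (he : ∀ j, X.d o (e j • o) ≤ R)
    (hc : ∀ j, Commute (g j) (s j)) (hn : ∀ j, ¬ Commute (s j) (e j * s (j + 1) * (e j)⁻¹))
    (hl : ∀ j, l + 1801 * R ≤ X.d o (g j • o)) : ((l * k : ℕ) : ℝ) ≤ X.tau (pre g e k) := by
  have B := bc_of_blocks Γ.inv o g e s R (l + 600 * (3 * R)) hs he hc hn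
    (fun j => by have := hl j; omega)
  refine BC.tau Γ B (by omega) fun n => ?_
  have := pre_period k hg he' n 0
  simp only [Nat.add_zero] at this
  rw [this, mul_smul]

/-- one block and one connector -/
theorem one_block (Γ : Good G X δ A m p q) (o : V) {g s z : G} {R l : ℕ} (hR : A + δ ≤ R)
    (s1 : s ≠ 1) (hc : Commute g s) (hs : X.d o (s • o) ≤ R) (hz : X.d o (z • o) ≤ R)
    (hl : ((l + 1801 * R : ℕ) : ℝ) ≤ X.tau g) : (l : ℝ) ≤ X.tau (g * z) := by
  by_cases c : Commute s z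
  · have c2 : Commute g z := Γ.csa.trans s g z s1 hc.symm c
    have h1 := Γ.tau_mul_le (g := g * z) (h := z⁻¹) (c2.mul_left (Commute.refl z)).inv_right
    rw [mul_inv_cancel_right, Γ.tau_inv] at h1
    have h2 := GS.tau_le_disp (X := X) z o
    have h3 : (X.d o (z • o) : ℝ) ≤ R := by exact_mod_cast hz
    have h4 : (0 : ℝ) ≤ R := by positivity
    push_cast at hl
    linarith
  · have h := tau_blocks Γ o (fun _ => g) (fun _ => z) (fun _ => s) 1 R l hR (fun _ => rfl)
      (fun _ => rfl) (fun _ => hs) (fun _ => hz) (fun _ => hc)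
      (fun _ c' => c (Γ.csa.mal s z s1 c')) (fun _ => by
        have := hl.trans (GS.tau_le_disp (X := X) g o)
        exact_mod_cast this)
    simpa [pre] using h

/-- two blocks -/
theorem two_blocks (Γ : Good G X δ A m p q) (o : V) {g h s t : G} {R l : ℕ} (hR : A + δ ≤ R)
    (hst : ¬ Commute s t) (hg : Commute g s) (hh : Commute h t) (hs : X.d o (s • o) ≤ R)
    (ht : X.d o (t • o) ≤ R) (lg : l + 1801 * R ≤ X.d o (g • o))
    (lh : l + 1801 * R ≤ X.d o (h • o)) : (l : ℝ) ≤ X.tau (g * h) := by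
  have key := tau_blocks Γ o (fun j => if j % 2 = 0 then g else h) (fun _ => 1)
    (fun j => if j % 2 = 0 then s else t) 2 R l hR (fun j => by simp) (fun _ => rfl)
    (fun j => by split_ifs <;> assumption) (fun _ => by rw [one_smul, X.d_self]; omega)
    (fun j => by split_ifs <;> assumption)
    (fun j => by
      rcases Nat.mod_two_eq_zero_or_one j with e | e
      · have e' : (j + 1) % 2 ≠ 0 := by omega
        simpa [e, e'] using hst
      · have e' : (j + 1) % 2 = 0 := by omega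
        simpa [e, e'] using fun c : Commute t s => hst c.symm)
    (fun j => by split_ifs <;> assumption)
  have e : pre (fun j => if j % 2 = 0 then g else h) (fun _ => (1 : G)) 2 = g * h := by
    simp [pre]
  rw [e] at key
  push_cast at key
  have : (0 : ℝ) ≤ l := by positivity
  linarith

theorem ne_one_of_tau (Γ : Good G X δ A m p q) {g : G} (h : 0 < X.tau g) : g ≠ 1 := by
  rintro rfl
  rw [Γ.tau_one] at h
  exact lt_irrefl _ h

end geom

/-- the amplification step -/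
theorem step (n : ℕ) : ∃ M : ℕ, ∀ (G V : Type) [Group G] [MulAction G V] (X : GS V)
    (δ A m p q : ℕ), Good G X δ A m p q → ∀ (u v : G) (o : V) (R : ℕ), A + δ ≤ R →
      X.d o (u • o) ≤ n * R → X.d o (v • o) ≤ 4 * R →
      ((10000 * R : ℝ) ≤ X.tau u ∨ ((R : ℝ) ≤ 3 * X.tau v ∧ (¬ Commute u v ∨ u = 1))) →
      (10000 * R : ℝ) ≤ X.tau (u ^ M * v ^ M) := by
  obtain ⟨M, hM⟩ : ∃ M, M = 3 * (10000 + 1801 * (11801 * (n + 4))) := ⟨_, rfl⟩
  refine ⟨M, ?_⟩
  intro G V _ _ X δ A m p q Γ u v o R hR hu hv h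
  have hδ := Γ.one_le
  have R0 : (0 : ℝ) < R := by exact_mod_cast (by omega : 0 < R)
  have cast : ((10000 * R : ℕ) : ℝ) = 10000 * R := by push_cast; ring
  rcases h with h | ⟨h, h'⟩
  · have u1 : u ≠ 1 := ne_one_of_tau Γ (by linarith)
    have hz : X.d o (v ^ M • o) ≤ 4 * M * R := by
      have := Γ.inv.disp_pow v o M
      nlinarith
    have hn : n ≤ 4 * M := by omega
    have hs : X.d o (u • o) ≤ 4 * M * R := hu.trans (Nat.mul_le_mul_right R hn)
    have hR' : A + δ ≤ 4 * M * R := by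
      have : 1 ≤ 4 * M := by omega
      nlinarith
    rw [← cast]
    refine one_block Γ o hR' u1 ((Commute.refl u).pow_left M) hs hz ?_
    rw [Γ.tau_pow]
    have hM4 : (4 : ℝ) ≤ M := by exact_mod_cast (by omega : 4 ≤ M)
    have h1 : (M : ℝ) * (10000 * R) ≤ M * X.tau u :=
      mul_le_mul_of_nonneg_left h (by positivity)
    push_cast
    nlinarith
  · have v1 : v ≠ 1 := ne_one_of_tau Γ (by linarith)
    have hvM : (((10000 + 1801 * (11801 * (n + 4))) * R : ℕ) : ℝ) ≤ X.tau (v ^ M) := by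
      rw [Γ.tau_pow, hM]
      push_cast
      have : (0 : ℝ) ≤ 10000 + 1801 * (11801 * ((n : ℝ) + 4)) := by positivity
      nlinarith
    rcases h' with h' | rfl
    · have hu' : X.d o (u • o) ≤ (n + 4) * R := by nlinarith
      have hv' : X.d o (v • o) ≤ (n + 4) * R := by nlinarith
      have hR' : A + δ ≤ (n + 4) * R := by nlinarith
      by_cases hA : 11801 * ((n + 4) * R) ≤ X.d o (u ^ M • o)
      · rw [← cast]
        refine two_blocks Γ o hR' h' ((Commute.refl u).pow_left M) ((Commute.refl v).pow_left M)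
          hu' hv' (by nlinarith) ?_
        have h2 := hvM.trans (GS.tau_le_disp (X := X) (v ^ M) o)
        have h3 : (10000 + 1801 * (11801 * (n + 4))) * R ≤ X.d o (v ^ M • o) := by
          exact_mod_cast h2
        nlinarith
      · rw [Γ.tau_mul_comm, ← cast]
        refine one_block Γ o (R := 11801 * ((n + 4) * R)) (by omega) v1
          ((Commute.refl v).pow_left M) (by omega) (by omega) ?_
        refine le_trans (le_of_eq ?_) hvM
        push_cast
        ring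
    · rw [one_pow, one_mul]
      refine le_trans ?_ hvM
      push_cast
      have : (0 : ℝ) ≤ 1801 * (11801 * ((n : ℝ) + 4)) * R := by positivity
      nlinarith

theorem ev_mul {G : Type} [Group G] (u v : FreeGroup (Fin 7)) (S : Fin 7 → G) :
    ev (u * v) S = ev u S * ev v S := map_mul (FreeGroup.lift S) u v

theorem ev_inv {G : Type} [Group G] (u : FreeGroup (Fin 7)) (S : Fin 7 → G) :
    ev u⁻¹ S = (ev u S)⁻¹ := map_inv (FreeGroup.lift S) u

theorem ev_pow {G : Type} [Group G] (u : FreeGroup (Fin 7)) (n : ℕ) (S : Fin 7 → G) :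
    ev (u ^ n) S = ev u S ^ n := map_pow (FreeGroup.lift S) u n

theorem ev_of {G : Type} [Group G] (i : Fin 7) (S : Fin 7 → G) :
    ev (FreeGroup.of i) S = S i := FreeGroup.lift_apply_of

/-- three steps realise a disjunction -/
theorem or3 (u v : FreeGroup (Fin 7)) : ∃ u' : FreeGroup (Fin 7),
    ∀ (G V : Type) [Group G] [MulAction G V] (X : GS V) (δ A m p q : ℕ), Good G X δ A m p q →
      ∀ (S : Fin 7 → G) (o : V) (R : ℕ), Dom S → (∀ i, X.d o (S i • o) ≤ R) → A + δ ≤ R →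
      X.d o (ev v S • o) ≤ 2 * R →
      ((10000 * R : ℝ) ≤ X.tau (ev u S) ∨ (R : ℝ) ≤ 3 * X.tau (ev v S)) →
      (10000 * R : ℝ) ≤ X.tau (ev u' S) := by
  obtain ⟨M1, h1⟩ := step u.norm
  let u1 := u ^ M1 * v ^ M1
  obtain ⟨M2, h2⟩ := step u1.norm
  let u2 := u1 ^ M2 * (FreeGroup.of 0 * v * (FreeGroup.of 0)⁻¹) ^ M2
  obtain ⟨M3, h3⟩ := step u2.norm
  refine ⟨u2 ^ M3 * (FreeGroup.of 1 * v * (FreeGroup.of 1)⁻¹) ^ M3, ?_⟩
  intro G V _ _ X δ A m p q Γ S o R hD hS hR hv h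
  have hδ := Γ.one_le
  have R0 : (0 : ℝ) < R := by exact_mod_cast (by omega : 0 < R)
  have e1 : ev u1 S = ev u S ^ M1 * ev v S ^ M1 := by simp only [u1, ev_mul, ev_pow]
  have e2 : ev u2 S = ev u1 S ^ M2 * (S 0 * ev v S * (S 0)⁻¹) ^ M2 := by
    simp only [u2, ev_mul, ev_pow, ev_inv, ev_of]
  simp only [ev_mul, ev_pow, ev_inv, ev_of]
  have hconj : ∀ i, X.d o ((S i * ev v S * (S i)⁻¹) • o) ≤ 4 * R := by
    intro i
    have a1 := Γ.inv.disp_mul (S i * ev v S) (S i)⁻¹ o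
    have a2 := Γ.inv.disp_mul (S i) (ev v S) o
    have a3 := Γ.inv.disp_inv (S i) o
    have := hS i
    omega
  have s1 := h1 G V X δ A m p q Γ (ev u S) (ev v S) o R hR (disp_ev Γ.inv u hS) (by omega)
  have s2 := h2 G V X δ A m p q Γ (ev u1 S) _ o R hR (disp_ev Γ.inv u1 hS) (hconj 0)
  have s3 := h3 G V X δ A m p q Γ (ev u2 S) _ o R hR (disp_ev Γ.inv u2 hS) (hconj 1)
  rw [← e1] at s1
  rw [← e2] at s2
  rcases h with h | h
  · exact s3 (Or.inl (s2 (Or.inl (s1 (Or.inl h)))))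
  have v1 : ev v S ≠ 1 := ne_one_of_tau Γ (by linarith)
  by_cases c1 : ¬ Commute (ev u S) (ev v S)
  · exact s3 (Or.inl (s2 (Or.inl (s1 (Or.inr ⟨h, Or.inl c1⟩)))))
  rw [not_not] at c1
  have k1 : Commute (ev u1 S) (ev v S) := by
    rw [e1]
    exact (c1.pow_left _).mul_left ((Commute.refl _).pow_left _)
  by_cases c2 : ¬ Commute (ev u1 S) (S 0 * ev v S * (S 0)⁻¹) ∨ ev u1 S = 1
  · exact s3 (Or.inl (s2 (Or.inr ⟨by rwa [Γ.tau_conj], c2⟩)))
  rw [not_or, not_not] at c2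
  have ka : Commute (ev v S) (S 0) :=
    Γ.csa.mal _ _ v1 (Γ.csa.trans _ _ _ c2.2 k1 c2.1)
  have k2 : Commute (ev u2 S) (ev v S) := by
    rw [e2]
    exact (k1.pow_left _).mul_left
      ((((ka.symm.mul_left (Commute.refl _)).mul_left ka.symm.inv_left)).pow_left _)
  refine s3 (Or.inr ⟨by rwa [Γ.tau_conj], ?_⟩)
  by_contra c3
  rw [not_or, not_not] at c3
  have kb : Commute (ev v S) (S 1) :=
    Γ.csa.mal _ _ v1 (Γ.csa.trans _ _ _ c3.2 k2 c3.1)
  exact hD.1 (Γ.csa.trans _ _ _ v1 ka kb)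

theorem fold (l : List (Fin 7 × Fin 7)) : ∃ u : FreeGroup (Fin 7),
    ∀ (G V : Type) [Group G] [MulAction G V] (X : GS V) (δ A m p q : ℕ), Good G X δ A m p q →
      ∀ (S : Fin 7 → G) (o : V) (R : ℕ), Dom S → (∀ i, X.d o (S i • o) ≤ R) → A + δ ≤ R →
      (∃ ij ∈ l, (R : ℝ) ≤ 3 * X.tau (S ij.1) ∨ (R : ℝ) ≤ 3 * X.tau (S ij.1 * S ij.2)) →
      (10000 * R : ℝ) ≤ X.tau (ev u S) := by
  induction l with
  | nil => exact ⟨1, fun G V _ _ X δ A m p q Γ S o R _ _ _ h => by simp at h⟩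
  | cons ij l ih =>
    obtain ⟨u, hu⟩ := ih
    obtain ⟨u1, h1⟩ := or3 u (FreeGroup.of ij.1)
    obtain ⟨u2, h2⟩ := or3 u1 (FreeGroup.of ij.1 * FreeGroup.of ij.2)
    refine ⟨u2, fun G V _ _ X δ A m p q Γ S o R hD hS hR h => ?_⟩
    have s1 := h1 G V X δ A m p q Γ S o R hD hS hR (by
      rw [ev_of]
      have := hS ij.1
      omega)
    have s2 := h2 G V X δ A m p q Γ S o R hD hS hR (by
      rw [ev_mul, ev_of, ev_of]
      have := Γ.inv.disp_mul (S ij.1) (S ij.2) o
      have := hS ij.1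
      have := hS ij.2
      omega)
    rw [ev_of] at s1
    rw [ev_mul, ev_of, ev_of] at s2
    obtain ⟨kl, hkl, h⟩ := h
    rcases List.mem_cons.1 hkl with rfl | hkl
    · rcases h with h | h
      · exact s2 (Or.inl (s1 (Or.inr h)))
      · exact s2 (Or.inr h)
    · exact s2 (Or.inl (s1 (Or.inl (hu G V X δ A m p q Γ S o R hD hS hR ⟨kl, hkl, h⟩))))

/-- a product of two commutators with a high power -/
theorem final (n : ℕ) : ∃ N : ℕ, ∀ (G V : Type) [Group G] [MulAction G V] (X : GS V)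
    (δ A m p q : ℕ), Good G X δ A m p q → ∀ (u a b : G) (o : V) (R : ℕ), A + δ ≤ R →
      X.d o (u • o) ≤ n * R → X.d o (a • o) ≤ R → X.d o (b • o) ≤ R →
      (R : ℝ) ≤ X.tau u → ¬ Commute u a → ¬ Commute u b →
      (2 * R : ℝ) ≤ X.tau ((u ^ N * a * (u ^ N)⁻¹ * a⁻¹) * (u ^ N * b * (u ^ N)⁻¹ * b⁻¹)) ∧
      ∀ h : G, h ≠ 1 → X.d o (h • o) ≤ R →
        ¬ Commute h ((u ^ N * a * (u ^ N)⁻¹ * a⁻¹) * (u ^ N * b * (u ^ N)⁻¹ * b⁻¹)) := by
  obtain ⟨N, hN⟩ : ∃ N, N = 200000 * (n + 1) := ⟨_, rfl⟩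
  refine ⟨N, ?_⟩
  intro G V _ _ X δ A m p q Γ u a b o R hR hu ha hb ht ca cb
  have hδ := Γ.one_le
  have R0 : (0 : ℝ) < R := by exact_mod_cast (by omega : 0 < R)
  have u1 : u ≠ 1 := ne_one_of_tau Γ (by linarith)
  let g : ℕ → G := fun j => if j % 2 = 0 then u ^ N else (u ^ N)⁻¹
  let e : ℕ → G := fun j =>
    if j % 4 = 0 then a else if j % 4 = 1 then a⁻¹ else if j % 4 = 2 then b else b⁻¹
  have eP : pre g e 4 = (u ^ N * a * (u ^ N)⁻¹ * a⁻¹) * (u ^ N * b * (u ^ N)⁻¹ * b⁻¹) := by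
    simp [pre, g, e, mul_assoc]
  have gp : ∀ j, g (j + 4) = g j := fun j => by
    have : (j + 4) % 2 = j % 2 := by omega
    simp only [g, this]
  have ep : ∀ j, e (j + 4) = e j := fun j => by simp [e]
  have hR' : R ≤ (n + 1) * R := by nlinarith
  have hs : ∀ _ : ℕ, X.d o (u • o) ≤ (n + 1) * R := fun _ => by nlinarith
  have he : ∀ j, X.d o (e j • o) ≤ (n + 1) * R := fun j => by
    have := Γ.inv.disp_inv a o
    have := Γ.inv.disp_inv b o
    simp only [e]
    split_ifs <;> omega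
  have hc : ∀ j, Commute (g j) u := fun j => by
    simp only [g]
    split_ifs
    · exact (Commute.refl u).pow_left N
    · exact ((Commute.refl u).pow_left N).inv_left
  have hn : ∀ j, ¬ Commute u (e j * u * (e j)⁻¹) := fun j c => by
    have c' := Γ.csa.mal u _ u1 c
    simp only [e] at c'
    split_ifs at c'
    · exact ca c'
    · exact ca (Commute.inv_right_iff.1 c')
    · exact cb c'
    · exact cb (Commute.inv_right_iff.1 c')
  have hl : ∀ j, 200000 * ((n + 1) * R) ≤ X.d o (g j • o) := fun j => by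
    have h1 := GS.tau_mul_le_disp (X := X) u o N
    have h2 : ((200000 * ((n + 1) * R) : ℕ) : ℝ) ≤ X.d o (u ^ N • o) := by
      refine le_trans ?_ h1
      rw [hN]
      push_cast
      have : (0 : ℝ) ≤ 200000 * ((n : ℝ) + 1) := by positivity
      nlinarith
    have h3 : 200000 * ((n + 1) * R) ≤ X.d o (u ^ N • o) := by exact_mod_cast h2
    have := Γ.inv.disp_inv (u ^ N) o
    simp only [g]
    split_ifs <;> omega
  rw [← eP]
  constructor
  · have key := tau_blocks Γ o g e (fun _ => u) 4 ((n + 1) * R) R (by omega) gp ep hs he hc hn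
      (fun j => by have := hl j; omega)
    push_cast at key
    linarith
  · intro h h1 hh c
    have B := bc_of_blocks Γ.inv o g e (fun _ => u) ((n + 1) * R) (199999 * ((n + 1) * R))
      hs he hc hn (fun j => by have := hl j; omega)
    have key := BC.cent Γ B (by omega) (by omega) (k := 4) (by omega) (P := pre g e 4)
      (fun n => by
        have := pre_period 4 gp ep n 0
        simp only [Nat.add_zero] at this
        rw [this, mul_smul]) h1 c
    have h2 := GS.tau_le_disp (X := X) h o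
    have h3 : (X.d o (h • o) : ℝ) ≤ R := by exact_mod_cast hh
    have h4 : (R : ℝ) ≤ (((n + 1) * R : ℕ) : ℝ) := by exact_mod_cast hR'
    generalize (n + 1) * R = T at key h4
    push_cast at key
    linarith

end Alpha

open Alpha in
theorem exists_alpha : ∃ (α : FreeGroup (Fin 7)) (c : ℕ),
    (∀ (H : Type) [Group H] (z : H), ev α ![1, 1, 1, 1, 1, 1, z] = 1) ∧
    ∀ (G V : Type) [Group G] [MulAction G V] (X : GS V) (δ A m p q : ℕ), Good G X δ A m p q →
      ∀ (S : Fin 7 → G) (o : V) (R : ℕ), Dom S → (∀ i, X.d o (S i • o) ≤ R) → Big X S R →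
        c * (A + δ) ≤ R → (R : ℝ) ≤ X.tau (ev α S) ∧ ∀ i, ¬ Commute (ev α S) (S i) := by
  obtain ⟨u, hu⟩ := fold (Finset.univ : Finset (Fin 7 × Fin 7)).toList
  obtain ⟨N, hN⟩ := final u.norm
  refine ⟨(u ^ N * FreeGroup.of 0 * (u ^ N)⁻¹ * (FreeGroup.of 0)⁻¹) *
    (u ^ N * FreeGroup.of 1 * (u ^ N)⁻¹ * (FreeGroup.of 1)⁻¹), 120, fun H _ z => ?_, ?_⟩
  · simp [ev_mul, ev_inv, ev_of]
  intro G V _ _ X δ A m p q Γ S o R hD hS hB hR
  have hδ := Γ.one_le
  have R0 : (0 : ℝ) < R := by exact_mod_cast (by omega : 0 < R)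
  have hR' : A + δ ≤ R := by omega
  have hδR : (120 * δ : ℝ) ≤ R := by exact_mod_cast (by omega : 120 * δ ≤ R)
  obtain ⟨i, j, hij⟩ := Γ.hyp.joint Γ.inv hδ hS hB
  have good := hu G V X δ A m p q Γ S o R hD hS hR'
    ⟨(i, j), by simp, hij.imp (fun h => by
      have := GS.tau_nonneg (X := X) (S i)
      linarith) (fun h => by
      have := GS.tau_nonneg (X := X) (S i * S j)
      linarith)⟩
  have ht : (R : ℝ) ≤ X.tau (ev u S) := by linarith
  have u1 : ev u S ≠ 1 := ne_one_of_tau Γ (by linarith)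
  have F := fun a b => hN G V X δ A m p q Γ (ev u S) a b o R hR' (disp_ev Γ.inv u hS)
  simp only [ev_mul, ev_pow, ev_inv, ev_of]
  have triv : ∀ a : G, Commute (ev u S) a → ev u S ^ N * a * (ev u S ^ N)⁻¹ * a⁻¹ = 1 := by
    intro a c
    rw [(c.pow_left N).eq]
    group
  have sq : ∀ a : G, X.d o (a • o) ≤ R → ¬ Commute (ev u S) a →
      (R : ℝ) ≤ X.tau (ev u S ^ N * a * (ev u S ^ N)⁻¹ * a⁻¹) ∧
        ∀ i, ¬ Commute (ev u S ^ N * a * (ev u S ^ N)⁻¹ * a⁻¹) (S i) := by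
    intro a ha c
    obtain ⟨f1, f2⟩ := F a a ha ha ht c c
    rw [← pow_two, Γ.tau_pow] at f1
    refine ⟨by push_cast at f1; linarith, fun i ci => f2 (S i) (hD.2 i) (hS i) ?_⟩
    exact ci.symm.mul_right ci.symm
  by_cases c0 : Commute (ev u S) (S 0)
  · have c1 : ¬ Commute (ev u S) (S 1) := fun c1 => hD.1 (Γ.csa.trans _ _ _ u1 c0 c1)
    rw [triv _ c0, one_mul]
    exact sq _ (hS 1) c1
  by_cases c1 : Commute (ev u S) (S 1)
  · rw [triv _ c1, mul_one]
    exact sq _ (hS 0) c0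
  obtain ⟨f1, f2⟩ := F (S 0) (S 1) (hS 0) (hS 1) ht c0 c1
  exact ⟨by linarith, fun i ci => f2 (S i) (hD.2 i) (hS i) ci.symm⟩

end Pool.Agent.Lib.MP_e0e7d6_al
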