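import Pool.Agent.Lib.MP_e0e7d6_al.Good

/-!
The base of the induction: the free group of rank two acting on its Cayley tree through the
substitution of `l`-th powers of the generators.
-/

namespace Pool.Agent.Lib.MP_e0e7d6_al

open FreeGroup

namespace Base

/-- Length of the longest common initial segment. -/
def cp {β : Type} [DecidableEq β] : List β → List β → ℕ
  | a :: s, b :: t => if a = b then cp s t + 1 else 0
  | _, _ => 0

theorem cp_min {β : Type} [DecidableEq β] :
    ∀ s u t : List β, cp s u ≤ cp s t ∨ cp t u ≤ cp s t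
  | [], _, _ => Or.inl (by simp [cp])
  | _ :: _, [], _ => Or.inl (by simp [cp])
  | _ :: _, _ :: _, [] => Or.inr (by simp [cp])
  | a :: s, c :: u, b :: t => by
    have := cp_min s u t
    simp only [cp]
    by_cases h1 : a = c
    · by_cases h2 : b = c
      · rw [if_pos h1, if_pos h2, if_pos (h1.trans h2.symm)]; omega
      · rw [if_neg h2]; omega
    · rw [if_neg h1]; omega

variable {α : Type} [DecidableEq α]

theorem norm_mk {L : List (α × Bool)} (h : IsReduced L) : norm (mk L) = L.length := by
  rw [FreeGroup.norm, toWord_mk, h.reduce_eq]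

theorem reduced_invRev {L : List (α × Bool)} (h : IsReduced L) : IsReduced (invRev L) := by
  rw [isReduced_iff_reduce_eq, reduce_invRev, h.reduce_eq]

theorem norm_cp : ∀ s t : List (α × Bool), IsReduced s → IsReduced t →
    norm ((mk s)⁻¹ * mk t) + 2 * cp s t = s.length + t.length
  | [], t, _, ht => by
    have : (mk ([] : List (α × Bool))) = 1 := rfl
    simp [this, cp, norm_mk ht]
  | a :: s, [], hs, _ => by
    have : (mk ([] : List (α × Bool))) = 1 := rfl
    rw [this, mul_one, norm_inv_eq, norm_mk hs]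
    simp [cp]
  | a :: s, b :: t, hs, ht => by
    by_cases h : a = b
    · subst h
      have h1 := norm_cp s t (List.isChain_cons.1 hs).2
        (List.isChain_cons.1 ht).2
      have h2 : (mk (a :: s))⁻¹ * mk (a :: t) = (mk s)⁻¹ * mk t := by
        rw [show a :: s = [a] ++ s from rfl, show a :: t = [a] ++ t from rfl, ← mul_mk, ← mul_mk]
        group
      rw [h2]
      simp only [cp, if_true, List.length_cons]
      omega
    · have h1 : IsReduced (invRev (a :: s) ++ b :: t) := by
        have h2 := reduced_invRev hs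
        refine List.IsChain.append h2 ht fun x hx y hy => ?_
        rw [invRev_cons] at hx
        simp only [invRev, List.map_cons, List.map_nil, List.reverse_cons, List.reverse_nil,
          List.nil_append, List.getLast?_append, List.getLast?_singleton, Option.some_or,
          Option.mem_def, Option.some.injEq, List.head?_cons] at hx hy
        subst hx hy
        intro h3
        obtain ⟨a1, a2⟩ := a
        obtain ⟨b1, b2⟩ := b
        cases a2 <;> cases b2 <;> simp_all
      rw [inv_mk, mul_mk, norm_mk h1]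
      simp [cp, h]

theorem norm_eq (x y : FreeGroup α) :
    norm (x⁻¹ * y) + 2 * cp x.toWord y.toWord = norm x + norm y := by
  have := norm_cp _ _ (isReduced_toWord (x := x)) (isReduced_toWord (x := y))
  rwa [mk_toWord, mk_toWord] at this

/-- The substitution of `l`-th powers. -/
def phi (l : ℕ) : FreeGroup α →* FreeGroup α := lift fun i => of i ^ l

omit [DecidableEq α] in
theorem phi_mk (l : ℕ) (L : List (α × Bool)) :
    phi l (mk L) = mk (L.flatMap (List.replicate l)) := by
  have h1 : ∀ (x : α × Bool) (n : ℕ), mk (List.replicate n x) = mk [x] ^ n := fun x n => by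
    induction n with
    | zero => rfl
    | succ n ih => rw [pow_succ', ← ih, mul_mk]; rfl
  induction L with
  | nil => exact _root_.map_one (phi l)
  | cons a L ih =>
    rw [show a :: L = [a] ++ L from rfl, ← mul_mk, _root_.map_mul, ih, List.flatMap_append, ← mul_mk]
    congr 1
    obtain ⟨i, b⟩ := a
    simp only [List.flatMap_cons, List.flatMap_nil, List.append_nil, h1]
    cases b
    · have : mk [(i, false)] = (of i)⁻¹ := rfl
      rw [this, _root_.map_inv, phi, lift_apply_of, inv_pow]
    · exact lift_apply_of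

omit [DecidableEq α] in
theorem reduced_flatMap (l : ℕ) : ∀ L : List (α × Bool), IsReduced L →
    IsReduced (L.flatMap (List.replicate (l + 1)))
  | [], _ => IsReduced.nil
  | a :: L, h => by
    have h1 := reduced_flatMap l L (List.isChain_cons.1 h).2
    rw [List.flatMap_cons]
    refine List.IsChain.append (List.isChain_replicate_of_rel _ fun _ => rfl) h1
      fun x hx y hy => ?_
    have hx' : x = a := List.eq_of_mem_replicate (List.mem_of_getLast? hx)
    cases L with
    | nil => simp at hy
    | cons b L =>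
      have hy' : b = y := by simpa [List.replicate_succ] using hy
      subst hx' hy'
      exact (List.isChain_cons_cons.1 h).1

theorem norm_phi (l : ℕ) (g : FreeGroup α) : norm (phi (l + 1) g) = (l + 1) * norm g := by
  conv_lhs => rw [← mk_toWord (x := g), phi_mk, norm_mk (reduced_flatMap l _ isReduced_toWord)]
  simp [List.length_flatMap, FreeGroup.norm, mul_comm]

theorem le_norm_pow {g : FreeGroup α} (hg : g ≠ 1) (n : ℕ) : n ≤ norm (g ^ n) := by
  have key : ∀ n : ℕ, norm (g ^ (n + 1)) = 2 * (reduceCyclically.conjugator g.toWord).length +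
      (n + 1) * (reduceCyclically g.toWord).length := fun n => by
    rw [FreeGroup.norm, toWord_pow,
      reduceCyclically.reduce_flatten_replicate_succ isReduced_toWord]
    simp
    omega
  have hpos : 0 < (reduceCyclically g.toWord).length := by
    rw [List.length_pos_iff]
    intro h
    apply hg
    have := congrArg mk (reduceCyclically.conj_conjugator_reduceCyclically g.toWord)
    rw [mk_toWord, h, ← mul_mk, ← mul_mk, ← inv_mk] at this
    rw [← this]
    have h1 : (mk ([] : List (α × Bool))) = 1 := rfl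
    rw [h1]
    group
  cases n with
  | zero => exact Nat.zero_le _
  | succ n => rw [key]; nlinarith

theorem act_one (l : ℕ) (y : FreeGroup (Fin 2)) : phi l 1 * y = y := by
  rw [_root_.map_one, one_mul]

theorem act_mul (l : ℕ) (g h y : FreeGroup (Fin 2)) :
    phi l (g * h) * y = phi l g * (phi l h * y) := by
  rw [_root_.map_mul, mul_assoc]

/-- The vertices of the Cayley tree. -/
def Vx : Type := FreeGroup (Fin 2)

/-- The twisted action on the Cayley tree. -/
@[reducible] def act (l : ℕ) : MulAction (FreeGroup (Fin 2)) Vx where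
  smul g y := (phi l g * (show FreeGroup (Fin 2) from y) : FreeGroup (Fin 2))
  one_smul y := act_one l y
  mul_smul g h y := act_mul l g h y

/-- The word metric of a free group. -/
def fgs : GS (FreeGroup α) where
  d x y := norm (x⁻¹ * y)
  d_self x := by simp
  d_comm x y := by rw [← norm_inv_eq]; simp
  d_tri x y z := by
    have := norm_mul_le (x⁻¹ * y) (y⁻¹ * z)
    rwa [show x⁻¹ * y * (y⁻¹ * z) = x⁻¹ * z by group] at this
  d_zero x y h := inv_mul_eq_one.1 (norm_eq_zero.1 h)
  geod x y t ht := by
    have e : mk ((x⁻¹ * y).toWord.take t) * mk ((x⁻¹ * y).toWord.drop t) = x⁻¹ * y := by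
      rw [mul_mk, List.take_append_drop, mk_toWord]
    have h1 := norm_mk_le (L₁ := (x⁻¹ * y).toWord.take t)
    have h2 := norm_mk_le (L₁ := (x⁻¹ * y).toWord.drop t)
    have h3 := norm_mul_le (mk ((x⁻¹ * y).toWord.take t)) (mk ((x⁻¹ * y).toWord.drop t))
    rw [e] at h3
    rw [List.length_take] at h1
    rw [List.length_drop] at h2
    have h4 : (x⁻¹ * y).toWord.length = norm (x⁻¹ * y) := rfl
    refine ⟨x * mk ((x⁻¹ * y).toWord.take t), ?_⟩
    rw [inv_mul_cancel_left, show (x * mk ((x⁻¹ * y).toWord.take t))⁻¹ * y =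
      mk ((x⁻¹ * y).toWord.drop t) by
        rw [mul_inv_rev, mul_assoc, inv_mul_eq_iff_eq_mul, e]]
    omega

theorem fgs_hyp : (fgs : GS (FreeGroup α)).Hyp 0 := by
  intro x y z w
  have h1 := norm_eq (w⁻¹ * x) (w⁻¹ * y)
  have h2 := norm_eq (w⁻¹ * x) (w⁻¹ * z)
  have h3 := norm_eq (w⁻¹ * y) (w⁻¹ * z)
  have h4 := cp_min (w⁻¹ * x).toWord (w⁻¹ * z).toWord (w⁻¹ * y).toWord
  have e : ∀ a b : FreeGroup α, (w⁻¹ * a)⁻¹ * (w⁻¹ * b) = a⁻¹ * b := fun a b => by group
  have e' : ∀ a : FreeGroup α, norm (w⁻¹ * a) = norm (a⁻¹ * w) := fun a => by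
    rw [← norm_inv_eq]; simp
  rw [e, e', e'] at h1 h2 h3
  show norm (x⁻¹ * y) + norm (z⁻¹ * w) ≤ norm (x⁻¹ * z) + norm (y⁻¹ * w) + 0 ∨
    norm (x⁻¹ * y) + norm (z⁻¹ * w) ≤ norm (x⁻¹ * w) + norm (y⁻¹ * z) + 0
  omega

end Base

open Base in
theorem exists_base (l : ℕ) (hl : 1 ≤ l) : ∃ (G V : Type) (_ : Group G) (_ : MulAction G V)
    (X : GS V) (a b : G) (x : V), Subgroup.closure {a, b} = ⊤ ∧ ¬ Commute a b ∧
    X.d x (a • x) ≤ l ∧ X.d x (b • x) ≤ l ∧ (∀ g : G, g ≠ 1 → ∀ y, l ≤ X.d y (g • y)) ∧
    ∀ δ A m p q : ℕ, 1 ≤ δ → 40 * δ < l → 1 ≤ m → Odd p → Odd q → Good G X δ A m p q := by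
  obtain ⟨l, rfl⟩ : ∃ k, l = k + 1 := ⟨l - 1, by omega⟩
  let _ := act (l + 1)
  let X : GS Vx := (fgs : GS (FreeGroup (Fin 2)))
  let o : Vx := (1 : FreeGroup (Fin 2))
  have hI : X.Inv (FreeGroup (Fin 2)) := fun g x y => by
    show norm ((phi (l + 1) g * (show FreeGroup (Fin 2) from x))⁻¹ *
      (phi (l + 1) g * (show FreeGroup (Fin 2) from y))) =
        norm ((show FreeGroup (Fin 2) from x)⁻¹ * (show FreeGroup (Fin 2) from y))
    congr 1
    group
  have ho : ∀ g : FreeGroup (Fin 2), X.d o (g • o) = (l + 1) * norm g := fun g => by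
    show norm ((1 : FreeGroup (Fin 2))⁻¹ * (phi (l + 1) g * 1)) = _
    rw [inv_one, one_mul, mul_one, norm_phi]
  have htau : ∀ g : FreeGroup (Fin 2), g ≠ 1 → ((l + 1 : ℕ) : ℝ) ≤ X.tau g := fun g hg =>
    hI.le_tau g o (C := 0) fun n => by
      rw [ho, add_zero]
      exact_mod_cast Nat.mul_le_mul_left _ (le_norm_pow hg n)
  have hdisp : ∀ g : FreeGroup (Fin 2), g ≠ 1 → ∀ y : Vx, l + 1 ≤ X.d y (g • y) := fun g hg y => by
    exact_mod_cast (htau g hg).trans (GS.tau_le_disp g y)
  have hfin : ∀ g : FreeGroup (Fin 2), IsOfFinOrder g → g = 1 := fun g hg => by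
    by_contra h
    have h1 := htau g h
    rw [hI.tau_of_finOrder o hg] at h1
    have : (0 : ℝ) < ((l + 1 : ℕ) : ℝ) := by positivity
    linarith
  refine ⟨FreeGroup (Fin 2), Vx, inferInstance, inferInstance, X, of 0, of 1, o, ?_, ?_, ?_, ?_,
    hdisp, fun δ A m p q hδ hδl hm hp hq => ?_⟩
  · rw [← closure_range_of]
    congr 1
    ext g
    simp [Fin.exists_fin_two, eq_comm]
  · intro h
    have := congrArg toWord h.eq
    revert this
    decide
  · rw [ho, norm_of, mul_one]
  · rw [ho, norm_of, mul_one]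
  · refine ⟨⟨o⟩, hδ, hp, hq, hI, fgs_hyp.mono (Nat.zero_le _), ?_, ⟨0, ?_⟩, ?_, ?_, ?_⟩
    · intro g h x y hgh hx _ _ _
      have := hdisp g (fun e => hgh (e ▸ Commute.one_left h)) x
      omega
    · intro g hg hf
      exact absurd (hfin g hf) hg
    · intro K x D hK a ha b _
      by_cases h1 : a = 1
      · rw [h1]; exact Commute.one_left b
      exfalso
      have h2 := GS.tau_mul_le_disp (X := X) a x (D + 1)
      have h3 := hK _ (K.pow_mem ha (D + 1))
      have h4 := htau a h1
      have h5 : (X.d x (a ^ (D + 1) • x) : ℝ) ≤ D := by exact_mod_cast h3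
      push_cast at h2 h4
      have : (0 : ℝ) ≤ D := by positivity
      have : (0 : ℝ) ≤ l := by positivity
      nlinarith
    · intro g hg
      have h4 := htau g fun e => hg (e ▸ IsOfFinOrder.one)
      have h5 : (1 : ℝ) ≤ m := by exact_mod_cast hm
      push_cast at h4
      have : (0 : ℝ) ≤ l := by positivity
      nlinarith
    · intro g hg
      left
      rw [hfin g hg, one_pow]

end Pool.Agent.Lib.MP_e0e7d6_al
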