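import Pool.Agent.Lib.MP_e0e7d6_al.Iface

/-!
Chains of long blocks.
-/

namespace Pool.Agent.Lib.MP_e0e7d6_al

variable {G : Type} [Group G] {V : Type} [MulAction G V] {X : GS V} {δ A m p q : ℕ}
  {x x' : ℕ → V} {σ σ' : ℕ → G} {r l : ℕ}

theorem commute_conj_iff {a b : G} (g : G) : Commute (g * a * g⁻¹) (g * b * g⁻¹) ↔ Commute a b := by
  constructor
  · intro h
    have := h.map (MulAut.conj g⁻¹)
    simpa [mul_assoc] using this
  · intro h
    have := h.map (MulAut.conj g)
    simpa using this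

theorem BC.ne_one (B : BC X x σ r l) (j : ℕ) : σ j ≠ 1 := fun e =>
  B.nc j (e ▸ Commute.one_left _)

theorem BC.mono (B : BC X x σ r l) {r' l' : ℕ} (h1 : r ≤ r') (h2 : l' ≤ l) : BC X x σ r' l' :=
  ⟨fun j => (B.left j).trans h1, fun j => (B.right j).trans h1, B.nc, fun j => h2.trans (B.long j)⟩

theorem BC.near (Γ : Good G X δ A m p q) (B : BC X x σ r l) (hr : A + δ ≤ r) (j : ℕ) :
    X.Near (500 * r) (x j) (x (j + 1)) (x (j + 2)) := by
  have := Γ.one_le
  set o := x (j + 1) with ho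
  set a := x j with ha
  set b := x (j + 2) with hb
  have t1 := X.d_tri o a b
  have t2 := X.d_tri o b a
  have t3 := X.d_tri a o b
  have c1 := X.d_comm a o
  have c2 := X.d_comm a b
  obtain ⟨u, bu, du⟩ := GS.exists_btw (X := X) o a ((X.d o a + X.d o b - X.d a b) / 2) (by omega)
  obtain ⟨v, bv, dv⟩ := GS.exists_btw (X := X) o b ((X.d o a + X.d o b - X.d a b) / 2) (by omega)
  have f := Γ.hyp.fellow bu bv (by omega) (by omega)
  have l1 : X.d a (σ j • a) ≤ r := B.left j
  have r1 : X.d o (σ j • o) ≤ r := B.right j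
  have l2 : X.d o (σ (j + 1) • o) ≤ r := B.left (j + 1)
  have r2 : X.d b (σ (j + 1) • b) ≤ r := B.right (j + 1)
  have m1 := Γ.hyp.mov_btw Γ.inv (σ j) bu r1 l1
  have m2 := Γ.hyp.mov_btw Γ.inv (σ (j + 1)) bv l2 r2
  have m3 := Γ.inv.disp_move (σ (j + 1)) v u
  have c3 := X.d_comm u v
  have := Γ.ovl' (B.nc j) (x := o) (y := u) (D := r + 6 * δ) (by omega) (by omega) (by omega)
    (by omega)
  unfold GS.Near
  omega

theorem BC.tau (Γ : Good G X δ A m p q) (B : BC X x σ r (l + 600 * r)) (hr : A + δ ≤ r) {P : G}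
    {k : ℕ} (hP : ∀ n, x (k * n) = P ^ n • x 0) : ((l * k : ℕ) : ℝ) ≤ X.tau P := by
  have := Γ.one_le
  exact Γ.hyp.tau_chain Γ.inv (B.near Γ hr) (fun i => by have := B.long i; omega)
    (fun i => by have := B.long i; omega) hP

theorem BC.step (Γ : Good G X δ A m p q) (B : BC X x σ r l) (hr : A + δ ≤ r) (hl : 700 * r ≤ l)
    (i : ℕ) : 500 * r + 2 * δ < X.d (x i) (x (i + 1)) := by
  have := Γ.one_le
  have := B.long i
  omega

theorem BC.chain_near (Γ : Good G X δ A m p q) (B : BC X x σ r l) (hr : A + δ ≤ r)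
    (hl : 700 * r ≤ l) {i j k : ℕ} (hij : i ≤ j) (hjk : j ≤ k) :
    X.Near (502 * r) (x i) (x j) (x k) :=
  (Γ.hyp.chain_near (B.near Γ hr) (B.step Γ hr hl) hij hjk).mono (by omega)

theorem BC.dist (Γ : Good G X δ A m p q) (B : BC X x σ r l) (hr : A + δ ≤ r) (hl : 700 * r ≤ l)
    {i j : ℕ} (hij : i ≤ j) : j ≤ X.d (x i) (x j) + i := by
  have := Γ.one_le
  obtain ⟨n, rfl⟩ := Nat.exists_eq_add_of_le hij
  have := Γ.hyp.chain_dist (l := 1) (B.near Γ hr) (B.step Γ hr hl)
    (fun i => by have := B.long i; omega) i n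
  omega

/-- Late nodes of a periodic chain lie near the segments from `y` to its far translates. -/
theorem BC.near_far (Γ : Good G X δ A m p q) (B : BC X x σ r l) (hr : A + δ ≤ r)
    (hl : 700 * r ≤ l) {P : G} {k : ℕ} (hk : 0 < k) (hP : ∀ n, x (k * n) = P ^ n • x 0) (y : V)
    {j n : ℕ} (hj : X.d (x 0) y + 600 * r ≤ j) (hn : j + X.d (x 0) y + 600 * r ≤ n) :
    X.Near (504 * r) y (x j) (P ^ n • y) := by
  have := Γ.one_le
  have h0 : n ≤ k * n := Nat.le_mul_of_pos_left n hk
  have h1 := B.chain_near Γ hr hl (Nat.zero_le j) (show j ≤ k * n by omega)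
  have h2 := B.dist Γ hr hl (Nat.zero_le j)
  have h3 := B.dist Γ hr hl (show j ≤ k * n by omega)
  have h4 := Γ.inv (P ^ n) (x 0) y
  rw [← hP] at h4
  have h5 := Γ.hyp.change (b' := P ^ n • y) h1 h4.le (by omega)
  exact (Γ.hyp.change_left (a' := y) h5 le_rfl (by omega)).mono (by omega)

theorem BC.cent (Γ : Good G X δ A m p q) (B : BC X x σ r l) (hr : A + δ ≤ r) (hl : 700 * r ≤ l)
    {P : G} {k : ℕ} (hk : 0 < k) (hP : ∀ n, x (k * n) = P ^ n • x 0) {h : G} (h1 : h ≠ 1)
    (c : Commute h P) : (l : ℝ) ≤ 30 * X.tau h + 40000 * r := by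
  have := Γ.one_le
  obtain ⟨y, hy⟩ := Γ.hyp.exists_axis_point Γ.inv Γ.one_le (x 0) h
  set t := X.d y (h • y) with ht
  set j := X.d (x 0) y + 600 * r with hj
  have mv : ∀ i, j ≤ i → X.d (x i) (h • x i) ≤ t + 1012 * r := by
    intro i hi
    have h2 := B.near_far Γ hr hl hk hP y hi le_rfl
    have h3 := Γ.hyp.mov_near Γ.inv h h2 (D := t) le_rfl
      (by rw [Γ.inv.disp_comm (c.pow_right _)])
    omega
  have key : l ≤ A + 30 * (t + 1012 * r) + 22 * δ := by
    by_contra hlt
    have cm : ∀ i, j ≤ i → Commute h (σ i) := by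
      intro i hi
      by_contra hc
      have a1 := B.left i
      have a2 := B.right i
      have a3 := B.long i
      have := Γ.ovl' hc (mv i hi) (mv (i + 1) (by omega)) (by omega) (by omega)
      omega
    exact B.nc j (Γ.csa.trans h _ _ h1 (cm j le_rfl) (cm (j + 1) (by omega)))
  have k2 : l ≤ 30 * t + 30400 * r := by omega
  have k3 : (l : ℝ) ≤ 30 * t + 30400 * r := by exact_mod_cast k2
  have k4 : (δ : ℝ) ≤ r := by exact_mod_cast (by omega : δ ≤ r)
  linarith

theorem match_comb {s s' : ℕ → ℕ} {C : ℕ → ℕ → Prop} {T j1 : ℕ} (h0 : s 0 = 0)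
    (hs : ∀ j, s j + 2 * T < s (j + 1)) (hs' : ∀ j, j1 ≤ j → s' j + 2 * T < s' (j + 1))
    (hC : ∀ j j', j1 ≤ j' → s j + T < s (j + 1) → s j + T < s' (j' + 1) → s' j' + T < s (j + 1) →
      s' j' + T < s' (j' + 1) → C j j')
    (n1 : ∀ j j', C j j' → C (j + 1) j' → False) (n2 : ∀ j j', C j j' → C j (j' + 1) → False) :
    ∃ J j0, j1 ≤ j0 ∧ ∀ i, s (J + i) ≤ s' (j0 + i) + T ∧ s' (j0 + i) ≤ s (J + i) + T ∧
      C (J + i) (j0 + i) := by
  classical
  have grow : ∀ j, j ≤ s j := by
    intro j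
    induction j with
    | zero => omega
    | succ j ih =>
      have := hs j
      omega
  have start : ∃ J, s J ≤ s' (j1 + 1) + T ∧ s' (j1 + 1) ≤ s J + T := by
    have ex : ∃ j, s' (j1 + 1) < s j := ⟨s' (j1 + 1) + 1, grow _⟩
    have h1 := Nat.find_spec ex
    obtain ⟨J, hJ⟩ : ∃ J, Nat.find ex = J + 1 := ⟨Nat.find ex - 1, by
      have : Nat.find ex ≠ 0 := fun e => by rw [e] at h1; omega
      omega⟩
    have h2 := Nat.find_min ex (m := J) (by omega)
    rw [hJ] at h1
    by_contra hc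
    push Not at hc
    have a1 := hc J
    have a2 := hc (J + 1)
    have a3 := hs J
    have a4 := hs' j1 le_rfl
    have a5 := hs' (j1 + 1) (by omega)
    exact n2 J j1 (hC J j1 le_rfl (by omega) (by omega) (by omega) (by omega))
      (hC J (j1 + 1) (by omega) (by omega) (by omega) (by omega) (by omega))
  obtain ⟨J, hJ⟩ := start
  have key : ∀ i, s (J + i) ≤ s' (j1 + 1 + i) + T ∧ s' (j1 + 1 + i) ≤ s (J + i) + T := by
    intro i
    induction i with
    | zero => exact hJ
    | succ i ih =>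
      have a1 := hs (J + i)
      have a2 := hs (J + i + 1)
      have a3 := hs' (j1 + 1 + i) (by omega)
      have a4 := hs' (j1 + 1 + i + 1) (by omega)
      have c := hC (J + i) (j1 + 1 + i) (by omega) (by omega) (by omega) (by omega) (by omega)
      show s (J + i + 1) ≤ s' (j1 + 1 + i + 1) + T ∧ s' (j1 + 1 + i + 1) ≤ s (J + i + 1) + T
      constructor
      · by_contra hc
        exact n2 _ _ c (hC (J + i) (j1 + 1 + i + 1) (by omega) (by omega) (by omega) (by omega)
          (by omega))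
      · by_contra hc
        exact n1 _ _ c (hC (J + i + 1) (j1 + 1 + i) (by omega) (by omega) (by omega) (by omega)
          (by omega))
  refine ⟨J, j1 + 1, by omega, fun i => ⟨(key i).1, (key i).2, ?_⟩⟩
  have a1 := hs (J + i)
  have a3 := hs' (j1 + 1 + i) (by omega)
  have := key i
  exact hC (J + i) (j1 + 1 + i) (by omega) (by omega) (by omega) (by omega) (by omega)

theorem BC.match (Γ : Good G X δ A m p q) (B : BC X x σ r l) (B' : BC X x' σ' r l)
    (hr : A + δ ≤ r) (hl : 1000000 * r ≤ l) {P : G} {k k' : ℕ} (hk : 0 < k) (hk' : 0 < k')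
    (hP : ∀ n, x (k * n) = P ^ n • x 0) (hP' : ∀ n, x' (k' * n) = P ^ n • x' 0) :
    ∃ J j0, ∀ i, X.d (x (J + i)) (x' (j0 + i)) ≤ 100000 * r ∧
      Commute (σ (J + i)) (σ' (j0 + i)) := by
  have := Γ.one_le
  have hl' : 700 * r ≤ l := by omega
  set a := x 0 with ha
  let N : V → Prop := fun u => ∃ n0, ∀ n, n0 ≤ n → X.Near (504 * r) a u (P ^ n • a)
  have N1 : ∀ j, N (x j) := fun j => ⟨j, fun n hn => by
    have h0 : n ≤ k * n := Nat.le_mul_of_pos_left n hk
    have := B.chain_near Γ hr hl' (Nat.zero_le j) (show j ≤ k * n by omega)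
    rw [hP] at this
    exact this.mono (by omega)⟩
  set j1 := X.d (x' 0) a + 600 * r with hj1
  have N2 : ∀ j, j1 ≤ j → N (x' j) := fun j hj =>
    ⟨_, fun n hn => B'.near_far Γ hr hl' hk' hP' a hj hn⟩
  have dist : ∀ u v, N u → N v → X.d a u ≤ X.d a v → X.d u v + X.d a u ≤ X.d a v + 505 * r := by
    rintro u v ⟨n1, h1⟩ ⟨n2, h2⟩ h
    have := Γ.hyp.near_near (h1 (n1 + n2) (by omega)) (h2 (n1 + n2) (by omega))
    omega
  have mv : ∀ (s : G) u v w, N u → N v → N w → X.d a u ≤ X.d a w → X.d a w ≤ X.d a v →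
      X.d u (s • u) ≤ r → X.d v (s • v) ≤ r → X.d w (s • w) ≤ 2025 * r := by
    intro s u v w hu hv hw h1 h2 m1 m2
    have a1 := dist u w hu hw h1
    have a2 := dist w v hw hv h2
    have a3 := X.d_tri a u v
    have hn : X.Near (1010 * r) u w v := by
      unfold GS.Near
      omega
    have := Γ.hyp.mov_near Γ.inv s hn m1 m2
    omega
  obtain ⟨J, j0, hj0, hm⟩ := match_comb (s := fun j => X.d a (x j)) (s' := fun j => X.d a (x' j))
    (C := fun j j' => Commute (σ j) (σ' j')) (T := 61000 * r) (j1 := j1) (X.d_self _)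
    (fun j => by
      have h1 := B.chain_near Γ hr hl' (Nat.zero_le j) (Nat.le_succ j)
      have h2 := B.long j
      unfold GS.Near at h1
      show X.d (x 0) (x j) + 2 * (61000 * r) < X.d (x 0) (x (j + 1))
      change X.d (x 0) (x j) + X.d (x j) (x (j + 1)) ≤ X.d (x 0) (x (j + 1)) + 502 * r at h1
      omega)
    (fun j hj => by
      have h1 := B'.chain_near Γ hr hl' (Nat.zero_le j) (Nat.le_succ j)
      have h2 := B'.long j
      have h3 := B'.dist Γ hr hl' (Nat.zero_le j)
      have h4 := Γ.hyp.change_left (a' := a) h1 le_rfl (by omega)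
      unfold GS.Near at h4
      show X.d a (x' j) + 2 * (61000 * r) < X.d a (x' (j + 1))
      change X.d a (x' j) + X.d (x' j) (x' (j + 1)) ≤ X.d a (x' (j + 1)) + (502 * r + δ) at h4
      omega)
    (fun j j' hj' h1 h2 h3 h4 => by
      by_contra hc
      have b1 := N1 j
      have b2 := N1 (j + 1)
      have b3 := N2 j' hj'
      have b4 := N2 (j' + 1) (by omega)
      have fin : ∀ u v, N u → N v → X.d a (x j) ≤ X.d a u → X.d a (x' j') ≤ X.d a u →
          X.d a v ≤ X.d a (x (j + 1)) → X.d a v ≤ X.d a (x' (j' + 1)) →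
          X.d a u + 61000 * r < X.d a v → False := by
        intro u v hu hv e1 e2 e3 e4 e5
        have := Γ.ovl' hc
          (mv _ _ _ u b1 b2 hu e1 (by omega) (B.left j) (B.right j))
          (mv _ _ _ v b1 b2 hv (by omega) e3 (B.left j) (B.right j))
          (mv _ _ _ u b3 b4 hu e2 (by omega) (B'.left j') (B'.right j'))
          (mv _ _ _ v b3 b4 hv (by omega) e4 (B'.left j') (B'.right j'))
        have := X.d_tri a u v
        omega
      rcases le_total (X.d a (x j)) (X.d a (x' j')) with c1 | c1 <;>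
        rcases le_total (X.d a (x (j + 1))) (X.d a (x' (j' + 1))) with c2 | c2
      · exact fin _ _ b3 b2 c1 le_rfl le_rfl c2 h3
      · exact fin _ _ b3 b4 c1 le_rfl c2 le_rfl h4
      · exact fin _ _ b1 b2 le_rfl c1 le_rfl c2 h1
      · exact fin _ _ b1 b4 le_rfl c1 c2 le_rfl h2)
    (fun j j' c1 c2 => B.nc j (Γ.csa.trans _ _ _ (B'.ne_one j') c1.symm c2.symm))
    (fun j j' c1 c2 => B'.nc j' (Γ.csa.trans _ _ _ (B.ne_one j) c1 c2))
  refine ⟨J, j0, fun i => ⟨?_, (hm i).2.2⟩⟩
  obtain ⟨h1, h2, -⟩ := hm i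
  have c := X.d_comm (x (J + i)) (x' (j0 + i))
  rcases le_total (X.d a (x (J + i))) (X.d a (x' (j0 + i))) with c1 | c1
  · have := dist _ _ (N1 _) (N2 _ (by omega)) c1
    omega
  · have := dist _ _ (N2 _ (by omega)) (N1 _) c1
    omega

theorem bc_of_blocks (I : X.Inv G) (o : V) (g e s : ℕ → G) (R l : ℕ)
    (hs : ∀ j, X.d o (s j • o) ≤ R) (he : ∀ j, X.d o (e j • o) ≤ R)
    (hc : ∀ j, Commute (g j) (s j)) (hn : ∀ j, ¬ Commute (s j) (e j * s (j + 1) * (e j)⁻¹))
    (hl : ∀ j, l + R ≤ X.d o (g j • o)) :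
    BC X (fun j => pre g e j • o) (fun j => pre g e j * s j * (pre g e j)⁻¹) (3 * R) l where
  left j := by
    rw [I.disp_conj]
    have := hs j
    omega
  right j := by
    have e1 : (pre g e j * s j * (pre g e j)⁻¹) • pre g e (j + 1) • o =
        (pre g e j * g j) • s j • e j • o := by
      rw [← mul_smul, ← mul_smul, ← mul_smul, pre]
      congr 1
      rw [mul_assoc (pre g e j) (g j) (s j), (hc j).eq]
      group
    have e2 : pre g e (j + 1) • o = (pre g e j * g j) • e j • o := by rw [pre, mul_smul]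
    show X.d (pre g e (j + 1) • o) (_ • pre g e (j + 1) • o) ≤ _
    rw [e1, e2, I]
    have := I.disp_move (s j) o (e j • o)
    have := hs j
    have := he j
    omega
  nc j := by
    intro c
    apply hn j
    have e1 : pre g e (j + 1) * s (j + 1) * (pre g e (j + 1))⁻¹ =
        (pre g e j * g j) * (e j * s (j + 1) * (e j)⁻¹) * (pre g e j * g j)⁻¹ := by
      rw [pre]
      group
    have e2 : pre g e j * s j * (pre g e j)⁻¹ = (pre g e j * g j) * s j * (pre g e j * g j)⁻¹ := by
      rw [mul_assoc (pre g e j) (g j) (s j), (hc j).eq]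
      group
    rw [e1, e2] at c
    exact (commute_conj_iff _).1 c
  long j := by
    show l ≤ X.d (pre g e j • o) (pre g e (j + 1) • o)
    rw [pre, mul_smul, mul_smul, I]
    have h1 := X.d_tri o (g j • e j • o) (g j • o)
    have h2 := I (g j) (e j • o) o
    have := X.d_comm (e j • o) o
    have := he j
    have := hl j
    omega

theorem pre_period {g e : ℕ → G} (k : ℕ) (hg : ∀ j, g (j + k) = g j) (he : ∀ j, e (j + k) = e j)
    (n i : ℕ) : pre g e (k * n + i) = pre g e k ^ n * pre g e i := by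
  have one : ∀ i, pre g e (k + i) = pre g e k * pre g e i := by
    intro i
    induction i with
    | zero => simp [pre]
    | succ i ih =>
      show pre g e (k + i) * g (k + i) * e (k + i) = pre g e k * (pre g e i * g i * e i)
      rw [ih, add_comm k i, hg, he]
      group
  induction n with
  | zero => simp
  | succ n ih =>
    rw [show k * (n + 1) + i = k + (k * n + i) by ring, one, ih, pow_succ']
    group

end Pool.Agent.Lib.MP_e0e7d6_al
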