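import Pool.Agent.Lib.MP_e0e7d6_al.Cone

/-!
The cone-off is hyperbolic, with a constant independent of the depth of the cones.
-/

set_option linter.unusedSectionVars false

namespace Pool.Agent.Lib.MP_e0e7d6_al

namespace Cone

variable {V I : Type} {X : GS V} {Y : I → Set V} {κ Δ : ℕ} (Q : QFam X Y κ Δ) {ρ : ℕ}

/-- Chosen base point below a vertex. -/
noncomputable def bp (u : Cone Y ρ) : V := bs (fun i => (Q.ne i).some) u

/-- Projection of a vertex to the base of a cone. -/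
noncomputable def pa (i : I) (u : Cone Y ρ) : V := Q.pj i (bp Q u)

theorem pa_mem (i : I) (u : Cone Y ρ) : pa Q i u ∈ Y i := Q.pj_mem _ _

theorem pa_spec (i : I) (u : Cone Y ρ) : IsProj X (Y i) (bp Q u) (pa Q i u) := Q.pj_spec _ _

theorem bp_mem {i : I} {u : Cone Y ρ} (h : 1 ≤ lv i u) : bp Q u ∈ Y i :=
  bs_mem (fun i => (Q.ne i).some_mem) h

theorem pa_eq {i : I} {u : Cone Y ρ} (h : 1 ≤ lv i u) : pa Q i u = bp Q u :=
  Q.pj_self (bp_mem Q h)

theorem bp_base (x : V) : bp Q (base x : Cone Y ρ) = x := rfl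

/-- The vertex of level `k` in the cone `i` above the projection of `u`. -/
noncomputable def up (i : I) (u : Cone Y ρ) (k : ℕ) : Cone Y ρ := mk i (pa Q i u) (pa_mem Q i u) k

theorem up_self {i : I} {u : Cone Y ρ} (h : 1 ≤ lv i u) : up Q i u (lv i u) = u := by
  have e := eq_mk (y0 := fun i => (Q.ne i).some) h (bp_mem Q h)
  unfold up
  simp only [pa_eq Q h]
  exact e.symm

theorem up_zero (i : I) (u : Cone Y ρ) : up Q i u 0 = base (pa Q i u) := mk_zero _ _ _

/-- The guessed geodesic between `u` and `v` reaches the level `k` in the cone `i`. -/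
def Hi (k : ℕ) (i : I) (u v : Cone Y ρ) : Prop :=
  k ≤ lv i u ∨ k ≤ lv i v ∨ (k ≤ ρ + 1 ∧ 2 ^ k < 2 * X.d (pa Q i u) (pa Q i v))

variable {Q}

theorem Hi.symm {k : ℕ} {i : I} {u v : Cone Y ρ} (h : Hi Q k i u v) : Hi Q k i v u := by
  unfold Hi at *
  rw [X.d_comm]
  tauto

theorem Hi.mono {k k' : ℕ} {i : I} {u v : Cone Y ρ} (h : Hi Q k i u v) (hk : k' ≤ k) :
    Hi Q k' i u v := by
  have := Nat.pow_le_pow_right (n := 2) (by omega) hk
  unfold Hi at *
  omega

theorem Hi.le {k : ℕ} {i : I} {u v : Cone Y ρ} (h : Hi Q k i u v) : k ≤ ρ + 1 := by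
  have := (lv_le_lev i u).trans (lev_le u)
  have := (lv_le_lev i v).trans (lev_le v)
  unfold Hi at h
  omega

theorem Hi.tri {k : ℕ} {i : I} {u v : Cone Y ρ} (h : Hi Q (k + 1) i u v) (w : Cone Y ρ) :
    Hi Q k i u w ∨ Hi Q k i w v := by
  have := X.d_tri (pa Q i u) (pa Q i w) (pa Q i v)
  have : 2 ^ (k + 1) = 2 * 2 ^ k := by ring
  unfold Hi at *
  omega

variable (Q)

/-- Base points which are deep inside a short cut. -/
def Deep (j : ℕ) (i : I) (u v : Cone Y ρ) (z : V) : Prop :=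
  Hi Q (j + 2) i u (base z) ∧ Hi Q (j + 2) i (base z) v

/-- Half of the guessed geodesic inside the cones. -/
def Lh (j : ℕ) (u v : Cone Y ρ) : Set (Cone Y ρ) :=
  {q | q = u ∨ ∃ i k, q = up Q i u k ∧ lv i u ≤ k ∧ j + 2 ≤ k ∧ Hi Q k i u v}

/-- The part of the guessed geodesic in the base space. -/
def L0 (j : ℕ) (u v : Cone Y ρ) : Set (Cone Y ρ) :=
  {q | ∃ z, q = base z ∧ X.Btw (bp Q u) z (bp Q v) ∧ ∀ i, ¬ Deep Q j i u v z}

/-- The guessed geodesic. -/
def LL (j : ℕ) (u v : Cone Y ρ) : Set (Cone Y ρ) := Lh Q j u v ∪ Lh Q j v u ∪ L0 Q j u v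

variable {Q}

theorem Deep.symm {j : ℕ} {i : I} {u v : Cone Y ρ} {z : V} (h : Deep Q j i u v z) :
    Deep Q j i v u z := ⟨h.2.symm, h.1.symm⟩

theorem L0_symm {j : ℕ} {u v q : Cone Y ρ} (h : q ∈ L0 Q j u v) : q ∈ L0 Q j v u := by
  obtain ⟨z, e, b, hd⟩ := h
  exact ⟨z, e, b.symm, fun i h => hd i h.symm⟩

theorem LL_symm {j : ℕ} {u v q : Cone Y ρ} (h : q ∈ LL Q j u v) : q ∈ LL Q j v u := by
  rcases h with (h | h) | h
  · exact Or.inl (Or.inr h)
  · exact Or.inl (Or.inl h)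
  · exact Or.inr (L0_symm h)

theorem left_mem {j : ℕ} (u v : Cone Y ρ) : u ∈ LL Q j u v := Or.inl (Or.inl (Or.inl rfl))

theorem up_mem {j k : ℕ} {i : I} {u v : Cone Y ρ} (h1 : lv i u ≤ k) (h2 : j + 2 ≤ k)
    (h : Hi Q k i u v) : up Q i u k ∈ LL Q j u v :=
  Or.inl (Or.inl (Or.inr ⟨i, k, rfl, h1, h2, h⟩))

theorem base_mem {j : ℕ} {u v : Cone Y ρ} {z : V} (b : X.Btw (bp Q u) z (bp Q v))
    (h : ∀ i, ¬ Deep Q j i u v z) : base z ∈ LL Q j u v := Or.inr ⟨z, rfl, b, h⟩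

section main

variable {j : ℕ} (hT : 100 * κ + 4 * Δ ≤ 2 ^ j) (hρ : j + 2 ≤ ρ)
include hT hρ

theorem through {i : I} {u : Cone Y ρ} {z : V} (h : Hi Q (j + 1) i u (base z)) :
    X.d (bp Q u) (pa Q i u) + X.d (pa Q i u) (Q.pj i z) + X.d (Q.pj i z) z ≤
      X.d (bp Q u) z + 11 * κ := by
  by_cases hl : 1 ≤ lv i u
  · have h1 := Q.pr1 (Q.pj_spec i z) (bp_mem Q hl)
    rw [pa_eq Q hl, X.d_self]
    have := X.d_comm z (Q.pj i z)
    have := X.d_comm (Q.pj i z) (bp Q u)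
    have := X.d_comm z (bp Q u)
    unfold GS.Near at h1
    omega
  · have e1 : 2 ^ (j + 1) = 2 * 2 ^ j := by ring
    have h2 : 2 ^ (j + 1) < 2 * X.d (pa Q i u) (Q.pj i z) := by
      rcases h with h | h | h
      · omega
      · simp [lv] at h
      · exact h.2
    exact Q.pr2 (pa_spec Q i u) (Q.pj_spec i z) (by omega)

theorem deep_facts {i : I} {u v : Cone Y ρ} {z : V} (b : X.Btw (bp Q u) z (bp Q v))
    (h : Deep Q j i u v z) : X.d z (Q.pj i z) ≤ 11 * κ ∧ Hi Q (j + 2) i u v := by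
  have h1 := through hT hρ (h.1.mono (by omega : j + 1 ≤ j + 2))
  have h2 := through hT hρ (h.2.symm.mono (by omega : j + 1 ≤ j + 2))
  have t1 := X.d_tri (bp Q u) (pa Q i u) (bp Q v)
  have t2 := X.d_tri (pa Q i u) (pa Q i v) (bp Q v)
  have t3 := X.d_tri (pa Q i u) (Q.pj i z) (pa Q i v)
  have := X.d_comm (bp Q v) (pa Q i v)
  have := X.d_comm (pa Q i v) (Q.pj i z)
  have := X.d_comm z (Q.pj i z)
  have := X.d_comm z (bp Q v)
  have e2 : 2 ^ (j + 2) = 4 * 2 ^ j := by ring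
  unfold GS.Btw at b
  refine ⟨by omega, ?_⟩
  obtain ⟨a1, a2⟩ := h
  unfold Hi at *
  rw [lv_base] at a1 a2
  have e3 : pa Q i (base z : Cone Y ρ) = Q.pj i z := rfl
  rw [e3] at a1 a2
  omega

theorem nondeep {i : I} {u v : Cone Y ρ} {z : V} (hz : X.d (pa Q i u) z ≤ 12 * κ)
    (hl : lv i u < j + 2) (h : Hi Q (j + 1) i u v) (i' : I) : ¬ Deep Q j i' u v z := by
  have e1 : 2 ^ (j + 1) = 2 * 2 ^ j := by ring
  have e2 : 2 ^ (j + 2) = 4 * 2 ^ j := by ring
  have e3 : ∀ i, pa Q i (base z : Cone Y ρ) = Q.pj i z := fun _ => rfl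
  rintro ⟨a1, a2⟩
  by_cases hi : i = i'
  · subst hi
    have h1 := (Q.pj_spec i z).2 _ (pa_mem Q i u)
    have h2 := X.d_tri (pa Q i u) z (Q.pj i z)
    have := X.d_comm z (pa Q i u)
    unfold Hi at a1
    rw [lv_base, e3] at a1
    omega
  have key : ∀ s : Cone Y ρ, Hi Q (j + 2) i' s (base z) →
      lv i s = 0 ∧ X.d (pa Q i s) (Q.pj i (Q.ne i').some) ≤ Δ + 28 * κ := by
    intro s hs
    have l1 := Q.lip (Q.pj_spec i' z) (Q.pj_spec i' (pa Q i u))
    have := X.d_comm z (pa Q i u)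
    unfold Hi at hs
    rw [lv_base, e3] at hs
    rcases hs with hs | hs | hs
    · refine ⟨?_, Q.far hi (pa_mem Q i u) (Q.ne i').some_mem (Or.inl (bp_mem Q (by omega)))⟩
      by_contra hc
      exact hi (lv_unique (u := s) (by omega) (by omega))
    · omega
    · have t := X.d_tri (pa Q i' s) (Q.pj i' (pa Q i u)) (Q.pj i' z)
      have := X.d_comm (Q.pj i' (pa Q i u)) (Q.pj i' z)
      have f : Δ + 28 * κ < X.d (Q.pj i' (bp Q s)) (Q.pj i' (pa Q i u)) := by
        unfold pa at *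
        omega
      refine ⟨?_, Q.far hi (pa_mem Q i u) (Q.ne i').some_mem (Or.inr f)⟩
      by_contra hc
      have := Q.p0 hi (bp_mem Q (u := s) (by omega)) (pa_mem Q i u) (Q.pj_spec i' _)
        (Q.pj_spec i' _)
      omega
  obtain ⟨b1, c1⟩ := key u a1
  obtain ⟨b2, c2⟩ := key v a2.symm
  have t := X.d_tri (pa Q i u) (Q.pj i (Q.ne i').some) (pa Q i v)
  have := X.d_comm (pa Q i v) (Q.pj i (Q.ne i').some)
  unfold Hi at h
  omega

theorem star {i : I} {u v : Cone Y ρ} (hl : lv i u < j + 2) (h : Hi Q (j + 1) i u v) :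
    ∃ q ∈ LL Q j u v, (space X Q.ne ρ).d (base (pa Q i u)) q ≤ 2 ^ j + 2 := by
  have e1 : 2 ^ (j + 1) = 2 * 2 ^ j := by ring
  have hj : j < 2 ^ j := Nat.lt_two_pow_self
  by_cases h1 : 1 ≤ lv i u
  · refine ⟨u, left_mem u v, ?_⟩
    have := d_down (X := X) (hne := Q.ne) (fun i => (Q.ne i).some_mem) u
    have e := lv_eq_lev h1
    rw [pa_eq Q h1]
    unfold bp
    omega
  · have hn : X.Near (11 * κ) (bp Q u) (pa Q i u) (bp Q v) := by
      by_cases h2 : 1 ≤ lv i v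
      · exact (Q.pr1 (pa_spec Q i u) (bp_mem Q h2)).mono (by omega)
      · have := Q.pr2 (pa_spec Q i u) (pa_spec Q i v) (by unfold Hi at h; omega)
        have := X.d_tri (pa Q i u) (pa Q i v) (bp Q v)
        unfold GS.Near
        omega
    obtain ⟨z, bz, dz⟩ := Q.hyp.near_btw hn
    refine ⟨base z, base_mem bz (nondeep hT hρ (by omega) hl h), ?_⟩
    have := d_base (X := X) (hne := Q.ne) (ρ := ρ) (pa Q i u) z
    omega

theorem up_near {i : I} {u v : Cone Y ρ} {k : ℕ} (hl : lv i u ≤ k) (hk : j + 1 ≤ k)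
    (h : Hi Q k i u v) :
    ∃ q ∈ LL Q j u v, (space X Q.ne ρ).d (up Q i u k) q ≤ 2 * 2 ^ j + 2 := by
  have hj : j < 2 ^ j := Nat.lt_two_pow_self
  by_cases h2 : j + 2 ≤ k
  · exact ⟨_, up_mem hl h2 h, by rw [GS.d_self]; omega⟩
  · obtain rfl : k = j + 1 := by omega
    obtain ⟨q, hq, dq⟩ := star hT hρ (by omega) h
    refine ⟨q, hq, ?_⟩
    have h3 := d_vert (X := X) (hne := Q.ne) (ρ := ρ) i _ (pa_mem Q i u) (k := 0) (k' := j + 1)
      (by omega) (by omega)
    rw [mk_zero, GS.d_comm] at h3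
    have := (space X Q.ne ρ).d_tri (up Q i u (j + 1)) (base (pa Q i u)) q
    unfold up at *
    omega

theorem slim_h {u v : Cone Y ρ} (w : Cone Y ρ) {q : Cone Y ρ} (hq : q ∈ Lh Q j u v) :
    ∃ q', (q' ∈ LL Q j u w ∨ q' ∈ LL Q j w v) ∧ (space X Q.ne ρ).d q q' ≤ 10 * 2 ^ j + 10 := by
  rcases hq with rfl | ⟨i, k, rfl, h1, h2, h3⟩
  · exact ⟨q, Or.inl (left_mem _ _), by rw [GS.d_self]; omega⟩
  by_cases a1 : Hi Q k i u w
  · exact ⟨_, Or.inl (up_mem h1 h2 a1), by rw [GS.d_self]; omega⟩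
  obtain ⟨k, rfl⟩ : ∃ k', k = k' + 1 := ⟨k - 1, by omega⟩
  have hk := h3.le
  have l1 : lv i u ≤ k := by
    unfold Hi at a1
    omega
  have dv := d_vert (X := X) (hne := Q.ne) (ρ := ρ) i _ (pa_mem Q i u) (k := k) (k' := k + 1)
    (by omega) hk
  rw [GS.d_comm] at dv
  by_cases a2 : Hi Q k i u w
  · obtain ⟨q', hq', dq'⟩ := up_near hT hρ l1 (by omega) a2
    refine ⟨q', Or.inl hq', ?_⟩
    have := (space X Q.ne ρ).d_tri (up Q i u (k + 1)) (up Q i u k) q'
    unfold up at *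
    omega
  · have a3 : Hi Q k i w v := (h3.tri w).resolve_left a2
    obtain ⟨q', hq', dq'⟩ := up_near hT hρ (u := w) (by unfold Hi at a2; omega) (by omega) a3
    refine ⟨q', Or.inr hq', ?_⟩
    have dh := d_hor (X := X) (hne := Q.ne) (ρ := ρ) i (pa_mem Q i u) (pa_mem Q i w) (k := k)
      (by omega) (fun _ => by unfold Hi at a2; omega)
    have := (space X Q.ne ρ).d_tri (up Q i u (k + 1)) (up Q i u k) q'
    have := (space X Q.ne ρ).d_tri (up Q i u k) (up Q i w k) q'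
    unfold up at *
    omega

theorem slim_0 {u v w : Cone Y ρ} {z z' : V} (hd : ∀ i, ¬ Deep Q j i u v z)
    (b' : X.Btw (bp Q u) z' (bp Q w)) (dz : X.d z z' ≤ 2 * κ) :
    ∃ q', (q' ∈ LL Q j u w ∨ q' ∈ LL Q j w v) ∧
      (space X Q.ne ρ).d (base z) q' ≤ 10 * 2 ^ j + 10 := by
  have e1 : 2 ^ (j + 1) = 2 * 2 ^ j := by ring
  have e2 : 2 ^ (j + 2) = 4 * 2 ^ j := by ring
  by_cases hn : ∀ i, ¬ Deep Q j i u w z'
  · refine ⟨base z', Or.inl (base_mem b' hn), ?_⟩
    have := d_base (X := X) (hne := Q.ne) (ρ := ρ) z z'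
    omega
  push Not at hn
  obtain ⟨i, hi⟩ := hn
  obtain ⟨f1, f2⟩ := deep_facts hT hρ b' hi
  have f3 := (Q.pj_spec i z).2 _ (Q.pj_mem i z')
  have t0 := X.d_tri z z' (Q.pj i z')
  have e3 : pa Q i (base z : Cone Y ρ) = Q.pj i z := rfl
  have fin : ∀ (a : V) (q' : Cone Y ρ), X.d (Q.pj i z) a ≤ 3 * 2 ^ j →
      (space X Q.ne ρ).d (base a) q' ≤ 2 ^ j + 2 →
      (space X Q.ne ρ).d (base z) q' ≤ 10 * 2 ^ j + 10 := by
    intro a q' h1 h2
    have := d_base (X := X) (hne := Q.ne) (ρ := ρ) z a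
    have := X.d_tri z (Q.pj i z) a
    have := (space X Q.ne ρ).d_tri (base z) (base a) q'
    omega
  by_cases a1 : Hi Q (j + 2) i u (base z)
  · have a2 : ¬ Hi Q (j + 2) i (base z) v := fun h => hd i ⟨a1, h⟩
    unfold Hi at a2
    rw [e3] at a2
    by_cases a3 : Hi Q (j + 1) i v w
    · obtain ⟨q', hq', dq'⟩ := star hT hρ (by omega) a3
      exact ⟨q', Or.inr (LL_symm hq'), fin _ q' (by omega) dq'⟩
    · unfold Hi at a3
      obtain ⟨q', hq', dq'⟩ := star hT hρ (u := w) (by omega) (f2.symm.mono (by omega))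
      have := X.d_tri (Q.pj i z) (pa Q i v) (pa Q i w)
      exact ⟨q', Or.inl (LL_symm hq'), fin _ q' (by omega) dq'⟩
  · unfold Hi at a1
    rw [e3] at a1
    obtain ⟨q', hq', dq'⟩ := star hT hρ (u := u) (by omega) (f2.mono (by omega))
    have := X.d_comm (Q.pj i z) (pa Q i u)
    exact ⟨q', Or.inl hq', fin _ q' (by omega) dq'⟩

theorem slim (u v w : Cone Y ρ) (q : Cone Y ρ) (hq : q ∈ LL Q j u v) :
    ∃ q', (q' ∈ LL Q j u w ∨ q' ∈ LL Q j w v) ∧ (space X Q.ne ρ).d q q' ≤ 10 * 2 ^ j + 10 := by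
  rcases hq with (hq | hq) | ⟨z, rfl, b, hd⟩
  · exact slim_h hT hρ w hq
  · obtain ⟨q', h, d⟩ := slim_h hT hρ w hq
    exact ⟨q', h.symm.imp LL_symm LL_symm, d⟩
  · obtain ⟨z', b', dz⟩ := Q.hyp.slim b (bp Q w)
    rcases b' with b' | b'
    · exact slim_0 hT hρ hd b' dz
    · obtain ⟨q', h, d⟩ := slim_0 hT hρ (fun i h => hd i h.symm) b'.symm dz
      exact ⟨q', h.symm.imp LL_symm LL_symm, d⟩

theorem adj_h {u v : Cone Y ρ} (h : u = v ∨ Adj X u v) {q : Cone Y ρ} (hq : q ∈ Lh Q j u v) :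
    (space X Q.ne ρ).d u q ≤ 1 := by
  rcases hq with rfl | ⟨i, k, rfl, h1, h2, h3⟩
  · rw [GS.d_self]; omega
  have e2 : 4 * 2 ^ j ≤ 2 ^ k := by
    have := Nat.pow_le_pow_right (n := 2) (by omega) h2
    rw [pow_add] at this
    omega
  have hk := h3.le
  have key : k ≤ lv i u + 1 := by
    rcases h with rfl | h
    · unfold Hi at h3
      rw [X.d_self] at h3
      omega
    have l1 := h.lv_le i
    have l2 := h.symm.lv_le i
    by_contra hc
    have h4 : 2 ^ k < 2 * X.d (pa Q i u) (pa Q i v) := by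
      unfold Hi at h3
      omega
    rcases h.col (fun i => (Q.ne i).some_mem) with ⟨c1, -, -⟩ | ⟨i', c1, c2, c3, c4⟩
    · have := Q.lip (pa_spec Q i u) (pa_spec Q i v)
      have := Q.one_le
      unfold bp at *
      omega
    · by_cases e : i' = i
      · subst e
        have := h.bs_le (y0 := fun i => (Q.ne i).some) (B := k - 1) (by omega) (by omega)
          (by omega)
        have e5 : 2 ^ k = 2 * 2 ^ (k - 1) := by
          rw [← pow_succ']
          congr 1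
          omega
        unfold pa bp at h4
        rw [Q.pj_self c1, Q.pj_self c2] at h4
        omega
      · have := Q.p0 e c1 c2 (pa_spec Q i u) (pa_spec Q i v)
        omega
  have := d_vert (X := X) (hne := Q.ne) (ρ := ρ) i _ (pa_mem Q i u) h1 hk
  have e := up_self Q (i := i) (u := u) (by omega)
  unfold up at *
  rw [e] at this
  omega

theorem adj (u v : Cone Y ρ) (h : (space X Q.ne ρ).d u v ≤ 1) (q : Cone Y ρ)
    (hq : q ∈ LL Q j u v) : (space X Q.ne ρ).d u q ≤ 10 * 2 ^ j + 10 := by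
  have h' := adj_or_eq h
  have hj : j < 2 ^ j := Nat.lt_two_pow_self
  rcases hq with (hq | hq) | ⟨z, rfl, b, hd⟩
  · have := adj_h hT hρ h' hq
    omega
  · have := adj_h hT hρ (h'.imp Eq.symm Adj.symm) hq
    have := (space X Q.ne ρ).d_tri u v q
    omega
  have e2 : 2 ^ (j + 2) = 4 * 2 ^ j := by ring
  have l1 := lev_lip (X := X) (hne := Q.ne) u v
  have l2 := lev_lip (X := X) (hne := Q.ne) v u
  rw [GS.d_comm] at l2
  by_cases hl : lev u ≤ j + 2 ∧ lev v ≤ j + 2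
  · have h1 : X.d (bp Q u) (bp Q v) ≤ 2 ^ (j + 2) := by
      rcases h' with rfl | h'
      · rw [X.d_self]; omega
      · exact h'.bs_le hρ hl.1 hl.2
    have h2 := d_down (X := X) (hne := Q.ne) (fun i => (Q.ne i).some_mem) u
    have h3 := d_base (X := X) (hne := Q.ne) (ρ := ρ) (bp Q u) z
    have h4 := (space X Q.ne ρ).d_tri u (base (bp Q u)) (base z)
    rw [GS.d_comm] at h2
    unfold GS.Btw bp at *
    omega
  · obtain ⟨i, hi⟩ := exists_lv (u := u) (by omega)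
    have l3 := lv_lip (X := X) (hne := Q.ne) i u v
    have l4 := lv_eq_lev (i := i) (u := v) (by omega)
    exact (hd i ⟨Or.inl (by omega), Or.inr (Or.inl (by omega))⟩).elim

omit hT hρ in
theorem climb {i : I} {u v : Cone Y ρ} {k : ℕ} (n : ℕ) (h1 : lv i u ≤ k) (h2 : j + 2 ≤ k)
    (h : Hi Q (k + n) i u v) {L : Set (Cone Y ρ)} (hL : LL Q j u v ⊆ L) {c : ℕ} (hc : 1 ≤ c) :
    Relation.ReflTransGen (fun a b => b ∈ L ∧ (space X Q.ne ρ).d a b ≤ c) (up Q i u k)
        (up Q i u (k + n)) ∧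
      Relation.ReflTransGen (fun a b => b ∈ L ∧ (space X Q.ne ρ).d a b ≤ c) (up Q i u (k + n))
        (up Q i u k) := by
  induction n with
  | zero => exact ⟨Relation.ReflTransGen.refl, Relation.ReflTransGen.refl⟩
  | succ n ih =>
    obtain ⟨a, b⟩ := ih (h.mono (by omega))
    have dv := d_vert (X := X) (hne := Q.ne) (ρ := ρ) i _ (pa_mem Q i u) (k := k + n)
      (k' := k + (n + 1)) (by omega) h.le
    refine ⟨a.tail ⟨hL (up_mem (by omega) (by omega) h), ?_⟩,
      Relation.ReflTransGen.head ⟨hL (up_mem (by omega) (by omega) (h.mono (by omega))), ?_⟩ b⟩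
    · unfold up
      omega
    · rw [GS.d_comm]
      unfold up
      omega

omit hT hρ in
theorem cross {i : I} {u v : Cone Y ρ} (h : Hi Q (j + 2) i u v) {c : ℕ} (hc : 1 ≤ c) :
    Relation.ReflTransGen (fun a b => b ∈ LL Q j u v ∧ (space X Q.ne ρ).d a b ≤ c)
      (up Q i u (max (lv i u) (j + 2))) (up Q i v (max (lv i v) (j + 2))) := by
  classical
  have hK : Hi Q (Nat.findGreatest (fun k => Hi Q k i u v) (ρ + 1)) i u v :=
    Nat.findGreatest_spec (P := fun k => Hi Q k i u v) h.le h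
  have ge : ∀ k, Hi Q k i u v → k ≤ Nat.findGreatest (fun k => Hi Q k i u v) (ρ + 1) :=
    fun k hk => Nat.le_findGreatest hk.le hk
  set K := Nat.findGreatest (fun k => Hi Q k i u v) (ρ + 1)
  have g1 := ge _ h
  have g2 := ge (lv i u) (Or.inl le_rfl)
  have g3 := ge (lv i v) (Or.inr (Or.inl le_rfl))
  obtain ⟨n1, e1⟩ := Nat.exists_eq_add_of_le (show max (lv i u) (j + 2) ≤ K by omega)
  obtain ⟨n2, e2⟩ := Nat.exists_eq_add_of_le (show max (lv i v) (j + 2) ≤ K by omega)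
  have c1 := (climb (Q := Q) (j := j) n1 (le_max_left _ _) (le_max_right _ _) (e1 ▸ hK)
    (fun _ h => h) hc).1
  have c2 := (climb (Q := Q) (j := j) (L := LL Q j u v) n2 (le_max_left _ _) (le_max_right _ _)
    (e2 ▸ hK.symm) (fun _ h => LL_symm h) hc).2
  rw [← e1] at c1
  rw [← e2] at c2
  refine (c1.tail ⟨LL_symm (up_mem g3 g1 hK.symm), ?_⟩).trans c2
  refine (d_hor i _ _ hK.le fun hk => ?_).trans hc
  by_contra hlt
  have e3 : 2 ^ (K + 1) = 2 * 2 ^ K := by ring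
  have := ge (K + 1) (Or.inr (Or.inr ⟨by omega, by omega⟩))
  omega

theorem finish {i : I} {u v : Cone Y ρ} (h : Hi Q (j + 2) i u v) {z' : V}
    (b : X.Btw (bp Q u) z' (bp Q v))
    (hn : lv i v < j + 2 → X.Near (11 * κ) z' (pa Q i v) (bp Q v))
    (IH : ∀ z, X.Btw (bp Q u) z (bp Q v) → (∀ i, ¬ Deep Q j i u v z) →
      X.d z (bp Q v) ≤ X.d z' (bp Q v) →
      Relation.ReflTransGen
        (fun a b => b ∈ LL Q j u v ∧ (space X Q.ne ρ).d a b ≤ 10 * 2 ^ j + 10) (base z) v) :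
    Relation.ReflTransGen (fun a b => b ∈ LL Q j u v ∧ (space X Q.ne ρ).d a b ≤ 10 * 2 ^ j + 10)
      (up Q i u (max (lv i u) (j + 2))) v := by
  have hj : j < 2 ^ j := Nat.lt_two_pow_self
  have c := cross h (c := 10 * 2 ^ j + 10) (by omega)
  by_cases hl : lv i v < j + 2
  · obtain ⟨z, bz, dz⟩ := Q.hyp.near_btw (hn hl)
    have nd := fun i' (hd : Deep Q j i' u v z) =>
      nondeep hT hρ (z := z) (by omega) hl (h.symm.mono (by omega)) i' hd.symm
    have bz' := (b.trans_right bz).1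
    refine (c.tail ⟨base_mem bz' nd, ?_⟩).trans (IH z bz' nd (by unfold GS.Btw at bz; omega))
    rw [max_eq_right hl.le]
    have h3 := d_vert (X := X) (hne := Q.ne) (ρ := ρ) i _ (pa_mem Q i v) (k := 0) (k' := j + 2)
      (by omega) (by omega)
    rw [mk_zero, GS.d_comm] at h3
    have := d_base (X := X) (hne := Q.ne) (ρ := ρ) (pa Q i v) z
    have := (space X Q.ne ρ).d_tri (up Q i v (j + 2)) (base (pa Q i v)) (base z)
    unfold up at *
    omega
  · rwa [max_eq_left (a := lv i v) (by omega), up_self Q (u := v) (by omega)] at c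

theorem enter {i : I} {u v : Cone Y ρ} (h : Hi Q (j + 2) i u v) {z : V}
    (hz : X.d z (Q.pj i z) ≤ 12 * κ) (hn : ¬ Hi Q (j + 2) i u (base z)) :
    up Q i u (max (lv i u) (j + 2)) ∈ LL Q j u v ∧
      (space X Q.ne ρ).d (base z) (up Q i u (max (lv i u) (j + 2))) ≤ 10 * 2 ^ j + 10 := by
  have hj : j < 2 ^ j := Nat.lt_two_pow_self
  have e2 : 2 ^ (j + 2) = 4 * 2 ^ j := by ring
  have e3 : pa Q i (base z : Cone Y ρ) = Q.pj i z := rfl
  unfold Hi at hn
  rw [e3] at hn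
  rw [max_eq_right (by omega)]
  refine ⟨up_mem (by omega) le_rfl h, ?_⟩
  have h3 := d_vert (X := X) (hne := Q.ne) (ρ := ρ) i _ (pa_mem Q i u) (k := 0) (k' := j + 2)
    (by omega) (by omega)
  rw [mk_zero] at h3
  have := d_base (X := X) (hne := Q.ne) (ρ := ρ) z (pa Q i u)
  have := X.d_tri z (Q.pj i z) (pa Q i u)
  have := X.d_comm (Q.pj i z) (pa Q i u)
  have := (space X Q.ne ρ).d_tri (base z) (base (pa Q i u)) (up Q i u (j + 2))
  unfold up at *
  omega

theorem chain_base (u v : Cone Y ρ) (n : ℕ) : ∀ z, X.Btw (bp Q u) z (bp Q v) →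
    (∀ i, ¬ Deep Q j i u v z) → X.d z (bp Q v) ≤ n →
    Relation.ReflTransGen
      (fun a b => b ∈ LL Q j u v ∧ (space X Q.ne ρ).d a b ≤ 10 * 2 ^ j + 10) (base z) v := by
  have hj : j < 2 ^ j := Nat.lt_two_pow_self
  have e2 : 2 ^ (j + 2) = 4 * 2 ^ j := by ring
  induction n using Nat.strong_induction_on with
  | _ n ih =>
  intro z b hd hn
  by_cases h0 : X.d z (bp Q v) = 0
  · obtain rfl := X.d_zero _ _ h0
    by_cases hl : lev v < j + 2
    · refine Relation.ReflTransGen.single ⟨LL_symm (left_mem _ _), ?_⟩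
      have := d_down (X := X) (hne := Q.ne) (fun i => (Q.ne i).some_mem) v
      unfold bp
      omega
    · obtain ⟨i, hi⟩ := exists_lv (u := v) (by omega)
      have h : Hi Q (j + 2) i u v := Or.inr (Or.inl (by omega))
      have en := enter hT hρ h (z := bp Q v)
        (by rw [Q.pj_self (bp_mem Q (by omega)), X.d_self]; omega)
        fun h' => hd i ⟨h', Or.inr (Or.inl (by omega))⟩
      have c := cross h (c := 10 * 2 ^ j + 10) (by omega)
      rw [max_eq_left (a := lv i v) (by omega), up_self Q (u := v) (by omega)] at c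
      exact Relation.ReflTransGen.head en c
  obtain ⟨z', bz', dz'⟩ := GS.exists_btw (X := X) z (bp Q v) 1 (by omega)
  have bz'' : X.d z z' + X.d z' (bp Q v) = X.d z (bp Q v) := bz'
  have b' := (b.trans_right bz').1
  have IH : ∀ z1, X.Btw (bp Q u) z1 (bp Q v) → (∀ i, ¬ Deep Q j i u v z1) →
      X.d z1 (bp Q v) ≤ X.d z' (bp Q v) →
      Relation.ReflTransGen
        (fun a b => b ∈ LL Q j u v ∧ (space X Q.ne ρ).d a b ≤ 10 * 2 ^ j + 10) (base z1) v :=
    fun z1 h1 h2 h3 => ih (n - 1) (by omega) z1 h1 h2 (by omega)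
  by_cases hn' : ∀ i, ¬ Deep Q j i u v z'
  · refine Relation.ReflTransGen.head ⟨base_mem b' hn', ?_⟩ (IH z' b' hn' le_rfl)
    have := d_base (X := X) (hne := Q.ne) (ρ := ρ) z z'
    omega
  push Not at hn'
  obtain ⟨i, hi⟩ := hn'
  obtain ⟨f1, f2⟩ := deep_facts hT hρ b' hi
  have f3 := (Q.pj_spec i z).2 _ (Q.pj_mem i z')
  have t0 := X.d_tri z z' (Q.pj i z')
  have k1 := Q.one_le
  have nr : lv i v < j + 2 → X.Near (11 * κ) z' (pa Q i v) (bp Q v) := by
    intro _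
    have := through hT hρ (hi.2.symm.mono (by omega : j + 1 ≤ j + 2))
    have := X.d_tri (pa Q i v) (Q.pj i z') z'
    refine GS.Near.symm ?_
    unfold GS.Near
    omega
  by_cases a1 : Hi Q (j + 2) i u (base z)
  · have a2 : ¬ Hi Q (j + 2) i (base z) v := fun h => hd i ⟨a1, h⟩
    have e3 : pa Q i (base z : Cone Y ρ) = Q.pj i z := rfl
    unfold Hi at a2
    rw [e3] at a2
    obtain ⟨z1, bz1, dz1⟩ := Q.hyp.near_btw (nr (by omega))
    have nd := fun i' (hd : Deep Q j i' u v z1) =>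
      nondeep hT hρ (z := z1) (by omega) (by omega) (f2.symm.mono (by omega)) i' hd.symm
    have b1 := (b'.trans_right bz1).1
    refine Relation.ReflTransGen.head ⟨base_mem b1 nd, ?_⟩
      (IH z1 b1 nd (by unfold GS.Btw at bz1; omega))
    have := d_base (X := X) (hne := Q.ne) (ρ := ρ) z z1
    have := X.d_tri z (Q.pj i z) z1
    have := X.d_tri (Q.pj i z) (pa Q i v) z1
    omega
  · exact Relation.ReflTransGen.head (enter hT hρ f2 (by omega) a1) (finish hT hρ f2 b' nr IH)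

theorem chain (u v : Cone Y ρ) :
    Relation.ReflTransGen
      (fun a b => b ∈ LL Q j u v ∧ (space X Q.ne ρ).d a b ≤ 10 * 2 ^ j + 10) u v := by
  have hj : j < 2 ^ j := Nat.lt_two_pow_self
  by_cases hl : lev u < j + 2
  · have nd : ∀ i, ¬ Deep Q j i u v (bp Q u) := by
      rintro i ⟨h, -⟩
      have e3 : pa Q i (base (bp Q u) : Cone Y ρ) = pa Q i u := rfl
      have := lv_le_lev i u
      unfold Hi at h
      rw [e3, X.d_self, lv_base] at h
      have e2 : 2 ^ (j + 2) = 4 * 2 ^ j := by ring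
      omega
    refine Relation.ReflTransGen.head ⟨base_mem (GS.btw_left _ _) nd, ?_⟩
      (chain_base hT hρ u v _ _ (GS.btw_left _ _) nd le_rfl)
    have := d_down (X := X) (hne := Q.ne) (fun i => (Q.ne i).some_mem) u
    rw [GS.d_comm]
    unfold bp
    omega
  · obtain ⟨i, hi⟩ := exists_lv (u := u) (by omega)
    have h : Hi Q (j + 2) i u v := Or.inl (by omega)
    have := finish hT hρ h (GS.btw_left _ _)
      (fun _ => ((Q.pr1 (pa_spec Q i v) (bp_mem Q (u := u) (by omega))).symm).mono (by omega))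
      (fun z h1 h2 _ => chain_base hT hρ u v _ z h1 h2 le_rfl)
    rwa [max_eq_left (a := lv i u) (by omega), up_self Q (u := u) (by omega)] at this

theorem guess : (space X Q.ne ρ).Guess (LL Q j) (10 * 2 ^ j + 10) where
  left := left_mem
  right := fun u v => LL_symm (left_mem v u)
  chain := chain hT hρ
  slim := fun u v w q hq => slim hT hρ u v w q hq
  adj := adj hT hρ

end main

end Cone

/-- The cone-off is hyperbolic with a constant depending only on the base constants. -/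
theorem cone_hyp (κ Δ : ℕ) : ∃ δ ρ0 : ℕ, ∀ (V I : Type) (X : GS V) (Y : I → Set V)
    (Q : QFam X Y κ Δ) (ρ : ℕ), ρ0 ≤ ρ → (Cone.space X Q.ne ρ).Hyp δ := by
  obtain ⟨δ, hδ⟩ := GS.guess (10 * 2 ^ (100 * κ + 4 * Δ) + 10)
  exact ⟨δ, 100 * κ + 4 * Δ + 2, fun V I X Y Q ρ hρ =>
    hδ _ _ _ (Cone.guess (Q := Q) Nat.lt_two_pow_self.le hρ)⟩

end Pool.Agent.Lib.MP_e0e7d6_al
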