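import Pool.Agent.Lib.MP_e0e7d6_al.Good

/-!
Rigid words, ground terms and marked tuples.
-/

namespace Pool.Agent.Lib.MP_e0e7d6_al

/-- Binary trees (ground terms). -/
inductive Tm : Type
  | leaf : Tm
  | node : Tm → Tm → Tm

section

variable {G : Type} [Group G]

/-- Value of a group word in seven variables. -/
def ev (w : FreeGroup (Fin 7)) (S : Fin 7 → G) : G := FreeGroup.lift S w

/-- The tuple coding the data `d`, the flag `e` and the extra slot `c` over the pair `a, b`. -/
def tup (a b d e c : G) : Fin 7 → G :=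
  ![a, b, d⁻¹ * a * d, d⁻¹ * b * d, e⁻¹ * a * e, e⁻¹ * b * e, c]

/-- Nondegenerate tuples. -/
def Dom (S : Fin 7 → G) : Prop := ¬ Commute (S 0) (S 1) ∧ ∀ i, S i ≠ 1

/-- Value of a ground term over the pair `a, b`. -/
def val (w : FreeGroup (Fin 7)) (a b : G) : Tm → G
  | .leaf => 1
  | .node s t => ev w (tup a b (val w a b s) (val w a b t) a)

/-- Marked tuples: nontrivial flag, or data equal to the value of a term of `L`. -/
def Mk (w : FreeGroup (Fin 7)) (L : Set Tm) (S : Fin 7 → G) : Prop :=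
  (S 4 ≠ S 0 ∨ S 5 ≠ S 1) ∨ ∃ t ∈ L, S 2 = (val w (S 0) (S 1) t)⁻¹ * S 0 * val w (S 0) (S 1) t ∧
    S 3 = (val w (S 0) (S 1) t)⁻¹ * S 1 * val w (S 0) (S 1) t

end

/-- The word `w` is rigid in `G`, and its values of finite order have exponent `p` on marked
tuples and exponent `q` on the other tuples. -/
structure Rigid (w : FreeGroup (Fin 7)) (p q : ℕ) (L : Set Tm) (G : Type) [Group G] : Prop where
  nc : ∀ S : Fin 7 → G, Dom S → ¬ Commute (S 0) (ev w S)
  rig : ∀ S S' : Fin 7 → G, Dom S → Dom S' → Commute (ev w S) (ev w S') →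
    ∃ h : G, ∀ i, S' i = h⁻¹ * S i * h
  marked : ∀ S : Fin 7 → G, Dom S → IsOfFinOrder (ev w S) → Mk w L S → ev w S ^ p = 1
  unmarked : ∀ S : Fin 7 → G, Dom S → IsOfFinOrder (ev w S) → ¬ Mk w L S → ev w S ^ q = 1

/-- The statement produced by the geometric construction. -/
def Monsters : Prop :=
  ∃ (w : FreeGroup (Fin 7)) (p q : ℕ), 0 < p ∧ 0 < q ∧ Nat.Coprime p q ∧ Nat.Coprime 3 (p * q) ∧
    (∀ (H : Type) [Group H] (c : H), ev w ![1, 1, 1, 1, 1, 1, c] = c ^ 3) ∧
    ∀ L : Set Tm, ∃ (G : Type) (_ : Group G), Group.FG G ∧ CSA G ∧ (∀ g : G, g ^ (p * q) = 1) ∧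
      (∃ x y : G, ¬ Commute x y) ∧ Rigid w p q L G

section maps

variable {G H : Type} [Group G] [Group H]

theorem map_ev (f : G →* H) (w : FreeGroup (Fin 7)) (S : Fin 7 → G) :
    f (ev w S) = ev w (fun i => f (S i)) := by
  unfold ev
  have : f.comp (FreeGroup.lift S) = FreeGroup.lift (fun i => f (S i)) := by
    ext i
    simp
  exact DFunLike.congr_fun this w

theorem map_tup (f : G →* H) (a b d e c : G) :
    (fun i => f (tup a b d e c i)) = tup (f a) (f b) (f d) (f e) (f c) := by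
  funext i
  fin_cases i <;> simp [tup]

theorem map_val (f : G →* H) (w : FreeGroup (Fin 7)) (a b : G) (t : Tm) :
    f (val w a b t) = val w (f a) (f b) t := by
  induction t with
  | leaf => simp [val]
  | node s t ihs iht => rw [val, val, map_ev, map_tup, ihs, iht]

theorem dom_tup {a b c : G} (hab : ¬ Commute a b) (hc : c ≠ 1) (d e : G) : Dom (tup a b d e c) := by
  have ha : a ≠ 1 := fun h => hab (h ▸ Commute.one_left b)
  have hb : b ≠ 1 := fun h => hab (h ▸ Commute.one_right a)
  have k : ∀ x y : G, x ≠ 1 → y⁻¹ * x * y ≠ 1 := by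
    intro x y hx h
    apply hx
    calc x = y * (y⁻¹ * x * y) * y⁻¹ := by group
      _ = 1 := by rw [h]; group
  refine ⟨by simpa [tup] using hab, fun i => ?_⟩
  fin_cases i
  · exact ha
  · exact hb
  · exact k a d ha
  · exact k b d hb
  · exact k a e ha
  · exact k b e hb
  · exact hc

end maps

end Pool.Agent.Lib.MP_e0e7d6_al
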