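import Pool.Agent.Lib.MP_e0e7d6_al.Good

/-!
The invariants pass to the quotient, given local lifting properties; rescaling.
-/

set_option linter.unusedSectionVars false

namespace Pool.Agent.Lib.MP_e0e7d6_al

/-- Local description of the quotient: `f` is the quotient map of groups, `Z` the new space,
`b` the map from the old space, `c` the apices.  Moves of size `≤ E` in `Z` lift to moves of size
`≤ D` in `X`. -/
structure Fill {G H : Type} [Group G] [Group H] (f : G →* H) {V W I : Type} [MulAction G V]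
    [MulAction H W] [MulAction H I] (X : GS V) (Z : GS W) (b : V → W) (c : I → W)
    (ε E D p q : ℕ) : Prop where
  one_le : 1 ≤ ε
  inv : Z.Inv H
  hyp : Z.Hyp ε
  b_smul : ∀ (g : G) x, b (g • x) = f g • b x
  b_lip : ∀ x y, Z.d (b x) (b y) ≤ X.d x y
  c_smul : ∀ (h : H) i, c (h • i) = h • c i
  sep : ∀ i j, Z.d (c i) (c j) ≤ 2 * E → i = j
  dich : ∀ (u : W) (r : ℕ), r ≤ E →
    (∃ x, Z.d u (b x) ≤ r) ∨ ∃ i : I, ∀ h : H, Z.d u (h • u) ≤ r → h • i = i
  lift : ∀ (x : V) (h : H), Z.d (b x) (h • b x) ≤ E → ∃ g, f g = h ∧ X.d x (g • x) ≤ D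
  uniq : ∀ (n : G) (x : V), f n = 1 → X.d x (n • x) ≤ 3 * D → n = 1
  lift2 : ∀ x y : V, (∃ i, Z.Near (20 * ε) (b x) (c i) (b y)) ∨ ∃ y', b y' = b y ∧
    ∀ g g' : G, f g = f g' → X.d x (g • x) ≤ D → X.d y' (g' • y') ≤ D → g = g'
  stab_comm : ∀ (i : I) (h h' : H), h • i = i → h' • i = i → Commute h h'
  stab_tors : ∀ (i : I) (h : H), h • i = i → h ^ p = 1 ∨ h ^ q = 1
  stab_rot : ∃ B, ∀ (i : I) (h : H), h • i = i → h ≠ 1 → ∀ u, Z.d u (h • u) ≤ E → Z.d u (c i) ≤ B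
  window : ∀ g : G, IsOfFinOrder (f g) ∨ 1 ≤ X.tau g

namespace Fill

variable {G H : Type} [Group G] [Group H] {f : G →* H} {V W I : Type} [MulAction G V]
  [MulAction H W] [MulAction H I] {X : GS V} {Z : GS W} {b : V → W} {c : I → W}
  {ε E D p q δ A m : ℕ} (F : Fill f X Z b c ε E D p q) (Γ : Good G X δ A m p q)
  (hE : 200 * ε ≤ E)
include F

theorem uniq' (I : X.Inv G) {g g' : G} {x : V} (e : f g = f g') (h1 : X.d x (g • x) ≤ D)
    (h2 : X.d x (g' • x) ≤ 2 * D) : g = g' := by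
  have h3 := I.disp_mul g⁻¹ g' x
  have h4 := I.disp_inv g x
  have := F.uniq (g⁻¹ * g') x (by rw [map_mul, map_inv, e, inv_mul_cancel]) (by omega)
  exact inv_mul_eq_one.1 this

theorem move {u : W} {x : V} {h : H} {r s : ℕ} (hx : Z.d u (b x) ≤ r) (hu : Z.d u (h • u) ≤ s) :
    Z.d (b x) (h • b x) ≤ s + 2 * r := by
  have := F.inv.disp_move h u (b x)
  omega

theorem fix_of_near (hE : 200 * ε ≤ E) {x y : W} {i : I} (hn : Z.Near (20 * ε) x (c i) y) {h : H}
    (hx : Z.d x (h • x) ≤ E) (hy : Z.d y (h • y) ≤ E) : h • i = i := by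
  have := F.hyp.mov_near F.inv h hn hx hy
  refine (F.sep _ _ ?_).symm
  rw [F.c_smul]
  omega

include Γ

omit F in
theorem finOrder_of_bdd {g : G} {x : V} {B : ℕ} (h : ∀ n : ℕ, X.d x (g ^ n • x) ≤ B) :
    IsOfFinOrder g := by
  by_contra hg
  obtain ⟨n, hn⟩ := Γ.exists_far hg x B
  have := h n
  omega

theorem finOrder_of_fix {i : I} {h : H} (e : h • i = i) : IsOfFinOrder h := by
  rcases F.stab_tors i h e with e | e
  · exact isOfFinOrder_iff_pow_eq_one.2 ⟨p, Γ.odd_p.pos, e⟩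
  · exact isOfFinOrder_iff_pow_eq_one.2 ⟨q, Γ.odd_q.pos, e⟩

include hE

/-- Bounded subgroups of the quotient fix an apex or lift. -/
theorem ell_lift (K : Subgroup H) {u : W} {B : ℕ} (hK : ∀ k ∈ K, Z.d u (k • u) ≤ B) :
    (∃ i : I, ∀ k ∈ K, k • i = i) ∨ ∃ (x : V) (K' : Subgroup G), (∀ g ∈ K', X.d x (g • x) ≤ D) ∧
      (∀ k ∈ K, ∃ g ∈ K', f g = k) ∧ ∀ k ∈ K, Z.d (b x) (k • b x) ≤ E := by
  have := F.one_le
  obtain ⟨o, ho⟩ := F.hyp.center F.inv K hK
  rcases F.dich o (2 * ε + 1) (by omega) with ⟨x, hx⟩ | ⟨i, hi⟩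
  swap
  · exact Or.inl ⟨i, fun k hk => hi k (ho k hk)⟩
  have mv : ∀ k ∈ K, Z.d (b x) (k • b x) ≤ E := fun k hk => by
    have := F.move hx (ho k hk)
    omega
  let K' : Subgroup G :=
    { carrier := {g | f g ∈ K ∧ X.d x (g • x) ≤ D}
      one_mem' := ⟨by simp, by simp [X.d_self]⟩
      inv_mem' := fun {g} hg => ⟨by simpa using hg.1, by rw [Γ.inv.disp_inv]; exact hg.2⟩
      mul_mem' := fun {g g'} hg hg' => by
        have hm : f (g * g') ∈ K := by rw [map_mul]; exact K.mul_mem hg.1 hg'.1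
        obtain ⟨g'', e, hd⟩ := F.lift x _ (mv _ hm)
        have h1 := Γ.inv.disp_mul g g' x
        have h2 := hg.2
        have h3 := hg'.2
        have := F.uniq' Γ.inv e hd (by omega)
        exact ⟨hm, this ▸ hd⟩ }
  refine Or.inr ⟨x, K', fun g hg => hg.2, fun k hk => ?_, mv⟩
  obtain ⟨g, e, hd⟩ := F.lift x k (mv k hk)
  exact ⟨g, ⟨e ▸ hk, hd⟩, e⟩

omit Γ hE in
theorem zpowers_bdd {h : H} (hf : IsOfFinOrder h) (u : W) :
    ∃ B, ∀ k ∈ Subgroup.zpowers h, Z.d u (k • u) ≤ B := by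
  have : Finite (Subgroup.zpowers h) := finite_zpowers.2 hf
  obtain ⟨B, hB⟩ := (Set.finite_range fun k : Subgroup.zpowers h => Z.d u ((k : H) • u)).bddAbove
  exact ⟨B, fun k hk => hB ⟨⟨k, hk⟩, rfl⟩⟩

theorem tors_lift {h : H} (hf : IsOfFinOrder h) :
    (∃ i : I, h • i = i) ∨ ∃ (x : V) (g : G), f g = h ∧ IsOfFinOrder g ∧ X.d x (g • x) ≤ D ∧
      Z.d (b x) (h • b x) ≤ E := by
  obtain ⟨x0⟩ := Γ.ne
  obtain ⟨B, hB⟩ := F.zpowers_bdd hf (b x0)
  rcases F.ell_lift Γ hE _ hB with ⟨i, hi⟩ | ⟨x, K', h1, h2, h3⟩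
  · exact Or.inl ⟨i, hi h (Subgroup.mem_zpowers h)⟩
  · obtain ⟨g, hg, e⟩ := h2 h (Subgroup.mem_zpowers h)
    exact Or.inr ⟨x, g, e, finOrder_of_bdd Γ fun n => h1 _ (K'.pow_mem hg n), h1 g hg,
      h3 h (Subgroup.mem_zpowers h)⟩

theorem tors {h : H} (hf : IsOfFinOrder h) : h ^ p = 1 ∨ h ^ q = 1 := by
  rcases F.tors_lift Γ hE hf with ⟨i, hi⟩ | ⟨x, g, rfl, hg, -⟩
  · exact F.stab_tors i h hi
  · rcases Γ.tors g hg with e | e
    · exact Or.inl (by rw [← map_pow, e, map_one])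
    · exact Or.inr (by rw [← map_pow, e, map_one])

theorem ell (K : Subgroup H) (u : W) (B : ℕ) (hK : ∀ k ∈ K, Z.d u (k • u) ≤ B) :
    ∀ a ∈ K, ∀ a' ∈ K, Commute a a' := by
  intro a ha a' ha'
  rcases F.ell_lift Γ hE K hK with ⟨i, hi⟩ | ⟨x, K', h1, h2, -⟩
  · exact F.stab_comm i a a' (hi a ha) (hi a' ha')
  · obtain ⟨g, hg, rfl⟩ := h2 a ha
    obtain ⟨g', hg', rfl⟩ := h2 a' ha'
    exact (Γ.ell K' x D h1 g hg g' hg').map f

theorem ovl (g h : H) (x y : W) (hc : ¬ Commute g h) (gx : Z.d x (g • x) ≤ 40 * ε)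
    (hx : Z.d x (h • x) ≤ 40 * ε) (gy : Z.d y (g • y) ≤ 40 * ε) (hy : Z.d y (h • y) ≤ 40 * ε) :
    Z.d x y ≤ A + 30 * D + 22 * δ + 80 * ε := by
  rcases F.dich x (40 * ε) (by omega) with ⟨x', hx'⟩ | ⟨i, hi⟩
  swap
  · exact (hc (F.stab_comm i g h (hi g gx) (hi h hx))).elim
  rcases F.dich y (40 * ε) (by omega) with ⟨y', hy'⟩ | ⟨i, hi⟩
  swap
  · exact (hc (F.stab_comm i g h (hi g gy) (hi h hy))).elim
  have a1 := F.move hx' gx
  have a2 := F.move hx' hx
  have a3 := F.move hy' gy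
  have a4 := F.move hy' hy
  rcases F.lift2 x' y' with ⟨i, hi⟩ | ⟨y'', e, hu⟩
  · exact (hc (F.stab_comm i g h (F.fix_of_near hE hi (by omega) (by omega))
      (F.fix_of_near hE hi (by omega) (by omega)))).elim
  rw [← e] at a3 a4 hy'
  obtain ⟨g1, e1, d1⟩ := F.lift x' g (by omega)
  obtain ⟨h1, e2, d2⟩ := F.lift x' h (by omega)
  obtain ⟨g2, e3, d3⟩ := F.lift y'' g (by omega)
  obtain ⟨h2, e4, d4⟩ := F.lift y'' h (by omega)
  obtain rfl := hu g1 g2 (e1.trans e3.symm) d1 d3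
  obtain rfl := hu h1 h2 (e2.trans e4.symm) d2 d4
  have := Γ.ovl' (g := g1) (h := h1) (fun k => hc (e1 ▸ e2 ▸ k.map f)) d1 d3 d2 d4
  have := F.b_lip x' y''
  have := Z.d_tri x (b x') y
  have := Z.d_tri (b x') (b y'') y
  have := Z.d_comm y (b y'')
  omega

theorem bdd : ∃ B, ∀ g : H, g ≠ 1 → IsOfFinOrder g → ∀ x y : W, Z.d x (g • x) ≤ 40 * ε →
    Z.d y (g • y) ≤ 40 * ε → Z.d x y ≤ B := by
  obtain ⟨B1, h1⟩ := F.stab_rot
  obtain ⟨B2, h2⟩ := Γ.bdd'
  refine ⟨2 * B1 + 2 * (B2 + D + 1 + 40 * ε), fun g g1 hf x y hx hy => ?_⟩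
  by_cases hfix : ∃ i : I, g • i = i
  · obtain ⟨i, hi⟩ := hfix
    have := h1 i g hi g1 x (by omega)
    have := h1 i g hi g1 y (by omega)
    have := Z.d_tri x (c i) y
    have := Z.d_comm y (c i)
    omega
  rcases F.tors_lift Γ hE hf with hi | ⟨o, g0, e0, f0, d0, m0⟩
  · exact (hfix hi).elim
  have key : ∀ u : W, Z.d u (g • u) ≤ 40 * ε → Z.d (b o) u ≤ B2 + D + 1 + 40 * ε := by
    intro u hu
    rcases F.dich u (40 * ε) (by omega) with ⟨x', hx'⟩ | ⟨i, hi⟩
    swap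
    · exact (hfix ⟨i, hi g hu⟩).elim
    have a1 := F.move hx' hu
    rcases F.lift2 o x' with ⟨i, hi⟩ | ⟨x'', e, hq⟩
    · exact (hfix ⟨i, F.fix_of_near hE hi m0 (by omega)⟩).elim
    rw [← e] at a1 hx'
    obtain ⟨g2, e2, d2⟩ := F.lift x'' g (by omega)
    obtain rfl := hq g0 g2 (e0.trans e2.symm) d0 d2
    have := h2 g0 (fun k => g1 (by rw [← e0, k, map_one])) f0 D o x'' d0 d2
    have := F.b_lip o x''
    have := Z.d_tri (b o) (b x'') u
    have := Z.d_comm u (b x'')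
    omega
  have := key x hx
  have := key y hy
  have := Z.d_tri x (b o) y
  have := Z.d_comm x (b o)
  omega

theorem inj (h : H) (hf : ¬ IsOfFinOrder h) : 1 ≤ ((4 * (D + 1) : ℕ) : ℝ) * Z.tau h := by
  by_contra hlt
  push Not at hlt
  have := F.one_le
  obtain ⟨x0⟩ := Γ.ne
  obtain ⟨o, R, hub, hmin⟩ := GS.exists_min_joint (X := Z) (fun j : Fin (D + 2) => h ^ (j : ℕ)) (b x0)
  have t0 := GS.tau_nonneg (X := Z) h
  have hR : R ≤ 41 * ε := by
    obtain ⟨i, j, hij⟩ := F.hyp.joint F.inv F.one_le hub hmin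
    have hi : ((i : ℕ) : ℝ) ≤ D + 1 := by exact_mod_cast Nat.lt_succ_iff.1 i.2
    have hj : ((j : ℕ) : ℝ) ≤ D + 1 := by exact_mod_cast Nat.lt_succ_iff.1 j.2
    have he : (1 : ℝ) ≤ ε := by exact_mod_cast F.one_le
    push_cast at hlt
    have : (R : ℝ) ≤ 41 * ε := by
      rcases hij with k | k
      · rw [F.inv.tau_pow o] at k
        nlinarith
      · rw [← pow_add, F.inv.tau_pow o] at k
        push_cast at k
        nlinarith
    exact_mod_cast this
  have hub' : ∀ j, j ≤ D + 1 → Z.d o (h ^ j • o) ≤ 41 * ε := fun j hj =>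
    (hub ⟨j, by omega⟩).trans hR
  rcases F.dich o (41 * ε) (by omega) with ⟨x, hx⟩ | ⟨i, hi⟩
  swap
  · exact hf (F.finOrder_of_fix Γ (hi h (by simpa using hub' 1 (by omega))))
  have mv : ∀ j, j ≤ D + 1 → Z.d (b x) (h ^ j • b x) ≤ E := fun j hj => by
    have := F.move hx (hub' j hj)
    omega
  obtain ⟨g, e, d1⟩ := F.lift x h (by simpa using mv 1 (by omega))
  have pw : ∀ j, j ≤ D + 1 → X.d x (g ^ j • x) ≤ D := by
    intro j
    induction j with
    | zero => simp [X.d_self]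
    | succ j ih =>
      intro hj
      obtain ⟨g', e', d'⟩ := F.lift x _ (mv (j + 1) hj)
      have h1 := Γ.inv.disp_mul (g ^ j) g x
      have h2 := ih (by omega)
      rw [← pow_succ] at h1
      have := F.uniq' Γ.inv (g' := g ^ (j + 1)) (by rw [e', map_pow, e]) d' (by omega)
      exact this ▸ d'
  rcases F.window g with k | k
  · exact hf (e ▸ k)
  · have h1 := GS.tau_mul_le_disp (X := X) g x (D + 1)
    have h2 : (X.d x (g ^ (D + 1) • x) : ℝ) ≤ D := by exact_mod_cast pw (D + 1) le_rfl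
    push_cast at h1
    have : (0 : ℝ) ≤ D := by positivity
    nlinarith

/-- The invariants of the quotient, before rescaling. -/
theorem good : Good H Z ε (A + 30 * D + 22 * δ + 80 * ε) (4 * (D + 1)) p q where
  ne := Γ.ne.map b
  one_le := F.one_le
  odd_p := Γ.odd_p
  odd_q := Γ.odd_q
  inv := F.inv
  hyp := F.hyp
  ovl := F.ovl Γ hE
  bdd := F.bdd Γ hE
  ell := F.ell Γ hE
  inj := F.inj Γ hE
  tors := fun _ h => F.tors Γ hE h

end Fill

namespace GS

variable {V : Type}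

/-- Rescaling by a factor `M`. -/
def scale (X : GS V) (M : ℕ) (hM : 0 < M) : GS V where
  d x y := (X.d x y + (M - 1)) / M
  d_self x := by
    rw [X.d_self]
    exact Nat.div_eq_of_lt (by omega)
  d_comm x y := by rw [X.d_comm]
  d_tri x y z := by
    have h := X.d_tri x y z
    have h1 := Nat.div_add_mod (X.d x y + (M - 1)) M
    have h2 := Nat.div_add_mod (X.d y z + (M - 1)) M
    have h3 := Nat.mod_lt (X.d x y + (M - 1)) hM
    have h4 := Nat.mod_lt (X.d y z + (M - 1)) hM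
    apply Nat.le_of_lt_succ
    rw [Nat.div_lt_iff_lt_mul hM, Nat.succ_mul, Nat.add_mul, mul_comm _ M, mul_comm _ M]
    omega
  d_zero x y h := by
    have := (Nat.div_eq_zero_iff_lt hM).1 h
    exact X.d_zero _ _ (by omega)
  geod x y t ht := by
    have key : ∀ a k : ℕ, (M * k + a + (M - 1)) / M = k + (a + (M - 1)) / M := by
      intro a k
      rw [Nat.add_assoc, Nat.mul_add_div hM]
    by_cases h : M * t ≤ X.d x y
    · obtain ⟨z, h1, h2⟩ := X.geod x y (M * t) h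
      have e := key 0 t
      have e0 : (0 + (M - 1)) / M = 0 := Nat.div_eq_of_lt (by omega)
      rw [e0] at e
      refine ⟨z, by rw [h1]; exact e, ?_⟩
      rw [← h2, h1, key (X.d z y) t]
      congr 1
    · refine ⟨y, ?_, ?_⟩
      · apply le_antisymm _ ht
        apply Nat.le_of_lt_succ
        rw [Nat.div_lt_iff_lt_mul hM, Nat.succ_mul, mul_comm _ M]
        omega
      · rw [X.d_self, Nat.div_eq_of_lt (show 0 + (M - 1) < M by omega), Nat.add_zero]

variable {X : GS V} {M : ℕ} {hM : 0 < M}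

theorem scale_le_iff {x y : V} {k : ℕ} : (X.scale M hM).d x y ≤ k ↔ X.d x y ≤ M * k := by
  show (X.d x y + (M - 1)) / M ≤ k ↔ _
  rw [← Nat.lt_succ_iff, Nat.div_lt_iff_lt_mul hM, Nat.succ_mul, mul_comm k M]
  omega

theorem le_mul_scale (x y : V) : X.d x y ≤ M * (X.scale M hM).d x y := scale_le_iff.1 le_rfl

theorem mul_scale_le (x y : V) : M * (X.scale M hM).d x y < X.d x y + M := by
  rcases h : (X.scale M hM).d x y with _ | k
  · omega
  · have : ¬ (X.scale M hM).d x y ≤ k := by omega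
    rw [scale_le_iff] at this
    rw [Nat.mul_succ]
    omega

theorem scale_le (x y : V) : (X.scale M hM).d x y ≤ X.d x y :=
  scale_le_iff.2 (Nat.le_mul_of_pos_left _ hM)

theorem Hyp.scale {ε : ℕ} (H : X.Hyp ε) (h : ε ≤ M) : (X.scale M hM).Hyp 3 := by
  intro x y z w
  have a1 := mul_scale_le (X := X) (hM := hM) x y
  have a2 := mul_scale_le (X := X) (hM := hM) z w
  have a3 := le_mul_scale (X := X) (hM := hM) x z
  have a4 := le_mul_scale (X := X) (hM := hM) y w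
  have a5 := le_mul_scale (X := X) (hM := hM) x w
  have a6 := le_mul_scale (X := X) (hM := hM) y z
  rcases H x y z w with k | k
  · left
    refine Nat.le_of_mul_le_mul_left ?_ hM
    rw [Nat.mul_add, Nat.mul_add, Nat.mul_add]
    omega
  · right
    refine Nat.le_of_mul_le_mul_left ?_ hM
    rw [Nat.mul_add, Nat.mul_add, Nat.mul_add]
    omega

variable {G : Type} [Group G] [MulAction G V]

theorem Inv.scale (I : X.Inv G) : (X.scale M hM).Inv G := by
  intro g x y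
  show (X.d (g • x) (g • y) + (M - 1)) / M = (X.d x y + (M - 1)) / M
  rw [I]

theorem Inv.tau_scale (I : X.Inv G) (x : V) (g : G) :
    X.tau g = M * (X.scale M hM).tau g := by
  have hM' : (0 : ℝ) < M := by exact_mod_cast hM
  apply le_antisymm
  · rw [← div_le_iff₀' hM']
    refine (I.scale (hM := hM)).le_tau g x (C := 0) fun n => ?_
    have h1 := tau_mul_le_disp (X := X) g x n
    have h2 : (X.d x (g ^ n • x) : ℝ) ≤ M * (X.scale M hM).d x (g ^ n • x) := by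
      exact_mod_cast le_mul_scale x (g ^ n • x)
    rw [div_mul_eq_mul_div, div_le_iff₀ hM']
    linarith
  · refine I.le_tau g x (C := M) fun n => ?_
    have h1 := tau_mul_le_disp (X := X.scale M hM) g x n
    have h2 : (M : ℝ) * (X.scale M hM).d x (g ^ n • x) ≤ X.d x (g ^ n • x) + M := by
      exact_mod_cast (mul_scale_le x (g ^ n • x)).le
    nlinarith

end GS

/-- Rescaling the invariants. -/
theorem Good.scale {G : Type} [Group G] {V : Type} [MulAction G V] {X : GS V}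
    {ε A m p q : ℕ} (Γ : Good G X ε A m p q) {M : ℕ} (hM : 0 < M) (h : A + 22 * ε ≤ M) {δ : ℕ}
    (hδ : 3 ≤ δ) : Good G (X.scale M hM) δ (1200 * δ + 1) (m * M) p q where
  ne := Γ.ne
  one_le := by omega
  odd_p := Γ.odd_p
  odd_q := Γ.odd_q
  inv := Γ.inv.scale
  hyp := (Γ.hyp.scale (by omega)).mono hδ
  ovl := fun g k x y hc h1 h2 h3 h4 => by
    rw [GS.scale_le_iff] at *
    have := Γ.ovl' hc h1 h3 h2 h4
    have e : M * (1200 * δ + 1) = 30 * (M * (40 * δ)) + M := by ring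
    omega
  bdd := by
    obtain ⟨B, hB⟩ := Γ.bdd'
    refine ⟨B + M * (40 * δ) + 1, fun g g1 hf x y h1 h2 => ?_⟩
    rw [GS.scale_le_iff] at h1 h2
    exact (GS.scale_le x y).trans (hB g g1 hf _ x y h1 h2)
  ell := fun K x D hK => Γ.ell K x (M * D) fun k hk => GS.scale_le_iff.1 (hK k hk)
  inj := fun g hg => by
    obtain ⟨x⟩ := Γ.ne
    have := Γ.inj g hg
    rw [Γ.inv.tau_scale (hM := hM) x g] at this
    push_cast
    linarith
  tors := Γ.tors

end Pool.Agent.Lib.MP_e0e7d6_al
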