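import Mathlib

/-!
Discrete geodesic metric spaces, Gromov hyperbolicity (four point form) and isometric actions.
-/

namespace Pool.Agent.Lib.MP_e0e7d6_al

/-- An integer valued geodesic metric. -/
structure GS (V : Type) where
  d : V → V → ℕ
  d_self : ∀ x, d x x = 0
  d_comm : ∀ x y, d x y = d y x
  d_tri : ∀ x y z, d x z ≤ d x y + d y z
  d_zero : ∀ x y, d x y = 0 → x = y
  geod : ∀ x y t, t ≤ d x y → ∃ m, d x m = t ∧ d x m + d m y = d x y

namespace GS

variable {V : Type} (X : GS V)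

/-- Four point condition. -/
def Hyp (δ : ℕ) : Prop :=
  ∀ x y z w, X.d x y + X.d z w ≤ X.d x z + X.d y w + δ ∨ X.d x y + X.d z w ≤ X.d x w + X.d y z + δ

/-- `m` lies on a geodesic from `x` to `y`. -/
def Btw (x m y : V) : Prop := X.d x m + X.d m y = X.d x y

/-- `q` lies almost on a geodesic from `x` to `y`. -/
def Near (ε : ℕ) (x q y : V) : Prop := X.d x q + X.d q y ≤ X.d x y + ε

/-- The action is by isometries. -/
def Inv (G : Type) [Group G] [MulAction G V] : Prop :=
  ∀ (g : G) (x y : V), X.d (g • x) (g • y) = X.d x y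

variable {X}

theorem Hyp.mono {δ δ' : ℕ} (h : X.Hyp δ) (hd : δ ≤ δ') : X.Hyp δ' := by
  intro x y z w
  rcases h x y z w with h | h <;> omega

theorem Btw.symm {x m y : V} (h : X.Btw x m y) : X.Btw y m x := by
  unfold Btw at *
  have := X.d_comm x m
  have := X.d_comm m y
  have := X.d_comm x y
  omega

theorem Btw.near {x m y : V} (h : X.Btw x m y) (ε : ℕ) : X.Near ε x m y := by
  unfold Btw Near at *
  omega

theorem btw_of_le {x m y : V} (h : X.d x m + X.d m y ≤ X.d x y) : X.Btw x m y := by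
  unfold Btw
  have := X.d_tri x m y
  omega

theorem btw_left (x y : V) : X.Btw x x y := by
  unfold Btw
  have := X.d_self x
  omega

theorem btw_right (x y : V) : X.Btw x y y := by
  unfold Btw
  have := X.d_self y
  omega

theorem Btw.eq_of_self {x m : V} (h : X.Btw x m x) : m = x := by
  unfold Btw at h
  have := X.d_self x
  exact X.d_zero _ _ (by omega)

/-- `x m y` and `m n y` give `x n y` and `x m n`. -/
theorem Btw.trans_right {x m n y : V} (h : X.Btw x m y) (h' : X.Btw m n y) :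
    X.Btw x n y ∧ X.Btw x m n := by
  unfold Btw at *
  have := X.d_tri x m n
  have := X.d_tri x n y
  omega

/-- `x m y` and `x n m` give `x n y` and `n m y`. -/
theorem Btw.trans_left {x m n y : V} (h : X.Btw x m y) (h' : X.Btw x n m) :
    X.Btw x n y ∧ X.Btw n m y := by
  unfold Btw at *
  have := X.d_tri n m y
  have := X.d_tri x n y
  omega

theorem Near.symm {ε : ℕ} {x q y : V} (h : X.Near ε x q y) : X.Near ε y q x := by
  unfold Near at *
  have := X.d_comm x q
  have := X.d_comm q y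
  have := X.d_comm x y
  omega

theorem Near.mono {ε ε' : ℕ} {x q y : V} (h : X.Near ε x q y) (he : ε ≤ ε') : X.Near ε' x q y := by
  unfold Near at *
  omega

theorem Near.move {ε t : ℕ} {x q q' y : V} (h : X.Near ε x q y) (hq : X.d q q' ≤ t) :
    X.Near (ε + 2 * t) x q' y := by
  unfold Near at *
  have := X.d_tri x q q'
  have := X.d_tri q' q y
  have := X.d_comm q q'
  omega

theorem exists_btw (x y : V) (t : ℕ) (h : t ≤ X.d x y) : ∃ m, X.Btw x m y ∧ X.d x m = t := by
  obtain ⟨m, h1, h2⟩ := X.geod x y t h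
  exact ⟨m, h2, h1⟩

section hyp

variable {δ : ℕ}

theorem Hyp.mid (H : X.Hyp δ) {ε : ℕ} {x m y : V} (h : X.Near ε x m y) (z : V) :
    X.d z m + X.d x m ≤ X.d z x + ε + δ ∨ X.d z m + X.d m y ≤ X.d z y + ε + δ := by
  unfold Near at h
  have := X.d_comm m x
  rcases H z m x y with h' | h' <;> omega

theorem Hyp.near_near (H : X.Hyp δ) {ε ε' : ℕ} {x q q' y : V} (h : X.Near ε x q y)
    (h' : X.Near ε' x q' y) :
    X.d q q' + X.d x q ≤ X.d x q' + ε + δ ∨ X.d q q' + X.d x q' ≤ X.d x q + ε' + δ := by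
  unfold Near at h h'
  have := X.d_comm q x
  have := X.d_comm q' x
  rcases H q q' x y with h'' | h'' <;> omega

/-- Changing the far end point. -/
theorem Hyp.change (H : X.Hyp δ) {ε D : ℕ} {a q b b' : V} (h : X.Near ε a q b)
    (hb : X.d b b' ≤ D) (hq : 2 * D + δ + ε < 2 * X.d q b) : X.Near (ε + δ) a q b' := by
  unfold Near at *
  have := X.d_tri q b' b
  have := X.d_comm b b'
  have := X.d_comm q b
  rcases H a b q b' with h' | h' <;> omega

theorem Hyp.change_left (H : X.Hyp δ) {ε D : ℕ} {a a' q b : V} (h : X.Near ε a q b)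
    (hb : X.d a a' ≤ D) (hq : 2 * D + δ + ε < 2 * X.d a q) : X.Near (ε + δ) a' q b := by
  have := X.d_comm a q
  exact (H.change h.symm hb (by omega)).symm

theorem Hyp.near_btw (H : X.Hyp δ) {ε : ℕ} {x q y : V} (h : X.Near ε x q y) :
    ∃ q', X.Btw x q' y ∧ X.d q q' ≤ ε + δ := by
  by_cases hq : X.d x q ≤ X.d x y
  · obtain ⟨m, hm, hd⟩ := exists_btw x y _ hq
    refine ⟨m, hm, ?_⟩
    rcases H.near_near h (hm.near 0) with h' | h' <;> omega
  · refine ⟨y, btw_right x y, ?_⟩
    unfold Near at h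
    omega

theorem Hyp.fellow (H : X.Hyp δ) {o m a m' b : V} (h : X.Btw o m a) (h' : X.Btw o m' b)
    (he : X.d o m = X.d o m') (ht : 2 * X.d o m + X.d a b ≤ X.d o a + X.d o b) :
    X.d m m' ≤ 2 * δ := by
  have h1 := H.mid (h.near 0) m'
  have h2 := H.mid (h'.near 0) a
  unfold Btw at h h'
  have := X.d_comm m m'
  have := X.d_comm m' o
  have := X.d_comm m' a
  have := X.d_comm a o
  omega

/-- Gromov product inequality, for doubled products at the base point `o`. -/
theorem Hyp.gp (H : X.Hyp δ) (o a b c : V) :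
    X.d o c + X.d a b ≤ X.d o b + X.d a c + δ ∨ X.d o c + X.d a b ≤ X.d o a + X.d b c + δ := by
  have := H o c b a
  have := X.d_comm c a
  have := X.d_comm b a
  have := X.d_comm c b
  omega

/-- Slim triangles. -/
theorem Hyp.slim (H : X.Hyp δ) {x m y : V} (h : X.Btw x m y) (z : V) :
    ∃ m', (X.Btw x m' z ∨ X.Btw z m' y) ∧ X.d m m' ≤ 2 * δ := by
  rcases H.mid (h.near 0) z with h1 | h1
  · have hn : X.Near δ x m z := by
      unfold Near
      have := X.d_comm z m
      have := X.d_comm z x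
      omega
    obtain ⟨q, hq, hd⟩ := H.near_btw hn
    exact ⟨q, Or.inl hq, by omega⟩
  · have hn : X.Near δ z m y := by
      unfold Near
      omega
    obtain ⟨q, hq, hd⟩ := H.near_btw hn
    exact ⟨q, Or.inr hq, by omega⟩

/-! Chains of points with small local Gromov products. -/

theorem Hyp.chain_fwd (H : X.Hyp δ) {κ : ℕ} {x : ℕ → V}
    (hn : ∀ i, X.Near κ (x i) (x (i + 1)) (x (i + 2)))
    (hs : ∀ i, κ + 2 * δ < X.d (x i) (x (i + 1))) (i j : ℕ) (hij : i ≤ j) :
    X.Near (κ + δ) (x i) (x j) (x (j + 1)) := by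
  induction j, hij using Nat.le_induction with
  | base => exact (btw_left _ _).near _
  | succ j hij ih =>
    have h1 := hn j
    have h2 := hs j
    have h3 := H (x i) (x (j + 1)) (x j) (x (j + 2))
    have := X.d_comm (x (j + 1)) (x j)
    unfold Near at *
    show X.d (x i) (x (j + 1)) + X.d (x (j + 1)) (x (j + 2)) ≤ X.d (x i) (x (j + 2)) + (κ + δ)
    omega

theorem Hyp.chain_bwd (H : X.Hyp δ) {κ : ℕ} {x : ℕ → V}
    (hn : ∀ i, X.Near κ (x i) (x (i + 1)) (x (i + 2)))
    (hs : ∀ i, κ + 2 * δ < X.d (x i) (x (i + 1))) (k j : ℕ) (hjk : j + 1 ≤ k) :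
    X.Near (κ + δ) (x j) (x (j + 1)) (x k) := by
  obtain ⟨n, rfl⟩ := Nat.exists_eq_add_of_le hjk
  clear hjk
  induction n generalizing j with
  | zero => exact (btw_right _ _).near _
  | succ n ih =>
    have h0 := ih (j + 1)
    have e : j + 1 + 1 + n = j + 1 + (n + 1) := by omega
    rw [e] at h0
    have h1 := hn j
    have h2 := hs (j + 1)
    have h3 := H (x (j + 1 + (n + 1))) (x (j + 1)) (x (j + 2)) (x j)
    have := X.d_comm (x (j + 1)) (x j)
    have := X.d_comm (x (j + 2)) (x j)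
    have := X.d_comm (x (j + 1 + (n + 1))) (x (j + 1))
    have := X.d_comm (x (j + 1 + (n + 1))) (x (j + 2))
    have := X.d_comm (x (j + 1 + (n + 1))) (x j)
    unfold Near at *
    have e2 : j + 1 + 1 = j + 2 := rfl
    rw [e2] at h0 h2
    omega

theorem Hyp.chain_near (H : X.Hyp δ) {κ : ℕ} {x : ℕ → V}
    (hn : ∀ i, X.Near κ (x i) (x (i + 1)) (x (i + 2)))
    (hs : ∀ i, κ + 2 * δ < X.d (x i) (x (i + 1))) {i j k : ℕ} (hij : i ≤ j) (hjk : j ≤ k) :
    X.Near (κ + 2 * δ) (x i) (x j) (x k) := by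
  rcases Nat.eq_or_lt_of_le hjk with rfl | hjk
  · exact (btw_right _ _).near _
  have h1 := H.chain_fwd hn hs i j hij
  have h2 := H.chain_bwd hn hs k j hjk
  have h3 := H (x i) (x (j + 1)) (x j) (x k)
  have h4 := hs j
  have := X.d_comm (x (j + 1)) (x j)
  unfold Near at *
  omega

theorem Hyp.chain_dist (H : X.Hyp δ) {κ l : ℕ} {x : ℕ → V}
    (hn : ∀ i, X.Near κ (x i) (x (i + 1)) (x (i + 2)))
    (hs : ∀ i, κ + 2 * δ < X.d (x i) (x (i + 1)))
    (hl : ∀ i, l + κ + δ ≤ X.d (x i) (x (i + 1))) (i n : ℕ) :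
    l * n ≤ X.d (x i) (x (i + n)) := by
  induction n with
  | zero => simp
  | succ n ih =>
    have h1 := H.chain_fwd hn hs i (i + n) (by omega)
    have h2 := hl (i + n)
    unfold Near at h1
    have e : i + (n + 1) = i + n + 1 := rfl
    rw [e, Nat.mul_succ]
    omega

end hyp

section action

variable {G : Type} [Group G] [MulAction G V] {δ : ℕ}

theorem Inv.d_inv (I : X.Inv G) (g : G) (x y : V) : X.d (g⁻¹ • x) y = X.d x (g • y) := by
  rw [← I g (g⁻¹ • x) y, smul_inv_smul]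

theorem Inv.disp_inv (I : X.Inv G) (g : G) (x : V) : X.d x (g⁻¹ • x) = X.d x (g • x) := by
  rw [X.d_comm, I.d_inv]

theorem Inv.disp_mul (I : X.Inv G) (g h : G) (x : V) :
    X.d x ((g * h) • x) ≤ X.d x (g • x) + X.d x (h • x) := by
  have h1 := X.d_tri x (g • x) ((g * h) • x)
  rw [mul_smul, I g x (h • x)] at h1
  rw [mul_smul]
  exact h1

theorem Inv.disp_one (x : V) : X.d x ((1 : G) • x) = 0 := by
  rw [one_smul, X.d_self]

theorem Inv.disp_pow (I : X.Inv G) (g : G) (x : V) (n : ℕ) :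
    X.d x (g ^ n • x) ≤ n * X.d x (g • x) := by
  induction n with
  | zero => simp [X.d_self]
  | succ n ih =>
    have := I.disp_mul (g ^ n) g x
    rw [pow_succ, Nat.succ_mul]
    omega

theorem Inv.disp_move (I : X.Inv G) (g : G) (x y : V) :
    X.d y (g • y) ≤ X.d x (g • x) + 2 * X.d x y := by
  have h1 := X.d_tri y x (g • y)
  have h2 := X.d_tri x (g • x) (g • y)
  have h3 := I g x y
  have := X.d_comm x y
  omega

theorem Inv.disp_conj (I : X.Inv G) (g h : G) (x : V) :
    X.d (h • x) ((h * g * h⁻¹) • h • x) = X.d x (g • x) := by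
  rw [← mul_smul, inv_mul_cancel_right, mul_smul, I]

theorem Inv.disp_conj' (I : X.Inv G) (g h : G) (x : V) :
    X.d x ((h⁻¹ * g * h) • x) = X.d (h • x) (g • h • x) := by
  rw [mul_smul, mul_smul, X.d_comm, I.d_inv, X.d_comm]

theorem Inv.disp_comm (I : X.Inv G) {g h : G} (c : Commute g h) (x : V) :
    X.d (h • x) (g • h • x) = X.d x (g • x) := by
  rw [← mul_smul, c.eq, mul_smul, I]

theorem Inv.btw (I : X.Inv G) (g : G) {x m y : V} (h : X.Btw x m y) :
    X.Btw (g • x) (g • m) (g • y) := by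
  unfold Btw at *
  rw [I, I, I]
  exact h

theorem Inv.near (I : X.Inv G) (g : G) {ε : ℕ} {x m y : V} (h : X.Near ε x m y) :
    X.Near ε (g • x) (g • m) (g • y) := by
  unfold Near at *
  rw [I, I, I]
  exact h

/-- Convexity of displacement functions. -/
theorem Hyp.descent (H : X.Hyp δ) (I : X.Inv G) (g : G) {x m o : V} (h : X.Btw x m o) :
    X.d m (g • m) + 2 * X.d x m ≤ X.d x (g • x) + 2 * δ ∨
      X.d m (g • m) ≤ X.d o (g • o) + 2 * δ := by
  have hg := I.btw g h
  have h1 := H.mid (h.near 0) (g • m)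
  have h2 := H.mid (hg.near 0) x
  have h3 := H.mid (hg.near 0) o
  have := I g x m
  have := I g m o
  have := I g x o
  have := X.d_tri x o (g • o)
  have := X.d_tri o (g • o) (g • x)
  have := X.d_comm (g • o) (g • x)
  have := X.d_comm (g • m) m
  have := X.d_comm (g • m) x
  have := X.d_comm (g • m) o
  unfold Btw at h hg
  omega

theorem Hyp.mov_btw (H : X.Hyp δ) (I : X.Inv G) (g : G) {x m y : V} {D : ℕ} (h : X.Btw x m y)
    (hx : X.d x (g • x) ≤ D) (hy : X.d y (g • y) ≤ D) : X.d m (g • m) ≤ D + 2 * δ := by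
  rcases H.descent I g h with h | h <;> omega

theorem Hyp.mov_near (H : X.Hyp δ) (I : X.Inv G) (g : G) {x q y : V} {D ε : ℕ}
    (h : X.Near ε x q y) (hx : X.d x (g • x) ≤ D) (hy : X.d y (g • y) ≤ D) :
    X.d q (g • q) ≤ D + 4 * δ + 2 * ε := by
  obtain ⟨m, hm, hd⟩ := H.near_btw h
  have h1 := H.mov_btw I g hm hx hy
  have h2 := I.disp_move g m q
  have := X.d_comm q m
  omega

/-- From any point one can walk to a point of almost minimal displacement. -/
theorem Hyp.walk_down (H : X.Hyp δ) (I : X.Inv G) (g : G) (x o : V) :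
    ∃ m, 2 * X.d x m ≤ X.d x (g • x) + 1 ∧ X.d m (g • m) ≤ X.d o (g • o) + 2 * δ := by
  by_cases h : (X.d x (g • x) + 1) / 2 ≤ X.d x o
  · obtain ⟨m, hm, hd⟩ := exists_btw x o _ h
    refine ⟨m, by omega, ?_⟩
    rcases H.descent I g hm with h' | h' <;> omega
  · exact ⟨o, by omega, by omega⟩

/-- One step of the translation estimate along a segment moved little at both ends. -/
theorem Hyp.shift_near (H : X.Hyp δ) (I : X.Inv G) (s : G) {x y q : V} {D ε : ℕ}
    (hx : X.d x (s • x) ≤ D) (hy : X.d y (s • y) ≤ D) (hq : X.Near ε x q y)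
    (h1 : D + δ + ε < X.d x q) (h2 : D + δ + ε < X.d q y) :
    X.Near (ε + 2 * δ) x (s • q) y ∧
      X.d x (s • q) + X.d (s • x) y ≤ X.d x q + X.d x y + ε + 2 * δ ∧
      X.d x q + X.d x y ≤ X.d x (s • q) + X.d (s • x) y + ε + 2 * δ := by
  have a0 := I.near s hq
  have e1 := I s x q
  have e2 := I s q y
  have := X.d_comm y (s • y)
  have := X.d_comm x (s • x)
  have a1 : X.Near (ε + δ) (s • x) (s • q) y := H.change (D := D) a0 (by omega) (by omega)
  have a2 : X.Near (ε + δ + δ) x (s • q) y := H.change_left (D := D) a1 (by omega) (by omega)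
  have t1 := X.d_tri x (s • q) y
  have t2 := X.d_tri (s • x) (s • q) y
  unfold Near at *
  omega

/-- Commutators of elements moving both ends of a long segment little almost fix its middle. -/
theorem Hyp.comm_small (H : X.Hyp δ) (I : X.Inv G) (g h : G) {x y m : V} {D : ℕ}
    (gx : X.d x (g • x) ≤ D) (gy : X.d y (g • y) ≤ D)
    (hx : X.d x (h • x) ≤ D) (hy : X.d y (h • y) ≤ D) (hm : X.Btw x m y)
    (h1 : 5 * D + 10 * δ < X.d x m) (h2 : 5 * D + 10 * δ < X.d m y) :
    X.d m ((g * h * g⁻¹ * h⁻¹) • m) ≤ 40 * δ := by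
  have mv : ∀ (s : G) (q : V), X.d x (s • x) ≤ D → X.d y (s • y) ≤ D →
      X.d x q ≤ X.d x (s • q) + D ∧ X.d q y ≤ X.d (s • q) y + D := by
    intro s q a b
    have := I s x q
    have := I s q y
    have := X.d_tri (s • x) x (s • q)
    have := X.d_tri (s • q) y (s • y)
    have := X.d_comm x (s • x)
    omega
  have gx' : X.d x (g⁻¹ • x) ≤ D := by rwa [I.disp_inv]
  have gy' : X.d y (g⁻¹ • y) ≤ D := by rwa [I.disp_inv]
  have hx' : X.d x (h⁻¹ • x) ≤ D := by rwa [I.disp_inv]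
  have hy' : X.d y (h⁻¹ • y) ≤ D := by rwa [I.disp_inv]
  have m1 := mv h⁻¹ m hx' hy'
  have m2 := mv g⁻¹ (h⁻¹ • m) gx' gy'
  have m3 := mv h (g⁻¹ • h⁻¹ • m) hx hy
  obtain ⟨n1, -, -⟩ := H.shift_near I h⁻¹ hx' hy' (hm.near 0) (by omega) (by omega)
  obtain ⟨n2, -, -⟩ := H.shift_near I g⁻¹ gx' gy' n1 (by omega) (by omega)
  obtain ⟨n3, c3, c3'⟩ := H.shift_near I h hx hy n2 (by omega) (by omega)
  obtain ⟨n4, c4, c4'⟩ := H.shift_near I g gx gy n3 (by omega) (by omega)
  obtain ⟨-, c1, c1'⟩ := H.shift_near I h hx hy n1 (by omega) (by omega)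
  obtain ⟨-, c2, c2'⟩ := H.shift_near I g gx gy n2 (by omega) (by omega)
  rw [smul_inv_smul] at c1 c1' c2 c2'
  have := H.near_near (hm.near 0) n4
  simp only [mul_smul]
  omega

/-- Quasi-centre of a bounded orbit. -/
theorem Hyp.center (H : X.Hyp δ) (I : X.Inv G) (K : Subgroup G) {x : V} {D : ℕ}
    (hx : ∀ k ∈ K, X.d x (k • x) ≤ D) : ∃ o, ∀ k ∈ K, X.d o (k • o) ≤ 2 * δ + 1 := by
  classical
  have ex : ∃ R, ∃ o, ∀ k ∈ K, X.d o (k • x) ≤ R := ⟨D, x, hx⟩
  obtain ⟨o, ho⟩ := Nat.find_spec ex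
  refine ⟨o, fun k hk => ?_⟩
  by_contra hlt
  obtain ⟨m, hm, hd⟩ := exists_btw (X := X) o (k • o) (δ + 1) (by omega)
  have ho' : ∀ k' ∈ K, X.d (k • o) (k' • x) ≤ Nat.find ex := by
    intro k' hk'
    have := ho (k⁻¹ * k') (K.mul_mem (K.inv_mem hk) hk')
    rwa [mul_smul, X.d_comm, I.d_inv, X.d_comm] at this
  have hpos : 0 < Nat.find ex := by
    have a := ho 1 K.one_mem
    have b := ho' 1 K.one_mem
    have := X.d_tri o ((1 : G) • x) (k • o)
    have := X.d_comm (k • o) ((1 : G) • x)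
    omega
  refine Nat.find_min ex (m := Nat.find ex - 1) (by omega) ⟨m, fun k' hk' => ?_⟩
  have a := ho k' hk'
  have b := ho' k' hk'
  have c := H.mid (hm.near 0) (k' • x)
  have := X.d_comm m (k' • x)
  have := X.d_comm o (k' • x)
  have := X.d_comm (k • o) (k' • x)
  unfold Btw at hm
  omega

end action

end GS

end Pool.Agent.Lib.MP_e0e7d6_al
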