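import Pool.Agent.Lib.MP_e0e7d6_al.Tau

/-!
The inductive invariants of the construction and their algebraic consequences.
-/

namespace Pool.Agent.Lib.MP_e0e7d6_al

/-- Commutation is transitive on nontrivial elements and centralisers are malnormal. -/
structure CSA (G : Type) [Group G] : Prop where
  trans : ∀ g a b : G, g ≠ 1 → Commute g a → Commute g b → Commute a b
  mal : ∀ g h : G, g ≠ 1 → Commute g (h * g * h⁻¹) → Commute g h

namespace CSA

variable {G : Type} [Group G] (C : CSA G)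
include C

theorem trans' {g a b : G} (hg : g ≠ 1) (ha : Commute a g) (hb : Commute g b) : Commute a b :=
  C.trans g a b hg ha.symm hb

/-- Conjugate elements which commute are equal. -/
theorem eq_of_conj {g h : G} (c : Commute g (h * g * h⁻¹)) : h * g * h⁻¹ = g := by
  by_cases hg : g = 1
  · simp [hg]
  · rw [← (C.mal g h hg c).eq]
    simp

/-- If `e` conjugates a nontrivial element of the centraliser of `g` into it, then `e` lies in it. -/
theorem mal' {g a e : G} (hg : g ≠ 1) (ha : a ≠ 1) (c1 : Commute g a)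
    (c2 : Commute g (e * a * e⁻¹)) : Commute g e :=
  C.trans' ha c1 (C.mal a e ha (C.trans g _ _ hg c1 c2))

theorem eq_one_of_comm {a b h : G} (hab : ¬ Commute a b) (ha : Commute a h) (hb : Commute b h) :
    h = 1 := by
  by_contra hh
  exact hab (C.trans h a b hh ha.symm hb.symm)

theorem not_comm_commutator {g h : G} (hgh : ¬ Commute g h) :
    ¬ Commute g (g * h * g⁻¹ * h⁻¹) := by
  intro c
  have hg : g ≠ 1 := fun e => hgh (e ▸ Commute.one_left h)
  have c1 : Commute g (h * g⁻¹ * h⁻¹) := by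
    have := (Commute.refl g).inv_right.mul_right c
    simpa [mul_assoc] using this
  have c2 : Commute g (h * g * h⁻¹) := by
    have := c1.inv_right
    simpa [mul_assoc] using this
  exact hgh (C.mal g h hg c2)

end CSA

theorem commutator_ne_one {G : Type} [Group G] {g h : G} (hgh : ¬ Commute g h) :
    g * h * g⁻¹ * h⁻¹ ≠ 1 := by
  intro e
  apply hgh
  have : g * h = h * g := by
    calc g * h = (g * h * g⁻¹ * h⁻¹) * (h * g) := by group
      _ = h * g := by rw [e, one_mul]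
  exact this

/-- The invariants carried along the construction. -/
structure Good (G : Type) [Group G] {V : Type} [MulAction G V] (X : GS V) (δ A m p q : ℕ) :
    Prop where
  ne : Nonempty V
  one_le : 1 ≤ δ
  odd_p : Odd p
  odd_q : Odd q
  inv : X.Inv G
  hyp : X.Hyp δ
  ovl : ∀ (g h : G) (x y : V), ¬ Commute g h → X.d x (g • x) ≤ 40 * δ → X.d x (h • x) ≤ 40 * δ →
    X.d y (g • y) ≤ 40 * δ → X.d y (h • y) ≤ 40 * δ → X.d x y ≤ A
  bdd : ∃ B, ∀ g : G, g ≠ 1 → IsOfFinOrder g → ∀ x y : V, X.d x (g • x) ≤ 40 * δ →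
    X.d y (g • y) ≤ 40 * δ → X.d x y ≤ B
  ell : ∀ (K : Subgroup G) (x : V) (D : ℕ), (∀ k ∈ K, X.d x (k • x) ≤ D) →
    ∀ a ∈ K, ∀ b ∈ K, Commute a b
  inj : ∀ g : G, ¬ IsOfFinOrder g → 1 ≤ (m : ℝ) * X.tau g
  tors : ∀ g : G, IsOfFinOrder g → g ^ p = 1 ∨ g ^ q = 1

namespace Good

variable {G : Type} [Group G] {V : Type} [MulAction G V] {X : GS V} {δ A m p q : ℕ}
  (Γ : Good G X δ A m p q)
include Γ

theorem tau_pos {g : G} (hg : ¬ IsOfFinOrder g) : 0 < X.tau g := by
  have h := Γ.inj g hg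
  have h0 := GS.tau_nonneg (X := X) g
  rcases h0.eq_or_lt with e | e
  · rw [← e] at h
    norm_num at h
  · exact e

theorem finOrder_of_tau {g : G} (h : X.tau g ≤ 0) : IsOfFinOrder g := by
  by_contra hg
  linarith [Γ.tau_pos hg]

theorem not_finOrder_of_tau {g : G} (h : 0 < X.tau g) : ¬ IsOfFinOrder g := by
  intro hg
  obtain ⟨x⟩ := Γ.ne
  linarith [Γ.inv.tau_of_finOrder x hg]

theorem tau_pow (g : G) (k : ℕ) : X.tau (g ^ k) = k * X.tau g :=
  Γ.ne.elim fun x => Γ.inv.tau_pow x g k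

theorem tau_zpow (g : G) (k : ℤ) : X.tau (g ^ k) = |(k : ℝ)| * X.tau g :=
  Γ.ne.elim fun x => Γ.inv.tau_zpow x g k

theorem tau_conj (g h : G) : X.tau (h * g * h⁻¹) = X.tau g :=
  Γ.ne.elim fun x => Γ.inv.tau_conj x g h

theorem tau_mul_comm (g h : G) : X.tau (g * h) = X.tau (h * g) :=
  Γ.ne.elim fun x => Γ.inv.tau_mul_comm x g h

theorem tau_mul_le {g h : G} (c : Commute g h) : X.tau (g * h) ≤ X.tau g + X.tau h :=
  Γ.ne.elim fun x => Γ.inv.tau_mul_le x c

theorem tau_inv (g : G) : X.tau g⁻¹ = X.tau g := Γ.inv.tau_inv g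

theorem tau_one : X.tau (1 : G) = 0 := Γ.ne.elim fun x => Γ.inv.tau_one x

theorem eq_one_of_sq {g : G} (h : g ^ 2 = 1) : g = 1 := by
  have hf : IsOfFinOrder g := isOfFinOrder_iff_pow_eq_one.2 ⟨2, two_pos, h⟩
  have key : ∀ n, Odd n → g ^ n = 1 → g = 1 := by
    rintro n ⟨k, rfl⟩ e
    rwa [pow_succ, pow_mul, h, one_pow, one_mul] at e
  rcases Γ.tors g hf with e | e
  · exact key _ Γ.odd_p e
  · exact key _ Γ.odd_q e

/-- Orbits of elements of infinite order are unbounded. -/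
theorem exists_far {g : G} (hg : ¬ IsOfFinOrder g) (x : V) (D : ℕ) :
    ∃ n : ℕ, D < X.d x (g ^ n • x) := by
  refine ⟨m * (D + 1), ?_⟩
  have h1 := GS.tau_mul_le_disp (X := X) g x (m * (D + 1))
  have h2 := Γ.inj g hg
  have h3 : ((D : ℝ) + 1) ≤ X.d x (g ^ (m * (D + 1)) • x) := by
    push_cast at h1
    nlinarith
  exact_mod_cast h3

theorem pow_far {g : G} (hg : ¬ IsOfFinOrder g) (x : V) (n : ℕ) :
    n ≤ m * X.d x (g ^ n • x) := by
  have h1 := GS.tau_mul_le_disp (X := X) g x n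
  have h2 := Γ.inj g hg
  have h3 : (n : ℝ) ≤ m * X.d x (g ^ n • x) := by
    have : (0 : ℝ) ≤ n := by positivity
    have : (0 : ℝ) ≤ m := by positivity
    nlinarith
  exact_mod_cast h3

/-- Almost fixed sets of torsion elements are bounded. -/
theorem bdd' : ∃ B, ∀ g : G, g ≠ 1 → IsOfFinOrder g → ∀ (D : ℕ) (x y : V), X.d x (g • x) ≤ D →
    X.d y (g • y) ≤ D → X.d x y ≤ B + D + 1 := by
  obtain ⟨B, hB⟩ := Γ.bdd
  refine ⟨B, fun g hg hf D x y hx hy => ?_⟩
  obtain ⟨o, ho⟩ := Γ.hyp.exists_axis_point Γ.inv Γ.one_le x g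
  rw [Γ.inv.tau_of_finOrder x hf, zero_add] at ho
  have ho' : X.d o (g • o) ≤ 12 * δ := by exact_mod_cast ho
  obtain ⟨x', h1, h2⟩ := Γ.hyp.walk_down Γ.inv g x o
  obtain ⟨y', h3, h4⟩ := Γ.hyp.walk_down Γ.inv g y o
  have := hB g hg hf x' y' (by omega) (by omega)
  have := X.d_tri x x' y
  have := X.d_tri x' y' y
  have := X.d_comm y y'
  omega

theorem not_comm_tors {g u : G} (hg : ¬ IsOfFinOrder g) (hu : IsOfFinOrder u)
    (c : Commute u g) : u = 1 := by
  by_contra h1
  obtain ⟨B, hB⟩ := Γ.bdd'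
  obtain ⟨x⟩ := Γ.ne
  obtain ⟨n, hn⟩ := Γ.exists_far hg x (B + X.d x (u • x) + 1)
  have := hB u h1 hu (X.d x (u • x)) x (g ^ n • x) le_rfl
    (by rw [Γ.inv.disp_comm (c.pow_right n)])
  omega

theorem eq_one_of_tau {g u : G} (hg : ¬ IsOfFinOrder g) (hu : X.tau u ≤ 0)
    (c : Commute u g) : u = 1 :=
  Γ.not_comm_tors hg (Γ.finOrder_of_tau hu) c

theorem para {a b : G} (c : Commute a b) :
    (X.tau (a * b) = X.tau a + X.tau b ∧ X.tau (a⁻¹ * b) = |X.tau a - X.tau b|) ∨
      (X.tau (a⁻¹ * b) = X.tau a + X.tau b ∧ X.tau (a * b) = |X.tau a - X.tau b|) :=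
  Γ.ne.elim fun x => Γ.hyp.para Γ.inv x c

theorem eq_or_inv {g a b : G} (hg : ¬ IsOfFinOrder g) (ha : Commute a g) (hb : Commute b g)
    (c : Commute a b) (e : X.tau a = X.tau b) : b = a ∨ b = a⁻¹ := by
  rcases Γ.para c with ⟨-, h⟩ | ⟨-, h⟩
  · left
    rw [e, sub_self, abs_zero] at h
    have := Γ.eq_one_of_tau hg h.le (ha.inv_left.mul_left hb)
    exact (inv_mul_eq_one.1 this).symm
  · right
    rw [e, sub_self, abs_zero] at h
    have := Γ.eq_one_of_tau hg h.le (ha.mul_left hb)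
    exact eq_inv_of_mul_eq_one_right this

theorem not_inverted {g h : G} (hg : ¬ IsOfFinOrder g) (e : h * g * h⁻¹ = g⁻¹) : False := by
  have c : Commute (h ^ 2) g := by
    have e2 : h * g⁻¹ * h⁻¹ = g := by
      have := congrArg (·⁻¹) e
      simpa [mul_assoc] using this
    show h ^ 2 * g = g * h ^ 2
    calc h ^ 2 * g = h * (h * g * h⁻¹) * h⁻¹ * h ^ 2 := by rw [pow_two]; group
      _ = g * h ^ 2 := by rw [e, e2]
  by_cases h2 : h ^ 2 = 1
  · have h1 := Γ.eq_one_of_sq h2
    subst h1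
    have : g ^ 2 = 1 := by
      rw [pow_two]
      simp only [one_mul, inv_one, mul_one] at e
      exact mul_eq_one_iff_eq_inv.2 e
    exact hg (isOfFinOrder_iff_pow_eq_one.2 ⟨2, two_pos, this⟩)
  have hf : ¬ IsOfFinOrder (h ^ 2) := fun hf => h2 (Γ.not_comm_tors hg hf c)
  have p1 := Γ.tau_pos hg
  have p2 := Γ.tau_pos hf
  have e3 : X.tau (g⁻¹ * h ^ 2) = X.tau (g * h ^ 2) := by
    rw [← Γ.tau_conj (g * h ^ 2) h, ← e, pow_two]
    congr 1
    group
  rcases Γ.para c.symm with ⟨a, b⟩ | ⟨a, b⟩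
  · rw [e3, a] at b
    rcases abs_cases (X.tau g - X.tau (h ^ 2)) with h | h <;> linarith
  · rw [← e3, a] at b
    rcases abs_cases (X.tau g - X.tau (h ^ 2)) with h | h <;> linarith

omit Γ in
theorem conj_commutator (g h : G) :
    g * (g * h * g⁻¹ * h⁻¹) * g⁻¹ = g * (g * h * g⁻¹) * g⁻¹ * (g * h * g⁻¹)⁻¹ := by group

/-- If two elements move two distant points little then their commutator commutes with its
conjugate by the first element. -/
theorem comm_conj_of_far {g h : G} {x y : V} {D : ℕ} (gx : X.d x (g • x) ≤ D)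
    (gy : X.d y (g • y) ≤ D) (hx : X.d x (h • x) ≤ D) (hy : X.d y (h • y) ≤ D)
    (hxy : A + 30 * D + 22 * δ < X.d x y) :
    Commute (g * h * g⁻¹ * h⁻¹) (g * (g * h * g⁻¹ * h⁻¹) * g⁻¹) := by
  by_contra hc
  have I := Γ.inv
  have := Γ.one_le
  have cj : ∀ z : V, X.d z (g • z) ≤ D → X.d z (h • z) ≤ D → X.d z ((g * h * g⁻¹) • z) ≤ 3 * D := by
    intro z a b
    have := I.disp_mul (g * h) g⁻¹ z
    have := I.disp_mul g h z
    have := I.disp_inv g z
    omega
  obtain ⟨m1, b1, d1⟩ := GS.exists_btw (X := X) x y (15 * D + 10 * δ + 1) (by omega)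
  obtain ⟨m2, b2, d2⟩ := GS.exists_btw (X := X) y x (15 * D + 10 * δ + 1)
    (by rw [X.d_comm]; omega)
  have b2' := b2.symm
  have e1 : X.d x m1 + X.d m1 y = X.d x y := b1
  have e2 : X.d x m2 + X.d m2 y = X.d x y := b2'
  have := X.d_comm y m2
  have k := fun (m : V) (b : X.Btw x m y) (h1 : 5 * (3 * D) + 10 * δ < X.d x m)
      (h2 : 5 * (3 * D) + 10 * δ < X.d m y) =>
    And.intro
      (Γ.hyp.comm_small I g h (D := 3 * D) (by omega) (by omega) (by omega) (by omega) b h1 h2)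
      (Γ.hyp.comm_small I g (g * h * g⁻¹) (D := 3 * D) (by omega) (by omega) (cj x gx hx)
        (cj y gy hy) b h1 h2)
  have k1 := k m1 b1 (by omega) (by omega)
  have k2 := k m2 b2' (by omega) (by omega)
  rw [← conj_commutator] at k1 k2
  have := Γ.ovl _ _ m1 m2 hc k1.1 k1.2 k2.1 k2.2
  have := X.d_tri x m1 m2
  omega

theorem trans_inf {g a b : G} (hg : ¬ IsOfFinOrder g) (ha : Commute g a) (hb : Commute g b) :
    Commute a b := by
  by_contra hab
  obtain ⟨x⟩ := Γ.ne
  have I := Γ.inv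
  set u := a * b * a⁻¹ * b⁻¹ with hu
  have u1 : u ≠ 1 := commutator_ne_one hab
  have cu : Commute u g := (((ha.mul_right hb).mul_right ha.inv_right).mul_right hb.inv_right).symm
  have uf : ¬ IsOfFinOrder u := fun h => u1 (Γ.not_comm_tors hg h cu)
  have c1 : Commute u (a * u * a⁻¹) := by
    obtain ⟨n, hn⟩ := Γ.exists_far hg x (A + 30 * (X.d x (a • x) + X.d x (b • x)) + 22 * δ)
    refine Γ.comm_conj_of_far (x := x) (y := g ^ n • x) (D := X.d x (a • x) + X.d x (b • x))
      (by omega) ?_ (by omega) ?_ hn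
    · rw [I.disp_comm (ha.symm.pow_right n)]
      omega
    · rw [I.disp_comm (hb.symm.pow_right n)]
      omega
  have c2 : Commute (a * u * a⁻¹) g := ((ha.mul_right cu.symm).mul_right ha.inv_right).symm
  have e : a * u * a⁻¹ = u := by
    rcases Γ.eq_or_inv hg cu c2 c1 (Γ.tau_conj u a).symm with h | h
    · exact h
    · exact (Γ.not_inverted uf h).elim
  have ca : Commute a u := by
    show a * u = u * a
    calc a * u = a * u * a⁻¹ * a := by group
      _ = u * a := by rw [e]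
  have pw : ∀ k : ℕ, a ^ k * b * (a ^ k)⁻¹ * b⁻¹ = u ^ k := by
    intro k
    have e1 : b * a⁻¹ * b⁻¹ = a⁻¹ * u := by rw [hu]; group
    have e2 : b * (a ^ k)⁻¹ * b⁻¹ = (a⁻¹ * u) ^ k := by rw [← e1, conj_pow, inv_pow]
    calc a ^ k * b * (a ^ k)⁻¹ * b⁻¹ = a ^ k * (b * (a ^ k)⁻¹ * b⁻¹) := by group
      _ = u ^ k := by rw [e2, ca.inv_left.mul_pow]; group
  have small : ∀ k : ℕ, (k : ℝ) * X.tau u ≤ 40 * δ := by
    intro k
    set D := X.d x (a ^ k • x) + X.d x (b • x) with hD
    obtain ⟨n, hn⟩ := Γ.exists_far hg x (2 * (5 * D + 10 * δ + 1))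
    obtain ⟨z, bz, dz⟩ := GS.exists_btw (X := X) x (g ^ n • x) (5 * D + 10 * δ + 1) (by omega)
    have bz' : X.d x z + X.d z (g ^ n • x) = X.d x (g ^ n • x) := bz
    have h := Γ.hyp.comm_small I (a ^ k) b (D := D) (by omega)
      (by rw [I.disp_comm ((ha.symm.pow_left k).pow_right n)]; omega) (by omega)
      (by rw [I.disp_comm (hb.symm.pow_right n)]; omega) bz (by omega) (by omega)
    rw [pw] at h
    have h1 := GS.tau_mul_le_disp (X := X) u z k
    have h2 : (X.d z (u ^ k • z) : ℝ) ≤ 40 * δ := by exact_mod_cast h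
    linarith
  have : X.tau u ≤ 0 := GS.le_of_forall_mul_le (C := 40 * δ) fun n _ => by
    have := small n
    linarith
  linarith [Γ.tau_pos uf]

theorem trans_fin {g a b : G} (g1 : g ≠ 1) (hg : IsOfFinOrder g) (ha : Commute g a)
    (hb : Commute g b) : Commute a b := by
  obtain ⟨B, hB⟩ := Γ.bdd'
  obtain ⟨x⟩ := Γ.ne
  refine Γ.ell (Subgroup.centralizer {g}) x (B + X.d x (g • x) + 1) (fun k hk => ?_) a ?_ b ?_
  · have c : Commute g k := (Subgroup.mem_centralizer_singleton_iff.1 hk).symm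
    exact hB g g1 hg _ x _ le_rfl (by rw [Γ.inv.disp_comm c])
  · exact Subgroup.mem_centralizer_singleton_iff.2 ha.symm
  · exact Subgroup.mem_centralizer_singleton_iff.2 hb.symm

theorem trans_all {g a b : G} (g1 : g ≠ 1) (ha : Commute g a) (hb : Commute g b) :
    Commute a b := by
  by_cases hg : IsOfFinOrder g
  · exact Γ.trans_fin g1 hg ha hb
  · exact Γ.trans_inf hg ha hb

theorem mal_fin {g h : G} (g1 : g ≠ 1) (hg : IsOfFinOrder g) (c : Commute g (h * g * h⁻¹)) :
    Commute g h := by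
  obtain ⟨B, hB⟩ := Γ.bdd'
  obtain ⟨x⟩ := Γ.ne
  have I := Γ.inv
  let C := Subgroup.centralizer {g}
  have mC : ∀ k, k ∈ C ↔ Commute g k := fun k =>
    Subgroup.mem_centralizer_singleton_iff.trans ⟨fun h => h.symm, fun h => h.symm⟩
  obtain ⟨o, ho⟩ := Γ.hyp.center I C (x := x) (D := B + X.d x (g • x) + 1) fun k hk =>
    hB g g1 hg _ x _ le_rfl (by rw [I.disp_comm ((mC k).1 hk)])
  have g1' : h * g * h⁻¹ ≠ 1 := by
    intro e
    apply g1
    calc g = h⁻¹ * (h * g * h⁻¹) * h := by group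
      _ = 1 := by rw [e]; group
  refine Γ.ell (Subgroup.normalizer (C : Set G)) o (B + (2 * δ + 1) + 1) (fun k hk => ?_) g ?_ h ?_
  · have hk' := (Subgroup.mem_normalizer_iff''.1 hk g).1 ((mC g).2 (Commute.refl g))
    refine hB g g1 hg _ o _ (ho g ((mC g).2 (Commute.refl g))) ?_
    rw [← I.disp_conj']
    exact ho _ hk'
  · exact Subgroup.le_normalizer ((mC g).2 (Commute.refl g))
  · rw [Subgroup.mem_normalizer_iff]
    intro k
    rw [mC, mC]
    constructor
    · intro ck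
      have c3 : Commute (h * g * h⁻¹) (h * k * h⁻¹) := by
        have := ck.map (MulAut.conj h)
        simpa using this
      exact Γ.trans_all g1' c.symm c3
    · intro ck
      have c3 := Γ.trans_all g1 c ck
      have := c3.map (MulAut.conj h⁻¹)
      simpa [mul_assoc] using this

theorem csa : CSA G where
  trans := fun _ _ _ g1 ha hb => Γ.trans_all g1 ha hb
  mal := fun g h g1 c => by
    by_cases hg : IsOfFinOrder g
    · exact Γ.mal_fin g1 hg c
    · rcases Γ.eq_or_inv hg (Commute.refl g) c.symm c (Γ.tau_conj g h).symm with e | e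
      · show g * h = h * g
        calc g * h = h * g * h⁻¹ * h := by rw [e]
          _ = h * g := by group
      · exact (Γ.not_inverted hg e).elim

/-- Bounded overlap of almost fixed sets of noncommuting elements. -/
theorem ovl' {g h : G} (hgh : ¬ Commute g h) {x y : V} {D : ℕ} (gx : X.d x (g • x) ≤ D)
    (gy : X.d y (g • y) ≤ D) (hx : X.d x (h • x) ≤ D) (hy : X.d y (h • y) ≤ D) :
    X.d x y ≤ A + 30 * D + 22 * δ := by
  by_contra hc
  have c := Γ.comm_conj_of_far gx gy hx hy (by omega)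
  exact Γ.csa.not_comm_commutator hgh (Γ.csa.mal _ g (commutator_ne_one hgh) c).symm

/-- Centralisers of elements of infinite order are cyclic. -/
theorem exists_root {g : G} (hg : ¬ IsOfFinOrder g) :
    ∃ a : G, ¬ IsOfFinOrder a ∧ Commute g a ∧ ∀ h, Commute g h → ∃ k : ℤ, h = a ^ k := by
  classical
  have g1 : g ≠ 1 := fun e => hg (e ▸ IsOfFinOrder.one)
  have ex : ∃ n : ℕ, ∃ a : G, a ≠ 1 ∧ Commute g a ∧ (m : ℝ) * X.tau a < n + 1 := by
    obtain ⟨n, hn⟩ := exists_nat_gt ((m : ℝ) * X.tau g)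
    exact ⟨n, g, g1, Commute.refl g, by linarith⟩
  obtain ⟨a, a1, ca, ha⟩ := Nat.find_spec ex
  have inf : ∀ b : G, b ≠ 1 → Commute g b → ¬ IsOfFinOrder b := fun b b1 cb hf =>
    b1 (Γ.not_comm_tors hg hf cb.symm)
  have low : ∀ b : G, b ≠ 1 → Commute g b → (Nat.find ex : ℝ) ≤ m * X.tau b := by
    intro b b1 cb
    by_contra hlt
    push Not at hlt
    have h1 := Γ.inj b (inf b b1 cb)
    have hp : 0 < Nat.find ex := by
      have : (0 : ℝ) < Nat.find ex := by linarith
      exact_mod_cast this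
    refine Nat.find_min ex (m := Nat.find ex - 1) (by omega) ⟨b, b1, cb, ?_⟩
    have : ((Nat.find ex - 1 : ℕ) : ℝ) + 1 = Nat.find ex := by
      exact_mod_cast (by omega : Nat.find ex - 1 + 1 = Nat.find ex)
    linarith
  have af := inf a a1 ca
  have ia := Γ.inj a af
  have hm : (0 : ℝ) ≤ m := by positivity
  refine ⟨a, af, ca, ?_⟩
  have main : ∀ (n : ℕ) (h : G), Commute g h → (m : ℝ) * X.tau h < n → ∃ k : ℤ, h = a ^ k := by
    intro n
    induction n with
    | zero =>
      intro h _ hl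
      have := mul_nonneg hm (GS.tau_nonneg (X := X) h)
      push_cast at hl
      linarith
    | succ n ih =>
      intro h ch hl
      by_cases h1 : h = 1
      · exact ⟨0, by simp [h1]⟩
      have cah := Γ.trans_inf hg ca ch
      have ih1 := Γ.inj h (inf h h1 ch)
      have step : ∀ b : G, Commute g b → X.tau b = |X.tau a - X.tau h| →
          ∃ k : ℤ, b = a ^ k := by
        intro b cb eb
        rcases le_total (X.tau a) (X.tau h) with hle | hle
        · refine ih b cb ?_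
          rw [eb, abs_of_nonpos (by linarith)]
          push_cast at hl
          nlinarith
        · by_cases b1 : b = 1
          · exact ⟨0, by simp [b1]⟩
          have := low b b1 cb
          rw [eb, abs_of_nonneg (by linarith)] at this
          nlinarith
      rcases Γ.para cah with ⟨-, e⟩ | ⟨-, e⟩
      · obtain ⟨k, hk⟩ := step _ (ca.inv_right.mul_right ch) e
        refine ⟨1 + k, ?_⟩
        rw [zpow_add, ← hk]
        group
      · obtain ⟨k, hk⟩ := step _ (ca.mul_right ch) e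
        refine ⟨-1 + k, ?_⟩
        rw [zpow_add, ← hk]
        group
  intro h ch
  obtain ⟨n, hn⟩ := exists_nat_gt ((m : ℝ) * X.tau h)
  exact main n h ch hn

end Good

end Pool.Agent.Lib.MP_e0e7d6_al
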