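import Pool.Agent.Lib.MP_e0e7d6_al.Geo

/-!
A criterion for hyperbolicity by guessing the geodesics, and graph metrics.
-/

namespace Pool.Agent.Lib.MP_e0e7d6_al

namespace GS

/-- The hypotheses of the guessing criterion. -/
structure Guess {V : Type} (X : GS V) (L : V → V → Set V) (h : ℕ) : Prop where
  left : ∀ x y, x ∈ L x y
  right : ∀ x y, y ∈ L x y
  chain : ∀ x y, Relation.ReflTransGen (fun a b => b ∈ L x y ∧ X.d a b ≤ h) x y
  slim : ∀ x y z, ∀ q ∈ L x y, ∃ q', (q' ∈ L x z ∨ q' ∈ L z y) ∧ X.d q q' ≤ h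
  adj : ∀ x y, X.d x y ≤ 1 → ∀ q ∈ L x y, X.d x q ≤ h

theorem exists_threshold (h : ℕ) : ∃ m, ∀ ε, m < ε →
    ∃ j, 2 * (ε + 2 * h + 1) ≤ 2 ^ j ∧ 2 * h + 1 + 2 * h * j + 6 * h < ε := by
  have sq : ∀ j, 6 ≤ j → (j + 1) * (j + 1) ≤ 2 ^ j := by
    intro j hj
    induction j, hj using Nat.le_induction with
    | base => norm_num
    | succ j hj ih => rw [pow_succ]; nlinarith
  refine ⟨(4 * h + 1) * (12 * h + 10), fun ε hε => ⟨ε / (4 * h + 1), ?_, ?_⟩⟩
  · set j := ε / (4 * h + 1) with hj
    have h1 : 12 * h + 10 ≤ j := by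
      rw [hj, Nat.le_div_iff_mul_le (by omega)]
      nlinarith
    have h2 : ε < (4 * h + 1) * (j + 1) := by
      rw [hj]
      exact Nat.lt_mul_div_succ ε (by omega)
    have h3 := sq j (by omega)
    nlinarith
  · have h2 : (4 * h + 1) * (ε / (4 * h + 1)) ≤ ε := Nat.mul_div_le _ _
    nlinarith

namespace Guess

variable {V : Type} {X : GS V} {L : V → V → Set V} {h : ℕ} (Γ : X.Guess L h)
include Γ

theorem double {n ε : ℕ} (F : ∀ x y, X.d x y ≤ n → ∀ q ∈ L x y, X.Near ε x q y) :
    ∀ x y, X.d x y ≤ 2 * n → ∀ q ∈ L x y, X.Near (ε + 2 * h) x q y := by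
  intro x y hxy q hq
  obtain ⟨m, bm, dm⟩ := exists_btw (X := X) x y (X.d x y / 2) (by omega)
  have bm' : X.d x m + X.d m y = X.d x y := bm
  obtain ⟨q', hq', hd⟩ := Γ.slim x y m q hq
  rw [X.d_comm] at hd
  refine Near.move (q := q') ?_ hd
  rcases hq' with hq' | hq'
  · have := F x m (by omega) q' hq'
    have := X.d_tri q' m y
    unfold Near at *
    omega
  · have := F m y (by omega) q' hq'
    have := X.d_tri x m q'
    unfold Near at *
    omega

theorem pow_bound (j : ℕ) :
    ∀ x y, X.d x y ≤ 2 ^ j → ∀ q ∈ L x y, X.Near (2 * h + 1 + 2 * h * j) x q y := by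
  induction j with
  | zero =>
    intro x y hxy q hq
    have := Γ.adj x y hxy q hq
    have := X.d_tri q x y
    have := X.d_comm q x
    unfold Near
    omega
  | succ j ih =>
    intro x y hxy q hq
    have := Γ.double ih x y (by rw [pow_succ] at hxy; omega) q hq
    exact this.mono (by rw [Nat.mul_succ]; omega)

theorem improve {n ε ε' : ℕ} (F : ∀ x y, X.d x y ≤ n → ∀ q ∈ L x y, X.Near ε x q y)
    (F' : ∀ x y, X.d x y ≤ 2 * (ε + 2 * h + 1) → ∀ q ∈ L x y, X.Near ε' x q y) :
    ∀ x y, X.d x y ≤ n → ∀ q ∈ L x y, X.Near (ε' + 6 * h) x q y := by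
  intro x y hxy q hq
  have h0 := F x y hxy q hq
  unfold Near at h0
  have t0 := X.d_tri x q y
  obtain ⟨x', bx, dx⟩ := exists_btw (X := X) x y (X.d x q - (ε + 2 * h + 1)) (by omega)
  have bx' : X.d x x' + X.d x' y = X.d x y := bx
  obtain ⟨y', by', dy⟩ := exists_btw (X := X) y x' (X.d q y - (ε + 2 * h + 1))
    (by rw [X.d_comm y x']; omega)
  have by'' : X.d x' y' + X.d y' y = X.d x' y := by'.symm
  have c1 := X.d_comm y y'
  obtain ⟨q1, hq1, d1⟩ := Γ.slim x y x' q hq
  rcases hq1 with hq1 | hq1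
  · have := X.d_tri x q1 q
    have := X.d_comm q q1
    by_cases ha : X.d x x' = 0
    · have := Γ.adj x x' (by omega) q1 hq1
      have := X.d_tri q x y
      have := X.d_comm q x
      unfold Near
      omega
    · have := F x x' (by omega) q1 hq1
      unfold Near at this
      omega
  obtain ⟨q2, hq2, d2⟩ := Γ.slim x' y y' q1 hq1
  have t1 := X.d_tri q q1 q2
  rcases hq2 with hq2 | hq2
  · have h1 := F' x' y' (by omega) q2 hq2
    have h2 : X.Near ε' x q2 y := by
      have := X.d_tri x x' q2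
      have := X.d_tri q2 y' y
      unfold Near at *
      omega
    exact (h2.move (t := 2 * h) (by rw [X.d_comm]; omega)).mono (by omega)
  · have := X.d_tri q q2 y
    by_cases hb : X.d y' y = 0
    · have := Γ.adj y' y (by omega) q2 hq2
      have := X.d_tri q2 y' y
      have := X.d_comm q2 y'
      have := X.d_tri x y q
      have := X.d_comm y q
      unfold Near
      omega
    · have := F y' y (by omega) q2 hq2
      unfold Near at this
      omega

theorem near_bound {m : ℕ} (hm : ∀ ε, m < ε →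
    ∃ j, 2 * (ε + 2 * h + 1) ≤ 2 ^ j ∧ 2 * h + 1 + 2 * h * j + 6 * h < ε) (x y : V) :
    ∀ q ∈ L x y, X.Near m x q y := by
  have key : ∀ n ε, (∀ x y, X.d x y ≤ n → ∀ q ∈ L x y, X.Near ε x q y) →
      ∀ x y, X.d x y ≤ n → ∀ q ∈ L x y, X.Near m x q y := by
    intro n ε
    induction ε using Nat.strong_induction_on with
    | _ ε ih =>
      intro F
      by_cases he : ε ≤ m
      · exact fun x y hxy q hq => (F x y hxy q hq).mono he
      · obtain ⟨j, h1, h2⟩ := hm ε (by omega)
        exact ih _ h2 (Γ.improve F fun x y hxy => Γ.pow_bound j x y (by omega))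
  exact key _ _ (Γ.pow_bound (X.d x y)) x y (Nat.lt_two_pow_self).le

theorem hyp_of {m : ℕ} (N : ∀ x y, ∀ q ∈ L x y, X.Near m x q y) : X.Hyp (3 * m + 8 * h) := by
  have C1 : ∀ x y w, ∃ q ∈ L x y, (∃ q1 ∈ L x w, X.d q q1 ≤ h) ∧ ∃ q2 ∈ L w y, X.d q q2 ≤ 2 * h := by
    intro x y w
    have key : ∀ b, Relation.ReflTransGen (fun a b => b ∈ L x y ∧ X.d a b ≤ h) x b →
        (∃ q ∈ L x y, (∃ q1 ∈ L x w, X.d q q1 ≤ h) ∧ ∃ q2 ∈ L w y, X.d q q2 ≤ 2 * h) ∨
          (b ∈ L x y ∧ ∃ q1 ∈ L x w, X.d b q1 ≤ h) := by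
      intro b hb
      induction hb with
      | refl => exact Or.inr ⟨Γ.left x y, x, Γ.left x w, by rw [X.d_self]; omega⟩
      | @tail a b _ hab ih =>
        rcases ih with ih | ⟨ha, ih⟩
        · exact Or.inl ih
        obtain ⟨q', hq', hd⟩ := Γ.slim x y w b hab.1
        rcases hq' with hq' | hq'
        · exact Or.inr ⟨hab.1, q', hq', hd⟩
        · refine Or.inl ⟨a, ha, ih, q', hq', ?_⟩
          have := X.d_tri a b q'
          have := hab.2
          omega
    rcases key y (Γ.chain x y) with h | ⟨hy, h⟩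
    · exact h
    · exact ⟨y, hy, h, y, Γ.right w y, by rw [X.d_self]; omega⟩
  intro x y z w
  obtain ⟨q, hq, ⟨q1, hq1, d1⟩, q2, hq2, d2⟩ := C1 x y w
  have n1 := (N _ _ _ hq1).move (q' := q) (t := h) (by rw [X.d_comm]; exact d1)
  have n2 := (N _ _ _ hq2).move (q' := q) (t := 2 * h) (by rw [X.d_comm]; exact d2)
  obtain ⟨q', hq', d3⟩ := Γ.slim x y z q hq
  have t0 := X.d_tri x q y
  have := X.d_comm q w
  have := X.d_comm y w
  have := X.d_comm z w
  have := X.d_comm x w
  have := X.d_comm y z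
  have t1 := X.d_tri w q z
  rcases hq' with hq' | hq'
  · have n3 := (N _ _ _ hq').move (q' := q) (t := h) (by rw [X.d_comm]; exact d3)
    have := X.d_tri w q x
    have := X.d_comm q x
    unfold Near at *
    omega
  · have n3 := (N _ _ _ hq').move (q' := q) (t := h) (by rw [X.d_comm]; exact d3)
    have := X.d_tri w q y
    have := X.d_comm q z
    unfold Near at *
    omega

end Guess

theorem guess (h : ℕ) : ∃ δ, ∀ (V : Type) (X : GS V) (L : V → V → Set V), X.Guess L h → X.Hyp δ := by
  obtain ⟨m, hm⟩ := exists_threshold h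
  exact ⟨3 * m + 8 * h, fun V X L Γ => Γ.hyp_of (Γ.near_bound hm)⟩

end GS

/-! The metric of a connected graph. -/

/-- Walks of a given length. -/
inductive Steps {V : Type} (R : V → V → Prop) : ℕ → V → V → Prop
  | refl (u : V) : Steps R 0 u u
  | cons {n : ℕ} {u v w : V} : R u v → Steps R n v w → Steps R (n + 1) u w

namespace Steps

variable {V : Type} {R : V → V → Prop}

theorem append {m n : ℕ} {u v w : V} (h : Steps R m u v) (h' : Steps R n v w) :
    Steps R (m + n) u w := by
  induction h with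
  | refl => simpa using h'
  | cons hr _ ih =>
    rw [Nat.add_right_comm]
    exact Steps.cons hr (ih h')

theorem single {u v : V} (h : R u v) : Steps R 1 u v := Steps.cons h (Steps.refl v)

theorem reverse (hs : ∀ u v, R u v → R v u) {n : ℕ} {u v : V} (h : Steps R n u v) :
    Steps R n v u := by
  induction h with
  | refl => exact Steps.refl _
  | cons hr _ ih => exact ih.append (single (hs _ _ hr))

theorem split {n : ℕ} {u w : V} (h : Steps R n u w) (t : ℕ) (ht : t ≤ n) :
    ∃ v, Steps R t u v ∧ Steps R (n - t) v w := by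
  induction h generalizing t with
  | refl u =>
    obtain rfl : t = 0 := by omega
    exact ⟨u, Steps.refl _, Steps.refl _⟩
  | @cons n u v w hr hs ih =>
    rcases t with _ | t
    · exact ⟨u, Steps.refl _, Steps.cons hr hs⟩
    · obtain ⟨z, h1, h2⟩ := ih t (by omega)
      exact ⟨z, Steps.cons hr h1, by simpa using h2⟩

theorem map {f : V → V} (hf : ∀ u v, R u v → R (f u) (f v)) {n : ℕ} {u v : V}
    (h : Steps R n u v) : Steps R n (f u) (f v) := by
  induction h with
  | refl => exact Steps.refl _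
  | cons hr _ ih => exact Steps.cons (hf _ _ hr) ih

theorem zero_eq {u v : V} (h : Steps R 0 u v) : u = v := by
  cases h
  rfl

theorem one_rel {u v : V} (h : Steps R 1 u v) : R u v := by
  cases h with
  | cons hr hs =>
    cases hs
    exact hr

end Steps

section graph

variable {V : Type} (R : V → V → Prop)

/-- Graph distance. -/
noncomputable def gd (u v : V) : ℕ := sInf {n | Steps R n u v}

variable {R}

theorem gd_le {n : ℕ} {u v : V} (h : Steps R n u v) : gd R u v ≤ n := Nat.sInf_le h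

theorem steps_gd (hc : ∀ u v, ∃ n, Steps R n u v) (u v : V) : Steps R (gd R u v) u v :=
  Nat.sInf_mem (s := {n | Steps R n u v}) (hc u v)

/-- The path metric of a connected graph. -/
noncomputable def graphGS (hs : ∀ u v, R u v → R v u) (hc : ∀ u v, ∃ n, Steps R n u v) : GS V where
  d := gd R
  d_self := fun x => Nat.le_zero.1 (gd_le (Steps.refl x))
  d_comm := fun x y => le_antisymm (gd_le ((steps_gd hc y x).reverse hs))
    (gd_le ((steps_gd hc x y).reverse hs))
  d_tri := fun x y z => gd_le ((steps_gd hc x y).append (steps_gd hc y z))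
  d_zero := fun x y h => by
    have := steps_gd hc x y
    rw [h] at this
    exact this.zero_eq
  geod := fun x y t ht => by
    obtain ⟨m, h1, h2⟩ := (steps_gd hc x y).split t ht
    have a := gd_le h1
    have b := gd_le h2
    have c := gd_le ((steps_gd hc x m).append (steps_gd hc m y))
    exact ⟨m, by omega, by omega⟩

theorem graphGS_adj {hs : ∀ u v, R u v → R v u} {hc : ∀ u v, ∃ n, Steps R n u v} {u v : V}
    (h : R u v) : (graphGS hs hc).d u v ≤ 1 := gd_le (Steps.single h)

theorem graphGS_one {hs : ∀ u v, R u v → R v u} {hc : ∀ u v, ∃ n, Steps R n u v} {u v : V}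
    (h : (graphGS hs hc).d u v = 1) : R u v := by
  have := steps_gd hc u v
  have e : gd R u v = 1 := h
  rw [e] at this
  exact this.one_rel

theorem graphGS_inv {hs : ∀ u v, R u v → R v u} {hc : ∀ u v, ∃ n, Steps R n u v}
    {G : Type} [Group G] [MulAction G V] (hG : ∀ (g : G) u v, R u v → R (g • u) (g • v)) :
    (graphGS hs hc).Inv G := by
  intro g x y
  apply le_antisymm
  · exact gd_le ((steps_gd hc x y).map (hG g))
  · have := (steps_gd hc (g • x) (g • y)).map (f := fun u => g⁻¹ • u) (hG g⁻¹)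
    simp only [inv_smul_smul] at this
    exact gd_le this

end graph

end Pool.Agent.Lib.MP_e0e7d6_al
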