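import Pool.Agent.Lib.MP_e0e7d6_al.Defs

/-!
Interfaces between the modules of the inductive step.
-/

namespace Pool.Agent.Lib.MP_e0e7d6_al

/-- A system of representatives of the primitive elements of small translation length. -/
structure Roots (G : Type) [Group G] {V I : Type} [MulAction G V] [MulAction G I] (X : GS V)
    (r : I → G) : Prop where
  inf : ∀ i, ¬ IsOfFinOrder (r i)
  small : ∀ i, X.tau (r i) ≤ 1
  gen : ∀ i h, Commute h (r i) → ∃ k : ℤ, h = r i ^ k
  stab : ∀ (g : G) i, g • i = i ↔ Commute g (r i)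
  conj : ∀ (g : G) i, r (g • i) = g * r i * g⁻¹ ∨ r (g • i) = (g * r i * g⁻¹)⁻¹
  sep : ∀ i j, Commute (r i) (r j) → i = j
  all : ∀ g : G, ¬ IsOfFinOrder g → X.tau g ≤ 1 → ∃ i, Commute g (r i)

/-- Quasi-axes of the roots. -/
def axis {G : Type} [Group G] {V I : Type} [MulAction G V] (X : GS V) (r : I → G) (i : I) :
    Set V := {x | X.d x (r i • x) ≤ 43}

/-- A quotient of an action on a geodesic space by the kernel of `π`. -/
structure Quo {G H W W' : Type} [Group G] [Group H] [MulAction G W] [MulAction H W']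
    (π : G →* H) (ι : W → W') (Z : GS W) (Z' : GS W') : Prop where
  surj : Function.Surjective π
  onto : Function.Surjective ι
  smul : ∀ (g : G) u, ι (g • u) = π g • ι u
  le : ∀ u v, Z'.d (ι u) (ι v) ≤ Z.d u v
  lift : ∀ u v, ∃ n : G, π n = 1 ∧ Z'.d (ι u) (ι v) = Z.d u (n • v)
  inv : Z'.Inv H

/-- Chains of long blocks, each almost fixed by an element not commuting with the next one. -/
structure BC {G V : Type} [Group G] [MulAction G V] (X : GS V) (x : ℕ → V) (σ : ℕ → G)
    (r l : ℕ) : Prop where
  left : ∀ j, X.d (x j) (σ j • x j) ≤ r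
  right : ∀ j, X.d (x (j + 1)) (σ j • x (j + 1)) ≤ r
  nc : ∀ j, ¬ Commute (σ j) (σ (j + 1))
  long : ∀ j, l ≤ X.d (x j) (x (j + 1))

/-- Initial products of an alternating product of blocks and connectors. -/
def pre {G : Type} [Group G] (g e : ℕ → G) : ℕ → G
  | 0 => 1
  | j + 1 => pre g e j * g j * e j

/-- Every point is moved at least `R` by some entry of the tuple. -/
def Big {G V : Type} [Group G] [MulAction G V] (X : GS V) (S : Fin 7 → G) (R : ℕ) : Prop :=
  ∀ o, ∃ i, R ≤ X.d o (S i • o)

/-- Geometric properties of the word `w` on tuples of large joint displacement. -/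
structure WordGeo (w : FreeGroup (Fin 7)) (c : ℕ) : Prop where
  cent : ∀ (G V : Type) [Group G] [MulAction G V] (X : GS V) (δ A m p q : ℕ),
    Good G X δ A m p q → ∀ (S : Fin 7 → G) (R : ℕ), Dom S → Big X S R → c * (A + δ) ≤ R →
      ev w S ≠ 1 ∧ ∀ h : G, h ≠ 1 → Commute h (ev w S) → (100 * R : ℝ) ≤ X.tau h
  rig : ∀ (G V : Type) [Group G] [MulAction G V] (X : GS V) (δ A m p q : ℕ),
    Good G X δ A m p q → ∀ S S' : Fin 7 → G, Dom S → Dom S' → Big X S (c * (A + δ)) →
      Big X S' (c * (A + δ)) → Commute (ev w S) (ev w S') → ∃ h : G, ∀ i, S' i = h⁻¹ * S i * h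

/-- Displacement of the value of a word. -/
theorem disp_ev {G V : Type} [Group G] [MulAction G V] {X : GS V} (I : X.Inv G)
    (w : FreeGroup (Fin 7)) {S : Fin 7 → G} {o : V} {R : ℕ} (h : ∀ i, X.d o (S i • o) ≤ R) :
    X.d o (ev w S • o) ≤ w.norm * R := by
  have key : ∀ l : List (Fin 7 × Bool), X.d o (ev (FreeGroup.mk l) S • o) ≤ l.length * R := by
    intro l
    induction l with
    | nil =>
      have : ev (FreeGroup.mk []) S = 1 := map_one (FreeGroup.lift S)
      rw [this, one_smul, X.d_self]
      omega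
    | cons x l ih =>
      have e : FreeGroup.mk (x :: l) = FreeGroup.mk [x] * FreeGroup.mk l := by
        rw [FreeGroup.mul_mk]
        rfl
      have e2 : ev (FreeGroup.mk (x :: l)) S = ev (FreeGroup.mk [x]) S * ev (FreeGroup.mk l) S := by
        rw [e]
        exact map_mul (FreeGroup.lift S) _ _
      have e3 : X.d o (ev (FreeGroup.mk [x]) S • o) ≤ R := by
        obtain ⟨i, b⟩ := x
        cases b
        · have : ev (FreeGroup.mk [(i, false)]) S = (S i)⁻¹ := by simp [ev]
          rw [this, I.disp_inv]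
          exact h i
        · have : ev (FreeGroup.mk [(i, true)]) S = S i := by simp [ev]
          rw [this]
          exact h i
      have := I.disp_mul (ev (FreeGroup.mk [x]) S) (ev (FreeGroup.mk l) S) o
      rw [e2, List.length_cons, Nat.succ_mul]
      omega
  have := key w.toWord
  rwa [FreeGroup.mk_toWord] at this

end Pool.Agent.Lib.MP_e0e7d6_al
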