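import Pool.Agent.Lib.MP_e0e7d6_al.Main
import Pool.Agent.Lib.MP_e0e7d6_al.Reduce

/-!
The reduction with its two outcomes made explicit: commutative groups of exponent `N`, or an
infinite two-generated group of exponent `N`.
-/

namespace Pool.Agent.Lib.MP_e0e7d6_al

theorem value_map {A B : Type} [Semigroup A] [Semigroup B] (f : A →ₙ* B) (φ : ℕ → A) (u : Word) :
    Word.value (fun i => f (φ i)) u = f (Word.value φ u) := by
  obtain ⟨i, l⟩ := u
  unfold Word.value
  simp only
  generalize φ i = s
  induction l generalizing s with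
  | nil => rfl
  | cons j l ih => rw [List.foldl_cons, List.foldl_cons, ← map_mul, ih]

theorem holds_of_inj {A B : Type} [Semigroup A] [Semigroup B] (f : A →ₙ* B)
    (hf : Function.Injective f) {u v : Word}
    (h : ∀ φ : ℕ → B, Word.value φ u = Word.value φ v) (φ : ℕ → A) :
    Word.value φ u = Word.value φ v :=
  hf (by rw [← value_map, ← value_map, h])

theorem holds_of_surj {A B : Type} [Semigroup A] [Semigroup B] (f : A →ₙ* B)
    (hf : Function.Surjective f) {u v : Word}
    (h : ∀ φ : ℕ → A, Word.value φ u = Word.value φ v) (φ : ℕ → B) :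
    Word.value φ u = Word.value φ v := by
  choose g hg using hf
  have e : φ = fun i => f (g (φ i)) := funext fun i => (hg _).symm
  rw [e, value_map, value_map, h]

theorem ins_goal : ∃ goal : Pat, ∀ n : ℕ,
    (∃ σ : ℕ → Tm, σ 0 = num n ∧ Der prog (goal.inst σ)) ↔
      ((Denumerable.ofNat Nat.Partrec.Code n).eval 0).Dom := by
  have hf : Partrec fun n : ℕ => (Denumerable.ofNat Nat.Partrec.Code n).eval 0 :=
    Nat.Partrec.Code.eval_part.comp (Computable.ofNat _) (Computable.const 0)
  obtain ⟨c, hc⟩ := Turing.ToPartrec.Code.exists_code (Nat.Partrec'.part_iff₁.mpr hf)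
  refine ⟨pEv (encC c).toPat (.node (.var 0) .leaf) (.var 1), fun n => ?_⟩
  have e : c.eval [n] = pure <$> (Denumerable.ofNat Nat.Partrec.Code n).eval 0 :=
    hc ⟨[n], rfl⟩
  constructor
  · rintro ⟨σ, h0, hd⟩
    obtain ⟨r, -, hr⟩ := (der_sound hd).2 c [n] (σ 1) (by
      simp only [pEv, Pat.inst, inst_toPat, h0]; rfl)
    rw [e] at hr
    exact Part.dom_iff_mem.mpr (let ⟨a, ha, _⟩ := (Part.mem_map_iff _).mp hr; ⟨a, ha⟩)
  · intro hd
    obtain ⟨a, ha⟩ := Part.dom_iff_mem.mp hd
    have hr : [a] ∈ c.eval [n] := by rw [e]; exact Part.mem_map _ ha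
    refine ⟨sub [num n, encL [a]], rfl, ?_⟩
    simp only [pEv, Pat.inst, inst_toPat]
    exact der_ev c _ _ hr

theorem ins_reduction (h : Monsters) (P : List (Pat × List Pat))
    (hrr : ∀ c ∈ P, ∀ j, c.1.occ j → ∃ B ∈ c.2, B.occ j) (hleaf : ¬ Der P .leaf) (g : Pat) :
    ∃ (N : ℕ) (E : ℕ → List (Word × Word)), 0 < N ∧ Primrec E ∧ ∀ n,
      ((∃ σ : ℕ → Tm, σ 0 = num n ∧ Der P (g.inst σ)) →
        ∀ (S : Type) [inst : Semigroup S] [Nonempty S], Satisfies S (E n) →
          ∃ G : Group S, G.toSemigroup = inst ∧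
            (∀ s : S, (letI := G; s ^ N = 1)) ∧ ∀ x y : S, x * y = y * x) ∧
      ((¬ ∃ σ : ℕ → Tm, σ 0 = num n ∧ Der P (g.inst σ)) →
        ∃ (G : Type) (_ : Group G) (a b : G), Subgroup.closure ({a, b} : Set G) = ⊤ ∧
          Infinite G ∧ (∀ s : G, s ^ N = 1) ∧ Satisfies G (E n)) := by
  obtain ⟨w, p, q, hp, hq, hpq, h3, hvan, hM⟩ := h
  have h0 : 0 < p * q := Nat.mul_pos hp hq
  choose pos hpos using exists_pos h0
  let X : FreeGroup ℕ := FreeGroup.of 0
  let Y : FreeGroup ℕ := FreeGroup.of 1
  let Z : ℕ → FreeGroup ℕ := fun i => FreeGroup.of (i + 2)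
  let u : ℕ → List ℕ := fun n => Nat.rec [] (fun _ v => subst (pos (WW w X Y 1 (Z 0))) v) n
  let E₀ : List (Word × Word) := P.map fun c => law (pos (lawC w p X Y Z c))
  let E₁ : ℕ → List (Word × Word) := fun n =>
    [law (subst (pos (lawG w p X Y Z g true p)) (u n)),
      law (subst (pos (lawG w p X Y Z g false q)) (u n))]
  have hu : ∀ (H : Type) [Group H], (∀ h : H, h ^ (p * q) = 1) → ∀ (φ : ℕ → H) (n : ℕ),
      ((u n).map φ).prod = vl w (φ 0) (φ 1) (num n) := by
    intro H _ hN φ n
    induction n with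
    | zero => rfl
    | succ n ih =>
      change ((subst _ (u n)).map φ).prod = _
      rw [prod_subst, hpos _ H hN, map_WW, ih, map_one]
      simp only [X, Y, Z, FreeGroup.lift_apply_of]
      rfl
  have hlaws : ∀ (H : Type) [Group H], (∀ h : H, h ^ (p * q) = 1) → ∀ n,
      (Satisfies H (E₀ ++ E₁ n) ↔ Laws H w p q P g (num n)) := by
    intro H _ hN n
    rw [satisfies_append]
    refine and_congr ?_ ?_
    · simp only [Satisfies, E₀, List.forall_mem_map, law_iff, hpos _ H hN, map_lawC, X, Y, Z,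
        FreeGroup.lift_apply_of]
      exact ⟨fun h x y z c hc => h c hc (fun i => match i with | 0 => x | 1 => y | i + 2 => z i),
        fun h c hc φ => h _ _ _ c hc⟩
    · simp only [Satisfies, E₁, List.forall_mem_cons, law_iff, prod_subst, hpos _ H hN, map_lawG,
        X, Y, Z, FreeGroup.lift_apply_of, hu H hN, List.not_mem_nil, IsEmpty.forall_iff,
        implies_true, and_true, ← forall_and]
      refine ⟨fun h x y z hz => ?_, fun h φ => h _ _ _ rfl⟩
      have := h (fun i => match i with | 0 => x | 1 => y | i + 2 => z i)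
      rw [← hz, Function.update_eq_self_iff.mpr rfl] at this
      exact this
  refine ⟨p * q, fun n => expo (p * q) ++ (E₀ ++ E₁ n), h0, ?_, fun n => ⟨?_, fun hn => ?_⟩⟩
  · have hu' : Primrec u :=
      Primrec.nat_rec₁ [] ((primrec_subst _).comp Primrec.snd).to₂
    have hlaw : Primrec law :=
      ((Primrec.const 0).pair Primrec.id).pair (Primrec.const (0, []))
    exact Primrec.list_append.comp (Primrec.const _) (Primrec.list_append.comp (Primrec.const _)
      (Primrec.list_cons.comp (hlaw.comp ((primrec_subst _).comp hu'))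
        (Primrec.list_cons.comp (hlaw.comp ((primrec_subst _).comp hu')) (Primrec.const []))))
  · rintro ⟨σ, hσ, hd⟩ S inst _ hS
    rw [satisfies_append] at hS
    obtain ⟨G, rfl, hN⟩ := exists_group h0 hS.1
    exact ⟨G, rfl, hN, fun x y =>
      (comm_of_der hpq h3 (hvan S) hN ((hlaws S hN n).mp hS.2) hσ hd x y).eq⟩
  · obtain ⟨G, inst, -, C, hN, ⟨x, y, hxy⟩, R⟩ := hM {t | Der P t}
    have hsat : Satisfies G (expo (p * q) ++ (E₀ ++ E₁ n)) :=
      satisfies_append.mpr ⟨satisfies_expo h0 hN, (hlaws G hN n).mpr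
        (laws_of_not_der C R hpq h0 (hvan G) hN hrr hleaf hn)⟩
    let H := Subgroup.closure ({x, y} : Set G)
    let a : H := ⟨x, Subgroup.subset_closure (by simp)⟩
    let b : H := ⟨y, Subgroup.subset_closure (by simp)⟩
    refine ⟨H, inferInstance, a, b, ?_, ?_, fun s => Subtype.ext (hN s), fun e he φ => ?_⟩
    · have := Subgroup.closure_closure_coe_preimage (k := ({x, y} : Set G))
      rw [eq_top_iff, ← this]
      apply Subgroup.closure_mono
      rintro ⟨s, hs⟩ (h | h)
      · exact Or.inl (Subtype.ext h)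
      · exact Or.inr (Subtype.ext h)
    · refine Infinite.of_injective (fun n => vl w a b (num n)) fun m n hmn => ?_
      apply num_injective
      apply vl_inj C R hxy
      have e : ∀ t, H.subtype (vl w a b t) = vl w x y t := by
        intro t
        rw [vl, map_val, map_cc, map_bb]
        rfl
      rw [← e, ← e]
      exact congrArg _ hmn
    · exact holds_of_inj (H.subtype : H →ₙ* G) Subtype.val_injective (hsat e he) φ

theorem ins_core : ∃ (N : ℕ) (E : Nat.Partrec.Code → List (Word × Word)), 0 < N ∧ Computable E ∧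
    ∀ c, ((c.eval 0).Dom →
        ∀ (S : Type) [inst : Semigroup S] [Nonempty S], Satisfies S (E c) →
          ∃ G : Group S, G.toSemigroup = inst ∧
            (∀ s : S, (letI := G; s ^ N = 1)) ∧ ∀ x y : S, x * y = y * x) ∧
      (¬ (c.eval 0).Dom →
        ∃ (G : Type) (_ : Group G) (a b : G), Subgroup.closure ({a, b} : Set G) = ⊤ ∧
          Infinite G ∧ (∀ s : G, s ^ N = 1) ∧ Satisfies G (E c)) := by
  obtain ⟨g, hg⟩ := ins_goal
  obtain ⟨N, E, hN, hE, h⟩ := ins_reduction monsters prog prog_range prog_leaf g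
  refine ⟨N, fun c => E (Encodable.encode c), hN, hE.to_comp.comp Computable.encode, fun c => ?_⟩
  have := h (Encodable.encode c)
  rwa [hg, Denumerable.ofNat_encode] at this

theorem re_comp {α β : Type} [Primcodable α] [Primcodable β] {p : β → Prop} {f : α → β}
    (hp : REPred p) (hf : Computable f) : REPred fun a => p (f a) := by
  unfold REPred at hp ⊢
  exact Partrec.comp hp hf

/-- In a group of finite exponent, a generating pair generates the semigroup. -/
theorem semigroup_closure_pair {H : Type} [Group H] {N : ℕ} (hN0 : 0 < N) (hN : ∀ g : H, g ^ N = 1)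
    {a b : H} (hab : Subgroup.closure ({a, b} : Set H) = ⊤) :
    Subsemigroup.closure ({a, b} : Set H) = ⊤ := by
  have hpow : ∀ x ∈ Subsemigroup.closure ({a, b} : Set H), ∀ n : ℕ,
      x ^ (n + 1) ∈ Subsemigroup.closure ({a, b} : Set H) := by
    intro x hx n
    induction n with
    | zero => rwa [zero_add, pow_one]
    | succ n ih => rw [pow_succ]; exact Subsemigroup.mul_mem _ ih hx
  obtain ⟨M, rfl⟩ : ∃ M, N = M + 1 := ⟨N - 1, by omega⟩
  rw [eq_top_iff]
  rintro x -
  have hx : x ∈ Subgroup.closure ({a, b} : Set H) := hab ▸ Subgroup.mem_top x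
  induction hx using Subgroup.closure_induction with
  | mem x hx => exact Subsemigroup.subset_closure hx
  | one => rw [← hN a]; exact hpow a (Subsemigroup.subset_closure (by simp)) M
  | mul x y _ _ hx hy => exact Subsemigroup.mul_mem _ hx hy
  | inv x _ hx =>
    have e : x⁻¹ = x ^ (2 * M + 1) := by
      rw [inv_eq_iff_mul_eq_one, ← pow_succ', show 2 * M + 1 + 1 = (M + 1) * 2 by ring, pow_mul,
        hN, one_pow]
    rw [e]
    exact hpow x hx _

end Pool.Agent.Lib.MP_e0e7d6_al
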