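import Pool.Agent.Lib.MP_e0e7d6_al.InsCore

/-!
Varieties generated by one finite semigroup.
-/

namespace Pool.Agent.Lib.MP_e0e7d6_al

/-- The identities that hold in all models of `E` are those of one finite semigroup. -/
def FinGen (E : List (Word × Word)) : Prop :=
  ∃ (F : Type) (_ : Semigroup F), Finite F ∧ ∀ u v : Word,
    (∀ φ : ℕ → F, Word.value φ u = Word.value φ v) ↔
      ∀ (S : Type) [Semigroup S], Satisfies S E → ∀ φ : ℕ → S, Word.value φ u = Word.value φ v

theorem value_rename {S : Type} [Semigroup S] (φ : ℕ → S) (r : ℕ → ℕ) (u : Word) :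
    Word.value φ (r u.1, u.2.map r) = Word.value (fun i => φ (r i)) u := by
  unfold Word.value
  simp only [List.foldl_map]

theorem not_finGen {G : Type} [Group G] {a b : G}
    (hab : Subsemigroup.closure ({a, b} : Set G) = ⊤) (hinf : Infinite G)
    {E : List (Word × Word)} (hE : Satisfies G E) : ¬ FinGen E := by
  rintro ⟨F, _, hF, h⟩
  let r : ℕ → ℕ := fun i => if i = 0 then 0 else 1
  let ψ : ℕ → G := fun i => if i = 0 then a else b
  have hw : ∀ g : G, ∃ u : Word, Word.value ψ u = g := by
    intro g
    have hg : g ∈ Subsemigroup.closure ({a, b} : Set G) := hab ▸ Subsemigroup.mem_top g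
    induction hg using Subsemigroup.closure_induction with
    | mem x hx =>
      rcases hx with rfl | rfl
      · exact ⟨(0, []), rfl⟩
      · exact ⟨(1, []), rfl⟩
    | mul x y _ _ hx hy =>
      obtain ⟨⟨i, l⟩, rfl⟩ := hx
      obtain ⟨⟨j, m⟩, rfl⟩ := hy
      exact ⟨(i, l ++ j :: m), by simp [value_eq, mul_assoc]⟩
  choose u hu using hw
  let τ : G → (F × F → F) := fun g z => Word.value (fun i => if i = 0 then z.1 else z.2) (u g)
  have hτ : Function.Injective τ := by
    intro g g' e
    have key := (h (r (u g).1, (u g).2.map r) (r (u g').1, (u g').2.map r)).1 (fun φ => by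
      rw [value_rename, value_rename]
      have e' : (fun i => φ (r i)) = fun i => if i = 0 then φ 0 else φ 1 := by
        funext i
        simp only [r]
        split_ifs <;> rfl
      rw [e']
      exact congrFun e (φ 0, φ 1)) G hE ψ
    rw [value_rename, value_rename] at key
    have e' : (fun i => ψ (r i)) = ψ := by
      funext i
      simp only [r, ψ]
      split_ifs <;> simp_all
    rwa [e', hu, hu] at key
  have : Finite G := Finite.of_injective τ hτ
  exact not_finite G

theorem value_comm {S : Type} [CommMonoid S] (φ : ℕ → S) (J : Finset ℕ) (u : Word)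
    (h1 : u.1 ∈ J) (h2 : ∀ i ∈ u.2, i ∈ J) :
    Word.value φ u = ∏ j ∈ J, Word.value (Pi.mulSingle j (φ j) : ℕ → S) u := by
  classical
  obtain ⟨i, l⟩ := u
  have one : ∀ i ∈ J, φ i = ∏ j ∈ J, (Pi.mulSingle j (φ j) : ℕ → S) i := by
    intro i hi
    rw [Finset.prod_eq_single_of_mem i hi]
    · simp
    · intro j _ hj
      exact Pi.mulSingle_eq_of_ne hj.symm _
  simp only [value_eq]
  rw [Finset.prod_mul_distrib, ← one i h1]
  congr 1
  clear h1
  induction l with
  | nil => simp
  | cons k l ih =>
    simp only [List.map_cons, List.prod_cons]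
    rw [Finset.prod_mul_distrib, ← one k (h2 k List.mem_cons_self),
      ← ih fun i hi => h2 i (List.mem_cons_of_mem _ hi)]

theorem finGen_of_comm {N : ℕ} (hN : 0 < N) {E : List (Word × Word)}
    (h : ∀ (S : Type) [inst : Semigroup S] [Nonempty S], Satisfies S E →
      ∃ G : Group S, G.toSemigroup = inst ∧
        (∀ s : S, (letI := G; s ^ N = 1)) ∧ ∀ x y : S, x * y = y * x) : FinGen E := by
  classical
  let D : Type := {d : Fin N // Satisfies (Multiplicative (ZMod (d.val + 1))) E}
  let C : D → Type := fun d => Multiplicative (ZMod (d.val.val + 1))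
  refine ⟨∀ d : D, C d, inferInstance, inferInstance, fun u v => ⟨fun hF S inst hS φ => ?_,
    fun hV => hV _ fun e he φ => ?_⟩⟩
  · have : Nonempty S := ⟨φ 0⟩
    obtain ⟨G, rfl, h1, h2⟩ := h S hS
    let _ : CommGroup S := { G with mul_comm := h2 }
    let J : Finset ℕ := insert u.1 (insert v.1 (u.2.toFinset ∪ v.2.toFinset))
    have eu := value_comm φ J u (by simp [J]) (fun i hi => by simp [J, hi])
    have ev' := value_comm φ J v (by simp [J]) (fun i hi => by simp [J, hi])
    refine eu.trans (Eq.trans (Finset.prod_congr rfl fun j _ => ?_) ev'.symm)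
    let Z := Subgroup.zpowers (φ j)
    have hpos : 0 < orderOf (φ j) := (fin_order hN h1 (φ j)).orderOf_pos
    have hle : orderOf (φ j) ≤ N := orderOf_le_of_pow_eq_one hN (h1 _)
    obtain ⟨d, hd⟩ : ∃ d, orderOf (φ j) = d + 1 := ⟨orderOf (φ j) - 1, by omega⟩
    have hcard : Nat.card Z = d + 1 := by rw [Nat.card_zpowers, hd]
    have iso : Multiplicative (ZMod (d + 1)) ≃* Z := by
      rw [← hcard]
      exact zmodCyclicMulEquiv inferInstance
    have hZ : Satisfies (Multiplicative (ZMod (d + 1))) E := fun e he ψ =>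
      holds_of_inj ((Z.subtype : Z →ₙ* S).comp (iso : _ →ₙ* Z))
        (Subtype.val_injective.comp iso.injective) (hS e he) ψ
    let d' : D := ⟨⟨d, by omega⟩, hZ⟩
    have hC : ∀ ψ : ℕ → C d', Word.value ψ u = Word.value ψ v :=
      holds_of_surj (Pi.evalMulHom C d') (Function.surjective_eval d') hF
    have hZ' : ∀ ψ : ℕ → Z, Word.value ψ u = Word.value ψ v :=
      holds_of_surj (iso : _ →ₙ* Z) iso.surjective hC
    let ψ : ℕ → Z := Pi.mulSingle j ⟨φ j, Subgroup.mem_zpowers _⟩
    have e : (Pi.mulSingle j (φ j) : ℕ → S) = fun i => (Z.subtype : Z →ₙ* S) (ψ i) := by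
      funext i
      by_cases hi : i = j
      · subst hi; simp [ψ]
      · simp [ψ, Pi.mulSingle_eq_of_ne hi]
    rw [e, value_map, value_map, hZ']
  · funext d
    have e1 := value_map (Pi.evalMulHom C d) φ e.1
    have e2 := value_map (Pi.evalMulHom C d) φ e.2
    exact e1.symm.trans ((d.2 e he _).trans e2)

theorem finGen_not_re : ¬ REPred fun E : List (Word × Word) => ¬ FinGen E := by
  intro h
  obtain ⟨N, E, hN, hE, hc⟩ := ins_core
  refine ComputablePred.halting_problem_not_re 0 (REPred.of_eq (re_comp h hE) fun c => ?_)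
  constructor
  · intro hn hd
    exact hn (finGen_of_comm hN ((hc c).1 hd))
  · intro hd
    obtain ⟨G, inst, a, b, hab, hinf, h1, hS⟩ := (hc c).2 hd
    exact not_finGen (semigroup_closure_pair hN h1 hab) hinf hS

end Pool.Agent.Lib.MP_e0e7d6_al
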