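import Pool.Agent.Lib.MP_e0e7d6_al.Block

/-!
The rigid word built from an auxiliary word with large translation length.
-/

namespace Pool.Agent.Lib.MP_e0e7d6_al

section defs

variable {G : Type} [Group G]

/-- Blocks of the rigid word. -/
def gb (a : G) (M j : ℕ) : G := a ^ (M * (j % 21 + 1))

/-- Connectors of the rigid word. -/
def eb (S : Fin 7 → G) (j : ℕ) : G := S ⟨j % 21 / 3, by omega⟩

/-- Initial segments of the periodic word. -/
def pw (a : G) (S : Fin 7 → G) (M j : ℕ) : G := pre (gb a M) (eb S) j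

theorem pw_succ (a : G) (S : Fin 7 → G) (M j : ℕ) :
    pw a S M (j + 1) = pw a S M j * gb a M j * eb S j := rfl

theorem pw_period (a : G) (S : Fin 7 → G) (M n i : ℕ) :
    pw a S M (21 * n + i) = pw a S M 21 ^ n * pw a S M i :=
  pre_period 21 (fun j => by simp [gb]) (fun j => by simp [eb]) n i

theorem map_pw {H : Type} [Group H] (f : G →* H) (a : G) (S : Fin 7 → G) (M j : ℕ) :
    f (pw a S M j) = pw (f a) (fun i => f (S i)) M j := by
  induction j with
  | zero => simp [pw, pre]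
  | succ j ih => rw [pw_succ, pw_succ, map_mul, map_mul, ih, gb, map_pow]; rfl

theorem ev_pw (α : FreeGroup (Fin 7)) (M : ℕ) (S : Fin 7 → G) :
    ev (pw α FreeGroup.of M 21) S = pw (ev α S) S M 21 := by
  unfold ev
  rw [map_pw]
  simp

theorem pw_vanish (M : ℕ) (z : G) : pw 1 ![1, 1, 1, 1, 1, 1, z] M 21 = z ^ 3 := by
  simp [pw, pre, gb, eb, pow_succ]

/-- The algebraic part of rigidity. -/
theorem rigid_alg (C : CSA G) {a a' : G} {S S' : Fin 7 → G} {M : ℕ} (a1 : a ≠ 1) (a1' : a' ≠ 1)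
    (tf : ∀ u, Commute a u → u ^ M = 1 → u = 1) (nc : ∀ i, ¬ Commute a (S i)) (c : G)
    (hc : ∀ i, Commute (pw a S M i * a * (pw a S M i)⁻¹)
      (c * (pw a' S' M i * a' * (pw a' S' M i)⁻¹) * c⁻¹)) :
    ∀ i, S' i = c⁻¹ * S i * c := by
  let κ : ℕ → G := fun i => (pw a S M i)⁻¹ * c * pw a' S' M i * c⁻¹
  set b := c * a' * c⁻¹ with hb
  have b1 : b ≠ 1 := fun e => a1' (by
    calc a' = c⁻¹ * b * c := by rw [hb]; group
      _ = 1 := by rw [e]; group)
  have h1 : ∀ i, Commute a (κ i * b * (κ i)⁻¹) := by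
    intro i
    rw [← commute_conj_iff (pw a S M i)]
    have e : pw a S M i * (κ i * b * (κ i)⁻¹) * (pw a S M i)⁻¹ =
        c * (pw a' S' M i * a' * (pw a' S' M i)⁻¹) * c⁻¹ := by
      simp only [κ, hb]
      group
    rw [e]
    exact hc i
  have k0 : κ 0 = 1 := by simp [κ, pw, pre]
  have cb : Commute a b := by simpa [k0] using h1 0
  have ck : ∀ i, Commute a (κ i) := fun i => C.mal' a1 b1 cb (h1 i)
  let lam : ℕ → G := fun i => (gb a M i)⁻¹ * κ i * gb b M i
  have cl : ∀ i, Commute a (lam i) := fun i =>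
    (((Commute.refl a).pow_right _).inv_right.mul_right (ck i)).mul_right (cb.pow_right _)
  have rel : ∀ i, c * eb S' i * c⁻¹ = (lam i)⁻¹ * eb S i * κ (i + 1) := by
    intro i
    have e : gb b M i = c * gb a' M i * c⁻¹ := by rw [gb, gb, hb, conj_pow]
    simp only [lam, κ, pw_succ, e]
    group
  have same : ∀ i, i % 21 / 3 = (i + 1) % 21 / 3 → lam (i + 1) = lam i ∧ κ (i + 2) = κ (i + 1) := by
    intro i hi
    have e1 : eb S (i + 1) = eb S i := by simp only [eb, hi]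
    have e2 : eb S' (i + 1) = eb S' i := by simp only [eb, hi]
    have r1 := rel i
    have r2 := rel (i + 1)
    rw [e1, e2, r1] at r2
    have e3 : lam (i + 1) * (lam i)⁻¹ = eb S i * (κ (i + 2) * (κ (i + 1))⁻¹) * (eb S i)⁻¹ := by
      calc lam (i + 1) * (lam i)⁻¹
          = lam (i + 1) * ((lam i)⁻¹ * eb S i * κ (i + 1)) * (κ (i + 1))⁻¹ * (eb S i)⁻¹ := by group
        _ = _ := by rw [r2]; group
    have e4 : κ (i + 2) * (κ (i + 1))⁻¹ = 1 := by
      by_contra hne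
      refine nc _ (C.mal' (e := eb S i) a1 hne ((ck _).mul_right (ck _).inv_right) ?_)
      rw [← e3]
      exact (cl _).mul_right (cl _).inv_right
    rw [e4, mul_one, mul_inv_cancel] at e3
    exact ⟨mul_inv_eq_one.1 e3, mul_inv_eq_one.1 e4⟩
  have ab : b = a := by
    obtain ⟨-, s1⟩ := same 0 (by norm_num)
    obtain ⟨s2, -⟩ := same 1 (by norm_num)
    have ckb : Commute (κ 1) b := C.trans a _ _ a1 (ck 1) cb
    have e : (a⁻¹ * b) ^ M = 1 := by
      rw [cb.inv_left.mul_pow]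
      have s3 : (a ^ (M * 3))⁻¹ * κ 1 * b ^ (M * 3) = (a ^ (M * 2))⁻¹ * κ 1 * b ^ (M * 2) := by
        have := s2
        simp only [lam, gb] at this
        norm_num at this s1
        rwa [s1] at this
      have c1 : κ 1 * b ^ (M * 3) = b ^ (M * 3) * κ 1 := (ckb.pow_right _).eq
      have c2 : κ 1 * b ^ (M * 2) = b ^ (M * 2) * κ 1 := (ckb.pow_right _).eq
      rw [mul_assoc _ (κ 1), mul_assoc _ (κ 1), c1, c2, ← mul_assoc _ _ (κ 1),
        ← mul_assoc _ _ (κ 1)] at s3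
      have s4 := mul_right_cancel s3
      calc a⁻¹ ^ M * b ^ M
          = a ^ (M * 2) * ((a ^ (M * 3))⁻¹ * b ^ (M * 3)) * (b ^ (M * 2))⁻¹ := by group
        _ = 1 := by rw [s4]; group
    have := tf _ ((Commute.refl a).inv_right.mul_right cb) e
    exact (inv_mul_eq_one.1 this).symm
  have lk : ∀ i, lam i = κ i := by
    intro i
    have c1 : κ i * gb a M i = gb a M i * κ i := ((ck i).symm.pow_right _).eq
    simp only [lam, ab]
    rw [mul_assoc, c1]
    group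
  have all : ∀ i, i ≤ 21 → κ i = 1 := by
    intro i
    induction i with
    | zero => exact fun _ => k0
    | succ i ih =>
      intro hi
      rw [← ih (by omega)]
      by_cases h : i % 21 / 3 = (i + 1) % 21 / 3
      · rw [← lk, ← lk]
        exact (same i h).1
      · obtain ⟨j, rfl⟩ : ∃ j, i = j + 1 := ⟨i - 1, by omega⟩
        exact (same j (by omega)).2
  intro i
  have hi := i.2
  have r := rel (3 * i)
  have e : ∀ T : Fin 7 → G, eb T (3 * i) = T i := fun T => by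
    unfold eb
    congr 1
    ext
    show 3 * (i : ℕ) % 21 / 3 = i
    omega
  rw [lk, all _ (by omega), all _ (by omega), e, e] at r
  calc S' i = c⁻¹ * (c * S' i * c⁻¹) * c := by group
    _ = c⁻¹ * S i * c := by rw [r]; group

end defs

theorem phi_eq {M t t' E : ℝ} {f0 f1 : ℕ} (h1 : M * t ≤ M * f0 * t' + E)
    (h2 : M * f0 * t' ≤ M * t + E) (h3 : M * 2 * t ≤ M * f1 * t' + E)
    (h4 : M * f1 * t' ≤ M * 2 * t + E) (h : 3 * E < M * t') (h0 : 0 ≤ M * t') : f1 = 2 * f0 := by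
  have := h0
  by_contra hne
  rcases Nat.lt_or_gt_of_ne hne with k | k
  · have : (f1 : ℝ) + 1 ≤ 2 * f0 := by exact_mod_cast k
    nlinarith
  · have : 2 * (f0 : ℝ) + 1 ≤ f1 := by exact_mod_cast k
    nlinarith

section geo

variable {G : Type} [Group G] {V : Type} [MulAction G V] {X : GS V} {δ A m p q : ℕ}

theorem BC.rev (I : X.Inv G) {x : ℕ → V} {σ : ℕ → G} {r l k : ℕ} {P : G} (B : BC X x σ r l)
    (hx : ∀ j, x (j + (k + 1)) = P • x j) (hσ : ∀ j, σ (j + (k + 1)) = P * σ j * P⁻¹) :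
    BC X (fun j => (P ^ j)⁻¹ • x (k * j))
      (fun j => (P ^ (j + 1))⁻¹ * σ (k * (j + 1)) * (P ^ (j + 1))⁻¹⁻¹) r l ∧
    ∀ j, X.d ((P ^ j)⁻¹ • x (k * j)) ((P ^ (j + 1))⁻¹ • x (k * (j + 1))) =
      X.d (x (k * (j + 1))) (x (k * (j + 1) + 1)) := by
  have e : ∀ j, (P ^ j)⁻¹ • x (k * j) = (P ^ (j + 1))⁻¹ • x (k * (j + 1) + 1) := by
    intro j
    rw [show k * (j + 1) + 1 = k * j + (k + 1) by ring, hx, ← mul_smul, pow_succ']
    congr 1
    group
  have e' : ∀ j, X.d ((P ^ j)⁻¹ • x (k * j)) ((P ^ (j + 1))⁻¹ • x (k * (j + 1))) =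
      X.d (x (k * (j + 1))) (x (k * (j + 1) + 1)) := fun j => by rw [e, I, X.d_comm]
  refine ⟨⟨fun j => ?_, fun j => ?_, fun j c => ?_, fun j => ?_⟩, e'⟩
  · show X.d ((P ^ j)⁻¹ • x (k * j)) (_ • (P ^ j)⁻¹ • x (k * j)) ≤ r
    rw [e, I.disp_conj]
    exact B.right _
  · show X.d ((P ^ (j + 1))⁻¹ • x (k * (j + 1))) (_ • (P ^ (j + 1))⁻¹ • x (k * (j + 1))) ≤ r
    rw [I.disp_conj]
    exact B.left _
  · have e1 : (P ^ (j + 1))⁻¹ * σ (k * (j + 1)) * (P ^ (j + 1))⁻¹⁻¹ =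
        (P ^ (j + 1 + 1))⁻¹ * σ (k * (j + 1 + 1) + 1) * (P ^ (j + 1 + 1))⁻¹⁻¹ := by
      rw [show k * (j + 1 + 1) + 1 = k * (j + 1) + (k + 1) by ring, hσ, pow_succ' P (j + 1)]
      group
    have c' : Commute ((P ^ (j + 1))⁻¹ * σ (k * (j + 1)) * (P ^ (j + 1))⁻¹⁻¹)
      ((P ^ (j + 1 + 1))⁻¹ * σ (k * (j + 1 + 1)) * (P ^ (j + 1 + 1))⁻¹⁻¹) := c
    rw [e1, commute_conj_iff] at c'
    exact B.nc _ c'.symm
  · show l ≤ X.d ((P ^ j)⁻¹ • x (k * j)) ((P ^ (j + 1))⁻¹ • x (k * (j + 1)))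
    rw [e']
    exact B.long _

/-- Data attached to a tuple at a point of minimal joint displacement. -/
structure Dat (X : GS V) (S : Fin 7 → G) (a : G) (o : V) (R N : ℕ) : Prop where
  hub : ∀ i, X.d o (S i • o) ≤ R
  ha : X.d o (a • o) ≤ N * R
  tau : (R : ℝ) ≤ X.tau a
  nc : ∀ i, ¬ Commute a (S i)
  one : 1 ≤ N
  pos : 1 ≤ R

namespace Dat

variable {S : Fin 7 → G} {a : G} {o : V} {R N : ℕ} (T : Dat X S a o R N) (Γ : Good G X δ A m p q)
include T

theorem le : R ≤ N * R := Nat.le_mul_of_pos_left _ T.one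

theorem ne_one : a ≠ 1 := fun e => T.nc 0 (e ▸ Commute.one_left _)

include Γ

theorem inf : ¬ IsOfFinOrder a := by
  refine Γ.not_finOrder_of_tau ?_
  have : (1 : ℝ) ≤ R := by exact_mod_cast T.pos
  linarith [T.tau]

theorem bc {M r l : ℕ} (hr : 3 * (N * R) ≤ r) (hl : l + N * R ≤ M * R) :
    BC X (fun j => pw a S M j • o) (fun j => pw a S M j * a * (pw a S M j)⁻¹) r l := by
  refine (bc_of_blocks Γ.inv o (gb a M) (eb S) (fun _ => a) (N * R) l (fun _ => T.ha)
    (fun j => (T.hub _).trans T.le) (fun j => (Commute.refl a).pow_left _)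
    (fun j c => T.nc _ (Γ.csa.mal _ _ T.ne_one c)) fun j => hl.trans ?_).mono hr le_rfl
  have h1 := GS.tau_mul_le_disp (X := X) a o (M * (j % 21 + 1))
  have h2 := T.tau
  have h3 : ((M * R : ℕ) : ℝ) ≤ X.d o (a ^ (M * (j % 21 + 1)) • o) := by
    refine le_trans ?_ h1
    push_cast
    have : (0 : ℝ) ≤ (j % 21 : ℕ) := by positivity
    have : (0 : ℝ) ≤ M := by positivity
    have : (0 : ℝ) ≤ R := by positivity
    have : (M : ℝ) * R ≤ M * X.tau a := by gcongr
    have : 0 ≤ (M : ℝ) * (j % 21 : ℕ) * X.tau a := by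
      have := GS.tau_nonneg (X := X) a
      positivity
    nlinarith
  exact_mod_cast h3

theorem len (M j : ℕ) :
    (M : ℝ) * (j % 21 + 1 : ℕ) * X.tau a ≤ X.d (pw a S M j • o) (pw a S M (j + 1) • o) + R ∧
    (X.d (pw a S M j • o) (pw a S M (j + 1) • o) : ℝ) ≤
      M * (j % 21 + 1 : ℕ) * X.tau a + 294 * δ * M + 3 * (N * R : ℕ) := by
  have e : X.d (pw a S M j • o) (pw a S M (j + 1) • o) = X.d o (gb a M j • eb S j • o) := by
    rw [pw_succ, mul_smul, mul_smul, Γ.inv]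
  rw [e]
  have h1 := GS.tau_mul_le_disp (X := X) a o (M * (j % 21 + 1))
  have h2 := Γ.hyp.disp_pow_le Γ.inv Γ.one_le o a (M * (j % 21 + 1))
  have h3 := X.d_tri o (gb a M j • eb S j • o) (gb a M j • o)
  have h4 := X.d_tri o (gb a M j • o) (gb a M j • eb S j • o)
  rw [Γ.inv] at h3 h4
  have h5 : X.d o (eb S j • o) ≤ R := T.hub _
  have h6 := X.d_comm o (eb S j • o)
  have h7 := T.le
  have h8 := T.pos
  have h9 := T.ha
  have k1 : (X.d o (gb a M j • o) : ℝ) ≤ X.d o (gb a M j • eb S j • o) + R := by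
    exact_mod_cast (by omega)
  have k2 : (X.d o (gb a M j • eb S j • o) : ℝ) + X.d o (a • o) + 1 ≤
      X.d o (gb a M j • o) + 3 * (N * R : ℕ) := by
    exact_mod_cast (by omega)
  have k3 : ((j % 21 + 1 : ℕ) : ℝ) ≤ 21 := by exact_mod_cast (by omega)
  have k4 : (M : ℝ) * (j % 21 + 1 : ℕ) * (14 * δ) ≤ M * 21 * (14 * δ) := by gcongr
  rw [Nat.cast_mul] at h1 h2
  unfold gb at *
  constructor <;> nlinarith

theorem disp {M : ℕ} (hM : 1 ≤ M) (j : ℕ) : X.d o (pw a S M j • o) ≤ j * (22 * (M * (N * R))) := by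
  induction j with
  | zero => simp [pw, pre, X.d_self]
  | succ j ih =>
    have h1 := Γ.inv.disp_mul (pw a S M j * gb a M j) (eb S j) o
    have h2 := Γ.inv.disp_mul (pw a S M j) (gb a M j) o
    have h3 : X.d o (gb a M j • o) ≤ 21 * (M * (N * R)) := by
      refine (Γ.inv.disp_pow a o _).trans ?_
      calc M * (j % 21 + 1) * X.d o (a • o) ≤ M * 21 * (N * R) :=
            Nat.mul_le_mul (Nat.mul_le_mul_left _ (by omega)) T.ha
        _ = _ := by ring
    have h5 : X.d o (eb S j • o) ≤ R := T.hub _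
    have h6 := T.le
    have h7 : N * R ≤ M * (N * R) := Nat.le_mul_of_pos_left _ hM
    rw [pw_succ, Nat.succ_mul]
    omega

omit T Γ in
theorem per (M n : ℕ) : pw a S M (21 * n) • o = pw a S M 21 ^ n • pw a S M 0 • o := by
  rw [← mul_smul, ← pw_period, add_zero]

/-- Elements commuting with the value of the word translate a lot. -/
theorem cent {M : ℕ} (hR : A + δ ≤ R) (hM : 300000 * N ≤ M) {h : G} (h1 : h ≠ 1)
    (c : Commute h (pw a S M 21)) : (M : ℝ) * R ≤ 60 * X.tau h := by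
  have h0 := T.le
  have h2 : 300000 * N * R ≤ M * R := Nat.mul_le_mul_right _ hM
  rw [mul_assoc] at h2
  have B := T.bc Γ (M := M) (r := 3 * (N * R)) (l := M * R - N * R) le_rfl (by omega)
  have h3 := B.cent Γ (by omega) (by omega) (k := 21) (by norm_num) (per M) h1 c
  have h4 : ((M * R : ℕ) : ℝ) + 2 * (40000 * (3 * (N * R) : ℕ)) ≤ 2 * (M * R - N * R : ℕ) := by
    exact_mod_cast (by omega)
  rw [Nat.cast_mul] at h4
  linarith

theorem w_inf {M : ℕ} (hR : A + δ ≤ R) (hM : 300000 * N ≤ M) : ¬ IsOfFinOrder (pw a S M 21) := by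
  have h0 := T.one
  have h1 : (300000 : ℝ) ≤ M := by exact_mod_cast (by omega)
  have h2 : (1 : ℝ) ≤ R := by exact_mod_cast T.pos
  have ne : pw a S M 21 ≠ 1 := by
    intro e
    have h3 := T.cent Γ hR hM (h := S 0) (fun e => T.nc 0 (e ▸ Commute.one_right _))
      (e ▸ Commute.one_right _)
    have h4 := GS.tau_le_disp (X := X) (S 0) o
    have h5 : (X.d o (S 0 • o) : ℝ) ≤ R := by exact_mod_cast T.hub 0
    nlinarith
  have h3 := T.cent Γ hR hM ne (Commute.refl _)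
  refine Γ.not_finOrder_of_tau ?_
  nlinarith

theorem compare {S' : Fin 7 → G} {a' : G} {o' : V} {R' : ℕ} (T' : Dat X S' a' o' R' N) {M : ℕ}
    (hR : A + δ ≤ R) (hR' : A + δ ≤ R') (hM : 300000 * N ≤ M)
    (c : Commute (pw a S M 21) (pw a' S' M 21)) : R ≤ 30000 * (N * R') := by
  have h0 := T.one
  have h1 := T.cent Γ hR hM (h := pw a' S' M 21)
    (fun e => T'.w_inf Γ hR' hM (e ▸ IsOfFinOrder.one)) c.symm
  have h2 := GS.tau_le_disp (X := X) (pw a' S' M 21) o'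
  have h3 : (X.d o' (pw a' S' M 21 • o') : ℝ) ≤ (21 * (22 * (M * (N * R'))) : ℕ) := by
    exact_mod_cast T'.disp Γ (by omega) 21
  have h4 : ((M * R : ℕ) : ℝ) ≤ (60 * (21 * (22 * (M * (N * R')))) : ℕ) := by
    push_cast at h3 ⊢
    linarith
  have h5 : M * R ≤ 60 * (21 * (22 * (M * (N * R')))) := by exact_mod_cast h4
  have h6 : 0 < M := by omega
  refine Nat.le_of_mul_le_mul_left ?_ h6
  rw [show M * (30000 * (N * R')) = 30000 * (M * (N * R')) by ring]
  omega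

theorem rig {S' : Fin 7 → G} {a' : G} {o' : V} {R' : ℕ} (T' : Dat X S' a' o' R' N) {M : ℕ}
    (hR : 2000 * (A + δ) ≤ R) (hR' : 2000 * (A + δ) ≤ R') (hM : 10 ^ 12 * (N * N) ≤ M)
    (c : Commute (pw a S M 21) (pw a' S' M 21)) : ∃ h : G, ∀ i, S' i = h⁻¹ * S i * h := by
  have n1 := T.one
  have hNN : N ≤ N * N := Nat.le_mul_of_pos_left _ n1
  have hM0 : 300000 * N ≤ M := by omega
  have c1 := T.compare Γ T' (by omega) (by omega) hM0 c
  have c2 := T'.compare Γ T (by omega) (by omega) hM0 c.symm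
  have l1 := T.le
  have l2 := T'.le
  set r := 3 * (N * R) + 3 * (N * R') with hr
  have key : ∀ U U' : ℕ, U ≤ N * U → U' ≤ 30000 * (N * U) →
      10000000 * (3 * (N * U) + 3 * (N * U')) ≤ M * U := by
    intro U U' h1 h2
    have h3 : N * U' ≤ N * (30000 * (N * U)) := Nat.mul_le_mul_left _ h2
    have h4 : N * U ≤ N * (N * U) := Nat.mul_le_mul_left _ h1
    have h5 : 10 ^ 12 * (N * N) * U ≤ M * U := Nat.mul_le_mul_right _ hM
    have e1 : N * (30000 * (N * U)) = 30000 * (N * (N * U)) := by ring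
    have e2 : 10 ^ 12 * (N * N) * U = 1000000000000 * (N * (N * U)) := by ring
    omega
  have k1 := key R R' l1 c2
  have k2 := key R' R l2 c1
  have B := T.bc Γ (M := M) (r := r) (l := 1000000 * r) (by omega) (by omega)
  have B' := T'.bc Γ (M := M) (r := r) (l := 1000000 * r) (by omega) (by omega)
  set P := pw a S M 21 with hP
  set P' := pw a' S' M 21 with hP'
  have i1 : ¬ IsOfFinOrder P := T.w_inf Γ (by omega) hM0
  have i2 : ¬ IsOfFinOrder P' := T'.w_inf Γ (by omega) hM0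
  obtain ⟨b, -, -, hb⟩ := Γ.exists_root i1
  obtain ⟨u, hu⟩ := hb P (Commute.refl _)
  obtain ⟨v, hv⟩ := hb P' c
  have u0 : u ≠ 0 := fun e => i1 (by rw [hu, e, zpow_zero]; exact IsOfFinOrder.one)
  have v0 : v ≠ 0 := fun e => i2 (by rw [hv, e, zpow_zero]; exact IsOfFinOrder.one)
  have pows : P ^ v.natAbs = P' ^ u.natAbs ∨ P ^ v.natAbs = P'⁻¹ ^ u.natAbs := by
    rw [hu, hv, ← zpow_neg, ← zpow_natCast, ← zpow_natCast, ← zpow_natCast, ← zpow_mul, ← zpow_mul,
      ← zpow_mul]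
    rcases Int.natAbs_eq u with e1 | e1 <;> rcases Int.natAbs_eq v with e2 | e2
    · left
      rw [← e1, ← e2, mul_comm]
    · right
      rw [← e1, show (v.natAbs : ℤ) = -v by omega, mul_comm]
    · right
      rw [← e2, show (u.natAbs : ℤ) = -u by omega]
      congr 1
      ring
    · left
      rw [show (v.natAbs : ℤ) = -v by omega, show (u.natAbs : ℤ) = -u by omega]
      congr 1
      ring
  have per1 : ∀ n, pw a S M (21 * v.natAbs * n) • o = (P ^ v.natAbs) ^ n • pw a S M 0 • o := by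
    intro n
    rw [mul_assoc, per, pow_mul]
  have t0 : (R' : ℝ) ≤ X.tau a' := T'.tau
  have hδ : (2000 : ℝ) * δ ≤ R' := by exact_mod_cast (by omega)
  have hMr : (10000000 : ℝ) * r ≤ M * R' := by exact_mod_cast (by omega)
  have r0 : (1 : ℝ) ≤ r := by
    have := T.pos
    exact_mod_cast (by omega)
  have M0 : (0 : ℝ) ≤ M := by positivity
  have lens : ∀ (y : ℕ → V) (J j0 : ℕ) (φ : ℕ → ℕ),
      (∀ i, X.d (pw a S M (J + i) • o) (y (j0 + i)) ≤ 100000 * r) →
      (∀ j, X.d (y j) (y (j + 1)) = X.d (pw a' S' M (φ j) • o') (pw a' S' M (φ j + 1) • o')) →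
      ∃ i t, J + i = 21 * t ∧ φ (j0 + i + 1) % 21 + 1 = 2 * (φ (j0 + i) % 21 + 1) := by
    intro y J j0 φ hd hy
    refine ⟨20 * J, J, by ring, ?_⟩
    have cmp : ∀ i, (M : ℝ) * ((J + i) % 21 + 1 : ℕ) * X.tau a ≤
        M * (φ (j0 + i) % 21 + 1 : ℕ) * X.tau a' + (200002 * r + 294 * δ * M) ∧
        M * (φ (j0 + i) % 21 + 1 : ℕ) * X.tau a' ≤
        (M : ℝ) * ((J + i) % 21 + 1 : ℕ) * X.tau a + (200002 * r + 294 * δ * M) := by
      intro i
      obtain ⟨a1, a2⟩ := T.len Γ M (J + i)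
      obtain ⟨a3, a4⟩ := T'.len Γ M (φ (j0 + i))
      rw [← hy] at a3 a4
      have d1 := hd i
      have d2 := hd (i + 1)
      rw [← add_assoc, ← add_assoc] at d2
      set x0 := pw a S M (J + i) • o
      set x1 := pw a S M (J + i + 1) • o
      set y0 := y (j0 + i)
      set y1 := y (j0 + i + 1)
      have := X.d_tri x0 y0 x1
      have := X.d_tri y0 y1 x1
      have := X.d_tri y0 x0 y1
      have := X.d_tri x0 x1 y1
      have := X.d_comm x0 y0
      have := X.d_comm x1 y1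
      have b1 : (X.d x0 x1 : ℝ) + R + 3 * (N * R' : ℕ) ≤ X.d y0 y1 + 200002 * r := by
        exact_mod_cast (by omega)
      have b2 : (X.d y0 y1 : ℝ) + R' + 3 * (N * R : ℕ) ≤ X.d x0 x1 + 200002 * r := by
        exact_mod_cast (by omega)
      constructor <;> linarith
    obtain ⟨a1, a2⟩ := cmp (20 * J)
    obtain ⟨a3, a4⟩ := cmp (20 * J + 1)
    rw [show (J + 20 * J) % 21 + 1 = 1 by omega] at a1 a2
    rw [show (J + (20 * J + 1)) % 21 + 1 = 2 by omega, ← add_assoc j0] at a3 a4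
    rw [Nat.cast_one, mul_one] at a1 a2
    rw [Nat.cast_two] at a3 a4
    have hm : (M : ℝ) * R' ≤ M * X.tau a' := by gcongr
    have hm2 : (M : ℝ) * (2000 * δ) ≤ M * R' := by gcongr
    exact phi_eq a1 a2 a3 a4 (by nlinarith) (by nlinarith)
  have hA : A + δ ≤ r := by omega
  rcases pows with e | e
  · obtain ⟨J, j0, hm⟩ := B.match Γ B' hA le_rfl (k := 21 * v.natAbs) (k' := 21 * u.natAbs)
      (by omega) (by omega) per1 (fun n => by rw [e, mul_assoc, per, pow_mul])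
    obtain ⟨i, t, e1, e2⟩ := lens (fun j => pw a' S' M j • o') J j0 id (fun i => (hm i).1)
      (fun j => rfl)
    obtain ⟨t', e3⟩ : ∃ t', j0 + i = 21 * t' := ⟨(j0 + i) / 21, by simp only [id] at e2; omega⟩
    refine ⟨(P ^ t)⁻¹ * P' ^ t', rigid_alg Γ.csa T.ne_one T'.ne_one (M := M) (fun u cu hu => ?_)
      T.nc _ fun j => ?_⟩
    · exact Γ.not_comm_tors (T.inf Γ) (isOfFinOrder_iff_pow_eq_one.2 ⟨M, by omega, hu⟩) cu.symm
    · have h := (hm (i + j)).2
      rw [← add_assoc, ← add_assoc, e1, e3, pw_period, pw_period] at h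
      rw [← commute_conj_iff (P ^ t)]
      have e4 : P ^ t * (pw a S M j * a * (pw a S M j)⁻¹) * (P ^ t)⁻¹ =
          P ^ t * pw a S M j * a * (P ^ t * pw a S M j)⁻¹ := by group
      have e5 : P ^ t * ((P ^ t)⁻¹ * P' ^ t' * (pw a' S' M j * a' * (pw a' S' M j)⁻¹) *
          ((P ^ t)⁻¹ * P' ^ t')⁻¹) * (P ^ t)⁻¹ =
          P' ^ t' * pw a' S' M j * a' * (P' ^ t' * pw a' S' M j)⁻¹ := by group
      rw [e4, e5]
      exact h
  · exfalso
    have sh : ∀ j, pw a' S' M (j + (20 + 1)) = P' * pw a' S' M j := fun j => by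
      rw [show j + (20 + 1) = 21 * 1 + j by ring, pw_period, pow_one]
    obtain ⟨B'', hl⟩ := B'.rev Γ.inv (k := 20) (P := P') (fun j => by rw [sh, mul_smul])
      (fun j => by rw [sh]; group)
    obtain ⟨J, j0, hm⟩ := B.match Γ B'' hA le_rfl (k := 21 * v.natAbs) (k' := 21 * u.natAbs)
      (by omega) (by omega) per1 (fun n => by
        rw [e, show 20 * (21 * u.natAbs * n) = 21 * (20 * (u.natAbs * n)) by ring, per, ← pow_mul,
          ← mul_smul, show 21 * u.natAbs * n = 20 * (u.natAbs * n) + u.natAbs * n by ring]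
        simp only [pow_zero, inv_one, one_smul, mul_zero]
        congr 1
        rw [pow_add, inv_pow, ← hP']
        group)
    obtain ⟨i, t, -, e2⟩ := lens (fun j => (P' ^ j)⁻¹ • pw a' S' M (20 * j) • o') J j0
      (fun j => 20 * (j + 1)) (fun i => (hm i).1) hl
    omega

end Dat

end geo

/-- The rigid word, given the auxiliary word. -/
theorem rigid_geom_of (α : FreeGroup (Fin 7)) (c : ℕ)
    (h0 : ∀ (H : Type) [Group H] (z : H), ev α ![1, 1, 1, 1, 1, 1, z] = 1)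
    (hα : ∀ (G V : Type) [Group G] [MulAction G V] (X : GS V) (δ A m p q : ℕ),
      Good G X δ A m p q → ∀ (S : Fin 7 → G) (o : V) (R : ℕ), Dom S →
      (∀ i, X.d o (S i • o) ≤ R) → Big X S R → c * (A + δ) ≤ R →
      (R : ℝ) ≤ X.tau (ev α S) ∧ ∀ i, ¬ Commute (ev α S) (S i)) :
    ∃ (w : FreeGroup (Fin 7)) (c : ℕ), 0 < c ∧
      (∀ (H : Type) [Group H] (z : H), ev w ![1, 1, 1, 1, 1, 1, z] = z ^ 3) ∧ WordGeo w c := by
  obtain ⟨N, hN⟩ : ∃ N, N = α.norm + 1 := ⟨_, rfl⟩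
  obtain ⟨M, hM⟩ : ∃ M, 10 ^ 12 * (N * N) ≤ M := ⟨_, le_rfl⟩
  have hNN : N ≤ N * N := Nat.le_mul_of_pos_left _ (by omega)
  have dat : ∀ (G V : Type) [Group G] [MulAction G V] (X : GS V) (δ A m p q : ℕ),
      Good G X δ A m p q → ∀ (S : Fin 7 → G) (R0 : ℕ), Dom S → Big X S R0 →
      (c + 2000) * (A + δ) ≤ R0 → ∃ o R, R0 ≤ R ∧ Dat X S (ev α S) o R N := by
    intro G V _ _ X δ A m p q Γ S R0 hS hB hR
    obtain ⟨x⟩ := Γ.ne
    obtain ⟨o, R, hub, hmin⟩ := GS.exists_min_joint (X := X) S x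
    obtain ⟨i, hi⟩ := hB o
    have h1 := hub i
    have h2 := Γ.one_le
    rw [add_mul] at hR
    obtain ⟨h3, h4⟩ := hα G V X δ A m p q Γ S o R hS hub hmin (by omega)
    refine ⟨o, R, by omega, hub, (disp_ev Γ.inv α hub).trans ?_, h3, h4, by omega, by omega⟩
    exact Nat.mul_le_mul_right _ (by omega)
  refine ⟨pw α FreeGroup.of M 21, c + 2000, by omega, fun H _ z => ?_, ?_, ?_⟩
  · rw [ev_pw, h0, pw_vanish]
  · intro G V _ _ X δ A m p q Γ S R0 hS hB hR
    obtain ⟨o, R, h1, T⟩ := dat G V X δ A m p q Γ S R0 hS hB hR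
    rw [add_mul] at hR
    rw [ev_pw]
    refine ⟨fun e => T.w_inf Γ (M := M) (by omega) (by omega) (e ▸ IsOfFinOrder.one),
      fun h h1' ch => ?_⟩
    have h2 := T.cent Γ (M := M) (by omega) (by omega) h1' ch
    have h3 : (6000 : ℝ) ≤ M := by exact_mod_cast (by omega : 6000 ≤ M)
    have h4 : (R0 : ℝ) ≤ R := by exact_mod_cast h1
    have h5 : (0 : ℝ) ≤ R0 := by positivity
    nlinarith
  · intro G V _ _ X δ A m p q Γ S S' hS hS' hB hB' hc
    obtain ⟨o, R, h1, T⟩ := dat G V X δ A m p q Γ S _ hS hB le_rfl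
    obtain ⟨o', R', h1', T'⟩ := dat G V X δ A m p q Γ S' _ hS' hB' le_rfl
    rw [add_mul] at h1 h1'
    rw [ev_pw, ev_pw] at hc
    exact T.rig Γ T' (by omega) (by omega) hM hc

end Pool.Agent.Lib.MP_e0e7d6_al
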