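import Pool.Agent.Lib.MP_e0e7d6_al.Alpha
import Pool.Agent.Lib.MP_e0e7d6_al.WordAux

/-!
Existence of the rigid word.
-/

namespace Pool.Agent.Lib.MP_e0e7d6_al

theorem rigid_geom : ∃ (w : FreeGroup (Fin 7)) (c : ℕ), 0 < c ∧
    (∀ (H : Type) [Group H] (z : H), ev w ![1, 1, 1, 1, 1, 1, z] = z ^ 3) ∧ WordGeo w c := by
  obtain ⟨α, c, h0, hα⟩ := exists_alpha
  exact rigid_geom_of α c h0 hα

end Pool.Agent.Lib.MP_e0e7d6_al
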