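import Pool.Agent.Lib.MP_e0e7d6_al.Step
import Pool.Agent.Lib.MP_e0e7d6_al.Fill
import Pool.Agent.Lib.MP_e0e7d6_al.Base
import Pool.Agent.Lib.MP_e0e7d6_al.Word
import Pool.Agent.Lib.MP_e0e7d6_al.Limit

/-!
The recursion and the choice of the constants.
-/

namespace Pool.Agent.Lib.MP_e0e7d6_al

/-- One stage of the construction. -/
structure Stage (F : Type) [Group F] (a b : F) (w : FreeGroup (Fin 7)) (L : Set Tm)
    (δ A m p q l : ℕ) : Type 1 where
  G : Type
  V : Type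
  [grp : Group G]
  [act : MulAction G V]
  X : GS V
  x : V
  π : F →* G
  surj : Function.Surjective π
  good : Good G X δ A m p q
  rigid : Rigid w p q L G
  nc : ¬ Commute (π a) (π b)
  da : X.d x (π a • x) ≤ l
  db : X.d x (π b • x) ≤ l

instance {F : Type} [Group F] {a b : F} {w : FreeGroup (Fin 7)} {L : Set Tm}
    {δ A m p q l : ℕ} (S : Stage F a b w L δ A m p q l) : Group S.G := S.grp

instance {F : Type} [Group F] {a b : F} {w : FreeGroup (Fin 7)} {L : Set Tm}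
    {δ A m p q l : ℕ} (S : Stage F a b w L δ A m p q l) : MulAction S.G S.V := S.act

/-- Displacement of the base point. -/
def Stage.dsp {F : Type} [Group F] {a b : F} {w : FreeGroup (Fin 7)} {L : Set Tm}
    {δ A m p q l : ℕ} (S : Stage F a b w L δ A m p q l) (f : F) : ℕ := S.X.d S.x (S.π f • S.x)

theorem exists_step : ∃ δ : ℕ, 1 ≤ δ ∧ ∀ (w : FreeGroup (Fin 7)) (cw : ℕ), WordGeo w cw → 0 < cw →
    ∀ l : ℕ, 1 ≤ l → ∃ σ n0 : ℕ, ∀ p q : ℕ, n0 < p → n0 < q →
    ∀ (F : Type) [Group F] (a b : F) (L : Set Tm)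
      (S : Stage F a b w L δ (cA δ 3601) (cm δ) p q l),
      ∃ S' : Stage F a b w L δ (cA δ 3601) (cm δ) p q l, (∀ f, S.π f = 1 → S'.π f = 1) ∧
        ∀ f, (S.dsp f ≤ σ → S'.π f ^ (p * q) = 1) ∧ (σ < S.dsp f → S'.dsp f < S.dsp f) := by
  obtain ⟨δ, ρ0, hδ, h0⟩ := exists_cov 3601
  refine ⟨δ, hδ, fun w cw Wg hc l hl => ?_⟩
  set σ := cA δ 3601 + 22 * δ + l + 2 with hσ
  set ρ := ρ0 + 200 * δ + 300 * ((w.norm + 1) * cD w cw δ (cA δ 3601)) with hρ
  refine ⟨σ, cm δ * σ * (21 * (50 * δ * 2 ^ ρ)), fun p q hp hq F _ a b L S => ?_⟩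
  have σ0 : 0 < σ := by omega
  have Γ := S.good.scale σ0 (by omega) (δ := 3) le_rfl
  obtain ⟨H, I, W, W', _, _, _, _, Z, Z', π, ι, r, nn, c, lev, bs, up, C, h1, h2, h3, h4⟩ :=
    h0 S.G S.V _ _ p q ρ Γ (by omega) hp hq (fun g => ∃ T, Dom T ∧ Mk w L T ∧ g = ev w T) (by
      rintro _ h ⟨T, t1, t2, rfl⟩
      refine ⟨_, t1.conj h⁻¹, t2.conj h⁻¹, ?_⟩
      rw [conj_ev, inv_inv])
  have small : ∀ g : S.G, S.X.d S.x (g • S.x) ≤ σ → Z.d (up S.x) (g • up S.x) ≤ 1 := fun g hg =>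
    (h4 g S.x).trans (GS.scale_le_iff.2 (by omega))
  have sa := small _ (S.da.trans (by omega))
  have sb := small _ (S.db.trans (by omega))
  refine ⟨{ G := H, V := W', X := Z', x := ι (up S.x), π := π.comp S.π
            surj := C.quo.surj.comp S.surj
            good := C.q_good (by omega)
            rigid := C.q_rigid Wg hc S.rigid (by omega)
              (fun i ⟨T, t1, t2, t3⟩ => h1 i ⟨_, ⟨T, t1, t2, rfl⟩, t3⟩)
              (fun i h => h2 i fun ⟨_, ⟨T, t1, t2, rfl⟩, t3⟩ => h ⟨T, t1, t2, t3⟩)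
            nc := fun cm => S.nc (C.comm_of (u := up S.x) cm (by have := h3 S.x; omega))
            da := (C.le_disp _ _).trans (by omega)
            db := (C.le_disp _ _).trans (by omega) }, fun f hf => ?_, fun f => ⟨fun hf => ?_, fun hf => ?_⟩⟩
  · show π (S.π f) = 1
    rw [hf, map_one]
  · show π (S.π f) ^ (p * q) = 1
    have t1 := GS.tau_le_disp (X := S.X.scale σ σ0) (S.π f) S.x
    have t2 : (S.X.scale σ σ0).d S.x (S.π f • S.x) ≤ 1 :=
      GS.scale_le_iff.2 (by unfold Stage.dsp at hf; omega)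
    have t3 : ((S.X.scale σ σ0).d S.x (S.π f • S.x) : ℝ) ≤ 1 := by exact_mod_cast t2
    rcases C.fin_of_tau (t1.trans t3) with e | e
    · rw [pow_mul, e, one_pow]
    · rw [mul_comm, pow_mul, e, one_pow]
  · show Z'.d (ι (up S.x)) (π (S.π f) • ι (up S.x)) < S.X.d S.x (S.π f • S.x)
    have a1 := (C.le_disp (up S.x) (S.π f)).trans (h4 _ _)
    have a2 := GS.mul_scale_le (X := S.X) (hM := σ0) S.x (S.π f • S.x)
    have a3 : 2 * (S.X.scale σ σ0).d S.x (S.π f • S.x) ≤ σ * (S.X.scale σ σ0).d S.x (S.π f • S.x) :=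
      Nat.mul_le_mul_right _ (by omega)
    unfold Stage.dsp at hf
    omega

theorem monsters : Monsters := by
  obtain ⟨δ, hδ, h0⟩ := exists_step
  obtain ⟨w, cw, hc, hv, Wg⟩ := rigid_geom
  set l := 40 * δ + 1 + cw * (cA δ 3601 + δ) with hl
  obtain ⟨σ, n0, h1⟩ := h0 w cw Wg hc l (by omega)
  have hp : n0 < 5 ^ n0 := Nat.lt_pow_self (by omega)
  have hq : n0 < 7 ^ n0 := Nat.lt_pow_self (by omega)
  refine ⟨w, 5 ^ n0, 7 ^ n0, by positivity, by positivity,
    Nat.Coprime.pow _ _ (by norm_num), Nat.Coprime.mul_right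
      (Nat.Coprime.pow_right _ (by norm_num)) (Nat.Coprime.pow_right _ (by norm_num)), hv,
    fun L => ?_⟩
  obtain ⟨F, V, _, _, X, a, b, x, hcl, hab, da, db, hfree, hgood⟩ := exists_base l (by omega)
  have cm1 : 1 ≤ cm δ := by
    unfold cm
    exact Nat.succ_le_of_lt (by positivity)
  have Γ := hgood δ (cA δ 3601) (cm δ) (5 ^ n0) (7 ^ n0) hδ (by omega) cm1
    (Odd.pow (by decide)) (Odd.pow (by decide))
  let S0 : Stage F a b w L δ (cA δ 3601) (cm δ) (5 ^ n0) (7 ^ n0) l :=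
    { G := F, V := V, X := X, x := x, π := MonoidHom.id F
      surj := Function.surjective_id
      good := Γ
      rigid := Wg.rigid_of_big hc Γ (fun S hd o => ⟨0, le_trans (by omega) (hfree _ (hd.2 0) o)⟩) L
      nc := hab
      da := da
      db := db }
  choose nx n1 n2 using h1 _ _ hp hq F a b L
  let St : ℕ → Stage F a b w L δ (cA δ 3601) (cm δ) (5 ^ n0) (7 ^ n0) l := fun k => nx^[k] S0
  have e : ∀ k, St (k + 1) = nx (St k) := fun k => Function.iterate_succ_apply' _ _ _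
  have hF : Group.FG F := (Group.fg_iff).2 ⟨{a, b}, hcl, Set.toFinite _⟩
  refine limit_monster w _ _ L hF a b (fun k => (St k).G) (fun k => (St k).π)
    (fun k => (St k).surj) (fun k f hf => ?_) (fun k => (St k).good.csa) (fun k => (St k).rigid)
    (fun k => (St k).nc) fun f => ?_
  · have : ∀ S', S' = nx (St k) → S'.π f = 1 := by
      rintro _ rfl
      exact n1 _ f hf
    exact this _ (e k)
  · have key : ∀ n k, (St k).dsp f ≤ n → ∃ k, (St k).π f ^ (5 ^ n0 * 7 ^ n0) = 1 := by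
      intro n
      induction n using Nat.strong_induction_on with
      | _ n ih =>
      intro k hk
      by_cases hs : (St k).dsp f ≤ σ
      · have : ∀ S', S' = nx (St k) → S'.π f ^ (5 ^ n0 * 7 ^ n0) = 1 := by
          rintro _ rfl
          exact (n2 _ f).1 hs
        exact ⟨k + 1, this _ (e k)⟩
      · have := (n2 _ f).2 (not_le.1 hs)
        rw [← e] at this
        exact ih _ (by omega) (k + 1) le_rfl
    exact key _ 0 le_rfl

end Pool.Agent.Lib.MP_e0e7d6_al
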