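import Pool.Agent.Lib.MP_e0e7d6_al.Main
import Pool.Agent.Lib.MP_e0e7d6_al.Reduce

/-!
One finitely based variety whose noncommutative members have no effective description.
-/

namespace Pool.Agent.Lib.MP_e0e7d6_al.NW

open Pool.Agent.Lib.MP_e0e7d6_al Turing.ToPartrec

def pNum (t : Pat) : Pat := .node (pnum 3) t
def tNum (t : Tm) : Tm := .node (num 3) t
def pGoal : Pat := .node (pnum 4) .leaf
def atom (c : Code) (b : ℕ) : Pat := pEv (encC c).toPat (.node (.var 0) .leaf) (encL [b]).toPat

/-- The program, a numeral guard, and a rule that fires when two outputs are accepted. -/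
def progW (c : Code) : List (Pat × List Pat) :=
  prog ++ [(pNum .leaf, []), (pNum (.node .leaf (.var 0)), [pNum (.var 0)]),
    (pGoal, [pNum (.var 0), atom c 0, atom c 1])]

theorem atom_inst (c : Code) (b n : ℕ) {σ : ℕ → Tm} (h : σ 0 = num n) :
    (atom c b).inst σ = tEv (encC c) (encL [n]) (encL [b]) := by
  simp only [atom, pEv, Pat.inst, inst_toPat, h]
  rfl

theorem progW_range (c : Code) : ∀ d ∈ progW c, ∀ j, d.1.occ j → ∃ B ∈ d.2, B.occ j := by
  intro d hd j
  rcases List.mem_append.mp hd with hd | hd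
  · exact prog_range d hd j
  · simp only [List.mem_cons, List.not_mem_nil, or_false] at hd
    rcases hd with rfl | rfl | rfl <;> simp [pNum, pGoal, pnum, Pat.occ]

theorem prog_prem : ∀ d ∈ prog, ∀ B ∈ d.2, ∀ σ t, B.inst σ ≠ tNum t := by
  intro d hd
  simp only [prog, List.mem_cons, List.not_mem_nil, or_false] at hd
  rcases hd with rfl | rfl | rfl | rfl | rfl | rfl | rfl | rfl | rfl | rfl | rfl | rfl | rfl <;>
    simp [pAny, pHT, pEv, pnum, Pat.inst, tNum, num]

theorem der_tag {τ : Tm} (h : Der prog τ) (k : ℕ) (t : Tm) : τ ≠ .node (num (k + 3)) t := by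
  cases h with
  | rule d hd σ _ =>
    simp only [prog, List.mem_cons, List.not_mem_nil, or_false] at hd
    rcases hd with rfl | rfl | rfl | rfl | rfl | rfl | rfl | rfl | rfl | rfl | rfl | rfl | rfl <;>
      simp [pAny, pHT, pEv, pnum, Pat.inst, num]

theorem der_progW {c : Code} {τ : Tm} (h : Der (progW c) τ) :
    Der prog τ ∨ ∃ n, τ = tNum (num n) := by
  induction h with
  | rule d hd σ _ ih =>
    rcases List.mem_append.mp hd with hd | hd
    · exact Or.inl (Der.rule d hd σ fun B hB =>
        (ih B hB).resolve_right fun ⟨_, e⟩ => prog_prem d hd B hB σ _ e)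
    · have hnum : ∀ t, (Der prog (tNum t) ∨ ∃ n, tNum t = tNum (num n)) → ∃ n, t = num n := by
        rintro t (h | ⟨n, e⟩)
        · exact absurd rfl (der_tag h 0 t)
        · exact ⟨n, by simpa [tNum] using e⟩
      simp only [List.mem_cons, List.not_mem_nil, or_false] at hd
      rcases hd with rfl | rfl | rfl
      · exact Or.inr ⟨0, rfl⟩
      · obtain ⟨n, e⟩ := hnum (σ 0) (ih _ List.mem_cons_self)
        exact Or.inr ⟨n + 1, by simp only [pNum, Pat.inst, e]; rfl⟩
      · obtain ⟨n, e⟩ := hnum (σ 0) (ih _ List.mem_cons_self)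
        have key : ∀ b, atom c b ∈ [pNum (.var 0), atom c 0, atom c 1] →
            ∃ r, encL [b] = encL r ∧ r ∈ c.eval [n] := by
          intro b hb
          have := ih _ hb
          rw [atom_inst c b n e] at this
          rcases this with h | ⟨m, h⟩
          · exact (der_sound h).2 c [n] _ rfl
          · simp [tEv, tNum, num] at h
        obtain ⟨r, e0, h0⟩ := key 0 (by simp)
        obtain ⟨s, e1, h1⟩ := key 1 (by simp)
        rw [Part.mem_unique h0 h1, ← e1] at e0
        simp [encL, num] at e0

theorem progW_leaf (c : Code) : ¬ Der (progW c) .leaf := fun h =>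
  (der_progW h).elim prog_leaf fun ⟨_, e⟩ => by simp [tNum] at e

theorem progW_goal (c : Code) (σ : ℕ → Tm) : ¬ Der (progW c) (pGoal.inst σ) := fun h =>
  (der_progW h).elim (fun h => der_tag h 1 .leaf rfl) fun ⟨_, e⟩ => by
    simp [tNum, pGoal, pnum, Pat.inst, num] at e

section group

variable {H : Type} [Group H] {w : FreeGroup (Fin 7)} {p q : ℕ}

/-- Ground atoms accepted by the pair `x, y`. -/
def Acc (w : FreeGroup (Fin 7)) (p : ℕ) (x y : H) (τ : Tm) : Prop :=
  WW w x y (vl w x y τ) 1 ^ p = 1

theorem acc_rule {P : List (Pat × List Pat)} {g : Pat} {t : Tm} (hL : Laws H w p q P g t)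
    (x y : H) {d : Pat × List Pat} (hd : d ∈ P) (σ : ℕ → Tm)
    (h : ∀ B ∈ d.2, Acc w p x y (B.inst σ)) : Acc w p x y (d.1.inst σ) := by
  have h1 : ∀ l : List Pat, (∀ B ∈ l, Acc w p x y (B.inst σ)) →
      Phi w p x y (fun i => vl w x y (σ i)) l = 1 := by
    intro l
    induction l with
    | nil => intro _; rfl
    | cons B r ihr =>
      intro h
      rw [Phi, ihr fun B hB => h B (List.mem_cons_of_mem _ hB), FF, pv_vl,
        h B List.mem_cons_self, mul_inv_cancel]
  have := hL.1 x y (fun i => vl w x y (σ i)) d hd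
  rwa [lawC, h1 _ h, pv_vl] at this

theorem comm_of_acc (hpq : Nat.Coprime p q) (h3 : Nat.Coprime 3 (p * q))
    (hvan : ∀ c : H, ev w ![1, 1, 1, 1, 1, 1, c] = c ^ 3) (hN : ∀ g : H, g ^ (p * q) = 1)
    {P : List (Pat × List Pat)} {g : Pat} {t : Tm} (hL : Laws H w p q P g t)
    {σ : ℕ → Tm} (h0 : σ 0 = t) {x y : H} (hd : Acc w p x y (g.inst σ)) : Commute x y := by
  have hF : FF w p x y (fun i => vl w x y (σ i)) g = 1 := by rw [FF, pv_vl, hd]
  obtain ⟨e1, e2⟩ := hL.2 x y (fun i => vl w x y (σ i)) (by rw [← h0])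
  simp only [lawG, hF, mul_one, inv_mul_cancel, tup_one, hvan] at e1 e2
  have e3 : cc x y ^ 3 = 1 := by
    have := pow_gcd_eq_one.mpr ⟨e1, e2⟩
    rwa [hpq, pow_one] at this
  have e4 : cc x y = 1 := by
    have := pow_gcd_eq_one.mpr ⟨e3, hN _⟩
    rwa [h3, pow_one] at this
  by_contra h
  exact commutator_ne_one h e4

theorem acc_of_der {c : Code} {g : Pat} {t : Tm} (hL : Laws H w p q (progW c) g t) (x y : H)
    {τ : Tm} (h : Der prog τ) : Acc w p x y τ := by
  induction h with
  | rule d hd σ _ ih => exact acc_rule hL x y (List.mem_append_left _ hd) σ ih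

theorem acc_num {c : Code} {g : Pat} {t : Tm} (hL : Laws H w p q (progW c) g t) (x y : H)
    (n : ℕ) : Acc w p x y (tNum (num n)) := by
  induction n with
  | zero =>
    exact acc_rule hL x y (d := (pNum .leaf, [])) (by simp [progW]) (fun _ => .leaf) (by simp)
  | succ n ih =>
    exact acc_rule hL x y (d := (pNum (.node .leaf (.var 0)), [pNum (.var 0)])) (by simp [progW])
      (fun _ => num n) (List.forall_mem_singleton.mpr ih)

theorem acc_goal {c : Code} {g : Pat} {t : Tm} (hL : Laws H w p q (progW c) g t) (x y : H)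
    (n : ℕ) (h0 : Acc w p x y (tEv (encC c) (encL [n]) (encL [0])))
    (h1 : Acc w p x y (tEv (encC c) (encL [n]) (encL [1]))) (σ : ℕ → Tm) :
    Acc w p x y (pGoal.inst σ) := by
  refine acc_rule hL x y (d := (pGoal, [pNum (.var 0), atom c 0, atom c 1])) (by simp [progW])
    (fun _ => num n) ?_
  simp only [List.forall_mem_cons, atom_inst c _ n (σ := fun _ => num n) rfl]
  exact ⟨acc_num hL x y n, h0, h1, by simp⟩

end group

/-- Two disjoint sets with enumerable complements cannot cover the two diagonal sets. -/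
theorem diag (C : ℕ → ℕ → Prop)
    (h : ∀ b n, b ∈ (Denumerable.ofNat Nat.Partrec.Code n).eval n → C b n)
    (hd : ∀ n, C 0 n → ¬ C 1 n) (r : ∀ b, REPred fun n => ¬ C b n) : False := by
  have pr : ∀ b : ℕ, Partrec fun n => (Part.assert (¬ C b n) fun _ => Part.some ()).map
      fun _ => b := fun b => (r b).map (Computable.const b).to₂
  obtain ⟨k, hk, K⟩ := Partrec.merge' (pr 0) (pr 1)
  obtain ⟨c, hc⟩ := Nat.Partrec.Code.exists_code.mp (Partrec.nat_iff.mp hk)
  have dom : (k (Encodable.encode c)).Dom := by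
    rw [(K _).2]
    by_cases h0 : C 0 (Encodable.encode c)
    · exact Or.inr ⟨hd _ h0, trivial⟩
    · exact Or.inl ⟨h0, trivial⟩
  obtain ⟨a, ha⟩ := Part.dom_iff_mem.mp dom
  have hC : C a (Encodable.encode c) := h _ _ (by rw [Denumerable.ofNat_encode, hc]; exact ha)
  rcases (K _).1 a ha with h' | h'
  all_goals
    obtain ⟨_, h1, rfl⟩ := (Part.mem_map_iff _).mp h'
    exact (Part.mem_assert_iff.mp h1).1 hC

theorem no_witness : ∃ E : List (Word × Word), HasInfinitePeriodic E ∧
    ∀ (S : Type) [Semigroup S], Satisfies S E → ∀ φ : ℕ → S,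
      Subsemigroup.closure (Set.range φ) = ⊤ →
      (REPred fun e : Word × Word => Word.value φ e.1 ≠ Word.value φ e.2) →
      (∀ x y : S, x * y = y * x) ∧ ((Set.range φ).Finite → Finite S) := by
  obtain ⟨w, p, q, hp, hq, hpq, h3, hvan, hM⟩ := monsters
  have hf : Partrec fun n : ℕ => (Denumerable.ofNat Nat.Partrec.Code n).eval n :=
    Nat.Partrec.Code.eval_part.comp (Computable.ofNat _) Computable.id
  obtain ⟨c, hc⟩ := Code.exists_code (Nat.Partrec'.part_iff₁.mpr hf)
  have h0 : 0 < p * q := Nat.mul_pos hp hq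
  choose pos hpos using exists_pos h0
  let X : FreeGroup ℕ := FreeGroup.of 0
  let Y : FreeGroup ℕ := FreeGroup.of 1
  let Z : ℕ → FreeGroup ℕ := fun i => FreeGroup.of (i + 2)
  let u : ℕ → List ℕ := fun n => Nat.rec [] (fun _ v => subst (pos (WW w X Y 1 (Z 0))) v) n
  let E₀ : List (Word × Word) := (progW c).map fun d => law (pos (lawC w p X Y Z d))
  let E₁ : List (Word × Word) :=
    [law (subst (pos (lawG w p X Y Z pGoal true p)) []),
      law (subst (pos (lawG w p X Y Z pGoal false q)) [])]
  have hu : ∀ (H : Type) [Group H], (∀ h : H, h ^ (p * q) = 1) → ∀ (φ : ℕ → H) (n : ℕ),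
      ((u n).map φ).prod = vl w (φ 0) (φ 1) (num n) := by
    intro H _ hN φ n
    induction n with
    | zero => rfl
    | succ n ih =>
      change ((subst _ (u n)).map φ).prod = _
      rw [prod_subst, hpos _ H hN, map_WW, ih, map_one]
      simp only [X, Y, Z, FreeGroup.lift_apply_of]
      rfl
  have hlaws : ∀ (H : Type) [Group H], (∀ h : H, h ^ (p * q) = 1) →
      (Satisfies H (E₀ ++ E₁) ↔ Laws H w p q (progW c) pGoal .leaf) := by
    intro H _ hN
    rw [satisfies_append]
    refine and_congr ?_ ?_
    · simp only [Satisfies, E₀, List.forall_mem_map, law_iff, hpos _ H hN, map_lawC, X, Y, Z,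
        FreeGroup.lift_apply_of]
      exact ⟨fun h x y z c hc => h c hc (fun i => match i with | 0 => x | 1 => y | i + 2 => z i),
        fun h c hc φ => h _ _ _ c hc⟩
    · simp only [Satisfies, E₁, List.forall_mem_cons, law_iff, prod_subst, hpos _ H hN, map_lawG,
        X, Y, Z, FreeGroup.lift_apply_of, List.not_mem_nil, IsEmpty.forall_iff,
        implies_true, and_true, ← forall_and, List.map_nil, List.prod_nil]
      refine ⟨fun h x y z hz => ?_, fun h φ => h _ _ _ rfl⟩
      have := h (fun i => match i with | 0 => x | 1 => y | i + 2 => z i)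
      rw [vl_leaf] at hz
      rw [Function.update_eq_self_iff.mpr hz.symm] at this
      exact this
  refine ⟨expo (p * q) ++ (E₀ ++ E₁), ?_, fun S inst hS φ hφ hre => ?_⟩
  · obtain ⟨G, inst, hfg, C, hN, ⟨x, y, hxy⟩, R⟩ := hM {t | Der (progW c) t}
    exact has_of_group h0 hN hfg (Infinite.of_injective _ ((vl_inj C R hxy).comp num_injective))
      (satisfies_append.mpr ⟨satisfies_expo h0 hN, (hlaws G hN).mpr
        (laws_of_not_der C R hpq h0 (hvan G) hN (progW_range c) (progW_leaf c)
          fun ⟨σ, _, h⟩ => progW_goal c σ h)⟩)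
  have : Nonempty S := ⟨φ 0⟩
  rw [satisfies_append] at hS
  obtain ⟨G, rfl, hN⟩ := exists_group h0 hS.1
  have hL := (hlaws S hN).mp hS.2
  have gen : ∀ i j, Commute (φ i) (φ j) := by
    intro i j
    by_contra hij
    let ψ : ℕ → ℕ := fun k => if k = 0 then i else j
    refine diag (fun b n => Acc w p (φ i) (φ j) (tEv (encC c) (encL [n]) (encL [b])))
      (fun b n hb => acc_of_der hL _ _ (der_ev c _ _ ?_))
      (fun n a0 a1 => hij (comm_of_acc hpq h3 (hvan S) hN hL (σ := fun _ => .leaf) rfl
        (acc_goal hL _ _ n a0 a1 _))) fun b => ?_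
    · have e : c.eval [n] = pure <$> (Denumerable.ofNat Nat.Partrec.Code n).eval n := hc ⟨[n], rfl⟩
      rw [e]
      exact Part.mem_map _ hb
    · have hu' : Primrec u := Primrec.nat_rec₁ [] ((primrec_subst _).comp Primrec.snd).to₂
      have hlaw : Primrec law := ((Primrec.const 0).pair Primrec.id).pair (Primrec.const (0, []))
      have hψ : Primrec ψ := Primrec.ite (Primrec.eq.comp Primrec.id (Primrec.const 0))
        (Primrec.const i) (Primrec.const j)
      have hm : Primrec fun n => law ((subst (pos (FF w p X Y Z (atom c b))) (u n)).map ψ) :=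
        hlaw.comp (Primrec.list_map ((primrec_subst _).comp hu') (hψ.comp Primrec.snd).to₂)
      have hre' : REPred fun n => Word.value φ
          (law ((subst (pos (FF w p X Y Z (atom c b))) (u n)).map ψ)).1 ≠ Word.value φ
          (law ((subst (pos (FF w p X Y Z (atom c b))) (u n)).map ψ)).2 := by
        unfold REPred at hre ⊢
        exact hre.comp hm.to_comp
      refine hre'.of_eq fun n => not_congr ?_
      rw [law_iff, List.map_map, prod_subst, hu S hN, hpos _ S hN, map_FF, Acc,
        ← atom_inst c b n (σ := fun _ => num n) rfl, ← pv_vl, FF]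
      simp only [X, Y, Z, FreeGroup.lift_apply_of]
      rw [pv_of_occ (σ := fun _ => num n), pv_vl]
      · rfl
      · intro k hk
        have : k = 0 := by
          have nv : ∀ t : Tm, ¬ t.toPat.occ k := by
            intro t
            induction t with
            | leaf => exact fun h => h
            | node s t ihs iht => exact fun h => h.elim ihs iht
          simp only [atom, pEv, pnum, Pat.occ, nv, or_false, false_or] at hk
          exact hk.symm
        subst this
        rfl
  have all : ∀ x y : S, Commute x y := by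
    have step : ∀ z : S, (∀ i, Commute (φ i) z) → ∀ x, Commute x z := by
      intro z hz x
      have hx : x ∈ Subsemigroup.closure (Set.range φ) := hφ ▸ Subsemigroup.mem_top x
      induction hx using Subsemigroup.closure_induction with
      | mem x hx => obtain ⟨i, rfl⟩ := hx; exact hz i
      | mul a b _ _ ha hb => exact ha.mul_left hb
    exact fun x y => step y (fun i => (step (φ i) (fun j => gen j i) y).symm) x
  exact ⟨fun x y => (all x y).eq, fun hfin =>
    finite_of_comm h0 hN all hfin.toFinset (by rw [hfin.coe_toFinset]; exact hφ)⟩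

end Pool.Agent.Lib.MP_e0e7d6_al.NW
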