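import Pool.Agent.Lib.MP_e0e7d6_al.Lift

/-!
Rigidity of the word is preserved by one step of the construction.
-/

set_option linter.unusedSectionVars false

namespace Pool.Agent.Lib.MP_e0e7d6_al

section alg

variable {G H : Type} [Group G] [Group H]

theorem conj_ev (w : FreeGroup (Fin 7)) (S : Fin 7 → G) (h : G) :
    ev w (fun i => h⁻¹ * S i * h) = h⁻¹ * ev w S * h := by
  have := map_ev (MulAut.conj h⁻¹).toMonoidHom w S
  simpa using this.symm

theorem conj_val (w : FreeGroup (Fin 7)) (a b h : G) (t : Tm) :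
    val w (h⁻¹ * a * h) (h⁻¹ * b * h) t = h⁻¹ * val w a b t * h := by
  have := map_val (MulAut.conj h⁻¹).toMonoidHom w a b t
  simpa using this.symm

theorem Mk.map_of {w : FreeGroup (Fin 7)} {L : Set Tm} {S : Fin 7 → G} (f : G →* H)
    (h1 : f (S 4) = f (S 0) → S 4 = S 0) (h2 : f (S 5) = f (S 1) → S 5 = S 1) (h : Mk w L S) :
    Mk w L fun i => f (S i) := by
  rcases h with (h | h) | ⟨t, ht, e1, e2⟩
  · exact Or.inl (Or.inl fun e => h (h1 e))
  · exact Or.inl (Or.inr fun e => h (h2 e))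
  · refine Or.inr ⟨t, ht, ?_, ?_⟩
    · show f (S 2) = _
      rw [e1, ← map_val]
      simp
    · show f (S 3) = _
      rw [e2, ← map_val]
      simp

theorem Mk.conj {w : FreeGroup (Fin 7)} {L : Set Tm} {S : Fin 7 → G} (hm : Mk w L S) (h : G) :
    Mk w L fun i => h⁻¹ * S i * h := by
  have := hm.map_of (MulAut.conj h⁻¹).toMonoidHom (fun e => (MulAut.conj h⁻¹).injective e)
    (fun e => (MulAut.conj h⁻¹).injective e)
  simpa using this

theorem Dom.conj {S : Fin 7 → G} (hd : Dom S) (h : G) : Dom fun i => h⁻¹ * S i * h := by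
  refine ⟨fun c => hd.1 ?_, fun i e => hd.2 i ?_⟩
  · have := c.map (MulAut.conj h)
    simpa [mul_assoc] using this
  · calc S i = h * (h⁻¹ * S i * h) * h⁻¹ := by group
      _ = 1 := by
        have e' : h⁻¹ * S i * h = 1 := e
        rw [e']
        group

theorem Dom.of_map {S : Fin 7 → G} (f : G →* H) (hd : Dom fun i => f (S i)) : Dom S :=
  ⟨fun c => hd.1 (c.map f), fun i e => hd.2 i (by show f (S i) = 1; rw [e, map_one])⟩

end alg

section big

variable {G V : Type} [Group G] [MulAction G V] {X : GS V} {δ A m p q cw : ℕ}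
  {w : FreeGroup (Fin 7)}

theorem Big.mono {S : Fin 7 → G} {R R' : ℕ} (h : Big X S R) (hR : R' ≤ R) : Big X S R' :=
  fun o => (h o).imp fun _ hi => hR.trans hi

theorem WordGeo.nc (Wg : WordGeo w cw) (hc : 0 < cw) (Γ : Good G X δ A m p q) {S : Fin 7 → G}
    (hd : Dom S) (hb : Big X S (cw * (A + δ))) : ¬ Commute (S 0) (ev w S) := by
  intro cm
  obtain ⟨x⟩ := Γ.ne
  obtain ⟨o, R, hub, hmin⟩ := GS.exists_min_joint (X := X) S x
  obtain ⟨i, hi⟩ := hb o
  have h1 := hub i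
  have h2 := (Wg.cent G V X δ A m p q Γ S R hd hmin (by omega)).2 (S 0) (hd.2 0) cm
  have h3 := GS.tau_le_disp (X := X) (S 0) o
  have h4 : (X.d o (S 0 • o) : ℝ) ≤ R := by exact_mod_cast hub 0
  have h5 : 0 < cw * (A + δ) := Nat.mul_pos hc (by have := Γ.one_le; omega)
  have h6 : (0 : ℝ) < R := by exact_mod_cast (by omega : 0 < R)
  linarith

theorem WordGeo.inf (Wg : WordGeo w cw) (hc : 0 < cw) (Γ : Good G X δ A m p q) {S : Fin 7 → G}
    (hd : Dom S) (hb : Big X S (cw * (A + δ))) : ¬ IsOfFinOrder (ev w S) := by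
  obtain ⟨h1, h2⟩ := Wg.cent G V X δ A m p q Γ S _ hd hb le_rfl
  have h3 := h2 _ h1 (Commute.refl _)
  have h5 : 0 < cw * (A + δ) := Nat.mul_pos hc (by have := Γ.one_le; omega)
  have h6 : (0 : ℝ) < (cw * (A + δ) : ℕ) := by exact_mod_cast h5
  exact Γ.not_finOrder_of_tau (by linarith)

theorem WordGeo.rigid_of_big (Wg : WordGeo w cw) (hc : 0 < cw) (Γ : Good G X δ A m p q)
    (hb : ∀ S : Fin 7 → G, Dom S → Big X S (cw * (A + δ))) (L : Set Tm) : Rigid w p q L G where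
  nc := fun S hd => Wg.nc hc Γ hd (hb S hd)
  rig := fun S S' hd hd' => Wg.rig G V X δ A m p q Γ S S' hd hd' (hb S hd) (hb S' hd')
  marked := fun S hd hf => (Wg.inf hc Γ hd (hb S hd) hf).elim
  unmarked := fun S hd hf => (Wg.inf hc Γ hd (hb S hd) hf).elim

end big

/-- The scale below which tuples are lifted. -/
def cD (w : FreeGroup (Fin 7)) (cw δ A : ℕ) : ℕ := (w.norm + 1) * (cw * (A + δ)) + A + 22 * δ

namespace Cov

variable {G H V I W W' : Type} [Group G] [Group H] [MulAction G V] [MulAction G I]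
  [MulAction G W] [MulAction H W'] {X : GS V} {Z : GS W} {Z' : GS W'} {π : G →* H} {ι : W → W'}
  {r : I → G} {nn : I → ℕ} {c : I → W} {lev : W → ℕ} {bs : W → V} {δ A m p q ρ : ℕ}
  (C : Cov X Z Z' π ι r nn c lev bs δ A m p q ρ)
include C

theorem lift_tuple {S : Fin 7 → H} (hd : Dom S) {D : ℕ} (hb : ¬ Big Z' S D) :
    ∃ (o : W) (T : Fin 7 → G), S = (fun i => π (T i)) ∧ (∀ i, Z.d o (T i • o) ≤ D) ∧ Dom T ∧
      lev o ≤ D := by
  unfold Big at hb
  push Not at hb
  obtain ⟨o', ho⟩ := hb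
  obtain ⟨o, rfl⟩ := C.quo.onto o'
  choose T h1 h2 using fun i => C.exists_lift o (S i)
  have e : S = fun i => π (T i) := funext fun i => (h1 i).symm
  have hT : Dom T := Dom.of_map π (e ▸ hd)
  have h3 : ∀ i, Z.d o (T i • o) < D := fun i => (h2 i) ▸ ho i
  refine ⟨o, T, e, fun i => (h3 i).le, hT, ?_⟩
  by_contra hl
  obtain ⟨j, -, hj⟩ := C.deep o (by omega)
  exact hT.1 (C.fix_comm (hj _ (by have := h3 0; omega)) (hj _ (by have := h3 1; omega)))

variable {w : FreeGroup (Fin 7)} {cw : ℕ} {L : Set Tm} (Wg : WordGeo w cw) (hc : 0 < cw)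
  (Rg : Rigid w p q L G) (hρ : 300 * ((w.norm + 1) * cD w cw δ (cA δ A)) ≤ ρ)
include Wg hc Rg hρ

omit C Wg hc Rg in
theorem consts : cw * (cA δ A + δ) ≤ cD w cw δ (cA δ A) ∧
    w.norm * (cw * (cA δ A + δ)) ≤ cD w cw δ (cA δ A) ∧
    cA δ A + 22 * δ ≤ cD w cw δ (cA δ A) ∧
    300 * (w.norm * cD w cw δ (cA δ A)) + 300 * cD w cw δ (cA δ A) ≤ ρ := by
  refine ⟨?_, ?_, ?_, ?_⟩
  · unfold cD
    rw [Nat.succ_mul]
    omega
  · unfold cD
    rw [Nat.succ_mul]
    omega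
  · unfold cD
    omega
  · rw [add_mul, one_mul] at hρ
    omega

theorem q_nc (S : Fin 7 → H) (hd : Dom S) : ¬ Commute (S 0) (ev w S) := by
  obtain ⟨k1, k2, k3, k4⟩ := consts hρ
  have Γ := C.q_good (by omega)
  by_cases hb : Big Z' S (cw * (cA δ A + δ))
  · exact Wg.nc hc Γ hd hb
  obtain ⟨o, T, rfl, h1, hT, hl⟩ := C.lift_tuple hd hb
  intro cm
  rw [← map_ev] at cm
  have := disp_ev C.inv w h1
  have := h1 0
  exact Rg.nc T hT (C.comm_of (u := o) cm (by omega))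

theorem q_ne (S : Fin 7 → H) (hd : Dom S) : ev w S ≠ 1 := fun e =>
  C.q_nc Wg hc Rg hρ S hd (e ▸ Commute.one_right _)

theorem q_rig (S S' : Fin 7 → H) (hd : Dom S) (hd' : Dom S') (cm : Commute (ev w S) (ev w S')) :
    ∃ h : H, ∀ i, S' i = h⁻¹ * S i * h := by
  obtain ⟨k1, k2, k3, k4⟩ := consts hρ
  have Γ := C.q_good (by omega)
  have key : ∀ S S' : Fin 7 → H, Dom S → Dom S' → Commute (ev w S) (ev w S') →
      ¬ Big Z' S (cw * (cA δ A + δ)) → ¬ Big Z' S' (cD w cw δ (cA δ A)) := by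
    intro S S' hd hd' cm hb hb'
    have h1 := (Wg.cent H W' Z' _ _ _ p q Γ S' _ hd' hb' k1).2 _ (C.q_ne Wg hc Rg hρ S hd) cm
    unfold Big at hb
    push Not at hb
    obtain ⟨o, ho⟩ := hb
    have h2 := disp_ev C.quo.inv w fun i => (ho i).le
    have h3 := GS.tau_le_disp (X := Z') (ev w S) o
    have h4 : (Z'.d o (ev w S • o) : ℝ) ≤ cD w cw δ (cA δ A) := by exact_mod_cast h2.trans k2
    have h5 : (0 : ℝ) < cD w cw δ (cA δ A) := by
      have := C.one_le
      exact_mod_cast (by omega : 0 < cD w cw δ (cA δ A))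
    linarith
  by_cases hb : Big Z' S (cw * (cA δ A + δ)) ∧ Big Z' S' (cw * (cA δ A + δ))
  · exact Wg.rig H W' Z' _ _ _ p q Γ S S' hd hd' hb.1 hb.2 cm
  have hs : ¬ Big Z' S (cD w cw δ (cA δ A)) ∧ ¬ Big Z' S' (cD w cw δ (cA δ A)) := by
    rcases not_and_or.1 hb with h | h
    · exact ⟨fun h' => h (h'.mono k1), key S S' hd hd' cm h⟩
    · exact ⟨key S' S hd' hd cm.symm h, fun h' => h (h'.mono k1)⟩
  have n1 := C.q_ne Wg hc Rg hρ S hd
  have n2 := C.q_ne Wg hc Rg hρ S' hd'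
  obtain ⟨o, T, rfl, h1, hT, -⟩ := C.lift_tuple hd hs.1
  obtain ⟨o', T', rfl, h1', hT', -⟩ := C.lift_tuple hd' hs.2
  rw [← map_ev] at cm n1 n2
  rw [← map_ev] at cm
  obtain ⟨n, hn, cm'⟩ := C.comm_lift (D := w.norm * cD w cw δ (cA δ A)) (by omega) n1 n2 cm
    (disp_ev C.inv w h1) (disp_ev C.inv w h1')
  have e := conj_ev w T' n⁻¹
  rw [inv_inv] at e
  obtain ⟨h, hh⟩ := Rg.rig T (fun i => n⁻¹⁻¹ * T' i * n⁻¹) hT (hT'.conj n⁻¹)
    (by rw [inv_inv, e]; exact cm')
  refine ⟨π h, fun i => ?_⟩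
  have := congrArg π (hh i)
  simpa [hn] using this

/-- Values of ground terms which are short in the quotient are short. -/
theorem val_small {a b : G} {o : W} (hab : ¬ Commute (π a) (π b))
    (ha : Z.d o (a • o) ≤ cD w cw δ (cA δ A)) (hb : Z.d o (b • o) ≤ cD w cw δ (cA δ A))
    (hl : lev o ≤ cD w cw δ (cA δ A)) (t : Tm) :
    Z'.d (ι o) (π (val w a b t) • ι o) ≤ 62 * cD w cw δ (cA δ A) →
      Z.d o (val w a b t • o) ≤ 62 * cD w cw δ (cA δ A) := by
  obtain ⟨k1, k2, k3, k4⟩ := consts hρ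
  have Γ := C.q_good (by omega)
  set D := cD w cw δ (cA δ A) with hD
  have ha' := (C.le_disp o a).trans ha
  have hb' := (C.le_disp o b).trans hb
  induction t with
  | leaf =>
    intro _
    rw [val, one_smul, Z.d_self]
    omega
  | node s s' ih ih' =>
    intro hv
    have a1 : π a ≠ 1 := fun e => hab (e ▸ Commute.one_left _)
    have hdom := dom_tup hab a1 (π (val w a b s)) (π (val w a b s'))
    have ev' : π (val w a b (s.node s')) =
        ev w (tup (π a) (π b) (π (val w a b s)) (π (val w a b s')) (π a)) := by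
      rw [val, map_ev, map_tup]
    have nb : ¬ Big Z' (tup (π a) (π b) (π (val w a b s)) (π (val w a b s')) (π a)) D := by
      intro hbig
      obtain ⟨h1, h2⟩ := Wg.cent H W' Z' _ _ _ p q Γ _ _ hdom hbig k1
      have h3 := h2 _ h1 (Commute.refl _)
      rw [← ev'] at h3
      have h4 := GS.tau_le_disp (X := Z') (π (val w a b (s.node s'))) (ι o)
      have h5 : (Z'.d (ι o) (π (val w a b (s.node s')) • ι o) : ℝ) ≤ 62 * D := by exact_mod_cast hv
      have h6 : (0 : ℝ) < D := by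
        have := C.one_le
        exact_mod_cast (by omega : 0 < D)
      linarith
    unfold Big at nb
    push Not at nb
    obtain ⟨z, hz⟩ := nb
    have z0 : Z'.d z (π a • z) < D := hz 0
    have z1 : Z'.d z (π b • z) < D := hz 1
    have oz := Γ.ovl' hab ha' z0.le hb' z1.le
    have cl : ∀ v : H, Z'.d z ((v⁻¹ * π a * v) • z) < D → Z'.d z ((v⁻¹ * π b * v) • z) < D →
        Z'.d (ι o) (v • ι o) ≤ 62 * D := by
      intro v h1 h2
      rw [C.quo.inv.disp_conj'] at h1 h2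
      have := Γ.ovl' hab ha' h1.le hb' h2.le
      have := Z'.d_tri (ι o) (v • z) (v • ι o)
      have := C.quo.inv v z (ι o)
      have := Z'.d_comm z (ι o)
      omega
    have i1 := ih (cl _ (hz 2) (hz 3))
    have i2 := ih' (cl _ (hz 4) (hz 5))
    have cj : ∀ v g : G, Z.d o (v • o) ≤ 62 * D → Z.d o (g • o) ≤ D →
        Z.d o ((v⁻¹ * g * v) • o) ≤ 125 * D := by
      intro v g h1 h2
      have := C.inv.disp_mul (v⁻¹ * g) v o
      have := C.inv.disp_mul v⁻¹ g o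
      have := C.inv.disp_inv v o
      omega
    have h7 : Z.d o (val w a b (s.node s') • o) ≤ w.norm * (125 * D) := by
      rw [val]
      refine disp_ev C.inv w fun i => ?_
      fin_cases i
      · exact ha.trans (by omega)
      · exact hb.trans (by omega)
      · exact cj _ _ i1 ha
      · exact cj _ _ i1 hb
      · exact cj _ _ i2 ha
      · exact cj _ _ i2 hb
      · exact ha.trans (by omega)
    rw [Nat.mul_left_comm] at h7
    obtain ⟨g, hg, eg⟩ := C.exists_lift o (π (val w a b (s.node s')))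
    rw [← C.uniq (u := o) hg (by omega)]
    omega

theorem mk_iff {T : Fin 7 → G} {o : W} (hd : Dom fun i => π (T i))
    (h1 : ∀ i, Z.d o (T i • o) ≤ cD w cw δ (cA δ A)) (hl : lev o ≤ cD w cw δ (cA δ A)) :
    Mk w L (fun i => π (T i)) ↔ Mk w L T := by
  obtain ⟨k1, k2, k3, k4⟩ := consts hρ
  have Γ := C.q_good (by omega)
  have u : ∀ i j, π (T i) = π (T j) → T i = T j := fun i j e =>
    C.uniq (u := o) e (by have := h1 i; have := h1 j; omega)
  refine ⟨?_, fun h => h.map_of π (u 4 0) (u 5 1)⟩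
  rintro ((h | h) | ⟨t, ht, e1, e2⟩)
  · exact Or.inl (Or.inl fun e => h (congrArg π e))
  · exact Or.inl (Or.inr fun e => h (congrArg π e))
  refine Or.inr ⟨t, ht, ?_⟩
  beta_reduce at e1 e2
  rw [← map_val] at e1 e2
  have b0 := (C.le_disp o _).trans (h1 0)
  have b1 := (C.le_disp o _).trans (h1 1)
  have b2 := (C.le_disp o _).trans (h1 2)
  have b3 := (C.le_disp o _).trans (h1 3)
  rw [e1, C.quo.inv.disp_conj'] at b2
  rw [e2, C.quo.inv.disp_conj'] at b3
  have ov := Γ.ovl' hd.1 b0 b2 b1 b3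
  have sm := C.val_small Wg hc Rg hρ hd.1 (h1 0) (h1 1) hl t (by omega)
  have fin : ∀ i j, π (T i) = (π (val w (T 0) (T 1) t))⁻¹ * π (T j) * π (val w (T 0) (T 1) t) →
      T i = (val w (T 0) (T 1) t)⁻¹ * T j * val w (T 0) (T 1) t := by
    intro i j e
    have := C.inv.disp_mul ((val w (T 0) (T 1) t)⁻¹ * T j) (val w (T 0) (T 1) t) o
    have := C.inv.disp_mul (val w (T 0) (T 1) t)⁻¹ (T j) o
    have := C.inv.disp_inv (val w (T 0) (T 1) t) o
    have := h1 i
    have := h1 j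
    exact C.uniq (u := o) (by rw [e]; simp) (by omega)
  exact ⟨fin 2 0 e1, fin 3 1 e2⟩

/-- Rigidity passes to the quotient. -/
theorem q_rigid (hp : ∀ i, (∃ S : Fin 7 → G, Dom S ∧ Mk w L S ∧ ev w S • i = i) → nn i = p)
    (hq : ∀ i, (¬ ∃ S : Fin 7 → G, Dom S ∧ Mk w L S ∧ ev w S • i = i) → nn i = q) :
    Rigid w p q L H := by
  obtain ⟨k1, k2, k3, k4⟩ := consts hρ
  have Γ := C.q_good (by omega)
  have key : ∀ S : Fin 7 → H, Dom S → IsOfFinOrder (ev w S) → ∃ T : Fin 7 → G, Dom T ∧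
      ev w S = π (ev w T) ∧ (Mk w L S ↔ Mk w L T) ∧
      (IsOfFinOrder (ev w T) ∨ ∃ j : I, ev w T • j = j) := by
    intro S hd hf
    have hb : ¬ Big Z' S (cw * (cA δ A + δ)) := fun hb => Wg.inf hc Γ hd hb hf
    obtain ⟨o, T, rfl, h1, hT, hl⟩ := C.lift_tuple hd hb
    rw [← map_ev] at hf
    exact ⟨T, hT, (map_ev π w T).symm,
      C.mk_iff Wg hc Rg hρ hd (fun i => (h1 i).trans k1) (hl.trans k1),
      C.fin_or_fix (D := cD w cw δ (cA δ A)) (by omega) hf ((disp_ev C.inv w h1).trans k2)⟩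
  refine ⟨C.q_nc Wg hc Rg hρ, C.q_rig Wg hc Rg hρ, fun S hd hf hm => ?_, fun S hd hf hm => ?_⟩
  · obtain ⟨T, hT, e, hmk, h | ⟨j, hj⟩⟩ := key S hd hf
    · rw [e, ← map_pow, Rg.marked T hT h (hmk.1 hm), map_one]
    · rw [e, ← hp j ⟨T, hT, hmk.1 hm, hj⟩]
      exact C.fix_pow hj
  · obtain ⟨T, hT, e, hmk, h | ⟨j, hj⟩⟩ := key S hd hf
    · rw [e, ← map_pow, Rg.unmarked T hT h (fun h' => hm (hmk.2 h')), map_one]
    · rw [e, ← hq j]
      · exact C.fix_pow hj
      · rintro ⟨T', hT', hm', hj'⟩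
        obtain ⟨h, hh⟩ := Rg.rig T' T hT' hT (C.fix_comm hj' hj)
        apply hm
        have eT : T = fun i => h⁻¹ * T' i * h := funext hh
        rw [hmk, eT]
        exact hm'.conj h

end Cov

end Pool.Agent.Lib.MP_e0e7d6_al
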