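import Pool.Agent.Lib.MP_e0e7d6_al.Rot

/-!
Quotients of spaces by normal subgroups, and by rotating families.
-/

set_option linter.unusedSectionVars false

namespace Pool.Agent.Lib.MP_e0e7d6_al

/-- Orbit space. -/
def Orb {G : Type} [Group G] (N : Subgroup G) (W : Type) [MulAction G W] : Type :=
  Quotient (MulAction.orbitRel N W)

namespace Orb

variable {G : Type} [Group G] {N : Subgroup G} {W : Type} [MulAction G W]

/-- The class of a point. -/
def mk (N : Subgroup G) (u : W) : Orb N W := Quotient.mk (MulAction.orbitRel N W) u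

theorem mk_surj (a : Orb N W) : ∃ u, mk N u = a := Quotient.exists_rep a

theorem mk_eq {u v : W} : mk N u = mk N v ↔ ∃ n ∈ N, n • v = u := by
  refine (Quotient.eq (r := MulAction.orbitRel N W)).trans ?_
  rw [MulAction.orbitRel_apply, MulAction.mem_orbit_iff]
  exact ⟨fun ⟨n, h⟩ => ⟨n, n.2, h⟩, fun ⟨n, hn, h⟩ => ⟨⟨n, hn⟩, h⟩⟩

theorem mk_smul_mem {n : G} (hn : n ∈ N) (u : W) : mk N (n • u) = mk N u := mk_eq.2 ⟨n, hn, rfl⟩

/-- Maps induced by equivariant maps. -/
def map {W' : Type} [MulAction G W'] (φ : W → W') (h : ∀ (g : G) u, φ (g • u) = g • φ u) :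
    Orb N W → Orb N W' :=
  Quotient.lift (fun u => mk N (φ u)) fun u v e => by
    obtain ⟨n, hn, rfl⟩ := mk_eq.1 (Quotient.sound e : mk N u = mk N v)
    rw [h, mk_smul_mem hn]

theorem map_mk {W' : Type} [MulAction G W'] (φ : W → W') (h : ∀ (g : G) u, φ (g • u) = g • φ u)
    (u : W) : map φ h (mk N u) = mk N (φ u) := rfl

variable [hN : N.Normal]

/-- The action of the quotient group. -/
def act (h : G ⧸ N) (a : Orb N W) : Orb N W :=
  Quotient.liftOn₂ (s₁ := QuotientGroup.leftRel N) (s₂ := MulAction.orbitRel N W) h a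
    (fun g u => mk N (g • u)) fun g u g' u' e1 e2 => by
      obtain ⟨n, hn, rfl⟩ := mk_eq.1 (Quotient.sound e2 : mk N u = mk N u')
      have e3 : g⁻¹ * g' ∈ N := QuotientGroup.leftRel_apply.1 e1
      refine mk_eq.2 ⟨g * n * g'⁻¹, ?_, by simp [mul_smul]⟩
      have := hN.conj_mem _ (N.mul_mem hn (N.inv_mem e3)) g
      simpa [mul_assoc] using this

instance : MulAction (G ⧸ N) (Orb N W) where
  smul := act
  one_smul := fun a => by
    obtain ⟨u, rfl⟩ := mk_surj a
    show mk N ((1 : G) • u) = mk N u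
    rw [one_smul]
  mul_smul := fun h h' a => by
    obtain ⟨u, rfl⟩ := mk_surj a
    obtain ⟨g, rfl⟩ := QuotientGroup.mk_surjective h
    obtain ⟨g', rfl⟩ := QuotientGroup.mk_surjective h'
    show mk N ((g * g') • u) = mk N (g • g' • u)
    rw [mul_smul]

theorem smul_mk (g : G) (u : W) : QuotientGroup.mk' N g • mk N u = mk N (g • u) := rfl

/-- An element of the quotient moving a class to a class lifts. -/
theorem exists_lift {h : G ⧸ N} {u v : W} (e : mk N v = h • mk N u) :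
    ∃ g, QuotientGroup.mk' N g = h ∧ g • u = v := by
  obtain ⟨g, rfl⟩ := QuotientGroup.mk'_surjective N h
  rw [smul_mk] at e
  obtain ⟨n, hn, e⟩ := mk_eq.1 e
  refine ⟨n * g, ?_, by rw [mul_smul, e]⟩
  rw [map_mul, QuotientGroup.mk'_apply, (QuotientGroup.eq_one_iff n).2 hn, one_mul]

end Orb

namespace GS

variable {G : Type} [Group G] {W : Type} [MulAction G W]

/-- Distance between orbits. -/
noncomputable def qd (Z : GS W) (N : Subgroup G) (a b : Orb N W) : ℕ :=
  sInf {t | ∃ u v, Orb.mk N u = a ∧ Orb.mk N v = b ∧ Z.d u v = t}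

variable {Z : GS W} {N : Subgroup G}

theorem qd_le (u v : W) : Z.qd N (Orb.mk N u) (Orb.mk N v) ≤ Z.d u v :=
  Nat.sInf_le ⟨u, v, rfl, rfl, rfl⟩

theorem qd_lift (I : Z.Inv G) (u : W) (b : Orb N W) :
    ∃ v, Orb.mk N v = b ∧ Z.d u v = Z.qd N (Orb.mk N u) b := by
  obtain ⟨v0, rfl⟩ := Orb.mk_surj b
  have hne : {t | ∃ u' v, Orb.mk N u' = Orb.mk N u ∧ Orb.mk N v = Orb.mk N v0 ∧
    Z.d u' v = t}.Nonempty := ⟨_, u, v0, rfl, rfl, rfl⟩
  obtain ⟨u', v, e1, e2, e3⟩ := Nat.sInf_mem hne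
  obtain ⟨n, hn, rfl⟩ := Orb.mk_eq.1 e1
  refine ⟨n⁻¹ • v, by rw [Orb.mk_smul_mem (N.inv_mem hn), e2], ?_⟩
  rw [Z.d_comm, I.d_inv, Z.d_comm]
  exact e3

/-- The quotient space. -/
noncomputable def quot (Z : GS W) (N : Subgroup G) (I : Z.Inv G) : GS (Orb N W) where
  d := Z.qd N
  d_self a := by
    obtain ⟨u, rfl⟩ := Orb.mk_surj a
    have := qd_le (Z := Z) (N := N) u u
    rw [Z.d_self] at this
    omega
  d_comm a b := by
    unfold qd
    congr 1
    ext t
    exact ⟨fun ⟨u, v, h1, h2, h3⟩ => ⟨v, u, h2, h1, by rwa [Z.d_comm]⟩,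
      fun ⟨u, v, h1, h2, h3⟩ => ⟨v, u, h2, h1, by rwa [Z.d_comm]⟩⟩
  d_tri a b c := by
    obtain ⟨u, rfl⟩ := Orb.mk_surj a
    obtain ⟨v, rfl, e1⟩ := qd_lift I u b
    obtain ⟨w, rfl, e2⟩ := qd_lift I v c
    have := qd_le (Z := Z) (N := N) u w
    have := Z.d_tri u v w
    omega
  d_zero a b h := by
    obtain ⟨u, rfl⟩ := Orb.mk_surj a
    obtain ⟨v, rfl, e1⟩ := qd_lift I u b
    rw [Z.d_zero u v (by omega)]
  geod a b t ht := by
    obtain ⟨u, rfl⟩ := Orb.mk_surj a
    obtain ⟨v, rfl, e1⟩ := qd_lift I u b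
    obtain ⟨m, h1, h2⟩ := Z.geod u v t (by omega)
    have a1 := qd_le (Z := Z) (N := N) u m
    have a2 := qd_le (Z := Z) (N := N) m v
    obtain ⟨m', e2, e3⟩ := qd_lift I u (Orb.mk N m)
    obtain ⟨v', e4, e5⟩ := qd_lift I m' (Orb.mk N v)
    have a3 := qd_le (Z := Z) (N := N) u v'
    have a4 := Z.d_tri u m' v'
    rw [e4] at a3
    rw [e2] at e5
    exact ⟨Orb.mk N m, by omega, by omega⟩

variable {I : Z.Inv G}

theorem quot_le (u v : W) : (Z.quot N I).d (Orb.mk N u) (Orb.mk N v) ≤ Z.d u v := qd_le u v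

theorem quot_lift (u : W) (b : Orb N W) :
    ∃ v, Orb.mk N v = b ∧ Z.d u v = (Z.quot N I).d (Orb.mk N u) b := qd_lift I u b

theorem quot_lift' (u v : W) :
    ∃ n ∈ N, Z.d u (n • v) = (Z.quot N I).d (Orb.mk N u) (Orb.mk N v) := by
  obtain ⟨v', e, h⟩ := quot_lift (I := I) u (Orb.mk N v)
  obtain ⟨n, hn, rfl⟩ := Orb.mk_eq.1 e
  exact ⟨n, hn, h⟩

variable [N.Normal]

theorem quot_inv : (Z.quot N I).Inv (G ⧸ N) := by
  have k : ∀ (h : G ⧸ N) a b, (Z.quot N I).d (h • a) (h • b) ≤ (Z.quot N I).d a b := by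
    intro h a b
    obtain ⟨g, rfl⟩ := QuotientGroup.mk'_surjective N h
    obtain ⟨u, rfl⟩ := Orb.mk_surj a
    obtain ⟨v, rfl, e⟩ := quot_lift (I := I) u b
    rw [Orb.smul_mk, Orb.smul_mk, ← e, ← I g u v]
    exact quot_le _ _
  intro h a b
  refine le_antisymm (k h a b) ?_
  simpa using k h⁻¹ (h • a) (h • b)

theorem quot_disp (u : W) (h : G ⧸ N) : ∃ g, QuotientGroup.mk' N g = h ∧
    Z.d u (g • u) = (Z.quot N I).d (Orb.mk N u) (h • Orb.mk N u) := by
  obtain ⟨v, e, hd⟩ := quot_lift (I := I) u (h • Orb.mk N u)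
  obtain ⟨g, e', rfl⟩ := Orb.exists_lift e
  exact ⟨g, e', hd⟩

end GS

namespace RotFam

variable {G : Type} [Group G] {W I : Type} [MulAction G W] [MulAction G I] {Z : GS W}
  {δ Θ : ℕ} {c : I → W} {Nf : I → Subgroup G} {ang : I → W → W → ℕ}
  (F : RotFam G Z δ Θ c Nf ang)
include F

theorem quot_hyp : (Z.quot (rotAll Nf) F.inv).Hyp δ := by
  intro a b a' b'
  obtain ⟨x, rfl⟩ := Orb.mk_surj a
  obtain ⟨z, rfl, e1⟩ := GS.quot_lift (I := F.inv) x a'
  obtain ⟨y, rfl, e2⟩ := GS.quot_lift (I := F.inv) z b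
  obtain ⟨w, rfl, e3⟩ := GS.quot_lift (I := F.inv) y b'
  obtain ⟨n, hn, e4⟩ := GS.quot_lift' (N := rotAll Nf) (I := F.inv) w x
  obtain ⟨n1, h1, n2, h2, n3, h3, d1, d2, d3, d4⟩ := F.lift_quad x hn z y w
  have a1 := GS.quot_le (N := rotAll Nf) (I := F.inv) x (n2 • y)
  have a2 := GS.quot_le (N := rotAll Nf) (I := F.inv) (n1 • z) (n3 • w)
  rw [Orb.mk_smul_mem h2] at a1
  rw [Orb.mk_smul_mem h1, Orb.mk_smul_mem h3] at a2
  have c1 := (Z.quot (rotAll Nf) F.inv).d_comm (Orb.mk _ z) (Orb.mk _ y)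
  have c2 := (Z.quot (rotAll Nf) F.inv).d_comm (Orb.mk _ w) (Orb.mk _ x)
  have c3 := Z.d_comm (n3 • w) x
  have c4 := Z.d_comm (n1 • z) (n2 • y)
  rcases F.hyp x (n2 • y) (n1 • z) (n3 • w) with k | k <;> omega

/-- Two closest lifts seen under a big angle from the apex stay far in the quotient. -/
theorem far_rot (hδ : 2 ≤ δ) {i : I} {s' : W} (hs' : Z.d (c i) s' = 1) {R t : ℕ} {n : G}
    (hn : n ∈ rotAll Nf) : ∀ s u v : W, Z.d (c i) s = 1 → Z.d s u + 1 ≤ R → Z.d s' v + 1 ≤ R →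
      (∀ k ∈ rotAll Nf, R ≤ Z.d (c i) (k • u)) → (∀ k ∈ rotAll Nf, R ≤ Z.d (c i) (k • v)) →
      (∀ r ∈ Nf i, 5 * Θ < ang i s' (r • s)) → Z.d u (n • v) ≤ t → 2 * R ≤ t := by
  have na : ∀ s, Z.d (c i) s = 1 → ∀ j, s ≠ c j := by
    rintro s hs j rfl
    by_cases e : i = j
    · rw [e, Z.d_self] at hs
      omega
    · have := F.sep i j e
      omega
  have hr := F.red_all s' hn
  induction hr with
  | one =>
    intro s u v hs hu hv mu mv hb ht
    have m1 := mu 1 (one_mem _)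
    have m2 := mv 1 (one_mem _)
    have b1 := hb 1 (one_mem _)
    rw [one_smul] at m1 m2 b1 ht
    have t1 := Z.d_tri (c i) s u
    have t2 := Z.d_tri (c i) s' v
    have nu : u ≠ c i := fun e => by rw [e, Z.d_self] at m1; omega
    have nv : v ≠ c i := fun e => by rw [e, Z.d_self] at m2; omega
    have c1 := Z.d_comm s (c i)
    have c2 := Z.d_comm s' (c i)
    have c3 := Z.d_comm u (c i)
    have a1 := F.small i s u (na s hs i) nu (by unfold GS.Btw; omega)
    have a2 := F.small i s' v (na s' hs' i) nv (by unfold GS.Btw; omega)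
    have a3 := F.tri i s' v s (na s' hs' i) nv (na s hs i)
    have a4 := F.tri i v u s nv nu (na s hs i)
    have a5 := F.symm i s u
    have a6 := F.symm i v u
    have : Z.d u (c i) + Z.d (c i) v = Z.d u v := F.btw_of_lt nu nv (by omega)
    omega
  | fix j n e _ => exact (na s' hs' j e).elim
  | step j h n hh nu ne ha _ ih =>
    intro s u v hs hu hv mu mv hb ht
    have hm : h ∈ rotAll Nf := Subgroup.subset_closure ⟨j, hh⟩
    have ih := ih (mul_mem hm hn)
    have bend : ∀ a b, Z.Btw a (c j) b → Z.d a (h • b) ≤ Z.d a b := by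
      intro a b hb
      have := Z.d_tri a (c j) (h • b)
      have e2 : Z.d (c j) (h • b) = Z.d (c j) b := by
        rw [← F.inv h (c j) b, F.fix_c hh]
      unfold GS.Btw at hb
      omega
    have mh : ∀ k ∈ rotAll Nf, R ≤ Z.d (c i) (k • h • u) := fun k hk => by
      rw [← mul_smul]
      exact mu _ (mul_mem hk hm)
    by_cases e : j = i
    · subst e
      refine ih (h • s) (h • u) v ?_ ?_ hv mh mv (fun r hr => ?_) ?_
      · rw [← hs, ← F.inv h (c j) s, F.fix_c hh]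
      · rwa [F.inv]
      · rw [← mul_smul]
        exact hb _ (mul_mem hr hh)
      · rwa [mul_smul, F.inv]
    have cases3 : Z.Btw s (c j) u ∨ Z.Btw u (c j) (n • v) ∨ Z.Btw (n • v) (c j) (n • s') := by
      by_contra hc
      push Not at hc
      obtain ⟨c2, c3, c4⟩ := hc
      have m1 : s ≠ c j := na s hs j
      have m2 : u ≠ c j := fun e => c2 (e ▸ GS.btw_right _ _)
      have m3 : n • v ≠ c j := fun e => c3 (e ▸ GS.btw_right _ _)
      have c1 : ¬ Z.Btw s' (c j) s := by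
        intro hb
        have := F.sep i j (Ne.symm e)
        have := Z.d_tri s' (c i) s
        have := Z.d_tri (c i) s' (c j)
        have := Z.d_comm s' (c i)
        have : Z.d (c j) s ≠ 0 := fun h0 => m1 (Z.d_zero _ _ h0).symm
        unfold GS.Btw at hb
        omega
      have := F.small j _ _ nu m1 c1
      have := F.small j _ _ m1 m2 c2
      have := F.small j _ _ m2 m3 c3
      have := F.small j _ _ m3 ne c4
      have := F.tri j s' s u nu m1 m2
      have := F.tri j s' u (n • v) nu m2 m3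
      have := F.tri j s' (n • v) (n • s') nu m3 ne
      omega
    rcases cases3 with hb' | hb' | hb'
    · refine ih s (h • u) v hs ?_ hv mh mv hb ?_
      · have := bend _ _ hb'
        omega
      · rwa [mul_smul, F.inv]
    · refine ih s u v hs hu hv mu mv hb ?_
      rw [mul_smul]
      exact (bend _ _ hb').trans ht
    · refine ih s u (((h * n)⁻¹ * n) • v) hs hu ?_ mu (fun k hk => ?_) hb ?_
      · have h1 := bend _ _ hb'
        rw [F.inv] at h1
        rw [mul_smul, Z.d_comm, F.inv.d_inv, mul_smul]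
        have := Z.d_comm v s'
        omega
      · rw [← mul_smul]
        exact mv _ (mul_mem hk (mul_mem (inv_mem (mul_mem hm hn)) hn))
      · rwa [← mul_smul, mul_inv_cancel_left]

/-- A big rotation moves points of the quotient by twice their distance to the apex. -/
theorem quot_rot [(rotAll Nf).Normal] (hδ : 2 ≤ δ) {i : I} {g : G} (hg : g • i = i)
    (hb : ∀ r ∈ Nf i, ∀ s, s ≠ c i → 5 * Θ < ang i (g • s) (r • s)) (a : Orb (rotAll Nf) W) :
    2 * (Z.quot (rotAll Nf) F.inv).d (Orb.mk _ (c i)) a ≤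
      (Z.quot (rotAll Nf) F.inv).d a (QuotientGroup.mk' (rotAll Nf) g • a) := by
  obtain ⟨u, rfl, e⟩ := GS.quot_lift (I := F.inv) (c i) a
  rw [← e, Orb.smul_mk]
  rcases Nat.eq_zero_or_pos (Z.d (c i) u) with h0 | h0
  · omega
  obtain ⟨s, bs, ds⟩ := GS.exists_btw (X := Z) (c i) u 1 h0
  obtain ⟨n, hn, e'⟩ := GS.quot_lift' (N := rotAll Nf) (I := F.inv) u (g • u)
  have gc : g • c i = c i := by rw [← F.c_smul, hg]
  have bs' : Z.d (c i) s + Z.d s u = Z.d (c i) u := bs
  have mu : ∀ k ∈ rotAll Nf, Z.d (c i) u ≤ Z.d (c i) (k • u) := fun k hk => by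
    have := GS.quot_le (N := rotAll Nf) (I := F.inv) (c i) (k • u)
    rw [Orb.mk_smul_mem hk] at this
    omega
  refine F.far_rot hδ (i := i) (s' := g • s) (by rw [← ds, ← F.inv g (c i) s, gc]) hn s u (g • u)
    ds (by omega) (by rw [F.inv]; omega) mu (fun k hk => ?_) (fun r hr => hb r hr s fun e => ?_)
    e'.le
  · have h1 := mu _ (F.normal_all.conj_mem k hk g⁻¹)
    rw [← F.inv g (c i) (_ • u), gc] at h1
    simpa [mul_smul] using h1
  · rw [e, Z.d_self] at ds
    omega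

end RotFam

end Pool.Agent.Lib.MP_e0e7d6_al
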