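import Pool.Agent.Lib.MP_e0e7d6_al.Iface
import Pool.Agent.Lib.MP_e0e7d6_al.Quot48

/-!
Quotients of actions in the form used by the inductive step.
-/

namespace Pool.Agent.Lib.MP_e0e7d6_al

theorem exists_quo {G W : Type} [Group G] [MulAction G W] (Z : GS W) (hI : Z.Inv G)
    (N : Subgroup G) [N.Normal] :
    ∃ (W' : Type) (_ : MulAction (G ⧸ N) W') (ι : W → W') (Z' : GS W'),
      Quo (QuotientGroup.mk' N) ι Z Z' := by
  refine ⟨Orb N W, inferInstance, Orb.mk N, Z.quot N hI, QuotientGroup.mk'_surjective N,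
    Orb.mk_surj, fun g u => (Orb.smul_mk g u).symm, GS.quot_le, fun u v => ?_, GS.quot_inv⟩
  obtain ⟨n, hn, h⟩ := GS.quot_lift' (N := N) (I := hI) u v
  exact ⟨n, (QuotientGroup.eq_one_iff n).2 hn, h.symm⟩

namespace Quo

variable {G H W W' : Type} [Group G] [Group H] [MulAction G W] [MulAction H W'] {π : G →* H}
  {ι : W → W'} {Z : GS W} {Z' : GS W'}

theorem smul_ker (Q : Quo π ι Z Z') {n : G} (hn : π n = 1) (u : W) : ι (n • u) = ι u := by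
  rw [Q.smul, hn, one_smul]

/-- Every point of the quotient has a closest lift. -/
theorem lift_pt (Q : Quo π ι Z Z') (u : W) (b : W') : ∃ v, ι v = b ∧ Z.d u v = Z'.d (ι u) b := by
  obtain ⟨v, rfl⟩ := Q.onto b
  obtain ⟨n, hn, h⟩ := Q.lift u v
  exact ⟨n • v, Q.smul_ker hn v, h.symm⟩

theorem hyp {I : Type} [MulAction G I] {δ Θ : ℕ} {c : I → W} {Nf : I → Subgroup G}
    {ang : I → W → W → ℕ} (F : RotFam G Z δ Θ c Nf ang) (Q : Quo π ι Z Z')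
    (hk : ∀ n, π n = 1 ↔ n ∈ rotAll Nf) : Z'.Hyp δ := by
  intro a b a' b'
  obtain ⟨x, rfl⟩ := Q.onto a
  obtain ⟨z, rfl, e1⟩ := Q.lift_pt x a'
  obtain ⟨y, rfl, e2⟩ := Q.lift_pt z b
  obtain ⟨w, rfl, e3⟩ := Q.lift_pt y b'
  obtain ⟨n, hn, e4⟩ := Q.lift w x
  obtain ⟨n1, h1, n2, h2, n3, h3, d1, d2, d3, d4⟩ := F.lift_quad x ((hk n).1 hn) z y w
  have a1 := Q.le x (n2 • y)
  have a2 := Q.le (n1 • z) (n3 • w)
  rw [Q.smul_ker ((hk _).2 h2)] at a1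
  rw [Q.smul_ker ((hk _).2 h1), Q.smul_ker ((hk _).2 h3)] at a2
  have c1 := Z'.d_comm (ι z) (ι y)
  have c2 := Z'.d_comm (ι w) (ι x)
  have c3 := Z.d_comm (n3 • w) x
  have c4 := Z.d_comm (n1 • z) (n2 • y)
  rcases F.hyp x (n2 • y) (n1 • z) (n3 • w) with k | k <;> omega

end Quo

end Pool.Agent.Lib.MP_e0e7d6_al
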