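import Pool.Agent.Lib.MP_e0e7d6_al.ReduceHorn

/-!
Group laws simulating a Horn program.
-/

namespace Pool.Agent.Lib.MP_e0e7d6_al

section defs

variable {H : Type} [Group H] (w : FreeGroup (Fin 7)) (p : ℕ) (x y : H) (z : ℕ → H)

def cc : H := x * y * x⁻¹ * y⁻¹
def bb : H := x⁻¹ * cc x y * x
def WW (d e : H) : H := ev w (tup (cc x y) (bb x y) d e (cc x y))

def pv : Pat → H
  | .var i => z i
  | .leaf => 1
  | .node s t => WW w x y (pv s) (pv t)

def FF (B : Pat) : H := WW w x y (pv w x y z B) 1 ^ p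

def Phi : List Pat → H
  | [] => 1
  | B :: r => WW w x y (FF w p x y z B) (Phi r) * (WW w x y 1 1)⁻¹

def lawC (c : Pat × List Pat) : H := WW w x y (pv w x y z c.1) (Phi w p x y z c.2) ^ p

def lawG (g : Pat) (b : Bool) (k : ℕ) : H :=
  ev w (tup (FF w p x y z g) ((cc x y)⁻¹ * FF w p x y z g * cc x y) 1
    (if b then FF w p x y z g else 1) (cc x y)) ^ k

def vl (t : Tm) : H := val w (cc x y) (bb x y) t

theorem vl_leaf : vl w x y .leaf = 1 := rfl
theorem vl_node (s t : Tm) : vl w x y (.node s t) = WW w x y (vl w x y s) (vl w x y t) := rfl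

theorem pv_vl (σ : ℕ → Tm) (B : Pat) :
    pv w x y (fun i => vl w x y (σ i)) B = vl w x y (B.inst σ) := by
  induction B with
  | var i => rfl
  | leaf => rfl
  | node s t ihs iht => rw [pv, ihs, iht]; rfl

/-- the laws attached to a program, a goal and the value of the parameter -/
def Laws (H : Type) [Group H] (w : FreeGroup (Fin 7)) (p q : ℕ) (P : List (Pat × List Pat))
    (g : Pat) (t : Tm) : Prop :=
  (∀ (x y : H) (z : ℕ → H), ∀ c ∈ P, lawC w p x y z c = 1) ∧
  ∀ (x y : H) (z : ℕ → H), z 0 = vl w x y t →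
    lawG w p x y z g true p = 1 ∧ lawG w p x y z g false q = 1

end defs

section maps

variable {H K : Type} [Group H] [Group K] (f : H →* K) (w : FreeGroup (Fin 7)) (p : ℕ) (x y : H)
  (z : ℕ → H)

theorem map_cc : f (cc x y) = cc (f x) (f y) := by simp [cc]
theorem map_bb : f (bb x y) = bb (f x) (f y) := by simp [bb, map_cc]
theorem map_WW (d e : H) : f (WW w x y d e) = WW w (f x) (f y) (f d) (f e) := by
  rw [WW, map_ev, map_tup, map_cc, map_bb]; rfl
theorem map_pv (B : Pat) : f (pv w x y z B) = pv w (f x) (f y) (fun i => f (z i)) B := by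
  induction B with
  | var i => rfl
  | leaf => exact map_one f
  | node s t ihs iht => rw [pv, pv, map_WW, ihs, iht]
theorem map_FF (B : Pat) : f (FF w p x y z B) = FF w p (f x) (f y) (fun i => f (z i)) B := by
  rw [FF, map_pow, map_WW, map_pv, map_one]; rfl
theorem map_Phi (l : List Pat) :
    f (Phi w p x y z l) = Phi w p (f x) (f y) (fun i => f (z i)) l := by
  induction l with
  | nil => exact map_one f
  | cons B r ih => rw [Phi, Phi, map_mul, map_inv, map_WW, map_WW, map_FF, ih, map_one]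
theorem map_lawC (c : Pat × List Pat) :
    f (lawC w p x y z c) = lawC w p (f x) (f y) (fun i => f (z i)) c := by
  rw [lawC, map_pow, map_WW, map_pv, map_Phi]; rfl
theorem map_lawG (g : Pat) (b : Bool) (k : ℕ) :
    f (lawG w p x y z g b k) = lawG w p (f x) (f y) (fun i => f (z i)) g b k := by
  rw [lawG, map_pow, map_ev, map_tup, map_mul, map_mul, map_inv, apply_ite f, map_FF, map_cc,
    map_one]
  rfl

end maps

theorem tup_one {H : Type} [Group H] (d e c : H) : tup 1 1 d e c = ![1, 1, 1, 1, 1, 1, c] := by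
  simp [tup]

/-- If the goal is derivable, the laws force commutativity. -/
theorem comm_of_der {H : Type} [Group H] {w : FreeGroup (Fin 7)} {p q : ℕ}
    (hpq : Nat.Coprime p q) (h3 : Nat.Coprime 3 (p * q))
    (hvan : ∀ c : H, ev w ![1, 1, 1, 1, 1, 1, c] = c ^ 3) (hN : ∀ g : H, g ^ (p * q) = 1)
    {P : List (Pat × List Pat)} {g : Pat} {t : Tm} (hL : Laws H w p q P g t)
    {σ : ℕ → Tm} (h0 : σ 0 = t) (hd : Der P (g.inst σ)) (x y : H) : Commute x y := by
  have key : ∀ τ, Der P τ → WW w x y (vl w x y τ) 1 ^ p = 1 := by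
    intro τ h
    induction h with
    | rule c hc σ _ ih =>
      have h1 : ∀ l : List Pat, (∀ B ∈ l, WW w x y (vl w x y (B.inst σ)) 1 ^ p = 1) →
          Phi w p x y (fun i => vl w x y (σ i)) l = 1 := by
        intro l
        induction l with
        | nil => intro _; rfl
        | cons B r ihr =>
          intro h
          rw [Phi, ihr fun B hB => h B (List.mem_cons_of_mem _ hB), FF, pv_vl,
            h B List.mem_cons_self, mul_inv_cancel]
      have := hL.1 x y (fun i => vl w x y (σ i)) c hc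
      rwa [lawC, h1 _ ih, pv_vl] at this
  have hF : FF w p x y (fun i => vl w x y (σ i)) g = 1 := by rw [FF, pv_vl, key _ hd]
  obtain ⟨e1, e2⟩ := hL.2 x y (fun i => vl w x y (σ i)) (by rw [← h0])
  simp only [lawG, hF, mul_one, inv_mul_cancel, tup_one, hvan] at e1 e2
  have e3 : cc x y ^ 3 = 1 := by
    have := pow_gcd_eq_one.mpr ⟨e1, e2⟩
    rwa [hpq, pow_one] at this
  have e4 : cc x y = 1 := by
    have := pow_gcd_eq_one.mpr ⟨e3, hN _⟩
    rwa [h3, pow_one] at this
  by_contra h
  exact commutator_ne_one h e4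

section monster

variable {G : Type} [Group G] {w : FreeGroup (Fin 7)} {p q : ℕ} {L : Set Tm}

theorem conj_eq {a b d e : G} (C : CSA G) (hab : ¬ Commute a b) (ha : d⁻¹ * a * d = e⁻¹ * a * e)
    (hb : d⁻¹ * b * d = e⁻¹ * b * e) : d = e := by
  have k : ∀ a : G, d⁻¹ * a * d = e⁻¹ * a * e → Commute a (d * e⁻¹) := by
    intro a h
    calc a * (d * e⁻¹) = d * (d⁻¹ * a * d) * e⁻¹ := by group
      _ = d * e⁻¹ * a := by rw [h]; group
  exact mul_inv_eq_one.mp (C.eq_one_of_comm hab (k a ha) (k b hb))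

theorem cc_ne {x y : G} (hxy : ¬ Commute x y) : cc x y ≠ 1 := commutator_ne_one hxy

theorem ab_nc (C : CSA G) {x y : G} (hxy : ¬ Commute x y) : ¬ Commute (cc x y) (bb x y) := by
  intro h
  have := C.mal (cc x y) x⁻¹ (cc_ne hxy) (by simpa [bb] using h)
  exact C.not_comm_commutator hxy (Commute.inv_right_iff.mp this).symm

theorem WW_nc (C : CSA G) (R : Rigid w p q L G) {x y : G} (hxy : ¬ Commute x y) (d e : G) :
    ¬ Commute (cc x y) (WW w x y d e) :=
  R.nc _ (dom_tup (ab_nc C hxy) (cc_ne hxy) d e)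

theorem WW_ne (C : CSA G) (R : Rigid w p q L G) {x y : G} (hxy : ¬ Commute x y) (d e : G) :
    WW w x y d e ≠ 1 := fun h => WW_nc C R hxy d e (h ▸ Commute.one_right _)

theorem WW_inj (C : CSA G) (R : Rigid w p q L G) {x y : G} (hxy : ¬ Commute x y)
    {d e d' e' : G} (h : WW w x y d e = WW w x y d' e') : d = d' ∧ e = e' := by
  have hab := ab_nc C hxy
  obtain ⟨k, hk⟩ := R.rig _ _ (dom_tup hab (cc_ne hxy) d e) (dom_tup hab (cc_ne hxy) d' e')
    (by unfold WW at h; rw [h])
  have h1 : k = 1 := by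
    refine conj_eq C hab ?_ ?_
    · simpa [tup] using (hk 0).symm
    · simpa [tup] using (hk 1).symm
  subst h1
  refine ⟨conj_eq C hab ?_ ?_, conj_eq C hab ?_ ?_⟩
  · simpa [tup] using (hk 2).symm
  · simpa [tup] using (hk 3).symm
  · simpa [tup] using (hk 4).symm
  · simpa [tup] using (hk 5).symm

theorem vl_inj (C : CSA G) (R : Rigid w p q L G) {x y : G} (hxy : ¬ Commute x y) :
    Function.Injective (vl w x y) := by
  intro s
  induction s with
  | leaf =>
    intro t h
    cases t with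
    | leaf => rfl
    | node t u => exact absurd h.symm (WW_ne C R hxy _ _)
  | node s s' ih ih' =>
    intro t h
    cases t with
    | leaf => exact absurd h (WW_ne C R hxy _ _)
    | node t u =>
      obtain ⟨h1, h2⟩ := WW_inj C R hxy h
      rw [ih h1, ih' h2]

theorem mk_iff (C : CSA G) {a b : G} (hab : ¬ Commute a b) (d e c : G) :
    Mk w L (tup a b d e c) ↔ e ≠ 1 ∨ ∃ t ∈ L, d = val w a b t := by
  unfold Mk
  refine or_congr ⟨fun h he => ?_, fun h => ?_⟩
    (exists_congr fun t => and_congr_right fun _ => ⟨fun h => ?_, fun h => ?_⟩)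
  · subst he; simp [tup] at h
  · by_contra h'
    rw [not_or, not_not, not_not] at h'
    refine h (conj_eq C hab ?_ ?_)
    · simpa [tup] using h'.1
    · simpa [tup] using h'.2
  · exact conj_eq C hab h.1 h.2
  · subst h; exact ⟨rfl, rfl⟩

theorem fin_order {N : ℕ} (hN0 : 0 < N) (hN : ∀ g : G, g ^ N = 1) (g : G) : IsOfFinOrder g :=
  isOfFinOrder_iff_pow_eq_one.mpr ⟨N, hN0, hN g⟩

open Classical in
/-- the ground substitution read off from an assignment -/
noncomputable def gsub (w : FreeGroup (Fin 7)) (x y : G) (z : ℕ → G) (j : ℕ) : Tm :=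
  if h : ∃ u, z j = vl w x y u then h.choose else .leaf

theorem gsub_eq (C : CSA G) (R : Rigid w p q L G) {x y : G} (hxy : ¬ Commute x y) {z : ℕ → G}
    {j : ℕ} {t : Tm} (h : z j = vl w x y t) : gsub w x y z j = t := by
  have h' : ∃ u, z j = vl w x y u := ⟨t, h⟩
  rw [gsub, dif_pos h']
  exact vl_inj C R hxy (h'.choose_spec.symm.trans h)

theorem matching (C : CSA G) (R : Rigid w p q L G) {x y : G} (hxy : ¬ Commute x y) (z : ℕ → G)
    (B : Pat) : ∀ t, pv w x y z B = vl w x y t →
      t = B.inst (gsub w x y z) ∧ ∀ j, B.occ j → z j = vl w x y (gsub w x y z j) := by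
  induction B with
  | var i =>
    intro t h
    have := gsub_eq C R hxy h
    refine ⟨this.symm, ?_⟩
    rintro j rfl
    rw [this]; exact h
  | leaf =>
    intro t h
    exact ⟨vl_inj C R hxy h.symm, fun j h => h.elim⟩
  | node s s' ih ih' =>
    intro t h
    cases t with
    | leaf => exact absurd h (WW_ne C R hxy _ _)
    | node t u =>
      obtain ⟨h1, h2⟩ := WW_inj C R hxy h
      obtain ⟨e1, e2⟩ := ih t h1
      obtain ⟨e3, e4⟩ := ih' u h2
      exact ⟨by rw [Pat.inst, ← e1, ← e3], fun j hj => hj.elim (e2 j) (e4 j)⟩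

theorem pv_of_occ {x y : G} {z : ℕ → G} {σ : ℕ → Tm} (B : Pat)
    (h : ∀ j, B.occ j → z j = vl w x y (σ j)) : pv w x y z B = vl w x y (B.inst σ) := by
  induction B with
  | var i => exact h i rfl
  | leaf => rfl
  | node s t ihs iht =>
    rw [pv, ihs fun j hj => h j (Or.inl hj), iht fun j hj => h j (Or.inr hj)]; rfl

theorem FF_eq_one (C : CSA G) (R : Rigid w p q L G) (hpq : Nat.Coprime p q) (h0 : 0 < p * q)
    (hN : ∀ g : G, g ^ (p * q) = 1) {x y : G} (hxy : ¬ Commute x y) {z : ℕ → G} {B : Pat}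
    (h : FF w p x y z B = 1) : ∃ t ∈ L, pv w x y z B = vl w x y t := by
  by_contra hcon
  have := R.unmarked _ (dom_tup (ab_nc C hxy) (cc_ne hxy) (pv w x y z B) 1) (fin_order h0 hN _)
    (by rw [mk_iff C (ab_nc C hxy)]; exact fun h => h.elim (fun h => h rfl) hcon)
  have e := pow_gcd_eq_one.mpr ⟨h, this⟩
  rw [hpq, pow_one] at e
  exact WW_ne C R hxy _ _ e

/-- If the goal is not derivable, the monster satisfies the laws. -/
theorem laws_of_not_der {P : List (Pat × List Pat)} (C : CSA G)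
    (R : Rigid w p q {t | Der P t} G) (hpq : Nat.Coprime p q) (h0 : 0 < p * q)
    (hvan : ∀ c : G, ev w ![1, 1, 1, 1, 1, 1, c] = c ^ 3) (hN : ∀ g : G, g ^ (p * q) = 1)
    (hrr : ∀ c ∈ P, ∀ j, c.1.occ j → ∃ B ∈ c.2, B.occ j) (hleaf : ¬ Der P .leaf)
    {g : Pat} {t : Tm} (hg : ¬ ∃ σ : ℕ → Tm, σ 0 = t ∧ Der P (g.inst σ)) :
    Laws G w p q P g t := by
  have triv : ∀ x y : G, Commute x y → cc x y = 1 ∧ ∀ d e, WW w x y d e = 1 := by
    intro x y h
    have h1 : cc x y = 1 := by rw [cc, h.eq]; group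
    refine ⟨h1, fun d e => ?_⟩
    rw [WW, bb, h1, mul_one, inv_mul_cancel, tup_one, hvan, one_pow]
  refine ⟨fun x y z c hc => ?_, fun x y z hz => ?_⟩
  · by_cases hxy : Commute x y
    · rw [lawC, (triv x y hxy).2, one_pow]
    refine R.marked _ (dom_tup (ab_nc C hxy) (cc_ne hxy) _ _) (fin_order h0 hN _) ?_
    rw [mk_iff C (ab_nc C hxy), ← imp_iff_not_or]
    intro hΦ
    have h1 : ∀ l : List Pat, Phi w p x y z l = 1 → ∀ B ∈ l, FF w p x y z B = 1 := by
      intro l
      induction l with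
      | nil => simp
      | cons B r ih =>
        intro h
        obtain ⟨e1, e2⟩ := WW_inj C R hxy (mul_inv_eq_one.mp h)
        exact List.forall_mem_cons.mpr ⟨e1, ih e2⟩
    have h2 : ∀ B ∈ c.2, Der P (B.inst (gsub w x y z)) ∧
        ∀ j, B.occ j → z j = vl w x y (gsub w x y z j) := by
      intro B hB
      obtain ⟨t, ht, e⟩ := FF_eq_one C R hpq h0 hN hxy (h1 _ hΦ B hB)
      obtain ⟨e1, e2⟩ := matching C R hxy z B t e
      exact ⟨e1 ▸ ht, e2⟩
    refine ⟨_, Der.rule c hc (gsub w x y z) fun B hB => (h2 B hB).1, pv_of_occ _ fun j hj => ?_⟩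
    obtain ⟨B, hB, hj'⟩ := hrr c hc j hj
    exact (h2 B hB).2 j hj'
  · by_cases hxy : Commute x y
    · have hF : FF w p x y z g = 1 := by rw [FF, (triv x y hxy).2, one_pow]
      simp only [lawG, hF, (triv x y hxy).1, mul_one, inv_one, tup_one, hvan, one_pow, and_self]
    have hF : FF w p x y z g ≠ 1 := by
      intro h
      obtain ⟨t', ht', e⟩ := FF_eq_one C R hpq h0 hN hxy h
      exact hg ⟨gsub w x y z, gsub_eq C R hxy hz, (matching C R hxy z g t' e).1 ▸ ht'⟩
    have hnc : ¬ Commute (FF w p x y z g) ((cc x y)⁻¹ * FF w p x y z g * cc x y) := by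
      intro h
      have h1 := Commute.inv_right_iff.mp (C.mal _ (cc x y)⁻¹ hF (by simpa using h))
      exact WW_nc C R hxy _ _ (C.trans _ _ _ hF h1 ((Commute.refl _).pow_left p))
    refine ⟨R.marked _ (dom_tup hnc (cc_ne hxy) _ _) (fin_order h0 hN _) ?_,
      R.unmarked _ (dom_tup hnc (cc_ne hxy) _ _) (fin_order h0 hN _) ?_⟩
    · rw [mk_iff C hnc]; exact Or.inl hF
    · rw [mk_iff C hnc]
      rintro (h | ⟨t', ht', e⟩)
      · exact h rfl
      · cases t' with
        | leaf => exact hleaf ht'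
        | node s u =>
          rw [val] at e
          exact R.nc _ (dom_tup hnc hF _ _) (by rw [← e]; exact Commute.one_right _)

end monster

end Pool.Agent.Lib.MP_e0e7d6_al
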