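import Pool.Agent.Lib.MP_e0e7d6_al.Defs

/-!
A fixed range-restricted Horn program on binary trees with undecidable derivability.
-/

namespace Pool.Agent.Lib.MP_e0e7d6_al

open Turing.ToPartrec

/-- Patterns: binary trees with variables. -/
inductive Pat : Type
  | var : ℕ → Pat
  | leaf : Pat
  | node : Pat → Pat → Pat

def Pat.inst (σ : ℕ → Tm) : Pat → Tm
  | .var n => σ n
  | .leaf => .leaf
  | .node s t => .node (s.inst σ) (t.inst σ)

def Pat.occ (j : ℕ) : Pat → Prop
  | .var n => n = j
  | .leaf => False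
  | .node s t => s.occ j ∨ t.occ j

/-- The least set of ground terms closed under the clauses of `P`. -/
inductive Der (P : List (Pat × List Pat)) : Tm → Prop
  | rule (c : Pat × List Pat) (hc : c ∈ P) (σ : ℕ → Tm) (h : ∀ B ∈ c.2, Der P (B.inst σ)) :
      Der P (c.1.inst σ)

def num : ℕ → Tm
  | 0 => .leaf
  | n + 1 => .node .leaf (num n)

def encL : List ℕ → Tm
  | [] => .leaf
  | x :: v => .node (num x) (encL v)

def encC : Code → Tm
  | .zero' => .node (num 0) .leaf
  | .succ => .node (num 1) .leaf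
  | .tail => .node (num 2) .leaf
  | .cons f g => .node (num 3) (.node (encC f) (encC g))
  | .comp f g => .node (num 4) (.node (encC f) (encC g))
  | .case f g => .node (num 5) (.node (encC f) (encC g))
  | .fix f => .node (num 6) (encC f)

def pnum : ℕ → Pat
  | 0 => .leaf
  | n + 1 => .node .leaf (pnum n)

def pAny (t : Pat) : Pat := .node (pnum 0) t
def pHT (v h t : Pat) : Pat := .node (pnum 1) (.node v (.node h t))
def pEv (c v r : Pat) : Pat := .node (pnum 2) (.node c (.node v r))

def tAny (t : Tm) : Tm := .node (num 0) t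
def tHT (v h t : Tm) : Tm := .node (num 1) (.node v (.node h t))
def tEv (c v r : Tm) : Tm := .node (num 2) (.node c (.node v r))

open Pat in
/-- Big-step semantics of the codes. -/
def prog : List (Pat × List Pat) :=
  [(pAny leaf, []),
   (pAny (node (var 0) (var 1)), [pAny (var 0), pAny (var 1)]),
   (pHT leaf leaf leaf, []),
   (pHT (node (var 0) (var 1)) (var 0) (var 1), [pAny (var 0), pAny (var 1)]),
   (pEv (node (pnum 0) leaf) (var 0) (node leaf (var 0)), [pAny (var 0)]),
   (pEv (node (pnum 1) leaf) (var 0) (node (node leaf (var 1)) leaf),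
     [pHT (var 0) (var 1) (var 2)]),
   (pEv (node (pnum 2) leaf) (var 0) (var 2), [pHT (var 0) (var 1) (var 2)]),
   (pEv (node (pnum 3) (node (var 0) (var 1))) (var 2) (node (var 4) (var 6)),
     [pEv (var 0) (var 2) (var 3), pHT (var 3) (var 4) (var 5), pEv (var 1) (var 2) (var 6)]),
   (pEv (node (pnum 4) (node (var 0) (var 1))) (var 2) (var 4),
     [pEv (var 1) (var 2) (var 3), pEv (var 0) (var 3) (var 4)]),
   (pEv (node (pnum 5) (node (var 0) (var 1))) (var 2) (var 4),
     [pHT (var 2) leaf (var 3), pEv (var 0) (var 3) (var 4), pAny (var 1)]),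
   (pEv (node (pnum 5) (node (var 0) (var 1))) (var 2) (var 4),
     [pHT (var 2) (node leaf (var 5)) (var 3), pEv (var 1) (node (var 5) (var 3)) (var 4),
      pAny (var 0)]),
   (pEv (node (pnum 6) (var 0)) (var 1) (var 3),
     [pEv (var 0) (var 1) (var 2), pHT (var 2) leaf (var 3)]),
   (pEv (node (pnum 6) (var 0)) (var 1) (var 4),
     [pEv (var 0) (var 1) (var 2), pHT (var 2) (node leaf (var 5)) (var 3),
      pEv (node (pnum 6) (var 0)) (var 3) (var 4)])]

theorem prog_range : ∀ c ∈ prog, ∀ j, c.1.occ j → ∃ B ∈ c.2, B.occ j := by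
  intro c hc j
  simp only [prog, List.mem_cons, List.not_mem_nil, or_false] at hc
  rcases hc with rfl | rfl | rfl | rfl | rfl | rfl | rfl | rfl | rfl | rfl | rfl | rfl | rfl <;>
    simp [pAny, pHT, pEv, pnum, Pat.occ] <;> tauto

theorem prog_leaf : ¬ Der prog .leaf := by
  intro h
  generalize e : Tm.leaf = t at h
  cases h with
  | rule c hc σ _ =>
    simp only [prog, List.mem_cons, List.not_mem_nil, or_false] at hc
    rcases hc with rfl | rfl | rfl | rfl | rfl | rfl | rfl | rfl | rfl | rfl | rfl | rfl | rfl <;>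
      simp [pAny, pHT, pEv, Pat.inst] at e

/-- substitution given by a list -/
def sub (l : List Tm) : ℕ → Tm := fun i => l.getD i .leaf

theorem der_nth (i : ℕ) (hi : i < prog.length) (l : List Tm)
    (h : ∀ B ∈ prog[i].2, Der prog (B.inst (sub l))) : Der prog (prog[i].1.inst (sub l)) :=
  Der.rule _ (List.getElem_mem hi) _ h

theorem der_any (t : Tm) : Der prog (tAny t) := by
  induction t with
  | leaf => exact der_nth 0 (by decide) [] (by simp [prog])
  | node s t ihs iht =>
    refine der_nth 1 (by decide) [s, t] ?_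
    simp only [prog, List.getElem_cons_succ, List.getElem_cons_zero, List.forall_mem_cons]
    exact ⟨ihs, iht, by simp⟩

theorem der_ht (v : List ℕ) : Der prog (tHT (encL v) (num v.headI) (encL v.tail)) := by
  cases v with
  | nil => exact der_nth 2 (by decide) [] (by simp [prog])
  | cons x v =>
    refine der_nth 3 (by decide) [num x, encL v] ?_
    simp only [prog, List.getElem_cons_succ, List.getElem_cons_zero, List.forall_mem_cons]
    exact ⟨der_any _, der_any _, by simp⟩

theorem der_ev (c : Code) : ∀ v r, r ∈ c.eval v → Der prog (tEv (encC c) (encL v) (encL r)) := by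
  induction c with
  | zero' =>
    intro v r h
    simp only [Code.zero'_eval, Part.pure_eq_some, Part.mem_some_iff] at h
    subst h
    refine der_nth 4 (by decide) [encL v] ?_
    simp only [prog, List.getElem_cons_succ, List.getElem_cons_zero, List.forall_mem_cons]
    exact ⟨der_any _, by simp⟩
  | succ =>
    intro v r h
    simp only [Code.succ_eval, Part.pure_eq_some, Part.mem_some_iff] at h
    subst h
    refine der_nth 5 (by decide) [encL v, num v.headI, encL v.tail] ?_
    simp only [prog, List.getElem_cons_succ, List.getElem_cons_zero, List.forall_mem_cons]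
    exact ⟨der_ht _, by simp⟩
  | tail =>
    intro v r h
    simp only [Code.tail_eval, Part.pure_eq_some, Part.mem_some_iff] at h
    subst h
    refine der_nth 6 (by decide) [encL v, num v.headI, encL v.tail] ?_
    simp only [prog, List.getElem_cons_succ, List.getElem_cons_zero, List.forall_mem_cons]
    exact ⟨der_ht _, by simp⟩
  | cons f g ihf ihg =>
    intro v r h
    simp only [Code.cons_eval, Part.bind_eq_bind, Part.mem_bind_iff, Part.pure_eq_some,
      Part.mem_some_iff] at h
    obtain ⟨u, hu, ns, hns, rfl⟩ := h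
    refine der_nth 7 (by decide)
      [encC f, encC g, encL v, encL u, num u.headI, encL u.tail, encL ns] ?_
    simp only [prog, List.getElem_cons_succ, List.getElem_cons_zero, List.forall_mem_cons]
    exact ⟨ihf v u hu, der_ht _, ihg v ns hns, by simp⟩
  | comp f g ihf ihg =>
    intro v r h
    simp only [Code.comp_eval, Part.bind_eq_bind, Part.mem_bind_iff] at h
    obtain ⟨u, hu, hr⟩ := h
    refine der_nth 8 (by decide) [encC f, encC g, encL v, encL u, encL r] ?_
    simp only [prog, List.getElem_cons_succ, List.getElem_cons_zero, List.forall_mem_cons]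
    exact ⟨ihg v u hu, ihf u r hr, by simp⟩
  | case f g ihf ihg =>
    intro v r h
    simp only [Code.case_eval] at h
    have hht := der_ht v
    cases e : v.headI with
    | zero =>
      rw [e] at h hht
      refine der_nth 9 (by decide) [encC f, encC g, encL v, encL v.tail, encL r] ?_
      simp only [prog, List.getElem_cons_succ, List.getElem_cons_zero, List.forall_mem_cons]
      exact ⟨hht, ihf _ r h, der_any _, by simp⟩
    | succ y =>
      rw [e] at h hht
      refine der_nth 10 (by decide) [encC f, encC g, encL v, encL v.tail, encL r, num y] ?_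
      simp only [prog, List.getElem_cons_succ, List.getElem_cons_zero, List.forall_mem_cons]
      exact ⟨hht, ihg (y :: v.tail) r h, der_any _, by simp⟩
  | fix f ih =>
    intro v r h
    rw [Code.fix_eval] at h
    refine PFun.fixInduction h fun v hv IH => ?_
    rcases PFun.mem_fix_iff.mp hv with h | ⟨v', h, h'⟩
    · obtain ⟨u, hu, e⟩ := (Part.mem_map_iff _).mp h
      have hht := der_ht u
      split_ifs at e with h0
      cases e
      rw [h0] at hht
      refine der_nth 11 (by decide) [encC f, encL v, encL u, encL u.tail] ?_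
      simp only [prog, List.getElem_cons_succ, List.getElem_cons_zero, List.forall_mem_cons]
      exact ⟨ih v u hu, hht, by simp⟩
    · have h2 := IH v' h
      obtain ⟨u, hu, e⟩ := (Part.mem_map_iff _).mp h
      have hht := der_ht u
      split_ifs at e with h0
      cases e
      obtain ⟨y, hy⟩ := Nat.exists_eq_succ_of_ne_zero h0
      rw [hy] at hht
      refine der_nth 12 (by decide) [encC f, encL v, encL u, encL u.tail, encL r, num y] ?_
      simp only [prog, List.getElem_cons_succ, List.getElem_cons_zero, List.forall_mem_cons]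
      exact ⟨ih v u hu, hht, h2, by simp⟩

theorem num_eq_leaf {n : ℕ} (h : Tm.leaf = num n) : n = 0 := by
  cases n with
  | zero => rfl
  | succ n => simp [num] at h

theorem num_eq_node {n : ℕ} {t : Tm} (h : Tm.node .leaf t = num n) :
    ∃ y, n = y + 1 ∧ t = num y := by
  cases n with
  | zero => simp [num] at h
  | succ n => exact ⟨n, rfl, by simpa [num] using h⟩

theorem der_sound {τ : Tm} (h : Der prog τ) :
    (∀ v a t, τ = tHT (encL v) a t → a = num v.headI ∧ t = encL v.tail) ∧
    ∀ (c : Code) v z, τ = tEv (encC c) (encL v) z → ∃ r, z = encL r ∧ r ∈ c.eval v := by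
  induction h with
  | rule c hc σ _ ih =>
    simp only [prog, List.mem_cons, List.not_mem_nil, or_false] at hc
    rcases hc with rfl | rfl | rfl | rfl | rfl | rfl | rfl | rfl | rfl | rfl | rfl | rfl | rfl
    all_goals
      simp only [List.forall_mem_cons] at ih
      simp only [pAny, pHT, pEv, pnum, Pat.inst, tHT, tEv, num, Tm.node.injEq, reduceCtorEq,
        false_and, and_false, true_and, IsEmpty.forall_iff, implies_true, and_true,
        List.not_mem_nil] at ih ⊢
    · rintro v a t ⟨h, rfl, rfl⟩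
      cases v with
      | nil => exact ⟨rfl, rfl⟩
      | cons x v => simp [encL] at h
    · rintro v a t ⟨h, rfl, rfl⟩
      cases v with
      | nil => simp [encL] at h
      | cons x v => simpa [encL] using h
    · rintro c v z ⟨h1, h2, rfl⟩
      cases c <;> simp [encC, num] at h1
      exact ⟨0 :: v, by rw [h2]; rfl, by simp⟩
    · rintro c v z ⟨h1, h2, rfl⟩
      cases c <;> simp [encC, num] at h1
      exact ⟨[v.headI.succ], by rw [(ih v _ _ ⟨h2, rfl, rfl⟩).1]; rfl, by simp⟩
    · rintro c v z ⟨h1, h2, rfl⟩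
      cases c <;> simp [encC, num] at h1
      exact ⟨v.tail, (ih v _ _ ⟨h2, rfl, rfl⟩).2, by simp⟩
    · rintro c v z ⟨h1, h2, rfl⟩
      cases c <;> simp [encC, num] at h1
      obtain ⟨u, e1, hu⟩ := ih.1 _ v _ ⟨h1.1, h2, rfl⟩
      obtain ⟨ns, e2, hns⟩ := ih.2.2 _ v _ ⟨h1.2, h2, rfl⟩
      refine ⟨u.headI :: ns, by rw [(ih.2.1 u _ _ ⟨e1, rfl, rfl⟩).1, e2]; rfl, ?_⟩
      simp only [Code.cons_eval, Part.bind_eq_bind, Part.mem_bind_iff, Part.pure_eq_some,
        Part.mem_some_iff]
      exact ⟨u, hu, ns, hns, rfl⟩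
    · rintro c v z ⟨h1, h2, rfl⟩
      cases c <;> simp [encC, num] at h1
      obtain ⟨u, e1, hu⟩ := ih.1 _ v _ ⟨h1.2, h2, rfl⟩
      obtain ⟨r, e2, hr⟩ := ih.2 _ u _ ⟨h1.1, e1, rfl⟩
      refine ⟨r, e2, ?_⟩
      simp only [Code.comp_eval, Part.bind_eq_bind, Part.mem_bind_iff]
      exact ⟨u, hu, hr⟩
    · rintro c v z ⟨h1, h2, rfl⟩
      cases c <;> simp [encC, num] at h1
      obtain ⟨e1, e2⟩ := ih.1 v _ _ ⟨h2, rfl, rfl⟩
      obtain ⟨r, e3, hr⟩ := ih.2 _ _ _ ⟨h1.1, e2, rfl⟩
      refine ⟨r, e3, ?_⟩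
      simp only [Code.case_eval]
      rw [num_eq_leaf e1]
      exact hr
    · rintro c v z ⟨h1, h2, rfl⟩
      cases c <;> simp [encC, num] at h1
      obtain ⟨e1, e2⟩ := ih.1 v _ _ ⟨h2, rfl, rfl⟩
      obtain ⟨y, e4, e5⟩ := num_eq_node e1
      obtain ⟨r, e3, hr⟩ := ih.2 _ (y :: v.tail) _ ⟨h1.2, by rw [e5, e2]; rfl, rfl⟩
      refine ⟨r, e3, ?_⟩
      simp only [Code.case_eval]
      rw [e4]
      exact hr
    · rintro c v z ⟨h1, h2, rfl⟩
      cases c <;> simp [encC, num] at h1
      obtain ⟨u, e1, hu⟩ := ih.1 _ v _ ⟨h1, h2, rfl⟩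
      obtain ⟨e2, e3⟩ := ih.2 u _ _ ⟨e1, rfl, rfl⟩
      refine ⟨u.tail, e3, ?_⟩
      rw [Code.fix_eval]
      exact PFun.fix_stop ((Part.mem_map_iff _).mpr ⟨u, hu, by rw [if_pos (num_eq_leaf e2)]⟩)
    · rintro c v z ⟨h1, h2, rfl⟩
      cases c <;> simp [encC, num] at h1
      rename_i f
      obtain ⟨u, e1, hu⟩ := ih.1 _ v _ ⟨h1, h2, rfl⟩
      obtain ⟨e2, e3⟩ := ih.2.1 u _ _ ⟨e1, rfl, rfl⟩
      obtain ⟨y, e4, -⟩ := num_eq_node e2
      obtain ⟨r, e5, hr⟩ := ih.2.2 (.fix f) u.tail _ ⟨by rw [h1]; rfl, e3, rfl⟩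
      refine ⟨r, e5, ?_⟩
      rw [Code.fix_eval] at hr ⊢
      exact PFun.mem_fix_iff.mpr (Or.inr ⟨u.tail, (Part.mem_map_iff _).mpr
        ⟨u, hu, by rw [if_neg (by omega)]⟩, hr⟩)

/-- a ground term as a pattern -/
def Tm.toPat : Tm → Pat
  | .leaf => .leaf
  | .node s t => .node s.toPat t.toPat

theorem inst_toPat (σ : ℕ → Tm) (t : Tm) : t.toPat.inst σ = t := by
  induction t with
  | leaf => rfl
  | node s t ihs iht => simp [Tm.toPat, Pat.inst, ihs, iht]

/-- Undecidable derivability for a fixed program and a fixed goal with a numeral parameter. -/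
theorem exists_goal : ∃ goal : Pat,
    ¬ ComputablePred fun n : ℕ => ∃ σ : ℕ → Tm, σ 0 = num n ∧ Der prog (goal.inst σ) := by
  have hf : Partrec fun n : ℕ => (Denumerable.ofNat Nat.Partrec.Code n).eval 0 :=
    Nat.Partrec.Code.eval_part.comp (Computable.ofNat _) (Computable.const 0)
  obtain ⟨c, hc⟩ := Code.exists_code (Nat.Partrec'.part_iff₁.mpr hf)
  refine ⟨pEv (encC c).toPat (.node (.var 0) .leaf) (.var 1), fun h => ?_⟩
  have key : ∀ n : ℕ, (∃ σ : ℕ → Tm, σ 0 = num n ∧
      Der prog ((pEv (encC c).toPat (.node (.var 0) .leaf) (.var 1)).inst σ)) ↔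
      ((Denumerable.ofNat Nat.Partrec.Code n).eval 0).Dom := by
    intro n
    have e : c.eval [n] = pure <$> (Denumerable.ofNat Nat.Partrec.Code n).eval 0 :=
      hc ⟨[n], rfl⟩
    constructor
    · rintro ⟨σ, h0, hd⟩
      obtain ⟨r, -, hr⟩ := (der_sound hd).2 c [n] (σ 1) (by
        simp only [pEv, Pat.inst, inst_toPat, h0]; rfl)
      rw [e] at hr
      exact Part.dom_iff_mem.mpr (let ⟨a, ha, _⟩ := (Part.mem_map_iff _).mp hr; ⟨a, ha⟩)
    · intro hd
      obtain ⟨a, ha⟩ := Part.dom_iff_mem.mp hd
      have hr : [a] ∈ c.eval [n] := by rw [e]; exact Part.mem_map _ ha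
      refine ⟨sub [num n, encL [a]], rfl, ?_⟩
      simp only [pEv, Pat.inst, inst_toPat]
      exact der_ev c _ _ hr
  refine ComputablePred.halting_problem 0 ?_
  obtain ⟨f, hf1, hf2⟩ := ComputablePred.computable_iff.mp h
  refine ComputablePred.computable_iff.mpr ⟨fun c => f (Encodable.encode c),
    hf1.comp Computable.encode, funext fun c => ?_⟩
  have := congrFun hf2 (Encodable.encode c)
  rw [← this, key, Denumerable.ofNat_encode]

end Pool.Agent.Lib.MP_e0e7d6_al
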