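import Pool.Agent.Lib.MP_e0e7d6_al.Pres
import Pool.Agent.Lib.MP_e0e7d6_al.ConeHyp
import Pool.Agent.Lib.MP_e0e7d6_al.Quot48
import Pool.Agent.Lib.MP_e0e7d6_al.ConeRot
import Pool.Agent.Lib.MP_e0e7d6_al.Fam74

/-!
Construction of the data of one step.
-/

namespace Pool.Agent.Lib.MP_e0e7d6_al

theorem exists_cov (A : ℕ) : ∃ δ ρ0 : ℕ, 1 ≤ δ ∧ ∀ (G V : Type) [Group G] [MulAction G V]
    (X : GS V) (m p q ρ : ℕ), Good G X 3 A m p q → ρ0 ≤ ρ →
    m * (21 * (50 * δ * 2 ^ ρ)) < p → m * (21 * (50 * δ * 2 ^ ρ)) < q →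
    ∀ T : G → Prop, (∀ g h, T g → T (h * g * h⁻¹)) →
    ∃ (H I W W' : Type) (_ : Group H) (_ : MulAction G I) (_ : MulAction G W) (_ : MulAction H W')
      (Z : GS W) (Z' : GS W') (π : G →* H) (ι : W → W') (r : I → G) (nn : I → ℕ) (c : I → W)
      (lev : W → ℕ) (bs : W → V) (up : V → W), Cov X Z Z' π ι r nn c lev bs δ A m p q ρ ∧
      (∀ i, (∃ g, T g ∧ g • i = i) → nn i = p) ∧ (∀ i, (¬ ∃ g, T g ∧ g • i = i) → nn i = q) ∧
      (∀ x, lev (up x) = 0) ∧ ∀ (g : G) x, Z.d (up x) (g • up x) ≤ X.d x (g • x) := by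
  classical
  obtain ⟨δ0, ρ0, h0⟩ := cone_hyp 25 (A + 21000)
  refine ⟨δ0 + 1, ρ0 + 20 * (δ0 + 1), by omega, fun G V _ _ X m p q ρ Γ hρ hp hq T hT => ?_⟩
  set δ := δ0 + 1 with hδ
  obtain ⟨I, _, r, R⟩ := exists_roots Γ
  have := R.eqFam Γ.inv
  have Q := R.qfam Γ
  have HZ : (Cone.space X Q.ne ρ).Hyp δ := (h0 V I X _ Q ρ (by omega)).mono (by omega)
  let nn : I → ℕ := fun i => if ∃ g, T g ∧ g • i = i then p else q
  have nn_smul : ∀ (g : G) i, nn (g • i) = nn i := by
    have key : ∀ (g : G) (i : I), (∃ h, T h ∧ h • i = i) → ∃ h, T h ∧ h • g • i = g • i := by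
      rintro g i ⟨h, h1, h2⟩
      exact ⟨g * h * g⁻¹, hT h g h1, by rw [mul_smul, mul_smul, inv_smul_smul, h2]⟩
    intro g i
    have : (∃ h, T h ∧ h • g • i = g • i) ↔ ∃ h, T h ∧ h • i = i :=
      ⟨fun h => by simpa using key g⁻¹ _ h, key g i⟩
    simp only [nn, this]
  have nn_mem : ∀ i, nn i = p ∨ nn i = q := fun i => by
    simp only [nn]
    split_ifs
    · exact Or.inl rfl
    · exact Or.inr rfl
  let Nf : I → Subgroup G := fun i => Subgroup.zpowers (r i ^ nn i)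
  have hc : ∀ (g : G) i h, h ∈ Nf i → g * h * g⁻¹ ∈ Nf (g • i) := by
    rintro g i _ ⟨k, rfl⟩
    simp only [Nf, nn_smul]
    rcases R.conj g i with e | e
    · exact ⟨k, by simp only [e, conj_pow, conj_zpow]⟩
    · exact ⟨-k, by simp only [e, inv_pow, conj_pow, zpow_neg, inv_zpow, inv_inv, conj_zpow]⟩
  have hf : ∀ i h, h ∈ Nf i → h • i = i := by
    rintro i _ ⟨k, rfl⟩
    exact (R.stab _ i).2 (((Commute.refl _).pow_left _).zpow_left _)
  have hr : ∀ i h, h ∈ Nf i → h ≠ 1 → ∀ y ∈ axis X r i,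
      21 * (50 * δ * 2 ^ ρ) < X.d y (h • y) := by
    rintro i _ ⟨k, rfl⟩ h1 y -
    have k0 : k ≠ 0 := by
      rintro rfl
      exact h1 (zpow_zero _)
    have e : X.d y ((r i ^ nn i) ^ k • y) = X.d y (r i ^ (nn i * k.natAbs) • y) := by
      rw [pow_mul]
      rcases Int.natAbs_eq k with e | e
      · conv_lhs => rw [e, zpow_natCast]
      · conv_lhs => rw [e, zpow_neg, zpow_natCast, Γ.inv.disp_inv]
    have h2 := Γ.pow_far (R.inf i) y (nn i * k.natAbs)
    have h3 : nn i ≤ nn i * k.natAbs := Nat.le_mul_of_pos_right _ (Int.natAbs_pos.2 k0)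
    beta_reduce
    rw [e]
    refine Nat.lt_of_mul_lt_mul_left (a := m) ?_
    rcases nn_mem i with e' | e' <;> omega
  obtain ⟨ang, F⟩ := cone_rot Q.ne Γ.inv HZ (by omega) (by omega) Nf hc hf hr
  have := F.normal_all
  choose y0 hy0 using id Q.ne
  have dap : ∀ (i : I) (u : Cone (axis X r) ρ),
      ρ + 1 ≤ Cone.lev u + (Cone.space X Q.ne ρ).d (Cone.apex i) u := by
    intro i u
    have h1 := Cone.lv_lip (X := X) (hne := Q.ne) i (Cone.apex i) u
    have := Cone.lv_le_lev i u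
    rw [Cone.lv_apex] at h1
    omega
  refine ⟨G ⧸ rotAll Nf, I, Cone (axis X r) ρ, Orb (rotAll Nf) (Cone (axis X r) ρ), inferInstance,
    inferInstance, inferInstance, inferInstance, Cone.space X Q.ne ρ,
    (Cone.space X Q.ne ρ).quot (rotAll Nf) F.inv, QuotientGroup.mk' _, Orb.mk _, r, nn, Cone.apex,
    Cone.lev, Cone.bs y0, Cone.base, ?_, fun i h => if_pos h, fun i h => if_neg h, fun _ => rfl,
    fun g x => Cone.d_base _ _⟩
  refine
    { good := Γ
      roots := R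
      qf := ⟨_, _, Q⟩
      quo := ⟨QuotientGroup.mk'_surjective _, Orb.mk_surj, fun _ _ => rfl, GS.quot_le,
        fun u v => ?_, GS.quot_inv⟩
      ne := Γ.ne.map Cone.base
      one_le := by omega
      hyp := F.quot_hyp
      inv := F.inv
      kill := fun i => ?_
      nn_mem := nn_mem
      c_smul := fun _ _ => rfl
      lev_c := fun _ => rfl
      lev_near := fun i z hz => ?_
      sep := fun i j hij => ?_
      ker := fun n u hn h1 => ?_
      deep := fun u hu => ?_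
      distort := fun g u B h1 h2 => ?_
      down := fun u v => ?_
      up := fun u i y hy => ?_ }
  · obtain ⟨n, hn, e⟩ := GS.quot_lift' (N := rotAll Nf) (I := F.inv) u v
    exact ⟨n, (QuotientGroup.eq_one_iff n).2 hn, e.symm⟩
  · rw [← map_pow]
    exact (QuotientGroup.eq_one_iff _).2 (Subgroup.subset_closure ⟨i, Subgroup.mem_zpowers _⟩)
  · have h1 := Cone.lv_lip (X := X) (hne := Q.ne) i (Cone.apex i) z
    rw [Cone.lv_apex] at h1
    have h2 := Cone.d_apex (X := X) (hne := Q.ne) (i := i) (u := z) (by omega)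
    have h3 := Cone.lv_eq_lev (i := i) (u := z) (by omega)
    rw [GS.d_comm] at h2
    omega
  · have h1 := Cone.lv_lip (X := X) (hne := Q.ne) (ρ := ρ) i (Cone.apex i) (Cone.apex j)
    rw [Cone.lv_apex] at h1
    have h2 : Cone.lv i (Cone.apex j : Cone (axis X r) ρ) = 0 := by simp [Cone.lv, hij.symm]
    omega
  · by_cases hu : ∃ i, u = Cone.apex i
    · obtain ⟨i, rfl⟩ := hu
      have : Cone.lev (Cone.apex i : Cone (axis X r) ρ) = ρ + 1 := rfl
      omega
    · obtain ⟨i, hi⟩ := F.exists_apex (u := u) (fun i e => hu ⟨i, e⟩)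
        ((QuotientGroup.eq_one_iff n).1 hn) h1
      have a := dap i u
      have b := dap i (n • u)
      rw [Cone.lev_smul] at b
      rw [GS.d_comm] at a
      unfold GS.Btw at hi
      omega
  · obtain ⟨i, hi⟩ := Cone.exists_lv hu
    have h2 := Cone.d_apex (X := X) (hne := Q.ne) (i := i) (u := u) (by omega)
    refine ⟨i, by omega, fun g hg => ?_⟩
    have h3 := Cone.lv_lip (X := X) (hne := Q.ne) i u (g • u)
    have h4 := Cone.lv_smul g i u
    exact Cone.lv_unique (u := g • u) (by omega) (by omega)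
  · have := Cone.distort (X := X) (hne := Q.ne) (y0 := y0) h2 u (g • u) h1
    rwa [Cone.bs_smul y0 g (by omega)] at this
  · have a := Cone.d_down (X := X) (hne := Q.ne) hy0 u
    have b := Cone.d_down (X := X) (hne := Q.ne) hy0 v
    have e := Cone.d_base (X := X) (hne := Q.ne) (ρ := ρ) (Cone.bs y0 u) (Cone.bs y0 v)
    have t1 := (Cone.space X Q.ne ρ).d_tri u (Cone.base (Cone.bs y0 u)) v
    have t2 := (Cone.space X Q.ne ρ).d_tri (Cone.base (Cone.bs y0 u)) (Cone.base (Cone.bs y0 v)) v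
    rw [GS.d_comm] at a
    omega
  · have a := Cone.d_down (X := X) (hne := Q.ne) hy0 u
    have b := Cone.d_base_apex (X := X) (hne := Q.ne) (ρ := ρ) hy
    have e := Cone.d_base (X := X) (hne := Q.ne) (ρ := ρ) (Cone.bs y0 u) y
    have t1 := (Cone.space X Q.ne ρ).d_tri u (Cone.base (Cone.bs y0 u)) (Cone.apex i)
    have t2 := (Cone.space X Q.ne ρ).d_tri (Cone.base (Cone.bs y0 u)) (Cone.base y) (Cone.apex i)
    rw [GS.d_comm] at a
    omega

end Pool.Agent.Lib.MP_e0e7d6_al
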