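import Pool.Agent.Lib.MP_e0e7d6_al.Geo

/-!
Stable translation length.
-/

namespace Pool.Agent.Lib.MP_e0e7d6_al

open Filter Topology

namespace GS

variable {V : Type} (X : GS V) {G : Type} [Group G] [MulAction G V]

/-- Stable translation length. -/
noncomputable def tau (g : G) : ℝ :=
  sInf {t : ℝ | ∃ (x : V) (n : ℕ), 0 < n ∧ t = (X.d x (g ^ n • x) : ℝ) / n}

variable {X}

theorem tau_nonneg (g : G) : 0 ≤ X.tau g := by
  apply Real.sInf_nonneg
  rintro t ⟨x, n, -, rfl⟩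
  positivity

theorem tau_mul_le_disp (g : G) (x : V) (n : ℕ) : n * X.tau g ≤ X.d x (g ^ n • x) := by
  rcases Nat.eq_zero_or_pos n with rfl | hn
  · simp
  have hb : BddBelow {t : ℝ | ∃ (x : V) (n : ℕ), 0 < n ∧ t = (X.d x (g ^ n • x) : ℝ) / n} := by
    refine ⟨0, ?_⟩
    rintro t ⟨x, n, -, rfl⟩
    positivity
  have h : X.tau g ≤ (X.d x (g ^ n • x) : ℝ) / n := csInf_le hb ⟨x, n, hn, rfl⟩
  have hn' : (0 : ℝ) < n := by exact_mod_cast hn
  rw [le_div_iff₀ hn'] at h
  linarith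

theorem tau_le_disp (g : G) (x : V) : X.tau g ≤ X.d x (g • x) := by
  simpa using tau_mul_le_disp (X := X) g x 1

theorem le_of_forall_mul_le {a b C : ℝ} (h : ∀ n : ℕ, 0 < n → a * n ≤ b * n + C) : a ≤ b := by
  by_contra hlt
  push Not at hlt
  obtain ⟨n, hn⟩ := exists_nat_gt (|C| / (a - b))
  have hp : 0 < a - b := by linarith
  rw [div_lt_iff₀ hp] at hn
  have h1 := h (n + 1) (by omega)
  push_cast at h1
  have := le_abs_self C
  nlinarith

theorem tau_le_of (g : G) (x : V) {c C : ℝ}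
    (h : ∀ n : ℕ, 0 < n → (X.d x (g ^ n • x) : ℝ) ≤ c * n + C) : X.tau g ≤ c := by
  refine le_of_forall_mul_le (C := C) fun n hn => ?_
  have := tau_mul_le_disp (X := X) g x n
  have := h n hn
  linarith

theorem Inv.le_tau (I : X.Inv G) (g : G) (x : V) {c C : ℝ}
    (h : ∀ n : ℕ, c * n ≤ (X.d x (g ^ n • x) : ℝ) + C) : c ≤ X.tau g := by
  refine le_csInf ⟨_, x, 1, one_pos, rfl⟩ ?_
  rintro t ⟨y, n, hn, rfl⟩
  have hn' : (0 : ℝ) < n := by exact_mod_cast hn
  rw [le_div_iff₀ hn']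
  refine le_of_forall_mul_le (C := C + 2 * X.d y x) fun k _ => ?_
  have h1 := h (n * k)
  have h2 := I.disp_move (g ^ (n * k)) y x
  have h3 := I.disp_pow (g ^ n) y k
  rw [← pow_mul] at h3
  have h2' : (X.d x (g ^ (n * k) • x) : ℝ) ≤ X.d y (g ^ (n * k) • y) + 2 * X.d y x := by
    exact_mod_cast h2
  have h3' : (X.d y (g ^ (n * k) • y) : ℝ) ≤ k * X.d y (g ^ n • y) := by exact_mod_cast h3
  push_cast at h1
  nlinarith

theorem Inv.tendsto_tau (I : X.Inv G) (g : G) (x : V) :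
    Tendsto (fun n : ℕ => (X.d x (g ^ n • x) : ℝ) / n) atTop (𝓝 (X.tau g)) := by
  have hs : Subadditive fun n : ℕ => (X.d x (g ^ n • x) : ℝ) := by
    intro m n
    have := I.disp_mul (g ^ m) (g ^ n) x
    rw [← pow_add] at this
    beta_reduce
    exact_mod_cast this
  have hb : BddBelow (Set.range fun n : ℕ => (X.d x (g ^ n • x) : ℝ) / n) := by
    refine ⟨0, ?_⟩
    rintro t ⟨n, rfl⟩
    positivity
  have ht := hs.tendsto_lim hb
  have e : hs.lim = X.tau g := by
    apply le_antisymm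
    · refine I.le_tau g x (C := 0) fun n => ?_
      rcases Nat.eq_zero_or_pos n with rfl | hn
      · simp
      have hn' : (0 : ℝ) < n := by exact_mod_cast hn
      have := hs.lim_le_div hb hn.ne'
      rw [le_div_iff₀ hn'] at this
      linarith
    · refine ge_of_tendsto ht ?_
      filter_upwards [eventually_gt_atTop 0] with n hn
      have hn' : (0 : ℝ) < n := by exact_mod_cast hn
      rw [le_div_iff₀ hn']
      have := tau_mul_le_disp (X := X) g x n
      linarith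
  rwa [e] at ht

theorem Inv.tau_pow (I : X.Inv G) (x : V) (g : G) (k : ℕ) : X.tau (g ^ k) = k * X.tau g := by
  rcases Nat.eq_zero_or_pos k with rfl | hk
  · apply le_antisymm _ (by simpa using tau_nonneg _)
    simpa [X.d_self] using tau_le_disp (X := X) (1 : G) x
  apply le_antisymm
  · have ht := (I.tendsto_tau g x).const_mul (k : ℝ)
    refine ge_of_tendsto ht ?_
    filter_upwards [eventually_gt_atTop 0] with n hn
    have hn' : (0 : ℝ) < n := by exact_mod_cast hn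
    have h1 := tau_mul_le_disp (X := X) (g ^ k) x n
    have h2 := I.disp_pow (g ^ n) x k
    rw [← pow_mul, mul_comm n k] at h2
    rw [← pow_mul] at h1
    have h2' : (X.d x (g ^ (k * n) • x) : ℝ) ≤ k * X.d x (g ^ n • x) := by exact_mod_cast h2
    rw [← mul_div_assoc, le_div_iff₀ hn']
    linarith
  · refine I.le_tau _ x (C := 0) fun n => ?_
    have := tau_mul_le_disp (X := X) g x (k * n)
    rw [← pow_mul]
    push_cast at this
    linarith

theorem Inv.tau_one (I : X.Inv G) (x : V) : X.tau (1 : G) = 0 := by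
  simpa using I.tau_pow x (1 : G) 0

theorem Inv.tau_inv (I : X.Inv G) (g : G) : X.tau g⁻¹ = X.tau g := by
  unfold tau
  congr 1
  ext t
  simp only [Set.mem_ofPred_eq, inv_pow, I.disp_inv]

theorem Inv.tau_zpow (I : X.Inv G) (x : V) (g : G) (k : ℤ) :
    X.tau (g ^ k) = |(k : ℝ)| * X.tau g := by
  rcases Int.eq_nat_or_neg k with ⟨n, rfl | rfl⟩
  · rw [zpow_natCast, I.tau_pow x]
    simp
  · rw [zpow_neg, zpow_natCast, I.tau_inv, I.tau_pow x]
    simp

theorem Inv.tau_conj_le (I : X.Inv G) (x : V) (g h : G) : X.tau g ≤ X.tau (h * g * h⁻¹) := by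
  refine I.le_tau _ (h • x) (C := 0) fun n => ?_
  rw [conj_pow, I.disp_conj]
  have := tau_mul_le_disp (X := X) g x n
  linarith

theorem Inv.tau_conj (I : X.Inv G) (x : V) (g h : G) : X.tau (h * g * h⁻¹) = X.tau g := by
  apply le_antisymm _ (I.tau_conj_le x g h)
  have := I.tau_conj_le x (h * g * h⁻¹) h⁻¹
  simpa [mul_assoc] using this

theorem Inv.tau_mul_comm (I : X.Inv G) (x : V) (g h : G) : X.tau (g * h) = X.tau (h * g) := by
  rw [← I.tau_conj x (g * h) h]
  simp [mul_assoc]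

theorem Inv.tau_mul_le (I : X.Inv G) (x : V) {g h : G} (c : Commute g h) :
    X.tau (g * h) ≤ X.tau g + X.tau h := by
  have ht := (I.tendsto_tau g x).add (I.tendsto_tau h x)
  refine ge_of_tendsto ht ?_
  filter_upwards [eventually_gt_atTop 0] with n hn
  have hn' : (0 : ℝ) < n := by exact_mod_cast hn
  have h1 := tau_mul_le_disp (X := X) (g * h) x n
  have h2 := I.disp_mul (g ^ n) (h ^ n) x
  rw [← c.mul_pow] at h2
  have h2' : (X.d x ((g * h) ^ n • x) : ℝ) ≤ X.d x (g ^ n • x) + X.d x (h ^ n • x) := by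
    exact_mod_cast h2
  rw [← add_div, le_div_iff₀ hn']
  linarith

theorem Inv.tau_of_finOrder (I : X.Inv G) (x : V) {g : G} (h : IsOfFinOrder g) : X.tau g = 0 := by
  obtain ⟨n, hn, he⟩ := isOfFinOrder_iff_pow_eq_one.1 h
  have h1 := I.tau_pow x g n
  rw [he, I.tau_one x] at h1
  have hn' : (0 : ℝ) < n := by exact_mod_cast hn
  rcases mul_eq_zero.1 h1.symm with h | h
  · linarith
  · exact h

section hyp

variable {δ : ℕ}

theorem Hyp.para_le (H : X.Hyp δ) (I : X.Inv G) (x : V) {a b : G} (c : Commute a b) :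
    X.tau (a * b) + X.tau (a⁻¹ * b) ≤ 2 * max (X.tau a) (X.tau b) := by
  have h0 : Tendsto (fun n : ℕ => (δ : ℝ) / n) atTop (𝓝 0) :=
    tendsto_const_div_atTop_nhds_zero_nat _
  have ht := (((I.tendsto_tau a x).max (I.tendsto_tau b x)).const_mul 2).add h0
  rw [add_zero] at ht
  refine ge_of_tendsto ht ?_
  filter_upwards [eventually_gt_atTop 0] with n hn
  have hn' : (0 : ℝ) < n := by exact_mod_cast hn
  have h1 := tau_mul_le_disp (X := X) (a * b) x n
  have h2 := tau_mul_le_disp (X := X) (a⁻¹ * b) x n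
  rw [c.mul_pow] at h1
  rw [c.inv_left.mul_pow, inv_pow, mul_smul, X.d_comm, I.d_inv] at h2
  have h3 := H x ((a ^ n * b ^ n) • x) (a ^ n • x) (b ^ n • x)
  have e1 : X.d ((a ^ n * b ^ n) • x) (b ^ n • x) = X.d x (a ^ n • x) := by
    rw [(c.pow_pow n n).eq, mul_smul, I, X.d_comm]
  have e2 : X.d ((a ^ n * b ^ n) • x) (a ^ n • x) = X.d x (b ^ n • x) := by
    rw [mul_smul, I, X.d_comm]
  rw [e1, e2, X.d_comm (a ^ n • x)] at h3
  rw [max_div_div_right hn'.le, ← mul_div_assoc, ← add_div, le_div_iff₀ hn']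
  have m1 := le_max_left (X.d x (a ^ n • x) : ℝ) (X.d x (b ^ n • x))
  have m2 := le_max_right (X.d x (a ^ n • x) : ℝ) (X.d x (b ^ n • x))
  rcases h3 with h3 | h3
  · have h3' : (X.d x ((a ^ n * b ^ n) • x) : ℝ) + X.d (b ^ n • x) (a ^ n • x) ≤
        X.d x (a ^ n • x) + X.d x (a ^ n • x) + δ := by exact_mod_cast h3
    nlinarith
  · have h3' : (X.d x ((a ^ n * b ^ n) • x) : ℝ) + X.d (b ^ n • x) (a ^ n • x) ≤
        X.d x (b ^ n • x) + X.d x (b ^ n • x) + δ := by exact_mod_cast h3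
    nlinarith

/-- Commuting isometries translate along a common line. -/
theorem Hyp.para (H : X.Hyp δ) (I : X.Inv G) (x : V) {a b : G} (c : Commute a b) :
    (X.tau (a * b) = X.tau a + X.tau b ∧ X.tau (a⁻¹ * b) = |X.tau a - X.tau b|) ∨
      (X.tau (a⁻¹ * b) = X.tau a + X.tau b ∧ X.tau (a * b) = |X.tau a - X.tau b|) := by
  have c2 : Commute (a * b) (a⁻¹ * b) :=
    ((Commute.refl a).inv_right.mul_right c).mul_left (c.symm.inv_right.mul_right (Commute.refl b))
  have e1 : a * b * (a⁻¹ * b) = b ^ 2 := by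
    rw [c.eq, pow_two]
    group
  have e2 : (a * b)⁻¹ * (a⁻¹ * b) = (a ^ 2)⁻¹ := by
    have : (a * b)⁻¹ * (a⁻¹ * b) = b⁻¹ * ((a ^ 2)⁻¹ * b) := by
      rw [pow_two]
      group
    rw [this, (c.pow_left 2).inv_left.eq]
    group
  have p1 := H.para_le I x c
  have p2 := H.para_le I x c2
  rw [e1, e2, I.tau_inv, I.tau_pow x, I.tau_pow x] at p2
  have s1 := I.tau_mul_le x c
  have s2 := I.tau_mul_le x c.inv_left
  rw [I.tau_inv] at s2
  have s3 := I.tau_mul_le x c2
  have s4 := I.tau_mul_le x c2.inv_left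
  rw [e1, I.tau_pow x] at s3
  rw [e2, I.tau_inv, I.tau_inv, I.tau_pow x] at s4
  push_cast at p2 s3 s4
  rcases le_total (X.tau a) (X.tau b) with hab | hab <;>
    rcases le_total (X.tau (a * b)) (X.tau (a⁻¹ * b)) with hc | hc
  · rw [max_eq_right hab] at p1
    rw [max_eq_right hc] at p2
    right
    rw [abs_of_nonpos (by linarith)]
    constructor <;> linarith
  · rw [max_eq_right hab] at p1
    rw [max_eq_left hc] at p2
    left
    rw [abs_of_nonpos (by linarith)]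
    constructor <;> linarith
  · rw [max_eq_left hab] at p1
    rw [max_eq_right hc] at p2
    right
    rw [abs_of_nonneg (by linarith)]
    constructor <;> linarith
  · rw [max_eq_left hab] at p1
    rw [max_eq_left hc] at p2
    left
    rw [abs_of_nonneg (by linarith)]
    constructor <;> linarith

/-- Lower bound on the translation length from a periodic chain. -/
theorem Hyp.tau_chain (H : X.Hyp δ) (I : X.Inv G) {κ l r : ℕ} {x : ℕ → V} {g : G}
    (hn : ∀ i, X.Near κ (x i) (x (i + 1)) (x (i + 2)))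
    (hs : ∀ i, κ + 2 * δ < X.d (x i) (x (i + 1)))
    (hl : ∀ i, l + κ + δ ≤ X.d (x i) (x (i + 1)))
    (hg : ∀ n, x (r * n) = g ^ n • x 0) : ((l * r : ℕ) : ℝ) ≤ X.tau g := by
  refine I.le_tau g (x 0) (C := 0) fun n => ?_
  have h := H.chain_dist hn hs hl 0 (r * n)
  rw [zero_add, hg] at h
  have h' : ((l * (r * n) : ℕ) : ℝ) ≤ X.d (x 0) (g ^ n • x 0) := by exact_mod_cast h
  push_cast at h' ⊢
  linarith

theorem Hyp.tau_single (H : X.Hyp δ) (I : X.Inv G) {κ l : ℕ} {o : V} {g : G}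
    (hn : X.Near κ (g⁻¹ • o) o (g • o)) (hs : κ + 2 * δ < X.d o (g • o))
    (hl : l + κ + δ ≤ X.d o (g • o)) : (l : ℝ) ≤ X.tau g := by
  have e : ∀ i : ℕ, X.d (g ^ i • o) (g ^ (i + 1) • o) = X.d o (g • o) := fun i => by
    rw [pow_succ, mul_smul, I]
  have := H.tau_chain I (κ := κ) (l := l) (r := 1) (x := fun i => g ^ i • o) (g := g)
    (fun i => by
      have := I.near (g ^ (i + 1)) hn
      simpa [pow_succ, mul_smul] using this)
    (fun i => by rw [e]; exact hs) (fun i => by rw [e]; exact hl) (fun n => by simp)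
  simpa using this

theorem Hyp.tau_double (H : X.Hyp δ) (I : X.Inv G) {κ l : ℕ} {o : V} {g h : G}
    (hn : X.Near κ (g⁻¹ • o) o (h • o)) (hn' : X.Near κ (h⁻¹ • o) o (g • o))
    (hs : κ + 2 * δ < X.d o (g • o)) (hs' : κ + 2 * δ < X.d o (h • o))
    (hl : l + κ + δ ≤ X.d o (g • o)) (hl' : l + κ + δ ≤ X.d o (h • o)) :
    ((l * 2 : ℕ) : ℝ) ≤ X.tau (g * h) := by
  let x : ℕ → V := fun i => if i % 2 = 0 then (g * h) ^ (i / 2) • o else ((g * h) ^ (i / 2) * g) • o
  have ev : ∀ j, x (2 * j) = (g * h) ^ j • o := fun j => by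
    simp only [x, Nat.mul_mod_right, if_true, Nat.mul_div_cancel_left j two_pos]
  have od : ∀ j, x (2 * j + 1) = ((g * h) ^ j * g) • o := fun j => by
    have e1 : (2 * j + 1) % 2 = 1 := by omega
    have e2 : (2 * j + 1) / 2 = j := by omega
    simp only [x, e1, e2, one_ne_zero, if_false]
  have ev2 : ∀ j, x (2 * j + 2) = ((g * h) ^ j * g * h) • o := fun j => by
    rw [show 2 * j + 2 = 2 * (j + 1) by ring, ev, pow_succ, mul_assoc _ g h]
  have od2 : ∀ j, x (2 * j + 1 + 2) = ((g * h) ^ j * g * h * g) • o := fun j => by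
    rw [show 2 * j + 1 + 2 = 2 * (j + 1) + 1 by ring, od, pow_succ, mul_assoc _ g h]
  have st : ∀ i, X.d (x i) (x (i + 1)) = X.d o (g • o) ∨ X.d (x i) (x (i + 1)) = X.d o (h • o) := by
    intro i
    rcases Nat.even_or_odd' i with ⟨j, rfl | rfl⟩
    · left
      rw [ev, od, mul_smul, I]
    · right
      rw [show 2 * j + 1 + 1 = 2 * j + 2 by ring, od, ev2, mul_smul _ h, I]
  refine H.tau_chain I (κ := κ) (x := x) (fun i => ?_) (fun i => ?_) (fun i => ?_) (fun n => ?_)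
  · rcases Nat.even_or_odd' i with ⟨j, rfl | rfl⟩
    · rw [ev, od, ev2]
      have := I.near ((g * h) ^ j * g) hn
      simpa [mul_smul] using this
    · rw [show 2 * j + 1 + 1 = 2 * j + 2 by ring, od, ev2, od2]
      have := I.near ((g * h) ^ j * g * h) hn'
      simpa [mul_smul] using this
  · rcases st i with h | h <;> omega
  · rcases st i with h | h <;> omega
  · rw [ev, show x 0 = o by simpa using ev 0]

/-- At a point minimising the joint displacement two of the elements move in different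
directions. -/
theorem Hyp.min_turn (H : X.Hyp δ) (I : X.Inv G) {ι : Type} {s : ι → G} {o : V} {R : ℕ}
    (hδ : 1 ≤ δ) (hub : ∀ k, X.d o (s k • o) ≤ R) (hmin : ∀ o', ∃ k, R ≤ X.d o' (s k • o'))
    (hR : 12 * δ ≤ R) {i : ι} (hi : X.d o (s i • o) = R) :
    ∃ j, R ≤ X.d o (s j • o) + 6 * δ ∧
      (X.Near (6 * δ) (s i • o) o (s j • o) ∨ X.Near (6 * δ) (s i • o) o ((s j)⁻¹ • o)) := by
  obtain ⟨m, hm, hd⟩ := exists_btw (X := X) o (s i • o) (3 * δ) (by omega)
  obtain ⟨j, hj⟩ := hmin m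
  have h1 := I.disp_move (s j) o m
  refine ⟨j, by omega, ?_⟩
  by_contra hc
  push Not at hc
  obtain ⟨c1, c2⟩ := hc
  unfold Near at c1 c2
  have e0 := I.disp_inv (s j) o
  have u := hub j
  obtain ⟨m1, hm1, hd1⟩ := exists_btw (X := X) o (s j • o) (3 * δ) (by omega)
  obtain ⟨m2, hm2, hd2⟩ := exists_btw (X := X) o ((s j)⁻¹ • o) (3 * δ) (by omega)
  have := X.d_comm o (s i • o)
  have f1 := H.fellow hm hm1 (by omega) (by omega)
  have f2 := H.fellow hm hm2 (by omega) (by omega)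
  have b2 := (I.btw (s j) hm2).symm
  rw [smul_inv_smul] at b2
  have nn := H.near_near (hm1.near 0) (b2.near 0)
  have e1 := I (s j) o m2
  have e2 := I (s j) m m2
  have t1 := X.d_tri m m1 (s j • m)
  have t2 := X.d_tri m1 (s j • m2) (s j • m)
  have := X.d_comm (s j • m2) (s j • m)
  have := X.d_comm (s j • m2) (s j • o)
  unfold Btw at b2
  omega

theorem exists_min_joint {ι : Type} [Finite ι] [Nonempty ι] (s : ι → G) (x : V) :
    ∃ (o : V) (R : ℕ), (∀ k, X.d o (s k • o) ≤ R) ∧ (∀ o', ∃ k, R ≤ X.d o' (s k • o')) := by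
  classical
  have ex : ∃ R, ∃ o, ∀ k, X.d o (s k • o) ≤ R := by
    obtain ⟨R, hR⟩ := (Set.finite_range fun k => X.d x (s k • x)).bddAbove
    exact ⟨R, x, fun k => hR ⟨k, rfl⟩⟩
  obtain ⟨o, ho⟩ := Nat.find_spec ex
  refine ⟨o, _, ho, fun o' => ?_⟩
  by_contra hc
  push Not at hc
  have hp : 0 < Nat.find ex := by
    have := hc (Classical.arbitrary ι)
    omega
  exact Nat.find_min ex (m := Nat.find ex - 1) (by omega) ⟨o', fun k => by have := hc k; omega⟩

/-- Joint displacement versus translation lengths of products of at most two elements. -/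
theorem Hyp.joint (H : X.Hyp δ) (I : X.Inv G) {ι : Type} {s : ι → G} {o : V} {R : ℕ}
    (hδ : 1 ≤ δ) (hub : ∀ k, X.d o (s k • o) ≤ R) (hmin : ∀ o', ∃ k, R ≤ X.d o' (s k • o')) :
    ∃ i j, (R : ℝ) ≤ 2 * X.tau (s i) + 40 * δ ∨ (R : ℝ) ≤ 2 * X.tau (s i * s j) + 40 * δ := by
  obtain ⟨i, hi⟩ := hmin o
  have hi' : X.d o (s i • o) = R := le_antisymm (hub i) hi
  by_cases hR : R ≤ 40 * δ
  · refine ⟨i, i, Or.inl ?_⟩
    have := tau_nonneg (X := X) (s i)
    have : (R : ℝ) ≤ 40 * δ := by exact_mod_cast hR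
    linarith
  obtain ⟨j, hj, ht⟩ := H.min_turn I hδ hub hmin (by omega) hi'
  have uj := hub j
  have fin : ∀ (l : ℕ) (t : ℝ), (l : ℝ) ≤ t → R ≤ 2 * l + 40 * δ → (R : ℝ) ≤ 2 * t + 40 * δ := by
    intro l t h1 h2
    have : (R : ℝ) ≤ 2 * l + 40 * δ := by exact_mod_cast h2
    linarith
  by_cases ha : X.Near (R / 2) ((s i)⁻¹ • o) o (s i • o)
  · refine ⟨i, i, Or.inl (fin (R - R / 2 - δ) _ ?_ (by omega))⟩
    exact H.tau_single I ha (by omega) (by omega)
  by_cases hb : X.Near (R / 2) ((s j)⁻¹ • o) o (s j • o)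
  · refine ⟨j, j, Or.inl (fin (R - R / 2 - 7 * δ) _ ?_ (by omega))⟩
    exact H.tau_single I hb (by omega) (by omega)
  refine ⟨i, j, Or.inr (fin ((R - 15 * δ) * 2) _ ?_ (by omega))⟩
  have e1 := I.disp_inv (s i) o
  have e2 := I.disp_inv (s j) o
  have g1 := H.gp o (s i • o) (s j • o) ((s i)⁻¹ • o)
  have g2 := H.gp o (s i • o) ((s j)⁻¹ • o) ((s i)⁻¹ • o)
  have g3 := H.gp o (s j • o) (s i • o) ((s j)⁻¹ • o)
  have g4 := H.gp o ((s j)⁻¹ • o) (s i • o) (s j • o)
  have g5 := H.gp o ((s j)⁻¹ • o) ((s i)⁻¹ • o) (s j • o)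
  have := X.d_comm (s i • o) o
  have := X.d_comm ((s i)⁻¹ • o) o
  have := X.d_comm ((s j)⁻¹ • o) o
  have := X.d_comm (s i • o) (s j • o)
  have := X.d_comm (s i • o) ((s j)⁻¹ • o)
  have := X.d_comm (s i • o) ((s i)⁻¹ • o)
  have := X.d_comm (s j • o) ((s j)⁻¹ • o)
  have := X.d_comm (s j • o) ((s i)⁻¹ • o)
  have := X.d_comm ((s j)⁻¹ • o) ((s i)⁻¹ • o)
  refine H.tau_double I (o := o) (κ := 8 * δ) ?_ ?_ (by omega) (by omega) (by omega) (by omega)
  · unfold Near at *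
    omega
  · unfold Near at *
    omega

/-- The minimal displacement is close to the stable translation length. -/
theorem Hyp.exists_axis_point (H : X.Hyp δ) (I : X.Inv G) (hδ : 1 ≤ δ) (x : V) (g : G) :
    ∃ o, (X.d o (g • o) : ℝ) ≤ X.tau g + 12 * δ := by
  obtain ⟨o, R, hub, hmin⟩ := exists_min_joint (X := X) (fun _ : Unit => g) x
  obtain ⟨i, hi⟩ := hmin o
  have hi' : X.d o (g • o) = R := le_antisymm (hub i) hi
  refine ⟨o, ?_⟩
  have := tau_nonneg (X := X) g
  by_cases hR : R ≤ 12 * δ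
  · have : (R : ℝ) ≤ 12 * δ := by exact_mod_cast hR
    rw [hi']
    linarith
  obtain ⟨j, -, ht⟩ := H.min_turn I hδ hub hmin (by omega) (i := ()) hi'
  rcases ht with ht | ht
  · unfold Near at ht
    have := X.d_self (g • o)
    have := X.d_comm (g • o) o
    omega
  · have h := H.tau_single I (l := R - 7 * δ) ht.symm (by omega) (by omega)
    have : (R : ℝ) ≤ (R - 7 * δ : ℕ) + 12 * δ := by exact_mod_cast (by omega)
    rw [hi']
    linarith

/-- Displacement of powers. -/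
theorem Hyp.disp_pow_le (H : X.Hyp δ) (I : X.Inv G) (hδ : 1 ≤ δ) (x : V) (g : G) (n : ℕ) :
    (X.d x (g ^ n • x) : ℝ) ≤ n * (X.tau g + 14 * δ) + X.d x (g • x) + 1 := by
  obtain ⟨o, ho⟩ := H.exists_axis_point I hδ x g
  obtain ⟨m, h1, h2⟩ := H.walk_down I g x o
  have h3 := I.disp_move (g ^ n) m x
  have h4 := I.disp_pow g m n
  rw [X.d_comm m x] at h3
  have h1' : (2 * X.d x m : ℝ) ≤ X.d x (g • x) + 1 := by exact_mod_cast h1
  have h2' : (X.d m (g • m) : ℝ) ≤ X.d o (g • o) + 2 * δ := by exact_mod_cast h2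
  have h3' : (X.d x (g ^ n • x) : ℝ) ≤ X.d m (g ^ n • m) + 2 * X.d x m := by exact_mod_cast h3
  have h4' : (X.d m (g ^ n • m) : ℝ) ≤ n * X.d m (g • m) := by exact_mod_cast h4
  have : (n : ℝ) * X.d m (g • m) ≤ n * (X.tau g + 14 * δ) :=
    mul_le_mul_of_nonneg_left (by linarith) (by positivity)
  linarith

end hyp

end GS

end Pool.Agent.Lib.MP_e0e7d6_al
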